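import Pool.Agent.Hhelper14.ZPL.Topo

/-!
# Affine subspaces are closed
-/

namespace Pool.Agent.Hhelper14.ZPL

open MvPolynomial

theorem closed_empty {ι : Type} : IsZClosed (∅ : Set (ι → ℂ)) := by
  refine Set.Subset.antisymm ?_ (subset_closure' _)
  intro x hx
  rw [mem_zeroLocus_iff] at hx
  have := hx 1 (by rw [mem_vanishingIdeal_iff]; simp)
  simp at this

theorem affine_closed {ι : Type} [Fintype ι] (L : AffineSubspace ℂ (ι → ℂ)) :
    IsZClosed (L : Set (ι → ℂ)) := by
  classical
  rcases (L : Set (ι → ℂ)).eq_empty_or_nonempty with h | ⟨p0, hp0⟩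
  · rw [h]
    exact closed_empty
  refine Set.Subset.antisymm ?_ (subset_closure' _)
  intro y hy
  rw [mem_zeroLocus_iff] at hy
  by_contra hyL
  have h1 : y - p0 ∉ L.direction := by
    intro h
    apply hyL
    have := AffineSubspace.vadd_mem_of_mem_direction h hp0
    rwa [vadd_eq_add, sub_add_cancel] at this
  obtain ⟨φ, hφ0, hφ⟩ := Submodule.exists_le_ker_of_notMem h1
  let f : MvPolynomial ι ℂ := ∑ i, C (φ (Pi.single i 1)) * (X i - C (p0 i))
  have hf : ∀ x : ι → ℂ, aeval x f = φ (x - p0) := by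
    intro x
    have h2 : x - p0 = ∑ i, (x i - p0 i) • (Pi.single i 1 : ι → ℂ) := by
      funext k
      simp [Finset.sum_apply, Pi.single_apply]
    rw [h2, map_sum]
    simp only [f, map_sum, map_mul, map_sub, aeval_X, aeval_C]
    refine Finset.sum_congr rfl fun i _ => ?_
    rw [map_smul, smul_eq_mul, mul_comm]
    rfl
  have h3 := hy f (by
    rw [mem_vanishingIdeal_iff]
    intro x hx
    rw [hf]
    exact hφ (AffineSubspace.vsub_mem_direction hx hp0))
  rw [hf] at h3
  exact hφ0 h3

end Pool.Agent.Hhelper14.ZPL
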