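import Mathlib
import Pool.Agent.Hhelper14.ZP.Defs

/-!
# Special subvarieties of `Y(1)^ι = ℂ^ι` and maximal atypical subvarieties

Here `ι` is an arbitrary finite index type (so `ι = Fin n` gives `Y(1)ⁿ`).
-/

namespace Pool.Agent.Hhelper14.ZPL

open UpperHalfPlane MvPolynomial Pool.Agent.Hhelper14.ZP

variable {ι : Type}

/-- `Z` is a special subvariety of `Y(1)^ι`, where `Y(1)^ι = (SL₂(ℤ) \ ℍ)^ι` is identified with
`ℂ^ι` by `j` in each coordinate. The coordinates are split into a set where `block i = none`, in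
which the `i`-th coordinate is the constant singular modulus `j(s i)`, and `r` nonempty blocks; on
the block `b` the coordinates are `j(g i • τ_b)` with `g i ∈ GL₂(ℚ)⁺` and `τ_b ∈ ℍ` free. -/
def IsSpecial (Z : Set (ι → ℂ)) : Prop :=
  ∃ (r : ℕ) (block : ι → Option (Fin r)) (g : ι → GL (Fin 2) ℚ) (s : ι → ℍ),
    (∀ b : Fin r, ∃ i, block i = some b) ∧ (∀ i, 0 < (g i).det.val) ∧
    (∀ i, block i = none → IsCM (s i)) ∧
    Z = {x | ∃ τ : Fin r → ℍ, ∀ i, x i = (block i).elim (jInv (s i))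
      (fun b => jInv (Matrix.GeneralLinearGroup.map (algebraMap ℚ ℝ) (g i) • τ b))}

/-- The dimension of (the Zariski closure of) a subset `W` of `ℂ^ι`: the Krull dimension of the
ring of polynomial functions on `W`. -/
noncomputable def dim (W : Set (ι → ℂ)) : WithBot ℕ∞ :=
  ringKrullDim (MvPolynomial ι ℂ ⧸ vanishingIdeal ℂ W)

/-- `V` is a Zariski closed subset of `ℂ^ι`. -/
def IsZClosed (V : Set (ι → ℂ)) : Prop := zeroLocus ℂ (vanishingIdeal ℂ V) = V

/-- `C` is an irreducible Zariski closed subset of `ℂ^ι`. -/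
def IsIrredClosed (C : Set (ι → ℂ)) : Prop :=
  (vanishingIdeal ℂ C).IsPrime ∧ zeroLocus ℂ (vanishingIdeal ℂ C) = C

/-- `C` is an irreducible component of `W`: a maximal irreducible closed subset. -/
def IsComponent (C W : Set (ι → ℂ)) : Prop :=
  IsIrredClosed C ∧ C ⊆ W ∧ ∀ C', IsIrredClosed C' → C' ⊆ W → C ⊆ C' → C' = C

/-- `C` is an atypical subvariety of `V ⊆ Y(1)^ι`: an irreducible component of `V ∩ Z` for some
special subvariety `Z`, with `dim C > dim Z + dim V - dim Y(1)^ι`. -/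
def IsAtypical [Fintype ι] (V C : Set (ι → ℂ)) : Prop :=
  ∃ Z, IsSpecial Z ∧ IsComponent C (V ∩ Z) ∧ dim Z + dim V < dim C + Fintype.card ι

/-- The set of maximal atypical subvarieties of `V`. -/
def MaxAtypical [Fintype ι] (V : Set (ι → ℂ)) : Set (Set (ι → ℂ)) :=
  {C | IsAtypical V C ∧ ∀ C', IsAtypical V C' → C ⊆ C' → C' = C}

end Pool.Agent.Hhelper14.ZPL
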