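import Pool.Agent.Hhelper14.ZPL.Hecke2
import Pool.Agent.Hhelper14.ZPL.Defs

/-!
# Special subvarieties are Zariski closed
-/

namespace Pool.Agent.Hhelper14.ZPL

open UpperHalfPlane MvPolynomial Pool.Agent.Hhelper14.ZP MatrixGroups
open scoped Manifold

theorem qN_mul {N M : ℕ} (hN : 0 < N) (hM : 0 < M) (τ : ℍ) : qN (N * M) τ ^ M = qN N τ := by
  have hN' : (N : ℂ) ≠ 0 := by exact_mod_cast hN.ne'
  have hM' : (M : ℂ) ≠ 0 := by exact_mod_cast hM.ne'
  simp only [qN, Function.Periodic.qParam]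
  rw [← Complex.exp_nat_mul]
  congr 1
  push_cast
  field_simp

theorem RR_mono {N M : ℕ} (hN : 0 < N) (hM : 0 < M) : RR N ≤ RR (N * M) := by
  rintro f ⟨hf, K, u, F, hF, hF0, hFf⟩
  refine ⟨hf, M * K, _, fun z => F (z ^ M), hF.comp_pow hM, rfl, fun τ => ?_⟩
  dsimp only
  rw [pow_mul, qN_mul hN hM, hFf]

/-- a natural number `t` avoiding finitely many coincidences -/
theorem exists_weight {I : Type} [Fintype I] (e : I → ℕ) (he : Function.Injective e)
    (S : Set (I → ℂ)) (hS : S.Finite) :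
    ∃ t : ℕ, ∀ v ∈ S, ∑ i, (t : ℂ) ^ e i * v i = 0 → v = 0 := by
  classical
  -- the polynomial attached to `v`
  let p : (I → ℂ) → Polynomial ℂ := fun v => ∑ i, Polynomial.C (v i) * Polynomial.X ^ e i
  have hcoeff : ∀ v i, (p v).coeff (e i) = v i := by
    intro v i
    simp only [p, Polynomial.finsetSum_coeff, Polynomial.coeff_C_mul, Polynomial.coeff_X_pow]
    rw [Finset.sum_eq_single i]
    · simp
    · intro k _ hk
      have : e i ≠ e k := fun h => hk (he h).symm
      simp [this]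
    · intro h
      exact absurd (Finset.mem_univ _) h
  have hev : ∀ v (t : ℕ), (p v).eval (t : ℂ) = ∑ i, (t : ℂ) ^ e i * v i := by
    intro v t
    simp only [p, Polynomial.eval_finsetSum, Polynomial.eval_mul, Polynomial.eval_C,
      Polynomial.eval_pow, Polynomial.eval_X]
    exact Finset.sum_congr rfl fun i _ => mul_comm _ _
  have hbad : (⋃ v ∈ {v ∈ S | v ≠ 0}, {t : ℕ | (p v).eval (t : ℂ) = 0}).Finite := by
    refine Set.Finite.biUnion (hS.subset (Set.sep_subset _ _)) ?_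
    rintro v ⟨-, hv⟩
    have hp : p v ≠ 0 := by
      intro h0
      apply hv
      funext i
      have := hcoeff v i
      rw [h0, Polynomial.coeff_zero] at this
      exact this.symm
    have hfin : {z : ℂ | (p v).IsRoot z}.Finite := Polynomial.finite_setOfPred_isRoot hp
    exact (hfin.preimage (f := fun t : ℕ => (t : ℂ)) (Nat.cast_injective.injOn))
  obtain ⟨t, ht⟩ := hbad.exists_notMem
  refine ⟨t, fun v hv h0 => ?_⟩
  by_contra hne
  apply ht
  simp only [Set.mem_iUnion]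
  exact ⟨v, ⟨hv, hne⟩, by rw [Set.mem_ofPred_eq, hev]; exact h0⟩

/-- **Points in the closure of a block.** -/
theorem block_point {I : Type} [Fintype I] (N : I → ℕ) (hN : ∀ i, 0 < N i) (A : ∀ i, DD (N i))
    (w : ℂ) (y : I → ℂ)
    (H : ∀ h : MvPolynomial (Option I) ℂ,
      (∀ τ : ℍ, MvPolynomial.eval (fun o => o.elim (jInv τ) fun i => jA (hN i) (A i) τ) h = 0) →
      MvPolynomial.eval (fun o => o.elim w y) h = 0) :
    ∃ τ : ℍ, jInv τ = w ∧ ∀ i, y i = jA (hN i) (A i) τ := by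
  classical
  obtain ⟨τ', hτ'⟩ := j_surj w
  let N₀ : ℕ := ∏ i, N i
  have hN₀ : 0 < N₀ := Finset.prod_pos fun i _ => hN i
  -- the conjugate tuples
  let om : SL(2, ℤ) → I → ℍ → ℂ := fun γ i τ => jA (hN i) (A i) (γ • τ)
  have hom : ∀ γ i, om γ i = jQ (hN i) (Quotient.mk'' (rmul (A i) γ)) := by
    intro γ i
    rw [jQ_mk]
    funext τ
    exact (jA_rmul (hN i) γ (A i) τ).symm
  have hfin : (Set.range om).Finite := by
    have h1 : (Set.range fun q : (∀ i, QQ (N i)) => fun i => jQ (hN i) (q i)).Finite := by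
      have : ∀ i, Finite (QQ (N i)) := fun i => finite_QQ (hN i)
      exact Set.finite_range _
    refine h1.subset ?_
    rintro _ ⟨γ, rfl⟩
    exact ⟨fun i => Quotient.mk'' (rmul (A i) γ), funext fun i => (hom γ i).symm⟩
  have hmem : ∀ γ i, om γ i ∈ RR N₀ := by
    intro γ i
    rw [hom]
    have h1 : N₀ = N i * ∏ k ∈ Finset.univ.erase i, N k :=
      (Finset.mul_prod_erase _ _ (Finset.mem_univ i)).symm
    rw [h1]
    exact RR_mono (hN i) (Finset.prod_pos fun k _ => hN k) (jQ_mem (hN i) _)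
  let Ω : Finset (I → ℍ → ℂ) := hfin.toFinset
  have hΩ : ∀ ω, ω ∈ Ω ↔ ∃ γ, om γ = ω := fun ω => by
    simp [Ω]
  let e : I ≃ Fin (Fintype.card I) := Fintype.equivFin I
  obtain ⟨t, ht⟩ := exists_weight (fun i => (e i : ℕ)) (fun a b h => e.injective (Fin.ext h))
    ((fun ω : I → ℍ → ℂ => fun i => y i - ω i τ') '' (Ω : Set _)) ((Finset.finite_toSet Ω).image _)
  have hΩmem : ∀ ω ∈ Ω, ∀ i, ω i ∈ RR N₀ := by
    intro ω hω i
    obtain ⟨γ, rfl⟩ := (hΩ ω).mp hω
    exact hmem γ i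
  let S : (I → ℍ → ℂ) → ℍ → ℂ := fun ω => ∑ i, (fun _ => ((t : ℂ) ^ (e i : ℕ))) * ω i
  have hSτ : ∀ ω τ, S ω τ = ∑ i, (t : ℂ) ^ (e i : ℕ) * ω i τ := by
    intro ω τ
    simp [S]
  have hSmem : ∀ ω ∈ Ω, S ω ∈ RR N₀ := by
    intro ω hω
    refine Subring.sum_mem _ fun i _ => Subring.mul_mem _ ?_ (hΩmem ω hω i)
    refine ⟨mdifferentiable_const, 0, _, HasQ.const ?_⟩
    exact OO.pow_mem (natCast_mem_OO t) _
  let P : Polynomial (RR N₀) := ∏ ω : Ω, (Polynomial.X - Polynomial.C ⟨S ω, hSmem ω ω.2⟩)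
  have hPmap : ∀ τ, P.map (evalAt N₀ τ) =
      ∏ ω ∈ Ω, (Polynomial.X - Polynomial.C (S ω τ)) := by
    intro τ
    simp only [P, Polynomial.map_prod]
    rw [← Finset.prod_coe_sort Ω (fun ω => (Polynomial.X - Polynomial.C (S ω τ)))]
    refine Finset.prod_congr rfl fun ω _ => ?_
    rw [Polynomial.map_sub, Polynomial.map_X, Polynomial.map_C]
    rfl
  -- invariance
  have hPinv : ∀ (δ : SL(2, ℤ)) (τ : ℍ), P.map (evalAt N₀ (δ • τ)) = P.map (evalAt N₀ τ) := by
    intro δ τ
    rw [hPmap, hPmap]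
    let φ : SL(2, ℤ) → (I → ℍ → ℂ) → (I → ℍ → ℂ) := fun δ ω i τ => ω i (δ • τ)
    have hφ : ∀ δ, ∀ ω ∈ Ω, φ δ ω ∈ Ω := by
      intro δ ω hω
      obtain ⟨γ, rfl⟩ := (hΩ ω).mp hω
      refine (hΩ _).mpr ⟨γ * δ, ?_⟩
      funext i τ
      simp only [om, φ, mul_smul]
    refine Finset.prod_bij' (fun ω _ => φ δ ω) (fun ω _ => φ δ⁻¹ ω) (hφ δ) (hφ δ⁻¹) ?_ ?_ ?_
    · intro ω _
      funext i τ
      simp only [φ, smul_inv_smul]
    · intro ω _
      funext i τ
      simp only [φ, inv_smul_smul]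
    · intro ω _
      rw [hSτ, hSτ]
  have hcoef : ∀ k, ∃ Q : Polynomial OO, ∀ τ : ℍ, evalAt N₀ τ (P.coeff k) =
      Q.eval₂ OO.subtype (jInv τ) := by
    intro k
    refine exists_poly_of_mem hN₀ (P.coeff k).2 fun γ τ => ?_
    have h := congrArg (fun p => p.coeff k) (hPinv γ τ)
    simp only [Polynomial.coeff_map] at h
    exact h
  choose Q hQ using hcoef
  -- the polynomial relation
  let L : MvPolynomial (Option I) ℂ := ∑ i, MvPolynomial.C ((t : ℂ) ^ (e i : ℕ)) * X (some i)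
  let h : MvPolynomial (Option I) ℂ := ∑ k ∈ Finset.range (P.natDegree + 1),
    (Q k).eval₂ (MvPolynomial.C.comp OO.subtype) (X none) * L ^ k
  have hev : ∀ (τ : ℍ) (v : I → ℂ), MvPolynomial.eval (fun o : Option I => o.elim (jInv τ) v) h =
      ∏ ω ∈ Ω, ∑ i, (t : ℂ) ^ (e i : ℕ) * (v i - ω i τ) := by
    intro τ v
    have h1 : MvPolynomial.eval (fun o : Option I => o.elim (jInv τ) v) L =
        ∑ i, (t : ℂ) ^ (e i : ℕ) * v i := by
      simp [L]
    have h2 : (P.map (evalAt N₀ τ)).eval (∑ i, (t : ℂ) ^ (e i : ℕ) * v i) =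
        ∏ ω ∈ Ω, ∑ i, (t : ℂ) ^ (e i : ℕ) * (v i - ω i τ) := by
      rw [hPmap, Polynomial.eval_prod]
      refine Finset.prod_congr rfl fun ω _ => ?_
      rw [Polynomial.eval_sub, Polynomial.eval_X, Polynomial.eval_C, hSτ, ← Finset.sum_sub_distrib]
      exact Finset.sum_congr rfl fun i _ => by ring
    rw [← h2, Polynomial.eval_map, Polynomial.eval₂_eq_sum_range]
    simp only [h, map_sum, map_mul, map_pow, h1]
    refine Finset.sum_congr rfl fun k _ => ?_
    rw [hQ k τ, Polynomial.hom_eval₂]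
    congr 2
    · ext a
      simp
    · simp
  have hvan := H h fun τ => by
    rw [hev τ fun i => jA (hN i) (A i) τ]
    refine Finset.prod_eq_zero ((hΩ _).mpr ⟨1, rfl⟩) ?_
    refine Finset.sum_eq_zero fun i _ => ?_
    simp [om]
  rw [← hτ', hev τ' y, Finset.prod_eq_zero_iff] at hvan
  obtain ⟨ω, hω, h0⟩ := hvan
  have h3 := ht _ ⟨ω, hω, rfl⟩ h0
  obtain ⟨γ, rfl⟩ := (hΩ ω).mp hω
  refine ⟨γ • τ', by rw [jInv_smul, hτ'], fun i => ?_⟩
  have h4 := congrFun h3 i
  simp only [Pi.zero_apply] at h4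
  exact sub_eq_zero.mp h4

variable {ι : Type}

/-- special sets with an arbitrary type of blocks -/
def SpSet {κ : Type} (block : ι → Option κ) (g : ι → GL (Fin 2) ℚ) (s : ι → ℍ) : Set (ι → ℂ) :=
  {x | ∃ τ : κ → ℍ, ∀ i, x i = (block i).elim (jInv (s i)) (fun b => jInv (gact (g i) (τ b)))}

theorem isSpecial_iff {Z : Set (ι → ℂ)} : IsSpecial Z ↔
    ∃ (r : ℕ) (block : ι → Option (Fin r)) (g : ι → GL (Fin 2) ℚ) (s : ι → ℍ),
    (∀ b : Fin r, ∃ i, block i = some b) ∧ (∀ i, 0 < (g i).det.val) ∧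
    (∀ i, block i = none → IsCM (s i)) ∧ Z = SpSet block g s := Iff.rfl

theorem isSpecial_mk {κ : Type} [Fintype κ] {block : ι → Option κ} {g : ι → GL (Fin 2) ℚ}
    {s : ι → ℍ} (hb : ∀ b : κ, ∃ i, block i = some b) (hg : ∀ i, 0 < (g i).det.val)
    (hs : ∀ i, block i = none → IsCM (s i)) :
    ∃ block' : ι → Option (Fin (Fintype.card κ)), (∀ b, ∃ i, block' i = some b) ∧
      (∀ i, block' i = none → IsCM (s i)) ∧ SpSet block g s = SpSet block' g s := by
  let e := Fintype.equivFin κ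
  refine ⟨fun i => (block i).map e, fun b => ?_, fun i hi => hs i ?_, ?_⟩
  · obtain ⟨i, hi⟩ := hb (e.symm b)
    exact ⟨i, by simp [hi]⟩
  · simpa using hi
  · ext x
    constructor
    · rintro ⟨τ, hτ⟩
      refine ⟨τ ∘ e.symm, fun i => ?_⟩
      rw [hτ i]
      rcases hbi : block i with _ | b <;> simp [hbi]
    · rintro ⟨τ, hτ⟩
      refine ⟨τ ∘ e, fun i => ?_⟩
      rw [hτ i]
      rcases hbi : block i with _ | b <;> simp [hbi]

theorem subset_closure' (V : Set (ι → ℂ)) : V ⊆ zeroLocus ℂ (vanishingIdeal ℂ V) := by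
  intro x hx
  rw [mem_zeroLocus_iff]
  intro p hp
  exact (mem_vanishingIdeal_iff.mp hp) x hx

/-- **Special sets are closed.** -/
theorem spSet_closed [Finite ι] {κ : Type} {block : ι → Option κ} {g : ι → GL (Fin 2) ℚ}
    {s : ι → ℍ} (hb : ∀ b : κ, ∃ i, block i = some b) (hg : ∀ i, 0 < (g i).det.val) :
    IsZClosed (SpSet block g s) := by
  classical
  have := Fintype.ofFinite ι
  refine Set.Subset.antisymm ?_ (subset_closure' _)
  intro y hy
  rw [mem_zeroLocus_iff] at hy
  choose rep hrep using hb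
  have hint : ∀ i b, ∃ (N : ℕ) (hN : 0 < N) (A : DD N), ∀ τ : ℍ,
      gact (g i * (g (rep b))⁻¹) τ = act hN A τ := by
    intro i b
    refine exists_integral ?_
    rw [map_mul, Units.val_mul]
    exact mul_pos (hg _) (det_inv_pos (hg _))
  choose N hN A hA using hint
  have hblock : ∀ b, ∃ τ : ℍ, ∀ i, block i = some b → y i = jInv (gact (g i) τ) := by
    intro b
    obtain ⟨τ, hτ1, hτ2⟩ := block_point (I := {i // block i = some b}) (fun i => N i b)
      (fun i => hN i b) (fun i => A i b) (y (rep b)) (fun i => y i) (fun h hh => by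
        let σ : Option {i // block i = some b} → ι := fun o => o.elim (rep b) (fun i => i)
        have h1 := hy (rename σ h) (by
          rw [mem_vanishingIdeal_iff]
          rintro x ⟨τ, hτ⟩
          rw [aeval_rename]
          have h2 := hh (gact (g (rep b)) (τ b))
          have h3 : (x ∘ σ) = fun o : Option {i // block i = some b} =>
              o.elim (jInv (gact (g (rep b)) (τ b)))
                fun i => jA (hN i b) (A i b) (gact (g (rep b)) (τ b)) := by
            funext o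
            rcases o with _ | ⟨i, hi⟩
            · change x (rep b) = _
              rw [hτ, hrep b]
              rfl
            · change x i = jInv (act (hN i b) (A i b) _)
              rw [hτ, hi, ← hA, ← gact_mul, inv_mul_cancel_right]
              rfl
          rw [h3]
          simpa using h2)
        rw [aeval_rename] at h1
        have h3 : (y ∘ σ) = fun o : Option {i // block i = some b} =>
            o.elim (y (rep b)) fun i => y i := by
          funext o
          rcases o with _ | i <;> rfl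
        rw [h3] at h1
        simpa using h1)
    refine ⟨gact (g (rep b))⁻¹ τ, fun i hi => ?_⟩
    rw [hτ2 ⟨i, hi⟩, jA, ← hA, gact_mul]
  choose τ hτ using hblock
  refine ⟨τ, fun i => ?_⟩
  rcases hi : block i with _ | b
  · have h1 := hy (X i - C (jInv (s i))) (by
      rw [mem_vanishingIdeal_iff]
      rintro x ⟨τ, hτ⟩
      have := hτ i
      rw [hi] at this
      simp [this])
    simp only [map_sub, aeval_X, aeval_C] at h1
    exact sub_eq_zero.mp h1
  · exact hτ b i hi

theorem special_closed [Finite ι] {Z : Set (ι → ℂ)} (hZ : IsSpecial Z) : IsZClosed Z := by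
  obtain ⟨r, block, g, s, hb, hg, -, rfl⟩ := isSpecial_iff.mp hZ
  exact spSet_closed hb hg

end Pool.Agent.Hhelper14.ZPL
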