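import Pool.Agent.Hhelper14.ZPL.Defs
import Pool.Agent.Hhelper14.ZP.Alg

/-!
# Dimension theory of affine varieties over `ℂ`
-/

namespace Pool.Agent.Hhelper14.ZPL

open MvPolynomial Pool.Agent.Hhelper14.ZP

section rings

/-- in an affine domain over `ℂ` all maximal ideals have the same height -/
theorem height_maximal {R : Type} [CommRing R] [IsDomain R] [Algebra ℂ R]
    [Algebra.FiniteType ℂ R] (m : Ideal R) [hm : m.IsMaximal] :
    ringKrullDim R = (m.height : WithBot ℕ∞) := by
  obtain ⟨s, g, hg, hint⟩ := exists_integral_inj_algHom_of_fg (k := ℂ) (R := R)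
  let _ : Algebra (MvPolynomial (Fin s) ℂ) R := g.toRingHom.toAlgebra
  have : IsScalarTower ℂ (MvPolynomial (Fin s) ℂ) R := .of_algebraMap_eq fun c => (g.commutes c).symm
  have hI : Algebra.IsIntegral (MvPolynomial (Fin s) ℂ) R := ⟨hint⟩
  have hinj : Function.Injective (algebraMap (MvPolynomial (Fin s) ℂ) R) := hg
  have : FaithfulSMul (MvPolynomial (Fin s) ℂ) R := (faithfulSMul_iff_algebraMap_injective _ _).mpr hinj
  have hnoeth : IsNoetherianRing R := Algebra.FiniteType.isNoetherianRing ℂ R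
  have hdim : ringKrullDim R = s := by
    rw [← krull_eq_of_integral hinj, MvPolynomial.ringKrullDim_of_isNoetherianRing]
    simp
  let n : Ideal (MvPolynomial (Fin s) ℂ) := m.under (MvPolynomial (Fin s) ℂ)
  have hn : n.IsMaximal := Ideal.isMaximal_comap_of_isIntegral_of_isMaximal m
  obtain ⟨x, hx⟩ := isMaximal_iff_eq_vanishingIdeal_singleton.mp hn
  have hnp : n.IsPrime := hn.isPrime
  have hmp : m.IsPrime := hm.isPrime
  have hover : m.LiesOver n := ⟨rfl⟩
  have h1 := Ideal.height_eq_height_add_of_liesOver_of_hasGoingDown n m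
  have h2 : n.height = s := by rw [hx, height_max]
  apply le_antisymm
  · rw [hdim, h1, h2]
    have : (s : ℕ∞) ≤ (s : ℕ∞) + (m.map (Ideal.Quotient.mk (n.map (algebraMap _ R)))).height :=
      le_self_add
    exact_mod_cast this
  · exact Ideal.height_le_ringKrullDim_of_ne_top hmp.ne_top

/-- minimal primes over an ideal with `c` generators, when all maximal ideals have height `≥ D` -/
theorem le_krull_minimal {R : Type} [CommRing R] [IsNoetherianRing R] [IsJacobsonRing R] {D c : ℕ}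
    (hD : ∀ m : Ideal R, m.IsMaximal → (D : ℕ∞) ≤ m.height) (g : Fin c → R) {P : Ideal R}
    (hPmin : P ∈ (Ideal.span (Set.range g)).minimalPrimes) :
    ((D - c : ℕ) : WithBot ℕ∞) ≤ ringKrullDim (R ⧸ P) := by
  classical
  set I := Ideal.span (Set.range g) with hI
  have hPprime : P.IsPrime := hPmin.1.1
  have hfin := Ideal.finite_minimalPrimes_of_isNoetherianRing _ I
  -- a function vanishing on the other components
  obtain ⟨f, hf, hfP⟩ : ∃ f : R, (∀ Q ∈ I.minimalPrimes, Q ≠ P → f ∈ Q) ∧ f ∉ P := by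
    let S : Finset (Ideal R) := hfin.toFinset.erase P
    by_contra hcon
    push Not at hcon
    have h1 : S.inf id ≤ P := by
      intro f hf
      refine hcon f fun Q hQ hQP => ?_
      have h2 : S.inf id ≤ Q := Finset.inf_le (f := id) (b := Q) (by simp [S, hQ, hQP])
      exact h2 hf
    rw [hPprime.inf_le'] at h1
    obtain ⟨Q, hQS, hQP⟩ := h1
    have hQ : Q ∈ I.minimalPrimes ∧ Q ≠ P := by
      have := Finset.mem_erase.mp hQS
      exact ⟨hfin.mem_toFinset.mp this.2, this.1⟩
    exact hQ.2 (le_antisymm hQP (hPmin.2 hQ.1.1 hQP))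
  obtain ⟨m, hPm, hmmax, hfm⟩ : ∃ m : Ideal R, P ≤ m ∧ m.IsMaximal ∧ f ∉ m := by
    by_contra hcon
    push Not at hcon
    have h1 : P.jacobson = P := IsJacobsonRing.out ‹_› hPprime.isRadical
    apply hfP
    rw [← h1]
    exact Ideal.mem_sInf.mpr fun {J} hJ => hcon J hJ.1 hJ.2
  have hmprime : m.IsPrime := hmmax.isPrime
  have hIm : I ≤ m := hPmin.1.2.trans hPm
  have h1 := Ideal.height_le_height_add_encard_of_subset (Set.range g) (p := m)
    (fun y hy => hIm (Ideal.subset_span hy))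
  rw [← hI] at h1
  have h2 : (Set.range g).encard ≤ c := by
    have h3 := Set.encard_image_le g Set.univ
    rw [Set.image_univ, Set.encard_univ] at h3
    simpa using h3
  have hprime' : (m.map (Ideal.Quotient.mk I)).IsPrime := Ideal.isPrime_map_quotientMk_of_isPrime hIm
  have h3 : ((D - c : ℕ) : ℕ∞) ≤ (m.map (Ideal.Quotient.mk I)).height := by
    have h4 : (D : ℕ∞) ≤ (m.map (Ideal.Quotient.mk I)).height + c :=
      (hD m hmmax).trans (h1.trans (by gcongr))
    rw [ENat.natCast_sub]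
    exact tsub_le_iff_right.mpr h4
  have h4 : (m.map (Ideal.Quotient.mk I)).height =
      Order.height (⟨m.map (Ideal.Quotient.mk I), hprime'⟩ : PrimeSpectrum _) :=
    PrimeSpectrum.height_eq_orderHeight ⟨m.map (Ideal.Quotient.mk I), hprime'⟩
  rw [h4] at h3
  obtain ⟨l, hlast, hlen⟩ := Order.exists_series_of_le_height _ h3
  -- all members of the series lie above `P`
  have habove : ∀ i, P ≤ (l i).asIdeal.comap (Ideal.Quotient.mk I) := by
    intro i
    have hle : (l i).asIdeal ≤ m.map (Ideal.Quotient.mk I) := by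
      have h5 : l i ≤ l.last := LTSeries.monotone l (Fin.le_last i)
      rw [hlast] at h5
      exact h5
    have hle' : (l i).asIdeal.comap (Ideal.Quotient.mk I) ≤ m := by
      refine (Ideal.comap_mono hle).trans ?_
      rw [Ideal.comap_map_of_surjective _ Ideal.Quotient.mk_surjective, ← RingHom.ker_eq_comap_bot,
        Ideal.mk_ker, sup_eq_left.mpr hIm]
    have hIle : I ≤ (l i).asIdeal.comap (Ideal.Quotient.mk I) := by
      intro y hy
      rw [Ideal.mem_comap, Ideal.Quotient.eq_zero_iff_mem.mpr hy]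
      exact Ideal.zero_mem _
    have hprime : ((l i).asIdeal.comap (Ideal.Quotient.mk I)).IsPrime := Ideal.IsPrime.comap _
    obtain ⟨Q, hQ, hQle⟩ := Ideal.exists_minimalPrimes_le hIle
    have hQP : Q = P := by
      by_contra hne
      exact hfm (hle' (hQle (hf Q hQ hne)))
    rw [← hQP]
    exact hQle
  rw [ringKrullDim_quotient]
  let L : LTSeries (PrimeSpectrum.zeroLocus (R := R) (P : Set _)) :=
    { length := l.length
      toFun := fun i => ⟨PrimeSpectrum.comap (Ideal.Quotient.mk I) (l i), habove i⟩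
      step := fun i => by
        have h5 : l i.castSucc < l i.succ := l.step i
        have h5' : PrimeSpectrum.comap (Ideal.Quotient.mk I) (l i.castSucc) <
            PrimeSpectrum.comap (Ideal.Quotient.mk I) (l i.succ) := by
          refine lt_of_le_of_ne (Ideal.comap_mono h5.le) fun heq => ?_
          exact h5.ne (PrimeSpectrum.comap_injective_of_surjective _
            Ideal.Quotient.mk_surjective heq)
        exact h5' }
  have h7 := Order.LTSeries.length_le_krullDim L
  have h8 : L.length = D - c := hlen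
  rw [h8] at h7
  exact h7

theorem krull_ne_bot (R : Type) [CommRing R] [Nontrivial R] : ringKrullDim R ≠ ⊥ := by
  intro h
  have := ringKrullDim_nonneg_of_nontrivial (R := R)
  rw [h] at this
  simp at this

/-- height plus coheight -/
theorem height_add_krull_le {R : Type} [CommRing R] (P : Ideal R) [hP : P.IsPrime] :
    (P.height : WithBot ℕ∞) + ringKrullDim (R ⧸ P) ≤ ringKrullDim R := by
  have h1 : ringKrullDim (R ⧸ P) = (Order.coheight (⟨P, hP⟩ : PrimeSpectrum R) : ℕ∞) := by
    rw [ringKrullDim_quotient, Order.coheight_eq_krullDim_Ici]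
    congr 1
  have h2 : P.height = Order.height (⟨P, hP⟩ : PrimeSpectrum R) :=
    PrimeSpectrum.height_eq_orderHeight ⟨P, hP⟩
  have : Nonempty (PrimeSpectrum R) := ⟨⟨P, hP⟩⟩
  rw [h1, h2, ringKrullDim, Order.krullDim_eq_iSup_height_add_coheight_of_nonempty]
  rw [← WithBot.coe_add, WithBot.coe_le_coe]
  exact le_iSup (fun a : PrimeSpectrum R => Order.height a + Order.coheight a) ⟨P, hP⟩

/-- strict monotonicity of the dimension -/
theorem krull_lt {R : Type} [CommRing R] {P Q : Ideal R} [hP : P.IsPrime] (h : P < Q)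
    (hQ : Q ≠ ⊤) {D : ℕ} (hD : ringKrullDim (R ⧸ P) = D) : ringKrullDim (R ⧸ Q) < D := by
  obtain ⟨r, hrQ, hrP⟩ := Set.exists_of_ssubset (SetLike.coe_ssubset_coe.mpr h)
  have hr : Ideal.Quotient.mk P r ∈ nonZeroDivisors (R ⧸ P) := by
    rw [mem_nonZeroDivisors_iff_ne_zero]
    intro h0
    exact hrP (Ideal.Quotient.eq_zero_iff_mem.mp h0)
  have h1 := ringKrullDim_quotient_succ_le_of_nonZeroDivisor hr
  have hle : Ideal.span {Ideal.Quotient.mk P r} ≤ Q.map (Ideal.Quotient.mk P) := by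
    rw [Ideal.span_le, Set.singleton_subset_iff]
    exact Ideal.mem_map_of_mem _ hrQ
  have h2 : ringKrullDim (R ⧸ Q) ≤
      ringKrullDim ((R ⧸ P) ⧸ (Ideal.span {Ideal.Quotient.mk P r})) := by
    rw [← ringKrullDim_eq_of_ringEquiv (DoubleQuot.quotQuotEquivQuotOfLE h.le)]
    exact ringKrullDim_le_of_surjective (Ideal.Quotient.factor hle)
      (Ideal.Quotient.factor_surjective hle)
  rw [hD] at h1
  have hne : ringKrullDim (R ⧸ Q) ≠ ⊥ := by
    have : Nontrivial (R ⧸ Q) := Ideal.Quotient.nontrivial_iff.mpr hQ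
    exact krull_ne_bot _
  have h3 : ringKrullDim (R ⧸ Q) + 1 ≤ (D : WithBot ℕ∞) :=
    le_trans (by gcongr) h1
  refine lt_of_lt_of_le ?_ h3
  obtain ⟨a, ha⟩ := WithBot.ne_bot_iff_exists.mp hne
  rw [← ha] at h3 ⊢
  have ha' : a + 1 ≤ (D : ℕ∞) := by exact_mod_cast h3
  have hatop : a ≠ ⊤ := by
    rintro rfl
    simp at ha'
  have : a < a + 1 := ENat.lt_add_one_iff hatop |>.mpr le_rfl
  exact_mod_cast this

end rings

section geometry

variable {ι : Type}

theorem isPrime_of_irred {W : Set (ι → ℂ)} (hW : IsIrredClosed W) :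
    (vanishingIdeal ℂ W : Ideal (MvPolynomial ι ℂ)).IsPrime := hW.1

theorem dim_mono {W W' : Set (ι → ℂ)} (h : W ⊆ W') : dim W ≤ dim W' := by
  have hle : (vanishingIdeal ℂ W' : Ideal (MvPolynomial ι ℂ)) ≤ vanishingIdeal ℂ W :=
    vanishingIdeal_anti_mono h
  exact ringKrullDim_le_of_surjective (Ideal.Quotient.factor hle)
    (Ideal.Quotient.factor_surjective hle)

variable [Fintype ι]

theorem exists_dim {W : Set (ι → ℂ)} (hW : IsIrredClosed W) :
    ∃ d : ℕ, dim W = (d : ℕ) ∧ d ≤ Fintype.card ι := by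
  have hp := hW.1
  have h1 : dim W ≤ Fintype.card ι := by
    refine (ringKrullDim_quotient_le _).trans ?_
    rw [MvPolynomial.ringKrullDim_of_isNoetherianRing]
    simp
  have hne : dim W ≠ ⊥ := by
    have : Nontrivial (MvPolynomial ι ℂ ⧸ vanishingIdeal ℂ W) :=
      Ideal.Quotient.nontrivial_iff.mpr hp.ne_top
    exact krull_ne_bot _
  obtain ⟨a, ha⟩ := WithBot.ne_bot_iff_exists.mp hne
  rw [← ha] at h1
  have h2 : a ≤ (Fintype.card ι : ℕ∞) := by exact_mod_cast h1
  have hatop : a ≠ ⊤ := by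
    rintro rfl
    simp at h2
  obtain ⟨d, rfl⟩ := ENat.ne_top_iff_exists.mp hatop
  exact ⟨d, ha.symm, by exact_mod_cast h2⟩

theorem ideal_lt {W W' : Set (ι → ℂ)} (hW : IsIrredClosed W) (h : W ⊂ W') :
    (vanishingIdeal ℂ W' : Ideal (MvPolynomial ι ℂ)) < vanishingIdeal ℂ W := by
  refine lt_of_le_of_ne (vanishingIdeal_anti_mono h.1) fun heq => h.2 ?_
  have h1 := hW.2
  rw [← heq] at h1
  intro x hx
  rw [← h1, mem_zeroLocus_iff]
  intro p hp
  exact (mem_vanishingIdeal_iff.mp hp) x hx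

theorem dim_lt {W W' : Set (ι → ℂ)} (hW : IsIrredClosed W) (hW' : IsIrredClosed W')
    (h : W ⊂ W') : dim W < dim W' := by
  obtain ⟨D, hD, -⟩ := exists_dim hW'
  have := hW'.1
  have h1 := krull_lt (ideal_lt hW h) hW.1.ne_top (D := D) hD
  rw [hD]
  exact h1

theorem eq_of_dim_le {W W' : Set (ι → ℂ)} (hW : IsIrredClosed W) (hW' : IsIrredClosed W')
    (h : W ⊆ W') (hd : dim W' ≤ dim W) : W = W' := by
  by_contra hne
  exact absurd (dim_lt hW hW' (h.ssubset_of_ne hne)) (not_lt.mpr hd)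

theorem height_max_ge (m : Ideal (MvPolynomial ι ℂ)) (hm : m.IsMaximal) :
    ((Fintype.card ι : ℕ) : ℕ∞) ≤ m.height := by
  have h1 := height_maximal m
  rw [MvPolynomial.ringKrullDim_of_isNoetherianRing] at h1
  have h2 : ((Nat.card ι : ℕ) : WithBot ℕ∞) = (m.height : WithBot ℕ∞) := by
    rw [← h1]; simp
  rw [Nat.card_eq_fintype_card] at h2
  have h3 : ((Fintype.card ι : ℕ) : ℕ∞) = m.height := by exact_mod_cast h2
  exact h3.le

/-- **Krull's height theorem inside an irreducible variety.** -/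
theorem krull_cut {A Y : Set (ι → ℂ)} (hA : IsIrredClosed A) {e : ℕ}
    (h : Fin e → MvPolynomial ι ℂ)
    (hY : IsComponent Y (A ∩ zeroLocus ℂ (Ideal.span (Set.range h)))) :
    dim A ≤ dim Y + e := by
  obtain ⟨⟨hQ, hQY⟩, hYA, hmax⟩ := hY
  set P : Ideal (MvPolynomial ι ℂ) := vanishingIdeal ℂ A with hP
  set Q : Ideal (MvPolynomial ι ℂ) := vanishingIdeal ℂ Y with hQdef
  have hPp : P.IsPrime := hA.1
  have hPQ : P ≤ Q := vanishingIdeal_anti_mono fun x hx => (hYA hx).1
  have hhQ : ∀ k, h k ∈ Q := by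
    intro k
    rw [hQdef, mem_vanishingIdeal_iff]
    intro x hx
    have h1 := (hYA hx).2
    rw [mem_zeroLocus_iff] at h1
    exact h1 _ (Ideal.subset_span ⟨k, rfl⟩)
  obtain ⟨D, hD, -⟩ := exists_dim hA
  let R := MvPolynomial ι ℂ ⧸ P
  let Q' : Ideal R := Q.map (Ideal.Quotient.mk P)
  have hQ' : Q'.IsPrime := Ideal.isPrime_map_quotientMk_of_isPrime hPQ
  have hcomapQ : Q'.comap (Ideal.Quotient.mk P) = Q := by
    rw [Ideal.comap_map_of_surjective _ Ideal.Quotient.mk_surjective, ← RingHom.ker_eq_comap_bot,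
      Ideal.mk_ker, sup_eq_left.mpr hPQ]
  have hmin : Q' ∈ (Ideal.span (Set.range fun k => Ideal.Quotient.mk P (h k))).minimalPrimes := by
    refine ⟨⟨hQ', ?_⟩, ?_⟩
    · rw [Ideal.span_le]
      rintro _ ⟨k, rfl⟩
      exact Ideal.mem_map_of_mem _ (hhQ k)
    · rintro T ⟨hT, hTle⟩ hTQ
      have hTp : (T.comap (Ideal.Quotient.mk P)).IsPrime := Ideal.IsPrime.comap _
      have hPT : P ≤ T.comap (Ideal.Quotient.mk P) := by
        intro y hy
        rw [Ideal.mem_comap, Ideal.Quotient.eq_zero_iff_mem.mpr hy]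
        exact Ideal.zero_mem _
      have h1 : vanishingIdeal ℂ (zeroLocus ℂ (T.comap (Ideal.Quotient.mk P))) =
          T.comap (Ideal.Quotient.mk P) := IsPrime.vanishingIdeal_zeroLocus _
      have h2 := hmax (zeroLocus ℂ (T.comap (Ideal.Quotient.mk P)))
        ⟨by rw [h1]; exact hTp, by rw [h1]⟩ (fun x hx => ⟨by
          rw [← hA.2]; exact zeroLocus_anti_mono hPT hx, by
          refine zeroLocus_anti_mono ?_ hx
          rw [Ideal.span_le]
          rintro _ ⟨k, rfl⟩
          exact hTle (Ideal.subset_span ⟨k, rfl⟩)⟩) (by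
          rw [← hQY]
          exact zeroLocus_anti_mono (by rw [← hcomapQ]; exact Ideal.comap_mono hTQ))
      have h3 : T.comap (Ideal.Quotient.mk P) = Q := by rw [← h1, h2]
      rw [← Ideal.map_comap_of_surjective _ Ideal.Quotient.mk_surjective T, h3]
  have h1 := le_krull_minimal (D := D) (fun m hm => by
    have h1 := height_maximal (R := R) m
    have h2 : ringKrullDim R = D := hD
    rw [h2] at h1
    have h3 : (D : ℕ∞) = m.height := by exact_mod_cast h1
    exact h3.le) (fun k => Ideal.Quotient.mk P (h k)) hmin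
  have h2 : ringKrullDim (R ⧸ Q') = dim Y :=
    ringKrullDim_eq_of_ringEquiv (DoubleQuot.quotQuotEquivQuotOfLE hPQ)
  rw [h2] at h1
  rw [hD]
  calc ((D : ℕ) : WithBot ℕ∞) ≤ ((D - e + e : ℕ) : WithBot ℕ∞) := by
        exact_mod_cast (by omega : D ≤ D - e + e)
    _ = ((D - e : ℕ) : WithBot ℕ∞) + e := by push_cast; rfl
    _ ≤ dim Y + e := by gcongr

/-- the ideal of a component is a minimal prime over the ideal -/
theorem mem_minimalPrimes_of_isComponent {I : Ideal (MvPolynomial ι ℂ)}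
    {W : Set (ι → ℂ)} (hW : IsComponent W (zeroLocus ℂ I)) :
    vanishingIdeal ℂ W ∈ I.minimalPrimes := by
  obtain ⟨⟨hP, hWP⟩, hWI, hmax⟩ := hW
  refine ⟨⟨hP, ?_⟩, ?_⟩
  · exact le_zeroLocus_iff_le_vanishingIdeal.mp hWI
  · rintro Q ⟨hQ, hIQ⟩ hQP
    have h1 : vanishingIdeal ℂ (zeroLocus ℂ Q) = Q := IsPrime.vanishingIdeal_zeroLocus Q
    have h2 := hmax (zeroLocus ℂ Q) ⟨by rw [h1]; exact hQ, by rw [h1]⟩
      (zeroLocus_anti_mono hIQ) (by rw [← hWP]; exact zeroLocus_anti_mono hQP)
    rw [← h2, h1]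

theorem isComponent_of_minimal {I P : Ideal (MvPolynomial ι ℂ)} (hP : P ∈ I.minimalPrimes) :
    IsComponent (zeroLocus ℂ P) (zeroLocus ℂ I) := by
  have hPp : P.IsPrime := hP.1.1
  have h1 : vanishingIdeal ℂ (zeroLocus ℂ P) = P := IsPrime.vanishingIdeal_zeroLocus P
  refine ⟨⟨by rw [h1]; exact hPp, by rw [h1]⟩, zeroLocus_anti_mono hP.1.2, ?_⟩
  rintro C ⟨hC, hCC⟩ hCI hPC
  have h2 : I ≤ vanishingIdeal ℂ C := le_zeroLocus_iff_le_vanishingIdeal.mp hCI
  have h3 : vanishingIdeal ℂ C ≤ P := by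
    rw [← h1]
    exact vanishingIdeal_anti_mono hPC
  have h4 : P ≤ vanishingIdeal ℂ C := hP.2 ⟨hC, h2⟩ h3
  rw [← hCC, le_antisymm h3 h4]

/-- **Equations**: an irreducible variety of codimension `c` is a component of a locus defined by
`c` equations. -/
theorem exists_ci {V : Set (ι → ℂ)} (hV : IsIrredClosed V) :
    ∃ (c : ℕ) (f : Fin c → MvPolynomial ι ℂ), dim V + c = Fintype.card ι ∧
      IsComponent V (zeroLocus ℂ (Ideal.span (Set.range f))) := by
  have hp := hV.1
  set P : Ideal (MvPolynomial ι ℂ) := vanishingIdeal ℂ V with hP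
  obtain ⟨d, hd, -⟩ := exists_dim hV
  obtain ⟨s, hs, hcard⟩ := Ideal.exists_finset_card_eq_height_of_isNoetherianRing P
  have hcomp : IsComponent V (zeroLocus ℂ (Ideal.span (s : Set (MvPolynomial ι ℂ)))) := by
    have := isComponent_of_minimal hs
    rwa [hV.2] at this
  let e := s.equivFin
  have hrange : Set.range (fun k => ((e.symm k : s) : MvPolynomial ι ℂ)) = s := by
    ext x
    constructor
    · rintro ⟨k, rfl⟩
      exact (e.symm k).2
    · intro hx
      exact ⟨e ⟨x, hx⟩, by simp⟩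
  refine ⟨s.card, fun k => e.symm k, ?_, by rw [hrange]; exact hcomp⟩
  have h1 := le_krull_minimal (D := Fintype.card ι) height_max_ge
    (fun k => ((e.symm k : s) : MvPolynomial ι ℂ)) (by rw [hrange]; exact hs)
  have h2 : ringKrullDim (MvPolynomial ι ℂ ⧸ P) = dim V := rfl
  rw [h2, hd] at h1
  have h3 : Fintype.card ι - s.card ≤ d := by exact_mod_cast h1
  have h4 : (P.height : WithBot ℕ∞) + ringKrullDim (MvPolynomial ι ℂ ⧸ P) ≤
      ringKrullDim (MvPolynomial ι ℂ) := height_add_krull_le P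
  rw [← hcard, h2, hd, MvPolynomial.ringKrullDim_of_isNoetherianRing] at h4
  have h5 : s.card + d ≤ Fintype.card ι := by
    have : ((s.card + d : ℕ) : WithBot ℕ∞) ≤ (Fintype.card ι : ℕ) := by
      simpa using h4
    exact_mod_cast this
  rw [hd]
  have h6 : d + s.card = Fintype.card ι := by omega
  exact_mod_cast h6

/-- **Components**: every irreducible closed subset is contained in one of finitely many
components. -/
theorem exists_components {X : Set (ι → ℂ)} (hX : IsZClosed X) :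
    ∃ F : Finset (Set (ι → ℂ)), (∀ D ∈ F, IsComponent D X) ∧
      ∀ W, IsIrredClosed W → W ⊆ X → ∃ D ∈ F, W ⊆ D := by
  classical
  set I : Ideal (MvPolynomial ι ℂ) := vanishingIdeal ℂ X with hI
  have hfin := Ideal.finite_minimalPrimes_of_isNoetherianRing _ I
  refine ⟨hfin.toFinset.image fun P => zeroLocus ℂ P, ?_, ?_⟩
  · intro D hD
    obtain ⟨P, hP, rfl⟩ := Finset.mem_image.mp hD
    have := isComponent_of_minimal (hfin.mem_toFinset.mp hP)
    rwa [hX] at this
  · intro W hW hWX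
    have h1 : I ≤ vanishingIdeal ℂ W := vanishingIdeal_anti_mono hWX
    have := hW.1
    obtain ⟨P, hP, hPW⟩ := Ideal.exists_minimalPrimes_le h1
    refine ⟨_, Finset.mem_image.mpr ⟨P, hfin.mem_toFinset.mpr hP, rfl⟩, ?_⟩
    rw [← hW.2]
    exact zeroLocus_anti_mono hPW

end geometry

end Pool.Agent.Hhelper14.ZPL
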