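import Pool.Agent.Hhelper14.ZPL.Hecke2

/-!
# The Hecke correspondence `T_N`
-/

namespace Pool.Agent.Hhelper14.ZPL

open UpperHalfPlane MvPolynomial Pool.Agent.Hhelper14.ZP MatrixGroups Function
open scoped Manifold

variable {N : ℕ}

/-- shape of the representatives -/
theorem rep_shape' (hN : 0 < N) {B : DD N} (hB : B ∈ FixedDetMatrices.reps (N : ℤ)) :
    ∃ (a d : ℕ) (b : ℤ), 0 < a ∧ 0 < d ∧ a * d = N ∧ B.1 0 0 = (a : ℤ) ∧ B.1 1 1 = (d : ℤ) ∧
      ∀ τ : ℍ, (act hN B τ : ℂ) = (a * τ + b) / d := by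
  obtain ⟨h10, h00, -, -⟩ := hB
  have hdet : B.1 0 0 * B.1 1 1 = N := by
    have h := B.2
    rw [Matrix.det_fin_two, h10, mul_zero, sub_zero] at h
    exact h
  have h11 : 0 < B.1 1 1 := by
    by_contra hcon
    push Not at hcon
    have h1 : B.1 0 0 * B.1 1 1 ≤ 0 := mul_nonpos_of_nonneg_of_nonpos h00.le hcon
    rw [hdet] at h1
    have : (0 : ℤ) < N := by exact_mod_cast hN
    omega
  refine ⟨(B.1 0 0).toNat, (B.1 1 1).toNat, B.1 0 1, by omega, by omega, ?_,
    (Int.toNat_of_nonneg h00.le).symm, (Int.toNat_of_nonneg h11.le).symm, fun τ => ?_⟩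
  · zify
    rw [Int.toNat_of_nonneg h00.le, Int.toNat_of_nonneg h11.le, hdet]
  · rw [coe_act, h10]
    have e1 : (((B.1 0 0).toNat : ℕ) : ℂ) = ((B.1 0 0 : ℤ) : ℂ) := by
      have := Int.toNat_of_nonneg h00.le
      exact_mod_cast congrArg (fun x : ℤ => (x : ℂ)) this
    have e2 : (((B.1 1 1).toNat : ℕ) : ℂ) = ((B.1 1 1 : ℤ) : ℂ) := by
      have := Int.toNat_of_nonneg h11.le
      exact_mod_cast congrArg (fun x : ℤ => (x : ℂ)) this
    rw [e1, e2]
    simp

/-- the `q_N`-parameter at `B τ` -/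
theorem qParam_act' (hN : 0 < N) {B : DD N} (hB : B ∈ FixedDetMatrices.reps (N : ℤ)) :
    ∃ (a d : ℕ) (c : ℂ), 0 < a ∧ 0 < d ∧ a * d = N ∧ B.1 0 0 = (a : ℤ) ∧ B.1 1 1 = (d : ℤ) ∧
      IsU c ∧ ‖c‖ = 1 ∧
      ∀ τ : ℍ, Periodic.qParam 1 (act hN B τ : ℂ) = c * qN N τ ^ (a ^ 2) := by
  obtain ⟨a, d, b, ha, hd, had, h00, h11, hact⟩ := rep_shape' hN hB
  have hd' : (d : ℂ) ≠ 0 := by exact_mod_cast hd.ne'
  have ha' : (a : ℂ) ≠ 0 := by exact_mod_cast ha.ne'
  set ζ := Complex.exp (2 * Real.pi * Complex.I / d) with hζ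
  have hζ1 : ζ ^ d = 1 := (exp_pow_eq_one_iff hd d).mpr dvd_rfl
  have hζ0 : ζ ≠ 0 := Complex.exp_ne_zero _
  have hζU : IsU ζ := by
    refine ⟨hζ0, zeta_mem hd, ?_⟩
    have : ζ⁻¹ = ζ ^ (d - 1) := by
      rw [inv_eq_iff_eq_inv]
      refine eq_inv_of_mul_eq_one_left ?_
      rw [← pow_succ', Nat.sub_add_cancel hd, hζ1]
    rw [this]
    exact OO.pow_mem (zeta_mem hd) _
  have hpow : ∀ n : ℕ, IsU (ζ ^ n) := by
    intro n
    induction n with
    | zero => simpa using IsU.one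
    | succ n ih => rw [pow_succ]; exact ih.mul hζU
  have hzpow : IsU (ζ ^ b) := by
    rcases b with n | n
    · simpa using hpow n
    · rw [zpow_negSucc]; exact (hpow _).inv
  refine ⟨a, d, ζ ^ b, ha, hd, had, h00, h11, hzpow, ?_, fun τ => ?_⟩
  · rw [norm_zpow, norm_zeta, one_zpow]
  · have hNc : (N : ℂ) = a * d := by rw [← had]; push_cast; ring
    rw [hact, hζ]
    simp only [qN, Periodic.qParam]
    rw [← Complex.exp_int_mul, ← Complex.exp_nat_mul, ← Complex.exp_add]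
    congr 1
    push_cast
    rw [hNc]
    field_simp
    ring

/-- the matrix `(N 0; 0 1)` -/
def BN (N : ℕ) : DD N := ⟨!![(N : ℤ), 0; 0, 1], by simp [Matrix.det_fin_two]⟩

theorem rep_eq_BN {B : DD N} (hB : B ∈ FixedDetMatrices.reps (N : ℤ)) {a d : ℕ}
    (had : a * d = N) (ha : 0 < a) (h00 : B.1 0 0 = (a : ℤ)) (h11 : B.1 1 1 = (d : ℤ)) (haN : a = N) :
    B = BN N := by
  obtain ⟨h10, -, h01, h01'⟩ := hB
  have hd1 : d = 1 := by
    rw [haN] at had
    have : 0 < N := haN ▸ ha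
    nlinarith
  have h01'' : B.1 0 1 = 0 := by
    rw [h11, hd1, Nat.cast_one, abs_one] at h01'
    have := abs_lt.mp h01'
    omega
  apply Subtype.ext
  ext i j
  fin_cases i <;> fin_cases j <;> simp [BN, h00, h10, h11, h01'', haN, hd1]

theorem class_BN {B : DD N} (h : (Quotient.mk'' B : QQ N) = Quotient.mk'' (BN N)) :
    (N : ℤ) ∣ B.1 0 0 := by
  obtain ⟨γ, hγ⟩ := Quotient.exact' h
  refine ⟨γ.1 0 0, ?_⟩
  rw [← hγ]
  change (γ • BN N).1 0 0 = _
  rw [FixedDetMatrices.smul_coe]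
  simp [Matrix.mul_apply, BN, mul_comm]

/-- expansions at infinity of the members of `T_N` -/
theorem jQ_expansion' (hN : 0 < N) (q : QQ N) : ∃ G : ℂ → ℂ, Good OO G ∧
    (∀ τ : ℍ, jQ hN q τ * qN N τ ^ (N ^ 2) = G (qN N τ)) ∧
    (q ≠ Quotient.mk'' (BN N) → G 0 = 0) ∧ (q = Quotient.mk'' (BN N) → G 0 ≠ 0) := by
  obtain ⟨J, hJ, hJ0, hJτ⟩ := exists_J
  induction q using Quotient.inductionOn' with
  | h A =>
    obtain ⟨B, hB, γ, rfl⟩ := exists_rep hN A
    have hcl : (Quotient.mk'' (γ • B) : QQ N) = Quotient.mk'' B := Quotient.sound' ⟨γ, rfl⟩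
    rw [hcl, jQ_mk]
    obtain ⟨a, d, c, ha, hd, had, h00, h11, hc, hc1, hq⟩ := qParam_act' hN hB
    have haN : a ≤ N := by rw [← had]; exact Nat.le_mul_of_pos_right a hd
    have haN2 : a ^ 2 ≤ N ^ 2 := Nat.pow_le_pow_left haN 2
    refine ⟨fun z => z ^ (N ^ 2 - a ^ 2) * (c⁻¹ * J (c * z ^ (a ^ 2))), ?_, fun τ => ?_, ?_, ?_⟩
    · have h1 : Good OO (fun z => J (c * z)) := hJ.comp_mul hc.2.1 hc1.le
      exact (Good.id.pow _).mul ((h1.comp_pow (m := a ^ 2) (by positivity)).const_mul hc.2.2)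
    · have h1 := hJτ (act hN B τ)
      rw [hq τ] at h1
      dsimp only
      rw [← h1, jA]
      have := hc.1
      have e : qN N τ ^ N ^ 2 = qN N τ ^ (N ^ 2 - a ^ 2) * qN N τ ^ (a ^ 2) := by
        rw [← pow_add, Nat.sub_add_cancel haN2]
      rw [e]
      field_simp
    · intro hne
      have hlt : a < N := by
        rcases Nat.lt_or_ge a N with h | h
        · exact h
        · exact absurd (by rw [rep_eq_BN hB had ha h00 h11 (le_antisymm haN h)]) hne
      have h2 : a ^ 2 < N ^ 2 := Nat.pow_lt_pow_left hlt two_ne_zero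
      simp [(Nat.sub_pos_of_lt h2).ne']
    · intro h
      have h1 := class_BN h
      rw [h00] at h1
      have h2 : N ∣ a := by exact_mod_cast h1
      have h3 : a = N := le_antisymm haN (Nat.le_of_dvd ha h2)
      have h4 : a ^ 2 ≠ 0 := by positivity
      simp [h3, hJ0, hc.1, hN.ne']

/-- **The Hecke correspondence `T_N`**: the sum of `j` over the `N`-isogenous points is a
polynomial of degree `N` in `j`. -/
theorem hecke (hN : 0 < N) [Fintype (QQ N)] : ∃ P : Polynomial ℂ, P.natDegree = N ∧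
    ∀ τ : ℍ, ∑ q : QQ N, jQ hN q τ = P.eval (jInv τ) := by
  classical
  obtain ⟨J, hJ, hJ0, hJτ⟩ := exists_J
  choose G hG hGτ hG0 hG1 using jQ_expansion' hN
  have hmem : (fun τ : ℍ => ∑ q : QQ N, jQ hN q τ) ∈ RR N := by
    have h1 : (∑ q : QQ N, jQ hN q) ∈ RR N := Subring.sum_mem _ fun q _ => jQ_mem hN q
    convert! h1 using 1
    funext τ
    simp
  have hgood : ∀ s : Finset (QQ N), Good OO (fun z => ∑ q ∈ s, G q z) := by
    intro s
    induction s using Finset.induction_on with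
    | empty => simpa using Good.const (O := OO) OO.zero_mem
    | insert a s ha ih =>
      simp only [Finset.sum_insert ha]
      exact (hG a).add ih
  have hF : ∀ τ : ℍ, (∑ q : QQ N, jQ hN q τ) * qN N τ ^ (N ^ 2) = ∑ q : QQ N, G q (qN N τ) := by
    intro τ
    rw [Finset.sum_mul]
    exact Finset.sum_congr rfl fun q _ => hGτ q τ
  have hF0 : ∑ q : QQ N, G q 0 ≠ 0 := by
    rw [Finset.sum_eq_single (Quotient.mk'' (BN N) : QQ N)]
    · exact hG1 _ rfl
    · intro q _ hq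
      exact hG0 q hq
    · intro h
      exact absurd (Finset.mem_univ _) h
  have hinv : ∀ (γ : SL(2, ℤ)) (τ : ℍ), (∑ q : QQ N, jQ hN q (γ • τ)) =
      ∑ q : QQ N, jQ hN q τ := by
    intro γ τ
    have h := Function.Bijective.sum_comp (rQ_bijective hN γ) (fun q => jQ hN q τ)
    rw [← h]
    refine Finset.sum_congr rfl fun q _ => ?_
    rw [jQ_rQ]
  obtain ⟨P, hP1, -, hP⟩ := exists_poly (N := N) hN (N ^ 2) _ _ hmem.1 hinv (hgood Finset.univ) hF
  have hdeg : P.natDegree ≤ N := by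
    rw [pow_two] at hP1
    exact Nat.le_of_mul_le_mul_left hP1 hN
  have hdegN : P.natDegree = N := by
    by_contra hne
    have hlt : P.natDegree < N := lt_of_le_of_ne hdeg hne
    have hq : Filter.Tendsto (fun τ : ℍ => Function.Periodic.qParam 1 (τ : ℂ)) atImInfty (nhds 0) :=
      qParam_tendsto_atImInfty one_pos
    have hJl : Filter.Tendsto (fun τ : ℍ => J (Function.Periodic.qParam 1 τ)) atImInfty
        (nhds 1) := by
      have := hJ.continuousAt_zero.tendsto.comp hq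
      rwa [hJ0] at this
    have h1 : Filter.Tendsto (fun τ : ℍ => ∑ q : QQ N, G q (qN N τ)) atImInfty
        (nhds (∑ q : QQ N, G q 0)) :=
      (hgood Finset.univ).continuousAt_zero.tendsto.comp (qN_tendsto hN)
    have h2 : Filter.Tendsto (fun τ : ℍ => ∑ k ∈ Finset.range (P.natDegree + 1),
        (P.coeff k : ℂ) * (J (Function.Periodic.qParam 1 τ) ^ k *
          Function.Periodic.qParam 1 (τ : ℂ) ^ (N - k))) atImInfty
        (nhds (∑ k ∈ Finset.range (P.natDegree + 1), (P.coeff k : ℂ) * (1 ^ k * 0 ^ (N - k)))) :=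
      tendsto_finsetSum _ fun k _ => ((hJl.pow k).mul (hq.pow (N - k))).const_mul _
    have h3 := tendsto_nhds_unique h1 (h2.congr fun τ => by
      rw [← hF τ, hP τ, Polynomial.eval₂_eq_sum_range, pow_two, pow_mul, qN_pow hN,
        Finset.sum_mul]
      refine Finset.sum_congr rfl fun k hk => ?_
      have hk' : k ≤ N := by
        have := Finset.mem_range.mp hk
        omega
      rw [← hJτ τ, mul_pow, ← Nat.sub_add_cancel hk', pow_add, Nat.add_sub_cancel]
      simp only [Subring.subtype_apply]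
      ring)
    apply hF0
    rw [h3]
    refine Finset.sum_eq_zero fun k hk => ?_
    have : N - k ≠ 0 := by
      have := Finset.mem_range.mp hk
      omega
    rw [zero_pow this, mul_zero, mul_zero]
  refine ⟨P.map OO.subtype, ?_, fun τ => ?_⟩
  · rw [Polynomial.natDegree_map_eq_of_injective (fun a b h => Subtype.ext h), hdegN]
  · rw [hP τ, Polynomial.eval_map]

end Pool.Agent.Hhelper14.ZPL
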