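import Pool.Agent.Hhelper14.ZPL.Topo
import Pool.Agent.Hhelper14.ZPL.Hecke

/-!
# The encoding
-/

namespace Pool.Agent.Hhelper14.ZPL

open UpperHalfPlane MvPolynomial Pool.Agent.Hhelper14.ZP

/-- data of an encoding of `c` equations in the variables `ι` -/
structure Enc (ι : Type) (c : ℕ) where
  B : Type
  Q : Type
  [fB : Fintype B]
  [fQ : Fintype Q]
  M : Option Q → GL (Fin 2) ℚ
  hM : ∀ q, 0 < (M q).det.val
  M0 : M none = 1
  P : Polynomial ℂ
  hP : ∀ τ : ℍ, ∑ q : Q, jInv (gact (M (some q)) τ) = P.eval (jInv τ)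
  cst : B → ℂ
  ell : B → ι → ℂ
  a : Fin c → B → ℂ

namespace Enc

attribute [instance] Enc.fB Enc.fQ

variable {ι : Type} [Fintype ι] {c : ℕ} (E : Enc ι c)

/-- the coordinates of the encoding -/
abbrev J := ι ⊕ (E.B × Option E.Q)

/-- the affine forms -/
def val (x : ι → ℂ) (b : E.B) : ℂ := E.cst b + ∑ i, E.ell b i * x i

/-- the encoded equations -/
def eqn (x : ι → ℂ) (k : Fin c) : ℂ := ∑ b, E.a k b * E.P.eval (E.val x b)

theorem val_affine (t : ℂ) (x1 x2 x3 : ι → ℂ) (b : E.B) :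
    E.val (t • (x1 - x2) + x3) b = t * (E.val x1 b - E.val x2 b) + E.val x3 b := by
  have h1 : ∑ i, E.ell b i * (t • (x1 - x2) + x3) i =
      t * (∑ i, E.ell b i * x1 i - ∑ i, E.ell b i * x2 i) + ∑ i, E.ell b i * x3 i := by
    rw [← Finset.sum_sub_distrib, Finset.mul_sum, ← Finset.sum_add_distrib]
    refine Finset.sum_congr rfl fun i _ => ?_
    simp only [Pi.add_apply, Pi.smul_apply, Pi.sub_apply, smul_eq_mul]
    ring
  rw [val, val, val, val, h1]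
  ring

/-- the affine-linear subspace -/
def L : AffineSubspace ℂ (E.J → ℂ) where
  carrier := {z | (∀ b, z (Sum.inr (b, none)) = E.val (z ∘ Sum.inl) b) ∧
    ∀ k, ∑ b, E.a k b * ∑ q : E.Q, z (Sum.inr (b, some q)) = 0}
  smul_vsub_vadd_mem' := by
    rintro t z1 z2 z3 ⟨h1, h1'⟩ ⟨h2, h2'⟩ ⟨h3, h3'⟩
    refine ⟨fun b => ?_, fun k => ?_⟩
    · have e : (t • (z1 -ᵥ z2) +ᵥ z3) ∘ (Sum.inl : ι → E.J) =
          t • (z1 ∘ Sum.inl - z2 ∘ Sum.inl) + z3 ∘ Sum.inl := rfl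
      rw [e, val_affine, ← h1, ← h2, ← h3]
      rfl
    · have e : ∑ b, E.a k b * ∑ q : E.Q, (t • (z1 -ᵥ z2) +ᵥ z3) (Sum.inr (b, some q)) =
          t * (∑ b, E.a k b * ∑ q : E.Q, z1 (Sum.inr (b, some q)) -
            ∑ b, E.a k b * ∑ q : E.Q, z2 (Sum.inr (b, some q))) +
          ∑ b, E.a k b * ∑ q : E.Q, z3 (Sum.inr (b, some q)) := by
        rw [← Finset.sum_sub_distrib, Finset.mul_sum, ← Finset.sum_add_distrib]
        refine Finset.sum_congr rfl fun b _ => ?_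
        have e2 : ∑ q : E.Q, (t • (z1 -ᵥ z2) +ᵥ z3) (Sum.inr (b, some q)) =
            t * (∑ q : E.Q, z1 (Sum.inr (b, some q)) - ∑ q : E.Q, z2 (Sum.inr (b, some q))) +
              ∑ q : E.Q, z3 (Sum.inr (b, some q)) := by
          rw [← Finset.sum_sub_distrib, Finset.mul_sum, ← Finset.sum_add_distrib]
          rfl
        rw [e2]
        ring
      rw [e, h1', h2', h3']
      ring

theorem mem_L {z : E.J → ℂ} : z ∈ (E.L : Set (E.J → ℂ)) ↔
    (∀ b, z (Sum.inr (b, none)) = E.val (z ∘ Sum.inl) b) ∧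
      ∀ k, ∑ b, E.a k b * ∑ q : E.Q, z (Sum.inr (b, some q)) = 0 := Iff.rfl

/-- the defining equations -/
noncomputable def lin : E.B ⊕ Fin c → MvPolynomial E.J ℂ := Sum.elim
  (fun b => X (Sum.inr (b, none)) - (C (E.cst b) + ∑ i, C (E.ell b i) * X (Sum.inl i)))
  (fun k => ∑ b, C (E.a k b) * ∑ q : E.Q, X (Sum.inr (b, some q)))

theorem L_eq : (E.L : Set (E.J → ℂ)) = zeroLocus ℂ (Ideal.span (Set.range E.lin)) := by
  ext z
  rw [E.mem_L, zeroLocus_span]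
  simp only [Set.mem_ofPred_eq, Set.forall_mem_range, Sum.forall]
  constructor
  · rintro ⟨h1, h2⟩
    refine ⟨fun b => ?_, fun k => ?_⟩
    · simp only [lin, Sum.elim_inl, map_sub, map_add, map_sum, map_mul, aeval_X, aeval_C]
      rw [h1 b, val, sub_eq_zero]
      rfl
    · simp only [lin, Sum.elim_inr, map_sum, map_mul, aeval_X, aeval_C]
      exact h2 k
  · rintro ⟨h1, h2⟩
    refine ⟨fun b => ?_, fun k => ?_⟩
    · have := h1 b
      simp only [lin, Sum.elim_inl, map_sub, map_add, map_sum, map_mul, aeval_X, aeval_C] at this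
      exact sub_eq_zero.mp this
    · have := h2 k
      simp only [lin, Sum.elim_inr, map_sum, map_mul, aeval_X, aeval_C] at this
      exact this

theorem L_closed : IsZClosed (E.L : Set (E.J → ℂ)) := by
  rw [L_eq]
  exact closed_zeroLocus _

/-- the points over `τ` -/
def Z1 : Set (E.J → ℂ) :=
  {z | ∀ b, ∃ τ : ℍ, ∀ q, z (Sum.inr (b, q)) = jInv (gact (E.M q) τ)}

/-- lifting special sets -/
theorem special_lift {Z : Set (ι → ℂ)} (hZ : IsSpecial Z) :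
    ∃ Z', IsSpecial Z' ∧ Z' = {z | z ∘ Sum.inl ∈ Z ∧ z ∈ E.Z1} ∧
      dim Z' = dim Z + (Fintype.card E.B : ℕ) := by
  obtain ⟨r, blk, g, s, hb, hg, hs, rfl⟩ := isSpecial_iff.mp hZ
  let blk' : E.J → Option (Fin r ⊕ E.B) := Sum.elim (fun i => (blk i).map Sum.inl)
    (fun p => some (Sum.inr p.1))
  let g' : E.J → GL (Fin 2) ℚ := Sum.elim g (fun p => E.M p.2)
  let s' : E.J → ℍ := Sum.elim s (fun _ => UpperHalfPlane.I)
  have hb' : ∀ β : Fin r ⊕ E.B, ∃ p, blk' p = some β := by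
    rintro (β | b)
    · obtain ⟨i, hi⟩ := hb β
      exact ⟨Sum.inl i, by simp [blk', hi]⟩
    · exact ⟨Sum.inr (b, none), rfl⟩
  have hg' : ∀ p, 0 < (g' p).det.val := by
    rintro (i | p)
    · exact hg i
    · exact E.hM p.2
  have hs' : ∀ p, blk' p = none → IsCM (s' p) := by
    rintro (i | p) hp
    · apply hs i
      simpa [blk'] using hp
    · simp [blk'] at hp
  obtain ⟨blk'', hb'', hs'', h⟩ := isSpecial_mk hb' hg' hs'
  refine ⟨SpSet blk' g' s', isSpecial_iff.mpr ⟨_, blk'', g', s', hb'', hg', hs'', h⟩, ?_, ?_⟩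
  · ext z
    constructor
    · rintro ⟨τ, hτ⟩
      refine ⟨⟨fun β => τ (Sum.inl β), fun i => ?_⟩, fun b => ⟨τ (Sum.inr b), fun q => ?_⟩⟩
      · have := hτ (Sum.inl i)
        rcases hi : blk i with _ | β
        · simpa [blk', g', s', hi] using this
        · simpa [blk', g', s', hi] using this
      · exact hτ (Sum.inr (b, q))
    · rintro ⟨⟨τ, hτ⟩, h2⟩
      choose τ' hτ' using h2
      refine ⟨Sum.elim τ τ', ?_⟩
      rintro (i | ⟨b, q⟩)
      · have := hτ i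
        rcases hi : blk i with _ | β
        · simpa [blk', g', s', hi] using this
        · simpa [blk', g', s', hi] using this
      · exact hτ' b q
  · rw [dim_spSet hb' hg', dim_spSet hb hg]
    simp

theorem Z1_closed : IsZClosed E.Z1 := by
  obtain ⟨Z', hZ', h, -⟩ := E.special_lift special_univ
  have : E.Z1 = Z' := by
    rw [h]
    ext z
    simp
  rw [this]
  exact special_closed hZ'

theorem eqn_of_mem {z : E.J → ℂ} (hL : z ∈ (E.L : Set (E.J → ℂ))) (hZ : z ∈ E.Z1) (k : Fin c) :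
    E.eqn (z ∘ Sum.inl) k = 0 := by
  rw [← hL.2 k, eqn]
  refine Finset.sum_congr rfl fun b _ => ?_
  obtain ⟨τ, hτ⟩ := hZ b
  have h1 : ∑ q : E.Q, z (Sum.inr (b, some q)) = E.P.eval (E.val (z ∘ Sum.inl) b) := by
    rw [← hL.1 b, hτ none, E.M0, gact_one, ← E.hP]
    exact Finset.sum_congr rfl fun q _ => hτ (some q)
  rw [h1]

theorem exists_lift {x : ι → ℂ} (hx : ∀ k, E.eqn x k = 0) :
    ∃ z, z ∈ (E.L : Set (E.J → ℂ)) ∧ z ∈ E.Z1 ∧ z ∘ Sum.inl = x := by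
  choose τ hτ using fun b => j_surj (E.val x b)
  let z : E.J → ℂ := Sum.elim x (fun p => jInv (gact (E.M p.2) (τ p.1)))
  have hz : z ∘ Sum.inl = x := rfl
  refine ⟨z, ⟨fun b => ?_, fun k => ?_⟩, fun b => ⟨τ b, fun q => rfl⟩, rfl⟩
  · rw [hz, ← hτ b]
    change jInv (gact (E.M none) (τ b)) = _
    rw [E.M0, gact_one]
  · rw [← hx k, eqn]
    refine Finset.sum_congr rfl fun b _ => ?_
    rw [← hτ b, ← E.hP]
    rfl

theorem intOver : IntOver (Sum.inl : ι → E.J) ((E.L : Set (E.J → ℂ)) ∩ E.Z1) := by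
  have h0 : ∀ b, (qmap (Sum.inl : ι → E.J) ((E.L : Set (E.J → ℂ)) ∩ E.Z1)).IsIntegralElem
      (Ideal.Quotient.mk _ (X (Sum.inr (b, none)))) := by
    intro b
    refine intElem_congr (C (E.cst b) + ∑ i, C (E.ell b i) * X i) ?_
    rintro z ⟨hL, -⟩
    rw [eval_X, hL.1 b, val]
    simp
  rintro (i | ⟨b, q⟩)
  · exact intElem_coord _ _ i
  · obtain ⟨Φ, hΦ, h⟩ := modular_ev2 (E.hM q)
    refine intElem_rel (u := X (Sum.inr (b, none))) (h0 b) hΦ ?_
    rintro z ⟨-, hZ⟩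
    obtain ⟨τ, hτ⟩ := hZ b
    rw [eval_X, eval_X, hτ none, hτ q, E.M0, gact_one]
    exact h τ

/-- the relations on `Z1` -/
theorem exists_rel (b : E.B) (q : Option E.Q) : ∃ Φ : Polynomial (Polynomial OO), Φ.Monic ∧
    ∀ z ∈ E.Z1, ev2 (z (Sum.inr (b, none))) (z (Sum.inr (b, q))) Φ = 0 := by
  obtain ⟨Φ, hΦ, h⟩ := modular_ev2 (E.hM q)
  refine ⟨Φ, hΦ, fun z hZ => ?_⟩
  obtain ⟨τ, hτ⟩ := hZ b
  rw [hτ none, hτ q, E.M0, gact_one]
  exact h τ

/-- separation of the values -/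
structure Sep (x0 x1 x2 : ι → ℂ) : Prop where
  const : ∀ b, ∃ V : ValuationSubring ℂ, E.val x0 b ∉ V
  pair : ∀ b b', b ≠ b' → ∃ V : ValuationSubring ℂ, ¬ (E.val x0 b ∈ V ↔ E.val x0 b' ∈ V)
  coord : ∀ b i, ∃ V : ValuationSubring ℂ, ¬ (x0 i ∈ V ↔ E.val x0 b ∈ V)
  nonconst : ∀ b, E.val x1 b ≠ E.val x2 b

end Enc

end Pool.Agent.Hhelper14.ZPL
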