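import Pool.Agent.Hhelper14.ZPL.NetMain

/-!
# Adding free coordinates
-/

namespace Pool.Agent.Hhelper14.ZPL

open UpperHalfPlane MvPolynomial Pool.Agent.Hhelper14.ZP

variable {ι m : Type}

/-- `ℂ^m × U` -/
def Fib (m : Type) (U : Set (ι → ℂ)) : Set (m ⊕ ι → ℂ) := {z | z ∘ Sum.inr ∈ U}

/-- the map to the coordinate ring -/
noncomputable def fibMap (m : Type) (U : Set (ι → ℂ)) : MvPolynomial (m ⊕ ι) ℂ →+*
    MvPolynomial m (MvPolynomial ι ℂ ⧸ (vanishingIdeal ℂ U : Ideal (MvPolynomial ι ℂ))) :=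
  (MvPolynomial.map (Ideal.Quotient.mk _)).comp (sumRingEquiv ℂ m ι : _ →+* _)

theorem fibMap_surjective (U : Set (ι → ℂ)) : Function.Surjective (fibMap m U) := by
  intro q
  obtain ⟨p, rfl⟩ := MvPolynomial.map_surjective
    (Ideal.Quotient.mk (vanishingIdeal ℂ U : Ideal (MvPolynomial ι ℂ)))
    Ideal.Quotient.mk_surjective q
  obtain ⟨p', rfl⟩ := (sumRingEquiv ℂ m ι).surjective p
  exact ⟨p', rfl⟩

theorem eval_sumRing (x : ι → ℂ) (μ : m → ℂ) (p : MvPolynomial (m ⊕ ι) ℂ) :
    eval (Sum.elim μ x) p = eval μ (MvPolynomial.map (eval x) (sumRingEquiv ℂ m ι p)) := by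
  have h : (eval (Sum.elim μ x) : MvPolynomial (m ⊕ ι) ℂ →+* ℂ) =
      ((eval μ).comp (MvPolynomial.map (eval x))).comp (sumRingEquiv ℂ m ι : _ →+* _) := by
    apply MvPolynomial.ringHom_ext
    · intro a
      simp
    · rintro (i | i) <;> simp
  rw [h]
  rfl

theorem ker_fibMap (U : Set (ι → ℂ)) : RingHom.ker (fibMap m U) =
    (vanishingIdeal ℂ (Fib m U) : Ideal (MvPolynomial (m ⊕ ι) ℂ)) := by
  ext p
  rw [RingHom.mem_ker, mem_vanishingIdeal_iff]
  have h1 : fibMap m U p = 0 ↔ ∀ α, coeff α (sumRingEquiv ℂ m ι p) ∈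
      (vanishingIdeal ℂ U : Ideal (MvPolynomial ι ℂ)) := by
    rw [MvPolynomial.ext_iff]
    refine forall_congr' fun α => ?_
    change coeff α (MvPolynomial.map _ (sumRingEquiv ℂ m ι p)) = _ ↔ _
    rw [coeff_map, coeff_zero, Ideal.Quotient.eq_zero_iff_mem]
  rw [h1]
  constructor
  · intro h z hz
    have h2 : z = Sum.elim (z ∘ Sum.inl) (z ∘ Sum.inr) := (Sum.elim_comp_inl_inr z).symm
    rw [h2]
    change eval _ p = 0
    rw [eval_sumRing]
    have h3 : MvPolynomial.map (eval (z ∘ Sum.inr)) (sumRingEquiv ℂ m ι p) = 0 := by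
      ext α
      rw [coeff_map, coeff_zero]
      exact (mem_vanishingIdeal_iff.mp (h α)) _ hz
    rw [h3, map_zero]
  · intro h α
    rw [mem_vanishingIdeal_iff]
    intro x hx
    have h3 : MvPolynomial.map (eval x) (sumRingEquiv ℂ m ι p) = 0 := by
      apply MvPolynomial.funext
      intro μ
      rw [← eval_sumRing, map_zero]
      exact h _ (by
        change Sum.elim μ x ∘ Sum.inr ∈ U
        rw [Sum.elim_comp_inr]
        exact hx)
    have h4 := congrArg (coeff α) h3
    rw [coeff_map, coeff_zero] at h4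
    exact h4

/-- the coordinate ring -/
noncomputable def fibEquiv (m : Type) (U : Set (ι → ℂ)) :
    (MvPolynomial (m ⊕ ι) ℂ ⧸ (vanishingIdeal ℂ (Fib m U) : Ideal (MvPolynomial (m ⊕ ι) ℂ))) ≃+*
    MvPolynomial m (MvPolynomial ι ℂ ⧸ (vanishingIdeal ℂ U : Ideal (MvPolynomial ι ℂ))) :=
  (Ideal.quotEquivOfEq (ker_fibMap U).symm).trans
    (RingHom.quotientKerEquivOfSurjective (fibMap_surjective U))

theorem fib_closed {U : Set (ι → ℂ)} (hU : IsZClosed U) : IsZClosed (Fib m U) :=
  closed_preimage hU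

theorem fib_irred {U : Set (ι → ℂ)} (hU : IsIrredClosed U) : IsIrredClosed (Fib m U) := by
  refine ⟨?_, fib_closed hU.2⟩
  have := hU.1
  rw [← ker_fibMap]
  exact RingHom.ker_isPrime _

theorem dim_fib [Fintype ι] [Fintype m] (U : Set (ι → ℂ)) :
    dim (Fib m U) = dim U + (Fintype.card m : ℕ) := by
  rw [dim, ringKrullDim_eq_of_ringEquiv (fibEquiv m U),
    MvPolynomial.ringKrullDim_of_isNoetherianRing, dim, Nat.card_eq_fintype_card]

theorem fib_component [Fintype ι] [Fintype m] {U X : Set (ι → ℂ)} (hX : IsZClosed X)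
    (hU : IsComponent U X) : IsComponent (Fib m U) (Fib m X) := by
  refine ⟨fib_irred hU.1, fun z hz => hU.2.1 hz, fun C' hC' h1 h2 => ?_⟩
  refine Set.Subset.antisymm ?_ h2
  intro z hz
  let W := zeroLocus ℂ (vanishingIdeal ℂ (proj (Sum.inr : ι → m ⊕ ι) C') :
    Ideal (MvPolynomial ι ℂ))
  have hW : IsIrredClosed W := irredClosed_closure (irred_proj hC'.1)
  have h3 : W = U := by
    refine hU.2.2 W hW (closure_subset' ?_ hX) ?_
    · rintro _ ⟨w, hw, rfl⟩
      exact h1 hw
    · intro x hx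
      refine subset_closure' _ ⟨Sum.elim (fun _ => 0) x, h2 ?_, Sum.elim_comp_inr _ _⟩
      change Sum.elim (fun _ => 0) x ∘ Sum.inr ∈ U
      rw [Sum.elim_comp_inr]
      exact hx
  change z ∘ Sum.inr ∈ U
  rw [← h3]
  exact subset_closure' _ ⟨z, hz, rfl⟩

/-- special sets with free coordinates -/
theorem fib_special [Fintype ι] [Fintype m] {Z : Set (ι → ℂ)} (hZ : IsSpecial Z) :
    IsSpecial (Fib m Z) := by
  obtain ⟨r, blk, g, s, hb, hg, hs, rfl⟩ := isSpecial_iff.mp hZ
  let blk' : m ⊕ ι → Option (Fin r ⊕ m) := Sum.elim (fun a => some (Sum.inr a))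
    (fun i => (blk i).map Sum.inl)
  let g' : m ⊕ ι → GL (Fin 2) ℚ := Sum.elim (fun _ => 1) g
  let s' : m ⊕ ι → ℍ := Sum.elim (fun _ => UpperHalfPlane.I) s
  have hb' : ∀ β : Fin r ⊕ m, ∃ p, blk' p = some β := by
    rintro (β | b)
    · obtain ⟨i, hi⟩ := hb β
      exact ⟨Sum.inr i, by simp [blk', hi]⟩
    · exact ⟨Sum.inl b, rfl⟩
  have hg' : ∀ p, 0 < (g' p).det.val := by
    rintro (i | p)
    · simp [g']
    · exact hg p
  have hs' : ∀ p, blk' p = none → IsCM (s' p) := by
    rintro (i | p) hp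
    · simp [blk'] at hp
    · apply hs p
      simpa [blk'] using hp
  obtain ⟨blk'', hb'', hs'', h⟩ := isSpecial_mk hb' hg' hs'
  have : Fib m (SpSet blk g s) = SpSet blk' g' s' := by
    ext z
    constructor
    · rintro ⟨τ, hτ⟩
      choose τ' hτ' using fun a : m => j_surj (z (Sum.inl a))
      refine ⟨Sum.elim τ τ', ?_⟩
      rintro (a | i)
      · change z (Sum.inl a) = jInv (gact 1 (τ' a))
        rw [gact_one, hτ']
      · have := hτ i
        rcases hi : blk i with _ | β
        · simpa [blk', g', s', hi] using this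
        · simpa [blk', g', s', hi] using this
    · rintro ⟨τ, hτ⟩
      refine ⟨fun β => τ (Sum.inl β), fun i => ?_⟩
      have := hτ (Sum.inr i)
      rcases hi : blk i with _ | β
      · simpa [blk', g', s', hi] using this
      · simpa [blk', g', s', hi] using this
  rw [this]
  exact isSpecial_iff.mpr ⟨_, blk'', g', s', hb'', hg', hs'', h⟩

/-- slices of `Qb`-closed sets at `Qb`-points -/
theorem slice_kclosed {E : Set (m ⊕ ι → ℂ)} (hE : KClosed E) (μ : m → Qb) :
    KClosed {x : ι → ℂ | Sum.elim (fun a => (μ a : ℂ)) x ∈ E} := by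
  rw [kclosed_iff]
  intro x hx
  refine kclosed_iff.mp hE _ fun p hp => ?_
  let q : MvPolynomial ι Qb := aeval (Sum.elim (fun a => C (μ a)) X) p
  have hq : ∀ y : ι → ℂ, (aeval y q : ℂ) = aeval (Sum.elim (fun a => (μ a : ℂ)) y) p := by
    intro y
    have h : (aeval y : MvPolynomial ι Qb →ₐ[Qb] ℂ).comp
        (aeval (Sum.elim (fun a => C (μ a)) X) : MvPolynomial (m ⊕ ι) Qb →ₐ[Qb] MvPolynomial ι Qb) =
        aeval (Sum.elim (fun a => (μ a : ℂ)) y) := by
      ext i
      rcases i with a | i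
      · simp only [AlgHom.comp_apply, aeval_X, Sum.elim_inl, aeval_C]
        rfl
      · simp
    rw [← h]
    rfl
  rw [← hq]
  apply hx
  rw [mem_vanishingIdeal_iff]
  intro y hy
  rw [hq]
  exact (mem_vanishingIdeal_iff.mp hp) _ hy

/-- **Descent from `ℂ^m × U` to `U`.** -/
theorem concl_of_fib [Fintype ι] [Fintype m] {U : Set (ι → ℂ)} (hU : KClosed U)
    (h : Concl (Fib m U)) : Concl U := by
  classical
  obtain ⟨F, hF, hF'⟩ := h
  have hsl : ∀ E ∈ F, ∃ μ : m → Qb, ¬ U ⊆ {x : ι → ℂ | Sum.elim (fun a => (μ a : ℂ)) x ∈ E} := by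
    intro E hE
    obtain ⟨hEk, hUE⟩ := hF E hE
    obtain ⟨p, hp, hpU⟩ : ∃ p : MvPolynomial (m ⊕ ι) Qb, p ∈ vanishingIdeal Qb E ∧
        p ∉ vanishingIdeal Qb (Fib m U) := by
      by_contra hcon
      push Not at hcon
      apply hUE
      have h1 : kcl (Fib m U) ⊆ kcl E := zeroLocus_anti_mono hcon
      exact (subset_kcl _).trans (h1.trans (kcl_subset hEk subset_rfl))
    obtain ⟨z, hz, hne⟩ := exists_Qb_point (hU.preimage : KClosed (Fib m U)) hpU
    refine ⟨z ∘ Sum.inl, fun hcon => ?_⟩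
    have h1 := hcon hz
    have h2 : (Sum.elim (fun a => ((z ∘ Sum.inl) a : ℂ))
        ((fun i => (z i : ℂ)) ∘ Sum.inr)) = fun i => (z i : ℂ) := by
      funext i
      rcases i with a | i <;> rfl
    change Sum.elim _ _ ∈ E at h1
    rw [h2] at h1
    have h3 := (mem_vanishingIdeal_iff.mp hp) _ h1
    rw [aeval_coe] at h3
    exact hne (by exact_mod_cast h3)
  choose! μ hμ using hsl
  refine ⟨F.image fun E => {x : ι → ℂ | Sum.elim (fun a => (μ E a : ℂ)) x ∈ E}, ?_, ?_⟩
  · intro Y hY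
    obtain ⟨E, hE, rfl⟩ := Finset.mem_image.mp hY
    exact ⟨slice_kclosed (hF E hE).1 _, hμ E hE⟩
  · intro Z W hZ hW hWU hWZ hlt
    obtain ⟨E, hE, hWE⟩ := hF' (Fib m Z) (Fib m W) (fib_special hZ) (fib_irred hW)
      (fun z hz => hWU hz) (fun z hz => hWZ hz) (by
        obtain ⟨r, blk, g, s, hb, hg, hs, rfl⟩ := isSpecial_iff.mp hZ
        obtain ⟨r', blk', g', s', hb', hg', hs', h'⟩ := isSpecial_iff.mp (fib_special (m := m) hZ)
        have hd := dim_fib (m := m) (SpSet blk g s)
        rw [h', dim_spSet hb' hg', dim_spSet hb hg, Fintype.card_fin, Fintype.card_fin] at hd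
        rw [h', dim_spSet hb' hg', Fintype.card_fin, dim_fib, dim_fib, Fintype.card_sum]
        rw [dim_spSet hb hg, Fintype.card_fin] at hlt
        obtain ⟨dW, hdW, -⟩ := exists_dim hW
        rw [hdW] at hlt ⊢
        have hU0 : dim U ≠ ⊥ := by
          obtain ⟨w, hw⟩ := irred_nonempty hW
          intro h0
          have h1 : dim {w} ≤ dim U := dim_mono (Set.singleton_subset_iff.mpr (hWU hw))
          obtain ⟨d1, hd1, -⟩ := exists_dim (irredClosed_singleton w)
          rw [h0, hd1] at h1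
          simp at h1
        have hU1 : dim U ≤ (Fintype.card ι : ℕ) := by
          rw [← dim_univ]
          exact dim_mono (Set.subset_univ _)
        obtain ⟨dU, hdU⟩ : ∃ d : ℕ, dim U = d := by
          revert hU0 hU1
          generalize dim U = a
          intro h0 h1
          rcases a with _ | a
          · exact absurd rfl h0
          · rcases a with _ | a
            · exfalso
              have h2 : (⊤ : WithBot ℕ∞) ≤ ((Fintype.card ι : ℕ) : WithBot ℕ∞) := h1
              rw [top_le_iff] at h2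
              exact absurd h2 (by
                intro h3
                have h4 : ((Fintype.card ι : ℕ∞) : WithBot ℕ∞) = ((⊤ : ℕ∞) : WithBot ℕ∞) := h3
                exact ENat.natCast_ne_top _ (WithBot.coe_injective h4))
            · exact ⟨a, rfl⟩
        rw [hdU] at hlt ⊢
        have h1 : r + dU < dW + Fintype.card ι := by exact_mod_cast hlt
        have h2 : r' = r + Fintype.card m := by exact_mod_cast hd
        have h3 : r' + (dU + Fintype.card m) <
            dW + Fintype.card m + (Fintype.card m + Fintype.card ι) := by omega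
        exact_mod_cast h3)
    refine ⟨_, Finset.mem_image_of_mem _ hE, fun x hx => hWE ?_⟩
    change Sum.elim _ x ∘ Sum.inr ∈ W
    rw [Sum.elim_comp_inr]
    exact hx

end Pool.Agent.Hhelper14.ZPL
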