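import Pool.Agent.Hhelper14.ZPL.Span

/-!
# Choice of the affine forms
-/

namespace Pool.Agent.Hhelper14.ZPL

open MvPolynomial Pool.Agent.Hhelper14.ZP

/-- the inverses of distinct primes are separated by valuations -/
theorem sep_primes {p q : ℕ} (hp : p.Prime) (hq : q.Prime) (hpq : p ≠ q) :
    ∃ V : ValuationSubring ℂ, (p : ℂ)⁻¹ ∉ V ∧ (q : ℂ)⁻¹ ∈ V := by
  obtain ⟨V, hV⟩ := exists_val hp
  refine ⟨V, ?_, ?_⟩
  · rw [← V.valuation_le_one_iff, map_inv₀, not_le]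
    have h0 : V.valuation (p : ℂ) ≠ 0 := by
      rw [Valuation.ne_zero_iff]
      exact_mod_cast hp.ne_zero
    exact (one_lt_inv₀ (zero_lt_iff.mpr h0)).mpr hV
  · have hcop : IsCoprime (p : ℤ) (q : ℤ) := by
      rw [Nat.isCoprime_iff_coprime]
      exact (Nat.coprime_primes hp hq).mpr hpq
    obtain ⟨u, v, huv⟩ := hcop
    have h1 : (u : ℂ) * p + v * q = 1 := by exact_mod_cast huv
    have h2 : V.valuation ((v : ℂ) * q) = 1 := by
      have h3 : (v : ℂ) * q = 1 - u * p := by rw [← h1]; ring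
      rw [h3]
      apply Valuation.map_one_sub_of_lt
      rw [map_mul]
      calc V.valuation (u : ℂ) * V.valuation (p : ℂ) ≤ 1 * V.valuation (p : ℂ) := by
            gcongr
            exact val_int_le V u
        _ < 1 := by rw [one_mul]; exact hV
    have h3 : V.valuation (q : ℂ) ≤ 1 := by
      exact val_int_le V (q : ℤ)
    have h4 : (1 : _) ≤ V.valuation (q : ℂ) := by
      calc (1 : _) = V.valuation (v : ℂ) * V.valuation (q : ℂ) := by rw [← map_mul, h2]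
        _ ≤ 1 * V.valuation (q : ℂ) := by
            gcongr
            exact val_int_le V v
        _ = V.valuation (q : ℂ) := one_mul _
    rw [← V.valuation_le_one_iff, map_inv₀]
    exact inv_le_one_of_one_le₀ h4

theorem exists_notMem_prime {p : ℕ} (hp : p.Prime) : ∃ V : ValuationSubring ℂ, (p : ℂ)⁻¹ ∉ V := by
  obtain ⟨q, hqp, hq⟩ := Nat.exists_infinite_primes (p + 1)
  obtain ⟨V, hV, -⟩ := sep_primes hp hq (by omega)
  exact ⟨V, hV⟩

/-- primes whose inverse is not separated from `z` -/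
def badP (z : ℂ) : Set ℕ := {p | p.Prime ∧ ∀ V : ValuationSubring ℂ, (z ∈ V ↔ (p : ℂ)⁻¹ ∈ V)}

theorem badP_finite (z : ℂ) : (badP z).Finite := by
  apply Set.Subsingleton.finite
  rintro p ⟨hp, hp'⟩ q ⟨hq, hq'⟩
  by_contra hpq
  obtain ⟨V, hV1, hV2⟩ := sep_primes hp hq hpq
  exact hV1 ((hp' V).mp ((hq' V).mpr hV2))

variable {ι : Type} [Fintype ι]

theorem eval_lin (ℓ : ι → ℕ) (x : ι → ℂ) : eval x (lin ℓ) = ∑ i, (ℓ i : ℂ) * x i := by
  simp [lin]

theorem exists_forms {c : ℕ} (f : Fin c → MvPolynomial ι ℂ) (x0 x1 x2 : ι → ℂ) (h12 : x1 ≠ x2)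
    (h : Polynomial ℂ) {N : ℕ} (hN : h.natDegree = N) (hN0 : 0 < N)
    (hf : ∀ k, (f k).totalDegree ≤ N) :
    ∃ (B : Type) (_ : Fintype B) (cst : B → ℂ) (ell : B → ι → ℂ) (a : Fin c → B → ℂ) (p : B → ℕ),
      (∀ k x, eval x (f k) = ∑ b, a k b * h.eval (cst b + ∑ i, ell b i * x i)) ∧
      (∀ b, cst b + ∑ i, ell b i * x1 i ≠ cst b + ∑ i, ell b i * x2 i) ∧
      Function.Injective p ∧ (∀ b, (p b).Prime) ∧
      (∀ b, cst b + ∑ i, ell b i * x0 i = (p b : ℂ)⁻¹) ∧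
      (∀ b i, ∃ V : ValuationSubring ℂ, ¬ (x0 i ∈ V ↔ (p b : ℂ)⁻¹ ∈ V)) := by
  classical
  let w : ι → ℂ := x1 - x2
  have hw : w ≠ 0 := sub_ne_zero.mpr h12
  let D := {ℓ : ι → ℕ // GoodL w ℓ} × ℕ
  let G : Set ℕ := {p | p.Prime} \ ⋃ i, badP (x0 i)
  have hG : G.Infinite := Nat.infinite_setOfPred_prime.sdiff (Set.finite_iUnion fun i => badP_finite _)
  have : Infinite G := hG.to_subtype
  obtain ⟨e, he⟩ := Countable.exists_injective_nat D
  let φ : D → ℕ := fun d => (Infinite.natEmbedding G (e d) : G)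
  have hφinj : Function.Injective φ := fun d d' hd =>
    he ((Infinite.natEmbedding G).injective (Subtype.ext hd))
  have hφG : ∀ d, φ d ∈ G := fun d => (Infinite.natEmbedding G (e d)).2
  let sh : D → ℂ := fun d => (φ d : ℂ)⁻¹ - ∑ i, (d.1.1 i : ℂ) * x0 i
  let F : D → MvPolynomial ι ℂ := fun d => Polynomial.aeval (lin d.1.1 + C (sh d)) h
  have hmem : ∀ k, f k ∈ Submodule.span ℂ (Set.range F) := by
    intro k
    refine mem_span_forms hN hN0 hw ?_ (f k) (hf k)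
    intro ℓ hℓ
    refine ⟨Set.range fun j : ℕ => sh (⟨ℓ, hℓ⟩, j), Set.infinite_range_of_injective ?_, ?_⟩
    · intro j j' hj
      have h1 : ((φ (⟨ℓ, hℓ⟩, j) : ℕ) : ℂ)⁻¹ = ((φ (⟨ℓ, hℓ⟩, j') : ℕ) : ℂ)⁻¹ := by
        simpa [sh] using hj
      have h2 := hφinj (Nat.cast_injective (inv_injective h1))
      exact (Prod.ext_iff.mp h2).2
    · rintro _ ⟨j, rfl⟩
      exact Submodule.subset_span ⟨(⟨ℓ, hℓ⟩, j), rfl⟩
  simp only [Finsupp.mem_span_range_iff_exists_finsupp] at hmem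
  choose A hA using hmem
  let T : Finset D := Finset.univ.biUnion fun k => (A k).support
  refine ⟨T, inferInstance, fun b => sh b.1, fun b i => (b.1.1.1 i : ℂ), fun k b => A k b.1,
    fun b => φ b.1, ?_, ?_, ?_, ?_, ?_, ?_⟩
  · intro k x
    have h1 : f k = ∑ d ∈ T, A k d • F d := by
      rw [← hA k]
      exact Finsupp.sum_of_support_subset _ (Finset.subset_biUnion_of_mem
        (fun k => (A k).support) (Finset.mem_univ k)) _ (fun _ _ => zero_smul _ _)
    rw [h1, map_sum, ← Finset.sum_coe_sort T]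
    refine Finset.sum_congr rfl fun b _ => ?_
    rw [MvPolynomial.smul_eval]
    congr 1
    have h2 := Polynomial.aeval_algHom_apply (aeval x : MvPolynomial ι ℂ →ₐ[ℂ] ℂ)
      (lin b.1.1.1 + C (sh b.1)) h
    have h3 : (aeval x : MvPolynomial ι ℂ →ₐ[ℂ] ℂ) (lin b.1.1.1 + C (sh b.1)) =
        sh b.1 + ∑ i, (b.1.1.1 i : ℂ) * x i := by
      change eval x (lin b.1.1.1 + C (sh b.1)) = _
      rw [map_add, eval_lin, eval_C, add_comm]
    rw [h3, Polynomial.coe_aeval_eq_eval] at h2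
    rw [h2]
    rfl
  · intro b hb
    have h1 := b.1.1.2
    apply h1
    have h2 : ∑ i, (b.1.1.1 i : ℂ) * w i =
        (sh b.1 + ∑ i, (b.1.1.1 i : ℂ) * x1 i) - (sh b.1 + ∑ i, (b.1.1.1 i : ℂ) * x2 i) := by
      rw [add_sub_add_left_eq_sub, ← Finset.sum_sub_distrib]
      refine Finset.sum_congr rfl fun i _ => ?_
      simp only [w, Pi.sub_apply]
      ring
    rw [h2, sub_eq_zero]
    exact hb
  · intro b b' hb
    exact Subtype.ext (hφinj hb)
  · intro b
    exact (hφG b.1).1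
  · intro b
    simp [sh]
  · intro b i
    by_contra hcon
    push Not at hcon
    refine (hφG b.1).2 (Set.mem_iUnion.mpr ⟨i, (hφG b.1).1, fun V => ?_⟩)
    have := hcon V
    tauto

end Pool.Agent.Hhelper14.ZPL
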