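import Pool.Agent.Hhelper14.ZP.Special

/-!
# Surjectivity of `j`, and the Hecke correspondence `T₂`
-/

namespace Pool.Agent.Hhelper14.ZPL

open UpperHalfPlane MvPolynomial Pool.Agent.Hhelper14.ZP MatrixGroups
open scoped Manifold

/-- `j` is surjective -/
theorem j_surj (z : ℂ) : ∃ τ : ℍ, jInv τ = z := by
  by_contra hcon
  push Not at hcon
  obtain ⟨J, hJ, hJ0, hJτ⟩ := exists_J
  have hne : ∀ τ : ℍ, jInv τ - z ≠ 0 := fun τ h => hcon τ (sub_eq_zero.mp h)
  let f : ℍ → ℂ := fun τ => (jInv τ - z)⁻¹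
  have hmd : MDiff f := by
    have h1 : MDiff (fun τ : ℍ => jInv τ - z) := jInv_mdiff.sub mdifferentiable_const
    rw [UpperHalfPlane.mdifferentiable_iff] at h1 ⊢
    intro w hw
    have h2 := (h1 w hw).inv (by
      have := hne (ofComplex w)
      simpa using this)
    exact h2
  have hinv : ∀ (γ : SL(2, ℤ)) (τ : ℍ), f (γ • τ) = f τ := fun γ τ => by
    simp only [f, jInv_smul]
  -- limit zero at infinity
  have hq : Filter.Tendsto (fun τ : ℍ => Function.Periodic.qParam 1 (τ : ℂ)) atImInfty (nhds 0) :=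
    qParam_tendsto_atImInfty one_pos
  have hlim : Filter.Tendsto f atImInfty (nhds 0) := by
    have h1 : Filter.Tendsto (fun τ : ℍ => (J (Function.Periodic.qParam 1 τ) -
        z * Function.Periodic.qParam 1 (τ : ℂ))) atImInfty (nhds (J 0 - z * 0)) :=
      (hJ.continuousAt_zero.tendsto.comp hq).sub (hq.const_mul z)
    rw [hJ0, mul_zero, sub_zero] at h1
    have h2 := hq.mul (h1.inv₀ one_ne_zero)
    rw [inv_one, mul_one] at h2
    refine h2.congr fun τ => ?_
    have hq0 : Function.Periodic.qParam 1 (τ : ℂ) ≠ 0 := Function.Periodic.qParam_ne_zero _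
    rw [← hJτ τ]
    have h3 : jInv τ * Function.Periodic.qParam 1 (τ : ℂ) - z * Function.Periodic.qParam 1 (τ : ℂ) =
        (jInv τ - z) * Function.Periodic.qParam 1 (τ : ℂ) := by ring
    rw [h3, mul_inv]
    simp only [f]
    field_simp
  obtain ⟨c, hc⟩ := const_of_bounded hmd hinv (hlim.isBigO_one ℝ)
  have hc0 : c = 0 := by
    refine tendsto_nhds_unique ?_ hlim
    exact (tendsto_const_nhds (x := c)).congr fun τ => (hc τ).symm
  have h0 : f (UpperHalfPlane.I) = 0 := by rw [hc, hc0]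
  exact inv_ne_zero (hne _) h0

noncomputable instance : Fintype (QQ 2) :=
  haveI := finite_QQ (N := 2) two_pos
  Fintype.ofFinite _

/-- the matrix `(2 0; 0 1)` -/
def B0 : DD (2 : ℕ) := ⟨!![2, 0; 0, 1], by simp [Matrix.det_fin_two]⟩

theorem rep_entries {B : DD (2 : ℕ)} (hB : B ∈ FixedDetMatrices.reps ((2 : ℕ) : ℤ)) :
    B.1 0 0 = 1 ∨ B = B0 := by
  obtain ⟨h10, h00, h01, h01'⟩ := hB
  have hdet : B.1 0 0 * B.1 1 1 = 2 := by
    have h := B.2
    rw [Matrix.det_fin_two, h10, mul_zero, sub_zero] at h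
    exact h
  have h11 : 0 < B.1 1 1 := by nlinarith
  have hle : B.1 0 0 ≤ 2 := by nlinarith
  have hcase : B.1 0 0 = 1 ∨ B.1 0 0 = 2 := by omega
  rcases hcase with h | h
  · exact Or.inl h
  · right
    have h11' : B.1 1 1 = 1 := by rw [h] at hdet; omega
    have h01'' : B.1 0 1 = 0 := by
      rw [h11', abs_one] at h01'
      have := abs_lt.mp h01'
      omega
    apply Subtype.ext
    ext i j
    fin_cases i <;> fin_cases j <;> simp [B0, h, h10, h11', h01'']

theorem rep_of_class {B : DD (2 : ℕ)} (h : (Quotient.mk'' B : QQ 2) = Quotient.mk'' B0) :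
    B.1 0 0 ≠ 1 := by
  obtain ⟨γ, hγ⟩ := Quotient.exact' h
  intro h1
  have h2 : B.1 0 0 = γ.1 0 0 * 2 := by
    rw [← hγ]
    change (γ • B0).1 0 0 = _
    rw [FixedDetMatrices.smul_coe]
    simp [Matrix.mul_apply, B0]
  omega

theorem B0_mem_reps_act (τ : ℍ) : (act two_pos B0 τ : ℂ) = 2 * τ := by
  rw [coe_act]
  simp [B0]

theorem act_of_one {B : DD (2 : ℕ)} (hB : B ∈ FixedDetMatrices.reps ((2 : ℕ) : ℤ))
    (h1 : B.1 0 0 = 1) (τ : ℍ) : (act two_pos B τ : ℂ) = (τ + (B.1 0 1 : ℂ)) / 2 := by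
  obtain ⟨h10, h00, h01, h01'⟩ := hB
  have hdet : B.1 0 0 * B.1 1 1 = 2 := by
    have h := B.2
    rw [Matrix.det_fin_two, h10, mul_zero, sub_zero] at h
    exact h
  rw [h1, one_mul] at hdet
  rw [coe_act, h10, h1, hdet]
  simp

theorem sgn_sq (b : ℤ) : Complex.exp (Real.pi * Complex.I * (b : ℂ)) ^ 2 = 1 := by
  rw [← Complex.exp_nat_mul, Complex.exp_eq_one_iff]
  exact ⟨b, by push_cast; ring⟩

theorem sgn_mem (b : ℤ) : Complex.exp (Real.pi * Complex.I * (b : ℂ)) ∈ OO := by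
  change IsIntegral ℤ _
  refine IsIntegral.of_pow two_pos ?_
  rw [sgn_sq]
  exact isIntegral_one

theorem sgn_norm (b : ℤ) : ‖Complex.exp (Real.pi * Complex.I * (b : ℂ))‖ = 1 := by
  have h := congrArg norm (sgn_sq b)
  rw [norm_pow, norm_one] at h
  exact (pow_eq_one_iff_of_nonneg (norm_nonneg _) two_ne_zero).mp h

/-- expansions at infinity of the members of `T₂` -/
theorem jQ_expansion (q : QQ 2) : ∃ G : ℂ → ℂ, Good OO G ∧
    (∀ τ : ℍ, jQ two_pos q τ * qN 2 τ ^ 4 = G (qN 2 τ)) ∧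
    (q ≠ Quotient.mk'' B0 → G 0 = 0) ∧ (q = Quotient.mk'' B0 → G 0 ≠ 0) := by
  obtain ⟨J, hJ, hJ0, hJτ⟩ := exists_J
  induction q using Quotient.inductionOn' with
  | h A =>
    obtain ⟨B, hB, γ, rfl⟩ := exists_rep two_pos A
    have hcl : (Quotient.mk'' (γ • B) : QQ 2) = Quotient.mk'' B := Quotient.sound' ⟨γ, rfl⟩
    rw [hcl, jQ_mk]
    rcases rep_entries hB with h | rfl
    · refine ⟨fun z => Complex.exp (Real.pi * Complex.I * (B.1 0 1 : ℂ)) *
        J (Complex.exp (Real.pi * Complex.I * (B.1 0 1 : ℂ)) * z) * z ^ 3, ?_, fun τ => ?_, ?_, ?_⟩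
      · have h1 : Good OO (fun z => J (Complex.exp (Real.pi * Complex.I * (B.1 0 1 : ℂ)) * z)) :=
          hJ.comp_mul (sgn_mem _) (sgn_norm _).le
        exact (h1.const_mul (sgn_mem _)).mul (Good.id.pow 3)
      · set c := Complex.exp (Real.pi * Complex.I * (B.1 0 1 : ℂ)) with hc
        have hc2 : c ^ 2 = 1 := sgn_sq _
        have h1 := hJτ (act two_pos B τ)
        rw [act_of_one hB h] at h1
        have h2 : Function.Periodic.qParam 1 (((τ : ℂ) + (B.1 0 1 : ℂ)) / 2) = c * qN 2 τ := by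
          simp only [qN, Function.Periodic.qParam, hc]
          rw [← Complex.exp_add]
          congr 1
          push_cast
          ring
        rw [h2] at h1
        dsimp only
        rw [← h1, jA]
        linear_combination (- jInv (act two_pos B τ) * qN 2 τ ^ 4) * hc2
      · intro _
        simp
      · intro h2
        exact absurd h (rep_of_class h2)
    · refine ⟨fun z => J (z ^ 4), hJ.comp_pow (by norm_num), fun τ => ?_, fun h => absurd rfl h, ?_⟩
      · have h1 := hJτ (act two_pos B0 τ)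
        rw [B0_mem_reps_act] at h1
        have h2 : Function.Periodic.qParam 1 (2 * (τ : ℂ)) = qN 2 τ ^ 4 := by
          simp only [qN, Function.Periodic.qParam]
          rw [← Complex.exp_nat_mul]
          congr 1
          push_cast
          ring
        rw [h2] at h1
        exact h1
      · intro _
        simp [hJ0]

/-- **The Hecke correspondence `T₂`**: the sum of `j` over the `2`-isogenous points is a quadratic
polynomial in `j`. -/
theorem hecke_two : ∃ u β γ : ℂ, u ≠ 0 ∧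
    ∀ τ : ℍ, ∑ q : QQ 2, jQ two_pos q τ = u * jInv τ ^ 2 + β * jInv τ + γ := by
  classical
  obtain ⟨J, hJ, hJ0, hJτ⟩ := exists_J
  choose G hG hGτ hG0 hG1 using jQ_expansion
  have hmem : (fun τ : ℍ => ∑ q : QQ 2, jQ two_pos q τ) ∈ RR 2 := by
    have h1 : (∑ q : QQ 2, jQ two_pos q) ∈ RR 2 := Subring.sum_mem _ fun q _ => jQ_mem two_pos q
    convert! h1 using 1
    funext τ
    simp
  have hgood : ∀ s : Finset (QQ 2), Good OO (fun z => ∑ q ∈ s, G q z) := by
    intro s
    induction s using Finset.induction_on with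
    | empty => simpa using Good.const (O := OO) OO.zero_mem
    | insert a s ha ih =>
      simp only [Finset.sum_insert ha]
      exact (hG a).add ih
  have hF : ∀ τ : ℍ, (∑ q : QQ 2, jQ two_pos q τ) * qN 2 τ ^ 4 = ∑ q : QQ 2, G q (qN 2 τ) := by
    intro τ
    rw [Finset.sum_mul]
    exact Finset.sum_congr rfl fun q _ => hGτ q τ
  have hF0 : ∑ q : QQ 2, G q 0 ≠ 0 := by
    rw [Finset.sum_eq_single (Quotient.mk'' B0 : QQ 2)]
    · exact hG1 _ rfl
    · intro q _ hq
      exact hG0 q hq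
    · intro h
      exact absurd (Finset.mem_univ _) h
  have hinv : ∀ (γ : SL(2, ℤ)) (τ : ℍ), (∑ q : QQ 2, jQ two_pos q (γ • τ)) =
      ∑ q : QQ 2, jQ two_pos q τ := by
    intro γ τ
    have h := Function.Bijective.sum_comp (rQ_bijective two_pos γ) (fun q => jQ two_pos q τ)
    rw [← h]
    refine Finset.sum_congr rfl fun q _ => ?_
    rw [jQ_rQ]
  obtain ⟨P, hP1, -, hP⟩ := exists_poly (N := 2) two_pos 4 _ _ hmem.1 hinv (hgood Finset.univ) hF
  have hdeg : P.natDegree ≤ 2 := by omega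
  have hPe : ∀ τ : ℍ, ∑ q : QQ 2, jQ two_pos q τ =
      (P.coeff 2 : ℂ) * jInv τ ^ 2 + (P.coeff 1 : ℂ) * jInv τ + (P.coeff 0 : ℂ) := by
    intro τ
    rw [hP τ, Polynomial.eval₂_eq_sum_range' _ (show P.natDegree < 3 by omega)]
    simp only [Finset.sum_range_succ, Finset.sum_range_zero]
    simp only [Subring.subtype_apply]
    ring
  refine ⟨P.coeff 2, P.coeff 1, P.coeff 0, ?_, hPe⟩
  -- the leading coefficient
  have hq : Filter.Tendsto (fun τ : ℍ => Function.Periodic.qParam 1 (τ : ℂ)) atImInfty (nhds 0) :=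
    qParam_tendsto_atImInfty one_pos
  have hJl : Filter.Tendsto (fun τ : ℍ => J (Function.Periodic.qParam 1 τ)) atImInfty (nhds 1) := by
    have := hJ.continuousAt_zero.tendsto.comp hq
    rwa [hJ0] at this
  have h1 : Filter.Tendsto (fun τ : ℍ => ∑ q : QQ 2, G q (qN 2 τ)) atImInfty
      (nhds (∑ q : QQ 2, G q 0)) :=
    (hgood Finset.univ).continuousAt_zero.tendsto.comp (qN_tendsto two_pos)
  have h2 : Filter.Tendsto (fun τ : ℍ => (P.coeff 2 : ℂ) * J (Function.Periodic.qParam 1 τ) ^ 2 +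
      (P.coeff 1 : ℂ) * (J (Function.Periodic.qParam 1 τ) * Function.Periodic.qParam 1 (τ : ℂ)) +
      (P.coeff 0 : ℂ) * Function.Periodic.qParam 1 (τ : ℂ) ^ 2) atImInfty
      (nhds ((P.coeff 2 : ℂ) * 1 ^ 2 + (P.coeff 1 : ℂ) * (1 * 0) + (P.coeff 0 : ℂ) * 0 ^ 2)) :=
    (((hJl.pow 2).const_mul _).add ((hJl.mul hq).const_mul _)).add ((hq.pow 2).const_mul _)
  have h3 := tendsto_nhds_unique h1 (h2.congr fun τ => by
    rw [← hF τ, hPe τ, ← hJτ τ, show qN 2 τ ^ 4 = (qN 2 τ ^ 2) ^ 2 by ring, qN_pow two_pos]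
    ring)
  intro h0
  rw [h0] at h3
  apply hF0
  rw [h3]
  ring

end Pool.Agent.Hhelper14.ZPL
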