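import Pool.Agent.Hhelper14.ZPL.Key

/-!
# Linear subspaces suffice
-/

namespace Pool.Agent.Hhelper14.ZPL

open UpperHalfPlane MvPolynomial Pool.Agent.Hhelper14.ZP

theorem exists_gl_jQ {N : ℕ} (hN : 0 < N) (q : QQ N) :
    ∃ g : GL (Fin 2) ℚ, 0 < g.det.val ∧ ∀ τ : ℍ, jInv (gact g τ) = jQ hN q τ := by
  induction q using Quotient.inductionOn' with
  | h A =>
    let G : Matrix (Fin 2) (Fin 2) ℚ := A.1.map (Int.castRingHom ℚ)
    have hdet : G.det = N := by
      have h1 : G.det = ((A.1.det : ℤ) : ℚ) := by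
        rw [show G = (Int.castRingHom ℚ).mapMatrix A.1 from rfl, ← RingHom.map_det]
        rfl
      rw [h1, A.2, Int.cast_natCast]
    have hdet0 : G.det ≠ 0 := by
      rw [hdet]
      exact_mod_cast hN.ne'
    refine ⟨Matrix.GeneralLinearGroup.mkOfDetNeZero G hdet0, ?_, fun τ => ?_⟩
    · change 0 < G.det
      rw [hdet]
      exact_mod_cast hN
    · rw [jQ_mk, jA]
      have hpos : 0 < (Matrix.GeneralLinearGroup.mkOfDetNeZero G hdet0).det.val := by
        change 0 < G.det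
        rw [hdet]
        exact_mod_cast hN
      have h2 : gact (Matrix.GeneralLinearGroup.mkOfDetNeZero G hdet0) τ = act hN A τ := by
        apply UpperHalfPlane.ext
        rw [coe_gact hpos, coe_act]
        change (((G 0 0 : ℚ) : ℂ) * _ + ((G 0 1 : ℚ) : ℂ)) /
          (((G 1 0 : ℚ) : ℂ) * _ + ((G 1 1 : ℚ) : ℂ)) = _
        simp only [G, Matrix.map_apply, eq_intCast, Rat.cast_intCast]
      rw [h2]

/-- existence of a separated encoding -/
theorem exists_enc {ι : Type} [Fintype ι] {c : ℕ} (f : Fin c → MvPolynomial ι ℂ)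
    (x0 x1 x2 : ι → ℂ) (h12 : x1 ≠ x2) :
    ∃ E : Enc ι c, (∀ k x, eval x (f k) = E.eqn x k) ∧ E.Sep x0 x1 x2 := by
  classical
  let N : ℕ := (Finset.univ.sup fun k => (f k).totalDegree) + 1
  have hN : 0 < N := Nat.succ_pos _
  have hf : ∀ k, (f k).totalDegree ≤ N := fun k =>
    (Finset.le_sup (f := fun k => (f k).totalDegree) (Finset.mem_univ k)).trans (Nat.le_succ _)
  have := finite_QQ hN
  let _ : Fintype (QQ N) := Fintype.ofFinite _
  obtain ⟨P, hP, hPτ⟩ := hecke hN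
  obtain ⟨B, fB, cst, ell, a, p, h1, h2, h3, h4, h5, h6⟩ := exists_forms f x0 x1 x2 h12 P hP hN hf
  choose M hM hMτ using exists_gl_jQ hN
  let E : Enc ι c :=
    { B := B
      Q := QQ N
      M := fun q => q.elim 1 M
      hM := fun q => by
        rcases q with _ | q
        · simp
        · exact hM q
      M0 := rfl
      P := P
      hP := fun τ => by
        rw [← hPτ]
        exact Finset.sum_congr rfl fun q _ => hMτ q τ
      cst := cst
      ell := ell
      a := a }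
  have hval : ∀ b, E.val x0 b = (p b : ℂ)⁻¹ := h5
  refine ⟨E, h1, ⟨fun b => ?_, fun b b' hbb => ?_, fun b i => ?_, h2⟩⟩
  · rw [hval]
    exact exists_notMem_prime (h4 b)
  · rw [hval, hval]
    obtain ⟨V, hV1, hV2⟩ := sep_primes (h4 b) (h4 b') (fun h => hbb (h3 h))
    exact ⟨V, fun h => hV1 (h.mpr hV2)⟩
  · rw [hval]
    exact h6 b i

/-- **The linear case implies the relative finiteness statement.** -/
theorem linear_to_nd
    (hlin : ∀ (ι : Type) [Fintype ι] (L : AffineSubspace ℂ (ι → ℂ)),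
      (MaxAtypical (L : Set (ι → ℂ))).Finite)
    (ι : Type) [Fintype ι] (V : Set (ι → ℂ)) (hV : IsIrredClosed V)
    (hgen : ∀ Z, IsSpecial Z → V ⊆ Z → Z = Set.univ) :
    ∃ F : Finset (Set (ι → ℂ)), (∀ E ∈ F, IsZClosed E ∧ ¬ V ⊆ E) ∧
      ∀ Z W, IsSpecial Z → IsIrredClosed W → W ⊆ V → W ⊆ Z →
        dim Z + dim V < dim W + Fintype.card ι → ∃ E ∈ F, W ⊆ E := by
  classical
  obtain ⟨x0, hx0⟩ := irred_nonempty hV
  obtain ⟨dV, hdV, hdVn⟩ := exists_dim hV
  by_cases hpt : ∀ x ∈ V, x = x0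
  · -- a point
    refine ⟨∅, fun E hE => absurd hE (Finset.notMem_empty E), ?_⟩
    intro Z W hZ hW hWV hWZ hlt
    exfalso
    obtain ⟨w, hw⟩ := irred_nonempty hW
    have hVW : V ⊆ W := by
      intro x hx
      rw [hpt x hx, ← hpt w (hWV hw)]
      exact hw
    have hZu := hgen Z hZ (hVW.trans hWZ)
    have hWV' : W = V := Set.Subset.antisymm hWV hVW
    rw [hZu, hWV', dim_univ, hdV] at hlt
    have : Fintype.card ι + dV < dV + Fintype.card ι := by exact_mod_cast hlt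
    omega
  push Not at hpt
  obtain ⟨x1, hx1, hne⟩ := hpt
  obtain ⟨c, f, hc, hcomp⟩ := exists_ci hV
  obtain ⟨E, hE, hsep⟩ := exists_enc f x0 x1 x0 hne
  have hzero : zeroLocus ℂ (Ideal.span (Set.range f)) = {x | ∀ k, E.eqn x k = 0} := by
    ext x
    rw [zeroLocus_span]
    simp only [Set.mem_ofPred_eq, Set.forall_mem_range]
    refine forall_congr' fun k => ?_
    rw [← hE]
    rfl
  rw [hzero] at hcomp
  have hVeqn : ∀ x ∈ V, ∀ k, E.eqn x k = 0 := fun x hx => hcomp.2.1 hx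
  -- lifts
  have hXclosed : ∀ W : Set (ι → ℂ), IsZClosed W →
      IsZClosed (((E.L : Set (E.J → ℂ)) ∩ E.Z1) ∩ {z | z ∘ Sum.inl ∈ W}) := fun W hW =>
    closed_inter (closed_inter E.L_closed E.Z1_closed) (closed_preimage hW)
  -- a closed set mapping onto `W` contains an irreducible one
  have hcover : ∀ (W : Set (ι → ℂ)) (X : Set (E.J → ℂ)), IsIrredClosed W → IsZClosed X →
      X ⊆ (E.L : Set (E.J → ℂ)) ∩ E.Z1 → W ⊆ proj (Sum.inl : ι → E.J) X →
      ∃ D, IsIrredClosed D ∧ D ⊆ X ∧ W ⊆ proj (Sum.inl : ι → E.J) D := by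
    intro W X hW hX hXLZ hWX
    obtain ⟨F, hF, hF'⟩ := exists_components hX
    obtain ⟨D', hD', hWD'⟩ := irred_cover hW (F.image fun D => proj (Sum.inl : ι → E.J) D)
      (fun Y hY => by
        obtain ⟨D, hD, rfl⟩ := Finset.mem_image.mp hY
        exact (E.intOver.mono ((hF D hD).2.1.trans hXLZ)).closed (hF D hD).1.2)
      (fun x hx => by
        obtain ⟨z, hz, hzx⟩ := hWX hx
        obtain ⟨D, hD, hzD⟩ := hF' {z} (irredClosed_singleton z) (Set.singleton_subset_iff.mpr hz)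
        exact ⟨_, Finset.mem_image_of_mem _ hD, ⟨z, hzD rfl, hzx⟩⟩)
    obtain ⟨D, hD, rfl⟩ := Finset.mem_image.mp hD'
    exact ⟨D, (hF D hD).1, (hF D hD).2.1, hWD'⟩
  have hXcover : ∀ W : Set (ι → ℂ), W ⊆ V → W ⊆ proj (Sum.inl : ι → E.J)
      (((E.L : Set (E.J → ℂ)) ∩ E.Z1) ∩ {z | z ∘ Sum.inl ∈ W}) := by
    intro W hWV x hx
    obtain ⟨z, h1, h2, h3⟩ := E.exists_lift (hVeqn x (hWV hx))
    refine ⟨z, ⟨⟨h1, h2⟩, ?_⟩, h3⟩
    change z ∘ Sum.inl ∈ W
    rw [h3]
    exact hx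
  -- the subspace is irreducible
  have hLne : ((E.L : Set (E.J → ℂ))).Nonempty := by
    obtain ⟨z, h1, -, -⟩ := E.exists_lift (hVeqn x0 hx0)
    exact ⟨z, h1⟩
  have hLirr : IsIrredClosed (E.L : Set (E.J → ℂ)) := ⟨affine_irred E.L hLne, E.L_closed⟩
  obtain ⟨dL, hdL, -⟩ := exists_dim hLirr
  -- the dimension of the subspace
  have hLge : Fintype.card E.J ≤ dL + (Fintype.card E.B + c) := by
    have h1 := krull_cut' (irredClosed_univ (ι := E.J)) E.lin (Y := (E.L : Set (E.J → ℂ)))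
      ⟨hLirr, by rw [Set.univ_inter, ← E.L_eq], fun C' hC' h1 h2 => by
        rw [Set.univ_inter, ← E.L_eq] at h1
        exact Set.Subset.antisymm h1 h2⟩
    rw [dim_univ, hdL, Fintype.card_sum (α := E.B), Fintype.card_fin] at h1
    exact_mod_cast h1
  have hLle : dL + (Fintype.card E.B + c) ≤ Fintype.card E.J := by
    obtain ⟨D, hD, hDX, hVD⟩ := hcover V _ hV (hXclosed V hV.2) Set.inter_subset_left
      (hXcover V subset_rfl)
    have h1 := E.key hV hgen hcomp hc hx0 hx1 hx0 hsep special_univ hLirr hD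
      (hDX.trans (Set.inter_subset_left.trans Set.inter_subset_left)) subset_rfl
      (Set.subset_univ _) (hDX.trans (Set.inter_subset_left.trans Set.inter_subset_right)) hVD
    rw [dim_univ, hdL] at h1
    exact_mod_cast h1
  have hfin := hlin E.J E.L
  let XV : Set (E.J → ℂ) := ((E.L : Set (E.J → ℂ)) ∩ E.Z1) ∩ {z | z ∘ Sum.inl ∈ V}
  refine ⟨hfin.toFinset.image fun A => proj (Sum.inl : ι → E.J) (A ∩ XV), ?_, ?_⟩
  · intro Y hY
    obtain ⟨A, hA, rfl⟩ := Finset.mem_image.mp hY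
    obtain ⟨hAat, -⟩ := hfin.mem_toFinset.mp hA
    obtain ⟨T, hT, hAc, hlt⟩ := hAat
    have hcl : IsZClosed (A ∩ XV) := closed_inter hAc.1.2 (hXclosed V hV.2)
    have hsub : A ∩ XV ⊆ (E.L : Set (E.J → ℂ)) ∩ E.Z1 :=
      Set.inter_subset_right.trans Set.inter_subset_left
    refine ⟨(E.intOver.mono hsub).closed hcl, fun hVA => ?_⟩
    obtain ⟨D, hD, hDX, hVD⟩ := hcover V _ hV hcl hsub hVA
    have h1 := E.key hV hgen hcomp hc hx0 hx1 hx0 hsep hT hAc.1 hD
      (hDX.trans Set.inter_subset_left) (fun z hz => (hAc.2.1 hz).1) (fun z hz => (hAc.2.1 hz).2)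
      (fun z hz => (hsub (hDX hz)).2) hVD
    obtain ⟨dA, hdA, -⟩ := exists_dim hAc.1
    obtain ⟨r, blk, g, s, hb, hg, hs, rfl⟩ := isSpecial_iff.mp hT
    rw [dim_spSet hb hg, Fintype.card_fin] at h1 hlt
    rw [hdA] at h1 hlt
    rw [hdL] at hlt
    have h2 : dA + (Fintype.card E.B + c) ≤ r := by exact_mod_cast h1
    have h3 : r + dL < dA + Fintype.card E.J := by exact_mod_cast hlt
    omega
  · intro Z W hZ hW hWV hWZ hlt
    obtain ⟨D, hD, hDX, hWD⟩ := hcover W _ hW (hXclosed W hW.2) Set.inter_subset_left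
      (hXcover W hWV)
    obtain ⟨Z', hZ', hZ'eq, hdimZ'⟩ := E.special_lift hZ
    have hDZ' : D ⊆ (E.L : Set (E.J → ℂ)) ∩ Z' := by
      intro z hz
      obtain ⟨⟨h1, h2⟩, h3⟩ := hDX hz
      refine ⟨h1, ?_⟩
      rw [hZ'eq]
      exact ⟨hWZ h3, h2⟩
    obtain ⟨C', hC', hDC'⟩ := exists_comp_ge
      (closed_inter E.L_closed (special_closed hZ')) hD hDZ'
    have hWdim : dim W ≤ dim C' := by
      have hDint : IntOver (Sum.inl : ι → E.J) D :=
        E.intOver.mono (hDX.trans Set.inter_subset_left)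
      calc dim W ≤ dim (proj (Sum.inl : ι → E.J) D) := dim_mono hWD
        _ = dim D := hDint.dim_eq
        _ ≤ dim C' := dim_mono hDC'
    have hat : IsAtypical (E.L : Set (E.J → ℂ)) C' := by
      refine ⟨Z', hZ', hC', ?_⟩
      obtain ⟨r, blk, g, s, hb, hg, hs, rfl⟩ := isSpecial_iff.mp hZ
      obtain ⟨dW, hdW, -⟩ := exists_dim hW
      obtain ⟨dC, hdC, -⟩ := exists_dim hC'.1
      rw [hdimZ', dim_spSet hb hg, Fintype.card_fin, hdL, hdC]
      rw [dim_spSet hb hg, Fintype.card_fin, hdV, hdW] at hlt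
      rw [hdW, hdC] at hWdim
      rw [hdV] at hc
      have h1 : r + dV < dW + Fintype.card ι := by exact_mod_cast hlt
      have h2 : dW ≤ dC := by exact_mod_cast hWdim
      have h3 : dV + c = Fintype.card ι := by exact_mod_cast hc
      have h4 : r + Fintype.card E.B + dL < dC + Fintype.card E.J := by omega
      exact_mod_cast h4
    obtain ⟨A, hA, hC'A⟩ := exists_maxAtypical hat
    refine ⟨_, Finset.mem_image_of_mem _ (hfin.mem_toFinset.mpr hA), hWD.trans ?_⟩
    refine Set.image_mono fun z hz => ⟨hC'A (hDC' hz), ?_⟩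
    exact ⟨(hDX hz).1, hWV (hDX hz).2⟩

end Pool.Agent.Hhelper14.ZPL
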