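import Pool.Agent.Hhelper78.ZPL.Wrap
import Pool.Agent.Hhelper14.ZPL.Main

/-!
# Isogenous values of `j`
-/

namespace Pool.Agent.Hhelper14.ZPL

open UpperHalfPlane MvPolynomial Pool.Agent.Hhelper14.ZP MatrixGroups

/-- Hecke translates of points with the same `j`, for rational matrices -/
theorem transfer {g : GL (Fin 2) ℚ} (hg : 0 < g.det.val) {t u : ℍ} (h : jInv t = jInv u) :
    ∃ g' : GL (Fin 2) ℚ, 0 < g'.det.val ∧ jInv (gact g t) = jInv (gact g' u) := by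
  obtain ⟨N, hN, A, hA⟩ := exists_integral hg
  obtain ⟨q, hq⟩ := root_mem hN A h
  obtain ⟨g', hg', hq'⟩ := exists_gl_jQ hN q
  exact ⟨g', hg', by rw [hq', ← hq, hA, jA]⟩

/-- the values `u`, `v` are isogenous -/
def Isog (u v : ℂ) : Prop := ∃ g h : GL (Fin 2) ℚ, 0 < g.det.val ∧ 0 < h.det.val ∧
  ∃ σ : ℍ, u = jInv (gact g σ) ∧ v = jInv (gact h σ)

theorem Isog.mk {g h : GL (Fin 2) ℚ} (hg : 0 < g.det.val) (hh : 0 < h.det.val) (σ : ℍ) :
    Isog (jInv (gact g σ)) (jInv (gact h σ)) := ⟨g, h, hg, hh, σ, rfl, rfl⟩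

theorem Isog.mk1 {h : GL (Fin 2) ℚ} (hh : 0 < h.det.val) (σ : ℍ) :
    Isog (jInv σ) (jInv (gact h σ)) :=
  ⟨1, h, by simp, hh, σ, by rw [gact_one], rfl⟩

theorem Isog.symm {u v : ℂ} (h : Isog u v) : Isog v u := by
  obtain ⟨g, k, hg, hk, σ, h1, h2⟩ := h
  exact ⟨k, g, hk, hg, σ, h2, h1⟩

/-- moving the source -/
theorem transfer' {g h : GL (Fin 2) ℚ} (hg : 0 < g.det.val) (hh : 0 < h.det.val) {σ τ : ℍ}
    (h0 : jInv (gact g σ) = jInv τ) : ∃ k : GL (Fin 2) ℚ, 0 < k.det.val ∧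
      jInv (gact h σ) = jInv (gact k τ) := by
  obtain ⟨k, hk, h1⟩ := transfer (g := h * g⁻¹) (by
    rw [map_mul, Units.val_mul]
    exact mul_pos hh (det_inv_pos hg)) h0
  refine ⟨k, hk, ?_⟩
  rw [← h1, ← gact_mul, inv_mul_cancel_right]

theorem Isog.trans {u v w : ℂ} (h : Isog u v) (h' : Isog v w) : Isog u w := by
  obtain ⟨g, k, hg, hk, σ, h1, h2⟩ := h
  obtain ⟨g', k', hg', hk', σ', h1', h2'⟩ := h'
  obtain ⟨l, hl, h3⟩ := transfer' (g := g') (h := k') hg' hk' (σ := σ') (τ := gact k σ)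
    (by rw [← h1', h2])
  refine ⟨g, l * k, hg, by rw [map_mul, Units.val_mul]; exact mul_pos hl hk, σ, h1, ?_⟩
  rw [h2', h3, gact_mul]

theorem Isog.mem_iff {u v : ℂ} (h : Isog u v) (V : ValuationSubring ℂ) : u ∈ V ↔ v ∈ V := by
  obtain ⟨g, k, hg, hk, σ, rfl, rfl⟩ := h
  rw [gact_mem_iff V hg, gact_mem_iff V hk]

theorem Isog.cm {s : ℍ} (hs : IsCM s) {v : ℂ} (h : Isog (jInv s) v) :
    ∃ s', IsCM s' ∧ v = jInv s' := by
  obtain ⟨g, k, hg, hk, σ, h1, h2⟩ := h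
  obtain ⟨l, hl, h3⟩ := transfer' hg hk (σ := σ) (τ := s) h1.symm
  exact ⟨gact l s, isCM_gact hl hs, by rw [h2, h3]⟩

/-- the Hecke translates of a value are finite in number -/
theorem neighbours_finite {g : GL (Fin 2) ℚ} (hg : 0 < g.det.val) (u : ℂ) :
    {v : ℂ | ∃ τ : ℍ, jInv τ = u ∧ jInv (gact g τ) = v}.Finite := by
  obtain ⟨τ₀, hτ₀⟩ := j_surj u
  obtain ⟨N, hN, A, hA⟩ := exists_integral hg
  have := finite_QQ hN
  refine (Set.finite_range fun q : QQ N => jQ hN q τ₀).subset ?_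
  rintro v ⟨τ, h1, h2⟩
  obtain ⟨q, hq⟩ := root_mem hN A (h1.trans hτ₀.symm)
  exact ⟨q, by rw [← h2, hA]; exact hq.symm⟩

theorem neighbours_finite' {g h : GL (Fin 2) ℚ} (hg : 0 < g.det.val) (hh : 0 < h.det.val)
    (u : ℂ) : {v : ℂ | ∃ σ : ℍ, jInv (gact g σ) = u ∧ jInv (gact h σ) = v}.Finite := by
  refine (neighbours_finite (g := h * g⁻¹) (by
    rw [map_mul, Units.val_mul]
    exact mul_pos hh (det_inv_pos hg)) u).subset ?_
  rintro v ⟨σ, h1, h2⟩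
  exact ⟨gact g σ, h1, by rw [← gact_mul, inv_mul_cancel_right]; exact h2⟩

/-- a coordinate taking finitely many values on an irreducible set is constant -/
theorem const_of_finite {ι : Type} [Finite ι] {D : Set (ι → ℂ)} (hD : IsIrredClosed D) {p : ι}
    {F : Set ℂ} (hF : F.Finite) (h : ∀ z ∈ D, z p ∈ F) : ∃ a, ∀ z ∈ D, z p = a := by
  classical
  let C : ℂ → Set (ι → ℂ) := fun a => {z | z p = a}
  obtain ⟨E, hE, hDE⟩ := irred_cover hD (hF.toFinset.image C) (fun E hE => by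
      obtain ⟨a, -, rfl⟩ := Finset.mem_image.mp hE
      have h1 : C a = zeroLocus ℂ (Ideal.span {(X p - MvPolynomial.C a : MvPolynomial ι ℂ)}) := by
        ext z
        rw [zeroLocus_span]
        simp [C, sub_eq_zero]
      rw [h1]
      exact closed_zeroLocus _) (fun z hz => ⟨C (z p), Finset.mem_image_of_mem _
        (hF.mem_toFinset.mpr (h z hz)), rfl⟩)
  obtain ⟨a, -, rfl⟩ := Finset.mem_image.mp hE
  exact ⟨a, fun z hz => hDE hz⟩


end Pool.Agent.Hhelper14.ZPL
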