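import Pool.Agent.Hhelper14.ZPL.Topo

/-!
# Zariski closed sets defined over the algebraic numbers
-/

namespace Pool.Agent.Hhelper14.ZPL

open MvPolynomial Pool.Agent.Hhelper14.ZP

/-- the field of algebraic numbers in `ℂ` -/
noncomputable abbrev Qb : IntermediateField ℚ ℂ := algebraicClosure ℚ ℂ

noncomputable instance : IsAlgClosed Qb := by
  have := algebraicClosure.isAlgClosure ℚ ℂ
  exact this.isAlgClosed

variable {ι κ : Type}

/-- `X` is the zero set of polynomials with algebraic coefficients -/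
def KClosed (X : Set (ι → ℂ)) : Prop :=
  zeroLocus ℂ (vanishingIdeal Qb X : Ideal (MvPolynomial ι Qb)) = X

theorem aeval_map_Qb (x : ι → ℂ) (p : MvPolynomial ι Qb) :
    aeval x (MvPolynomial.map (algebraMap Qb ℂ) p) = (aeval x p : ℂ) := by
  rw [aeval_map_algebraMap]

theorem subset_kclosure (V : Set (ι → ℂ)) :
    V ⊆ zeroLocus ℂ (vanishingIdeal Qb V : Ideal (MvPolynomial ι Qb)) := by
  intro x hx
  rw [mem_zeroLocus_iff]
  intro p hp
  exact (mem_vanishingIdeal_iff.mp hp) x hx

theorem kclosed_iff {X : Set (ι → ℂ)} : KClosed X ↔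
    ∀ x, (∀ p ∈ (vanishingIdeal Qb X : Ideal (MvPolynomial ι Qb)), (aeval x p : ℂ) = 0) → x ∈ X := by
  constructor
  · intro h x hx
    rw [← h, mem_zeroLocus_iff]
    exact hx
  · intro h
    refine Set.Subset.antisymm (fun x hx => h x fun p hp => ?_) (subset_kclosure _)
    exact (mem_zeroLocus_iff.mp hx) p hp

/-- the closure over `Qb` -/
def kcl (X : Set (ι → ℂ)) : Set (ι → ℂ) :=
  zeroLocus ℂ (vanishingIdeal Qb X : Ideal (MvPolynomial ι Qb))

theorem subset_kcl (X : Set (ι → ℂ)) : X ⊆ kcl X := subset_kclosure X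

theorem vanishing_kcl (X : Set (ι → ℂ)) :
    (vanishingIdeal Qb (kcl X) : Ideal (MvPolynomial ι Qb)) = vanishingIdeal Qb X :=
  le_antisymm (vanishingIdeal_anti_mono (subset_kclosure _))
    (le_zeroLocus_iff_le_vanishingIdeal.mp le_rfl)

theorem kcl_kclosed (X : Set (ι → ℂ)) : KClosed (kcl X) := by
  rw [KClosed, vanishing_kcl]
  rfl

theorem kcl_subset {X Y : Set (ι → ℂ)} (hY : KClosed Y) (h : X ⊆ Y) : kcl X ⊆ Y := by
  rw [← hY]
  exact zeroLocus_anti_mono (vanishingIdeal_anti_mono h)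

theorem kclosed_zeroLocus (I : Ideal (MvPolynomial ι Qb)) : KClosed (zeroLocus ℂ I) := by
  refine Set.Subset.antisymm ?_ (subset_kclosure _)
  exact zeroLocus_anti_mono (le_zeroLocus_iff_le_vanishingIdeal.mp le_rfl)

theorem KClosed.closed {X : Set (ι → ℂ)} (h : KClosed X) : IsZClosed X := by
  refine Set.Subset.antisymm ?_ (subset_closure' _)
  intro x hx
  rw [mem_zeroLocus_iff] at hx
  refine kclosed_iff.mp h x fun p hp => ?_
  rw [← aeval_map_Qb]
  apply hx
  rw [mem_vanishingIdeal_iff]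
  intro y hy
  rw [aeval_map_Qb]
  exact (mem_vanishingIdeal_iff.mp hp) y hy

theorem KClosed.inter {X Y : Set (ι → ℂ)} (hX : KClosed X) (hY : KClosed Y) :
    KClosed (X ∩ Y) := by
  refine Set.Subset.antisymm ?_ (subset_kclosure _)
  intro x hx
  refine ⟨?_, ?_⟩
  · rw [← hX]
    exact zeroLocus_anti_mono (vanishingIdeal_anti_mono Set.inter_subset_left) hx
  · rw [← hY]
    exact zeroLocus_anti_mono (vanishingIdeal_anti_mono Set.inter_subset_right) hx

theorem KClosed.preimage {σ : κ → ι} {Y : Set (κ → ℂ)} (hY : KClosed Y) :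
    KClosed {x : ι → ℂ | x ∘ σ ∈ Y} := by
  rw [kclosed_iff]
  intro x hx
  refine kclosed_iff.mp hY _ fun p hp => ?_
  have h1 := hx (rename σ p) (by
    rw [mem_vanishingIdeal_iff]
    intro y hy
    rw [aeval_rename]
    exact (mem_vanishingIdeal_iff.mp hp) _ hy)
  rwa [aeval_rename] at h1

/-- decomposition of a polynomial along a `Qb`-basis of `ℂ` -/
theorem exists_decomp (f : MvPolynomial ι ℂ) :
    ∃ (s : Finset (Module.Basis.ofVectorSpaceIndex Qb ℂ))
      (g : Module.Basis.ofVectorSpaceIndex Qb ℂ → MvPolynomial ι Qb),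
      f = ∑ i ∈ s, C ((Module.Basis.ofVectorSpace Qb ℂ) i) * map (algebraMap Qb ℂ) (g i) := by
  classical
  set b := Module.Basis.ofVectorSpace Qb ℂ with hb
  refine ⟨f.support.biUnion fun α => (b.repr (coeff α f)).support,
    fun i => ∑ α ∈ f.support, monomial α (b.repr (coeff α f) i), ?_⟩
  have h1 : ∀ α ∈ f.support, monomial α (coeff α f) =
      ∑ i ∈ f.support.biUnion (fun α => (b.repr (coeff α f)).support),
        C (b i) * monomial α (algebraMap Qb ℂ (b.repr (coeff α f) i)) := by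
    intro α hα
    have h2 : coeff α f = ∑ i ∈ f.support.biUnion (fun α => (b.repr (coeff α f)).support),
        b i * algebraMap Qb ℂ (b.repr (coeff α f) i) := by
      conv_lhs => rw [← b.linearCombination_repr (coeff α f)]
      rw [Finsupp.linearCombination_apply]
      rw [Finsupp.sum_of_support_subset _ (Finset.subset_biUnion_of_mem
        (fun α => (b.repr (coeff α f)).support) hα) _ (by simp)]
      refine Finset.sum_congr rfl fun i _ => ?_
      rw [Algebra.smul_def, mul_comm]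
    conv_lhs => rw [h2]
    rw [map_sum]
    refine Finset.sum_congr rfl fun i _ => ?_
    rw [C_mul_monomial]
  conv_lhs => rw [f.as_sum, Finset.sum_congr rfl h1]
  rw [Finset.sum_comm]
  refine Finset.sum_congr rfl fun i _ => ?_
  rw [map_sum, Finset.mul_sum]
  refine Finset.sum_congr rfl fun α _ => ?_
  rw [map_monomial]

/-- the value at a `Qb`-point -/
theorem aeval_coe (z : ι → Qb) (p : MvPolynomial ι Qb) :
    (aeval (fun i => (z i : ℂ)) p : ℂ) = ((aeval z p : Qb) : ℂ) := by
  have h := (Algebra.ofId Qb ℂ).comp_apply (aeval z : MvPolynomial ι Qb →ₐ[Qb] Qb) p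
  have h2 : (Algebra.ofId Qb ℂ).comp (aeval z : MvPolynomial ι Qb →ₐ[Qb] Qb) =
      aeval (fun i => (z i : ℂ)) := by
    ext i
    simp
  rw [h2] at h
  exact h

theorem radical_vanishing (X : Set (ι → ℂ)) :
    (vanishingIdeal Qb X : Ideal (MvPolynomial ι Qb)).IsRadical := by
  intro p hp
  obtain ⟨n, hn⟩ := hp
  rw [mem_vanishingIdeal_iff] at hn ⊢
  intro x hx
  have := hn x hx
  rw [map_pow] at this
  rcases Nat.eq_zero_or_pos n with rfl | hn0
  · simp at this
  · exact (pow_eq_zero_iff hn0.ne').mp this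

/-- the `Qb`-points of a `Qb`-closed set are dense over `Qb` -/
theorem exists_Qb_point [Finite ι] {X : Set (ι → ℂ)} (hX : KClosed X) {p : MvPolynomial ι Qb}
    (hp : p ∉ (vanishingIdeal Qb X : Ideal (MvPolynomial ι Qb))) :
    ∃ z : ι → Qb, (fun i => (z i : ℂ)) ∈ X ∧ (aeval z p : Qb) ≠ 0 := by
  by_contra hcon
  push Not at hcon
  apply hp
  rw [← (radical_vanishing X).radical, ← vanishingIdeal_zeroLocus_eq_radical (K := Qb),
    mem_vanishingIdeal_iff]
  intro z hz
  refine hcon z (kclosed_iff.mp hX _ fun q hq => ?_)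
  rw [aeval_coe, (mem_zeroLocus_iff.mp hz) q hq]
  rfl

/-- a relation with `Qb`-linearly independent coefficients splits on `Qb`-closed sets -/
theorem split_relation [Finite ι] {X : Set (ι → ℂ)} (hX : KClosed X)
    (s : Finset (Module.Basis.ofVectorSpaceIndex Qb ℂ))
    (g : Module.Basis.ofVectorSpaceIndex Qb ℂ → MvPolynomial ι Qb)
    (h : ∀ x ∈ X, ∑ i ∈ s, (Module.Basis.ofVectorSpace Qb ℂ) i * (aeval x (g i) : ℂ) = 0) :
    ∀ i ∈ s, g i ∈ (vanishingIdeal Qb X : Ideal (MvPolynomial ι Qb)) := by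
  intro i hi
  by_contra hcon
  obtain ⟨z, hz, hzi⟩ := exists_Qb_point hX hcon
  have h1 := h _ hz
  have h2 : ∑ i ∈ s, (aeval z (g i) : Qb) • (Module.Basis.ofVectorSpace Qb ℂ) i = 0 := by
    rw [← h1]
    refine Finset.sum_congr rfl fun i _ => ?_
    rw [aeval_coe, Algebra.smul_def, mul_comm]
    rfl
  exact hzi (linearIndependent_iff'.mp (Module.Basis.ofVectorSpace Qb ℂ).linearIndependent s _ h2
    i hi)

theorem aeval_sum_decomp (s : Finset (Module.Basis.ofVectorSpaceIndex Qb ℂ))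
    (g : Module.Basis.ofVectorSpaceIndex Qb ℂ → MvPolynomial ι Qb) (x : ι → ℂ) :
    aeval x (∑ i ∈ s, C ((Module.Basis.ofVectorSpace Qb ℂ) i) * map (algebraMap Qb ℂ) (g i)) =
      ∑ i ∈ s, (Module.Basis.ofVectorSpace Qb ℂ) i * (aeval x (g i) : ℂ) := by
  rw [map_sum]
  refine Finset.sum_congr rfl fun i _ => ?_
  rw [map_mul, aeval_C, aeval_map_Qb]
  rfl

/-- **Irreducibility over `Qb` implies irreducibility over `ℂ`.** -/
theorem KClosed.prime [Finite ι] {X : Set (ι → ℂ)} (hX : KClosed X)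
    (hp : (vanishingIdeal Qb X : Ideal (MvPolynomial ι Qb)).IsPrime) :
    (vanishingIdeal ℂ X : Ideal (MvPolynomial ι ℂ)).IsPrime := by
  classical
  refine ⟨?_, ?_⟩
  · intro h
    apply hp.ne_top
    rw [Ideal.eq_top_iff_one, mem_vanishingIdeal_iff] at h ⊢
    intro x hx
    have := h x hx
    simp at this
  · intro f f' hff
    by_contra hcon
    push Not at hcon
    obtain ⟨hf, hf'⟩ := hcon
    obtain ⟨s, g, hg⟩ := exists_decomp f
    obtain ⟨s', g', hg'⟩ := exists_decomp f'
    have h1 : ∃ i ∈ s, g i ∉ (vanishingIdeal Qb X : Ideal (MvPolynomial ι Qb)) := by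
      by_contra hc
      push Not at hc
      apply hf
      rw [mem_vanishingIdeal_iff]
      intro x hx
      rw [hg, aeval_sum_decomp]
      refine Finset.sum_eq_zero fun i hi => ?_
      rw [(mem_vanishingIdeal_iff.mp (hc i hi)) x hx, mul_zero]
    have h1' : ∃ i ∈ s', g' i ∉ (vanishingIdeal Qb X : Ideal (MvPolynomial ι Qb)) := by
      by_contra hc
      push Not at hc
      apply hf'
      rw [mem_vanishingIdeal_iff]
      intro x hx
      rw [hg', aeval_sum_decomp]
      refine Finset.sum_eq_zero fun i hi => ?_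
      rw [(mem_vanishingIdeal_iff.mp (hc i hi)) x hx, mul_zero]
    obtain ⟨i, hi, hgi⟩ := h1
    obtain ⟨i', hi', hgi'⟩ := h1'
    have h2 : g i * g' i' ∉ (vanishingIdeal Qb X : Ideal (MvPolynomial ι Qb)) := fun h =>
      (hp.mem_or_mem h).elim hgi hgi'
    obtain ⟨z, hz, hzne⟩ := exists_Qb_point hX h2
    rw [map_mul] at hzne
    have key : ∀ (s : Finset (Module.Basis.ofVectorSpaceIndex Qb ℂ))
        (g : Module.Basis.ofVectorSpaceIndex Qb ℂ → MvPolynomial ι Qb) (i) (_ : i ∈ s)
        (_ : (aeval z (g i) : Qb) ≠ 0),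
        aeval (fun i => (z i : ℂ)) (∑ i ∈ s, C ((Module.Basis.ofVectorSpace Qb ℂ) i) *
          map (algebraMap Qb ℂ) (g i)) ≠ (0 : ℂ) := by
      intro s g i hi hne h0
      rw [aeval_sum_decomp] at h0
      have h3 : ∑ i ∈ s, (aeval z (g i) : Qb) • (Module.Basis.ofVectorSpace Qb ℂ) i = 0 := by
        rw [← h0]
        refine Finset.sum_congr rfl fun i _ => ?_
        rw [aeval_coe, Algebra.smul_def, mul_comm]
        rfl
      exact hne (linearIndependent_iff'.mp
        (Module.Basis.ofVectorSpace Qb ℂ).linearIndependent s _ h3 i hi)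
    have h3 := key s g i hi (left_ne_zero_of_mul hzne)
    have h4 := key s' g' i' hi' (right_ne_zero_of_mul hzne)
    rw [← hg] at h3
    rw [← hg'] at h4
    have h5 := (mem_vanishingIdeal_iff.mp hff) _ hz
    rw [map_mul] at h5
    exact (mul_ne_zero h3 h4) h5

theorem kprime_of_prime {X : Set (ι → ℂ)}
    (hp : (vanishingIdeal ℂ X : Ideal (MvPolynomial ι ℂ)).IsPrime) :
    (vanishingIdeal Qb X : Ideal (MvPolynomial ι Qb)).IsPrime := by
  have h : (vanishingIdeal Qb X : Ideal (MvPolynomial ι Qb)) =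
      (vanishingIdeal ℂ X : Ideal (MvPolynomial ι ℂ)).comap (map (algebraMap Qb ℂ)) := by
    ext p
    rw [Ideal.mem_comap, mem_vanishingIdeal_iff, mem_vanishingIdeal_iff]
    simp only [aeval_map_Qb]
  rw [h]
  exact Ideal.IsPrime.comap _

theorem kcl_irred [Finite ι] {X : Set (ι → ℂ)}
    (hp : (vanishingIdeal ℂ X : Ideal (MvPolynomial ι ℂ)).IsPrime) : IsIrredClosed (kcl X) := by
  refine ⟨(kcl_kclosed X).prime ?_, (kcl_kclosed X).closed⟩
  rw [vanishing_kcl]
  exact kprime_of_prime hp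

/-- components of `Qb`-closed sets are `Qb`-closed -/
theorem kclosed_component [Finite ι] {X D : Set (ι → ℂ)} (hX : KClosed X)
    (hD : IsComponent D X) : KClosed D := by
  have h1 := hD.2.2 (kcl D) (kcl_irred hD.1.1) (kcl_subset hX hD.2.1) (subset_kcl D)
  rw [← h1]
  exact kcl_kclosed D

/-- closed projections of `Qb`-closed sets are `Qb`-closed -/
theorem kclosed_proj [Finite ι] {X : Set (ι → ℂ)} (hX : KClosed X) {σ : κ → ι}
    (hc : IsZClosed (proj σ X)) : KClosed (proj σ X) := by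
  rw [kclosed_iff]
  intro y hy
  rw [← hc, mem_zeroLocus_iff]
  intro f hf
  obtain ⟨s, g, rfl⟩ := exists_decomp f
  rw [aeval_sum_decomp]
  have h1 := split_relation hX s (fun i => rename σ (g i)) (fun x hx => by
    have h2 := (mem_vanishingIdeal_iff.mp hf) (x ∘ σ) ⟨x, hx, rfl⟩
    rw [aeval_sum_decomp] at h2
    simpa only [aeval_rename] using h2)
  refine Finset.sum_eq_zero fun i hi => ?_
  have h3 : g i ∈ (vanishingIdeal Qb (proj σ X) : Ideal (MvPolynomial κ Qb)) := by
    rw [mem_vanishingIdeal_iff]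
    rintro _ ⟨x, hx, rfl⟩
    have := (mem_vanishingIdeal_iff.mp (h1 i hi)) x hx
    rwa [aeval_rename] at this
  rw [hy _ h3, mul_zero]

end Pool.Agent.Hhelper14.ZPL
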