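import Pool.Agent.Hhelper14.ZPL.Net

/-!
# The value `j(i) = 1728`
-/

namespace Pool.Agent.Hhelper14.ZPL

open UpperHalfPlane ModularForm ModularFormClass SlashInvariantFormClass MatrixGroups
  EisensteinSeries Function Metric Pool.Agent.Hhelper14.ZP

theorem E6_smul (γ : SL(2, ℤ)) (τ : ℍ) : E₆ (γ • τ) = denom γ τ ^ (6 : ℤ) * E₆ τ := by
  have : SlashInvariantFormClass (ModularForm 𝒮ℒ 6) (CongruenceSubgroup.Gamma 1) 6 :=
    CongruenceSubgroup.Gamma_one_coe_eq_SL ▸ inferInstance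
  exact SlashInvariantForm.slash_action_eqn_SL'' E₆ (CongruenceSubgroup.mem_Gamma_one γ) τ

theorem E6_I : E₆ UpperHalfPlane.I = 0 := by
  have h := E6_smul ModularGroup.S UpperHalfPlane.I
  have h1 : ModularGroup.S • UpperHalfPlane.I = UpperHalfPlane.I := by
    rw [UpperHalfPlane.modular_S_smul]
    apply UpperHalfPlane.ext
    simp
  have h2 : denom (ModularGroup.S : GL (Fin 2) ℝ) UpperHalfPlane.I = Complex.I := by
    rw [ModularGroup.denom_S]
    simp
  rw [h1, h2] at h
  have h3 : (Complex.I : ℂ) ^ (6 : ℤ) = -1 := by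
    have : (Complex.I : ℂ) ^ (6 : ℤ) = (Complex.I ^ 2) ^ 3 := by
      rw [← pow_mul]
      norm_cast
    rw [this, Complex.I_sq]
    norm_num
  rw [h3] at h
  have h4 : (2 : ℂ) * E₆ UpperHalfPlane.I = 0 := by linear_combination h
  exact (mul_eq_zero.mp h4).resolve_left two_ne_zero

theorem kap_eq : kap = 1728 := by
  have h0 := discriminant_ne_zero UpperHalfPlane.I
  have h := discriminant_eq_E₄_cube_sub_E₆_sq UpperHalfPlane.I
  rw [kap, jInv]
  rw [E6_I] at h
  rw [div_eq_iff h0, h]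
  ring

theorem kap_ne_zero : kap ≠ 0 := by
  rw [kap_eq]
  norm_num

end Pool.Agent.Hhelper14.ZPL
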