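import Pool.Agent.Hhelper14.ZPL.Enc

/-!
# The key lemma
-/

namespace Pool.Agent.Hhelper14.ZPL

open UpperHalfPlane MvPolynomial Pool.Agent.Hhelper14.ZP

namespace Enc

variable {ι : Type} [Fintype ι] {c : ℕ} (E : Enc ι c)

/-- the block of a coordinate -/
def bl : E.J → ι ⊕ E.B := Sum.map id Prod.fst

/-- the canonical coordinate of a block -/
def can : ι ⊕ E.B → E.J := Sum.map id (fun b => (b, none))

theorem bl_can (y : ι ⊕ E.B) : E.bl (E.can y) = y := by
  rcases y with i | b <;> rfl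

theorem exists_rel' (p : E.J) : ∃ Φ : Polynomial (Polynomial OO), Φ.Monic ∧
    ∀ z ∈ E.Z1, ev2 (z (E.can (E.bl p))) (z p) Φ = 0 := by
  rcases p with i | ⟨b, q⟩
  · refine ⟨Polynomial.X - Polynomial.C Polynomial.X, Polynomial.monic_X_sub_C _, ?_⟩
    intro z _
    change ev2 (z (Sum.inl i)) (z (Sum.inl i)) _ = 0
    simp [ev2]
  · exact E.exists_rel b q

/-- A curve in one block -/
theorem curve_closed : IsZClosed {y : Option E.Q → ℂ | ∃ τ : ℍ, ∀ q, y q = jInv (gact (E.M q) τ)} := by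
  have h := spSet_closed (ι := Option E.Q) (κ := Unit) (block := fun _ => some ()) (g := E.M)
    (s := fun _ => UpperHalfPlane.I) (fun b => ⟨none, rfl⟩) E.hM
  convert! h using 1
  ext y
  constructor
  · rintro ⟨τ, hτ⟩
    exact ⟨fun _ => τ, fun q => hτ q⟩
  · rintro ⟨τ, hτ⟩
    exact ⟨τ (), fun q => hτ q⟩

/-- if `D` has one-dimensional projections to the blocks and contains a large part of `Z1` then it
is contained in `Z1` -/
theorem subset_Z1 {D V' : Set (E.J → ℂ)} (hD : IsIrredClosed D) (hV' : IsIrredClosed V')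
    (hV'D : V' ⊆ D) (hV'Z : V' ⊆ E.Z1)
    (hint : ∀ b, IntOver (fun _ : Unit => (none : Option E.Q))
      (proj (fun q : Option E.Q => (Sum.inr (b, q) : E.J)) D))
    (hnc : ∀ b, ∃ z ∈ V', ∃ z' ∈ V', z (Sum.inr (b, none)) ≠ z' (Sum.inr (b, none))) :
    D ⊆ E.Z1 := by
  intro z hz b
  let σ : Option E.Q → E.J := fun q => Sum.inr (b, q)
  let Vc := zeroLocus ℂ (vanishingIdeal ℂ (proj σ V') : Ideal (MvPolynomial (Option E.Q) ℂ))
  let Dc := zeroLocus ℂ (vanishingIdeal ℂ (proj σ D) : Ideal (MvPolynomial (Option E.Q) ℂ))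
  have hVc : IsIrredClosed Vc := irredClosed_closure (irred_proj hV'.1)
  have hDc : IsIrredClosed Dc := irredClosed_closure (irred_proj hD.1)
  have hVD : Vc ⊆ Dc := zeroLocus_anti_mono (vanishingIdeal_anti_mono (Set.image_mono hV'D))
  have hdimD : dim Dc ≤ 1 := by
    have h1 : dim Dc = dim (proj σ D) := dim_closure _
    rw [h1, ← (hint b).dim_eq]
    calc dim (proj (fun _ : Unit => none) (proj σ D)) ≤ dim (Set.univ : Set (Unit → ℂ)) :=
          dim_mono (Set.subset_univ _)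
      _ = 1 := by rw [dim_univ]; simp
  have hdimV : 1 ≤ dim Vc := by
    obtain ⟨z1, hz1, z2, hz2, hne⟩ := hnc b
    refine one_le_dim hVc (x := z1 ∘ σ) (y := z2 ∘ σ) (subset_closure' _ ⟨z1, hz1, rfl⟩)
      (subset_closure' _ ⟨z2, hz2, rfl⟩) ?_
    intro h
    exact hne (congrFun h none)
  have heq : Vc = Dc := eq_of_dim_le hVc hDc hVD (hdimD.trans hdimV)
  have hsub : Vc ⊆ {y : Option E.Q → ℂ | ∃ τ : ℍ, ∀ q, y q = jInv (gact (E.M q) τ)} := by
    refine closure_subset' ?_ E.curve_closed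
    rintro _ ⟨z', hz', rfl⟩
    exact hV'Z hz' b
  have h1 : z ∘ σ ∈ Dc := subset_closure' _ ⟨z, hz, rfl⟩
  rw [← heq] at h1
  exact hsub h1

theorem key {V : Set (ι → ℂ)} (hV : IsIrredClosed V)
    (hgen : ∀ Z, IsSpecial Z → V ⊆ Z → Z = Set.univ)
    (hVf : IsComponent V {x | ∀ k, E.eqn x k = 0}) (hdim : dim V + (c : ℕ) = Fintype.card ι)
    {x0 x1 x2 : ι → ℂ} (hx0 : x0 ∈ V) (hx1 : x1 ∈ V) (hx2 : x2 ∈ V) (hsep : E.Sep x0 x1 x2)
    {V' A T : Set (E.J → ℂ)} (hT : IsSpecial T) (hA : IsIrredClosed A) (hV' : IsIrredClosed V')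
    (hV'A : V' ⊆ A) (hAL : A ⊆ (E.L : Set (E.J → ℂ))) (hAT : A ⊆ T) (hV'Z : V' ⊆ E.Z1)
    (hVV' : V ⊆ proj (Sum.inl : ι → E.J) V') :
    dim A + (Fintype.card E.B + c : ℕ) ≤ dim T := by
  classical
  obtain ⟨r, blk, g, s, hb, hg, hs, rfl⟩ := isSpecial_iff.mp hT
  obtain ⟨z0, hz0, hz0x⟩ := hVV' hx0
  choose τ0 hτ0 using hV'Z hz0
  obtain ⟨σ0, hσ0⟩ := hAT (hV'A hz0)
  have hz0L := hAL (hV'A hz0)
  have hval : ∀ b, E.val x0 b = jInv (τ0 b) := by
    intro b
    have h1 := hz0L.1 b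
    have h2 : z0 ∘ (Sum.inl : ι → E.J) = x0 := hz0x
    rw [h2] at h1
    rw [← h1, hτ0 b none, E.M0, gact_one]
  have hz0V : ∀ (W : ValuationSubring ℂ) b q, z0 (Sum.inr (b, q)) ∈ W ↔ E.val x0 b ∈ W := by
    intro W b q
    rw [hτ0 b q, gact_mem_iff W (E.hM q), hval]
  have hz0i : ∀ i, z0 (Sum.inl i) = x0 i := fun i => congrFun hz0x i
  -- no constant coordinates
  have hnc : ∀ p, blk p ≠ none := by
    intro p hp
    have hOO : z0 p ∈ OO := by
      rw [hσ0 p, hp]
      exact mem_OO_of_CMj ⟨s p, hs p hp, rfl⟩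
    rcases p with i | ⟨b, q⟩
    · have h1 := hgen _ (special_const i (hs _ hp)) (fun x hx => by
        obtain ⟨z, hz, hzx⟩ := hVV' hx
        obtain ⟨σ, hσ⟩ := hAT (hV'A hz)
        have h2 := hσ (Sum.inl i)
        rw [hp] at h2
        have h3 : z (Sum.inl i) = x i := congrFun hzx i
        rw [h3] at h2
        exact h2)
      have h2 : (fun _ : ι => jInv (s (Sum.inl i)) + 1) ∈
          {x : ι → ℂ | x i = jInv (s (Sum.inl i))} := by rw [h1]; exact Set.mem_univ _
      have h3 : jInv (s (Sum.inl i)) + 1 = jInv (s (Sum.inl i)) := h2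
      simp at h3
    · obtain ⟨W, hW⟩ := hsep.const b
      exact hW ((hz0V W b q).mp (OO_le W hOO))
  -- the blocks of `T` refine those of `Z1`
  have hmem : ∀ (W : ValuationSubring ℂ) p t, blk p = some t → (z0 p ∈ W ↔ jInv (σ0 t) ∈ W) := by
    intro W p t hp
    rw [hσ0 p, hp]
    exact gact_mem_iff W (hg p)
  have hrefine : ∀ p p' t, blk p = some t → blk p' = some t → E.bl p = E.bl p' := by
    intro p p' t hp hp'
    rcases p with i | ⟨b, q⟩ <;> rcases p' with i' | ⟨b', q'⟩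
    · by_contra hne
      have hii : i ≠ i' := fun h => hne (by rw [h])
      refine pair_ne_univ hii (hg (Sum.inl i)) (hg (Sum.inl i')) (hgen _ (special_pair hii
        (hg (Sum.inl i)) (hg (Sum.inl i'))) (fun x hx => ?_))
      obtain ⟨z, hz, hzx⟩ := hVV' hx
      obtain ⟨σ, hσ⟩ := hAT (hV'A hz)
      refine ⟨σ t, ?_, ?_⟩
      · have h2 := hσ (Sum.inl i)
        rw [hp] at h2
        have h3 : z (Sum.inl i) = x i := congrFun hzx i
        rw [h3] at h2
        exact h2
      · have h2 := hσ (Sum.inl i')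
        rw [hp'] at h2
        have h3 : z (Sum.inl i') = x i' := congrFun hzx i'
        rw [h3] at h2
        exact h2
    · exfalso
      obtain ⟨W, hW⟩ := hsep.coord b' i
      apply hW
      rw [← hz0i, hmem W _ t hp, ← hmem W _ t hp', hz0V]
    · exfalso
      obtain ⟨W, hW⟩ := hsep.coord b i'
      apply hW
      rw [← hz0i, hmem W _ t hp', ← hmem W _ t hp, hz0V]
    · by_contra hne
      have hbb : b ≠ b' := fun h => hne (by rw [h]; rfl)
      obtain ⟨W, hW⟩ := hsep.pair b b' hbb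
      apply hW
      rw [← hz0V W b q, hmem W _ t hp, ← hmem W _ t hp', hz0V]
  have htb : ∀ p, ∃ t, blk p = some t := fun p => Option.ne_none_iff_exists'.mp (hnc p)
  choose tb htb using htb
  choose rep hrep using hb
  have hbl : ∀ p, E.bl p = E.bl (rep (tb p)) := fun p => hrefine _ _ _ (htb p) (hrep _)
  -- relations inside the blocks of `T`
  have hTrel : ∀ p p' t, blk p = some t → blk p' = some t →
      ∃ Φ : Polynomial (Polynomial OO), Φ.Monic ∧ ∀ z ∈ SpSet blk g s,
        ev2 (z p) (z p') Φ = 0 := by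
    intro p p' t hp hp'
    obtain ⟨Φ, hΦ, h⟩ := modular_ev2' (hg p) (hg p')
    refine ⟨Φ, hΦ, ?_⟩
    rintro z ⟨σ, hσ⟩
    rw [hσ p, hσ p', hp, hp']
    exact h (σ t)
  -- the extra blocks
  let base : ι ⊕ E.B → Fin r := fun y => tb (E.can y)
  have hπbase : ∀ y, E.bl (rep (base y)) = y := fun y => by rw [← hbl, E.bl_can]
  let Ext := {t : Fin r // base (E.bl (rep t)) ≠ t}
  have hcard : Fintype.card Ext + (Fintype.card ι + Fintype.card E.B) = r := by
    have h1 : Fintype.card {t : Fin r // base (E.bl (rep t)) = t} = Fintype.card (ι ⊕ E.B) := by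
      refine (Fintype.card_congr (Equiv.ofBijective
        (fun y : ι ⊕ E.B => (⟨base y, by rw [hπbase]⟩ : {t : Fin r // base (E.bl (rep t)) = t}))
        ⟨fun y y' h => ?_, fun t => ⟨E.bl (rep t.1), Subtype.ext t.2⟩⟩)).symm
      have h2 : base y = base y' := congrArg Subtype.val h
      rw [← hπbase y, h2, hπbase]
    have h2 := Fintype.card_subtype_compl (fun t : Fin r => base (E.bl (rep t)) = t)
    have h3 := Fintype.card_subtype_le (fun t : Fin r => base (E.bl (rep t)) = t)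
    rw [Fintype.card_fin] at h2 h3
    rw [h1, Fintype.card_sum] at h2 h3
    change Fintype.card {t : Fin r // ¬ base (E.bl (rep t)) = t} + _ = r
    omega
  -- the equations
  choose Φ hΦ hΦZ using E.exists_rel'
  let hp : Ext → MvPolynomial E.J ℂ := fun t =>
    ev2 (X (E.can (E.bl (rep t.1)))) (X (rep t.1)) (Φ (rep t.1))
  have hpev : ∀ (t : Ext) (z : E.J → ℂ), (aeval z (hp t) : ℂ) =
      ev2 (z (E.can (E.bl (rep t.1)))) (z (rep t.1)) (Φ (rep t.1)) := by
    intro t z
    have := map_ev2 (aeval z : MvPolynomial E.J ℂ →ₐ[ℂ] ℂ) (X (E.can (E.bl (rep t.1))))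
      (X (rep t.1)) (Φ (rep t.1))
    rw [aeval_X, aeval_X] at this
    exact this
  have hV'X : V' ⊆ A ∩ zeroLocus ℂ (Ideal.span (Set.range hp)) := by
    intro z hz
    refine ⟨hV'A hz, ?_⟩
    rw [zeroLocus_span]
    rintro _ ⟨t, rfl⟩
    rw [hpev]
    exact hΦZ _ z (hV'Z hz)
  obtain ⟨D, hD, hV'D⟩ := exists_comp_ge (closed_inter hA.2 (closed_zeroLocus _)) hV' hV'X
  have hcut := krull_cut' hA hp hD
  have hDA : D ⊆ A := fun z hz => (hD.2.1 hz).1
  have hDrel : ∀ t : Ext, ∀ z ∈ D,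
      ev2 (z (E.can (E.bl (rep t.1)))) (z (rep t.1)) (Φ (rep t.1)) = 0 := by
    intro t z hz
    have h1 := (hD.2.1 hz).2
    rw [zeroLocus_span] at h1
    rw [← hpev]
    exact h1 _ ⟨t, rfl⟩
  have hDZ : D ⊆ E.Z1 := by
    refine E.subset_Z1 hD.1 hV' hV'D hV'Z ?_ ?_
    · intro b q
      let σ : Option E.Q → E.J := fun q => Sum.inr (b, q)
      -- the representative is in the same block
      obtain ⟨q', hq'⟩ : ∃ q', rep (tb (Sum.inr (b, q))) = Sum.inr (b, q') := by
        have h1 := hbl (Sum.inr (b, q))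
        rcases h2 : rep (tb (Sum.inr (b, q))) with i | ⟨b', q'⟩
        · rw [h2] at h1
          simp [bl] at h1
        · rw [h2] at h1
          have : b = b' := by simpa [bl] using h1
          exact ⟨q', by rw [this]⟩
      have hstep1 : (qmap (fun _ : Unit => (none : Option E.Q)) (proj σ D)).IsIntegralElem
          (Ideal.Quotient.mk _ (X q')) := by
        by_cases hext : base (E.bl (rep (tb (Sum.inr (b, q))))) = tb (Sum.inr (b, q))
        · have h1 : blk (Sum.inr (b, none)) = some (tb (Sum.inr (b, q))) := by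
            rw [← hext, ← hbl]
            exact htb _
          have h2 : blk (Sum.inr (b, q')) = some (tb (Sum.inr (b, q))) := by
            rw [← hq']
            exact hrep _
          obtain ⟨Ψ, hΨ, h3⟩ := hTrel _ _ _ h1 h2
          refine intElem_rel (u := X none) (intElem_coord _ _ ()) hΨ ?_
          rintro _ ⟨z, hz, rfl⟩
          rw [eval_X, eval_X]
          exact h3 z (hAT (hDA hz))
        · refine intElem_rel (u := X none) (intElem_coord _ _ ())
            (hΦ (rep (tb (Sum.inr (b, q))))) ?_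
          rintro _ ⟨z, hz, rfl⟩
          rw [eval_X, eval_X]
          have h3 := hDrel ⟨tb (Sum.inr (b, q)), hext⟩ z hz
          simp only [hq'] at h3 ⊢
          exact h3
      have h2 : blk (Sum.inr (b, q')) = some (tb (Sum.inr (b, q))) := by
        rw [← hq']
        exact hrep _
      obtain ⟨Ψ, hΨ, h3⟩ := hTrel _ _ _ h2 (htb (Sum.inr (b, q)))
      refine intElem_rel (u := X q') hstep1 hΨ ?_
      rintro _ ⟨z, hz, rfl⟩
      rw [eval_X, eval_X]
      exact h3 z (hAT (hDA hz))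
    · intro b
      obtain ⟨z1, hz1, hz1x⟩ := hVV' hx1
      obtain ⟨z2, hz2, hz2x⟩ := hVV' hx2
      refine ⟨z1, hz1, z2, hz2, ?_⟩
      have e1 : z1 ∘ (Sum.inl : ι → E.J) = x1 := hz1x
      have e2 : z2 ∘ (Sum.inl : ι → E.J) = x2 := hz2x
      rw [(hAL (hV'A hz1)).1 b, (hAL (hV'A hz2)).1 b, e1, e2]
      exact hsep.nonconst b
  -- dimension of `D`
  have hDLZ : D ⊆ (E.L : Set (E.J → ℂ)) ∩ E.Z1 := fun z hz => ⟨hAL (hDA hz), hDZ hz⟩
  have hDint : IntOver (Sum.inl : ι → E.J) D := E.intOver.mono hDLZ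
  have hprojD : proj (Sum.inl : ι → E.J) D = V := by
    refine hVf.2.2 _ (hDint.irredClosed hD.1) ?_ (hVV'.trans (Set.image_mono hV'D))
    rintro _ ⟨z, hz, rfl⟩ k
    exact E.eqn_of_mem (hDLZ hz).1 (hDLZ hz).2 k
  have hdimD : dim D = dim V := by rw [← hDint.dim_eq, hprojD]
  rw [hdimD] at hcut
  rw [dim_spSet (fun b => ⟨rep b, hrep b⟩) hg, Fintype.card_fin]
  obtain ⟨dA, hdA, -⟩ := exists_dim hA
  obtain ⟨dV, hdV, -⟩ := exists_dim hV
  rw [hdA, hdV] at hcut
  rw [hdV] at hdim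
  rw [hdA]
  have h1 : dA ≤ dV + Fintype.card Ext := by exact_mod_cast hcut
  have h2 : dV + c = Fintype.card ι := by exact_mod_cast hdim
  have h3 : dA + (Fintype.card E.B + c) ≤ r := by omega
  exact_mod_cast h3

end Enc

end Pool.Agent.Hhelper14.ZPL
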