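import Pool.Agent.Hhelper14.ZPL.KClosed

/-!
# Nets of addition gates
-/

namespace Pool.Agent.Hhelper14.ZPL

open UpperHalfPlane MvPolynomial Pool.Agent.Hhelper14.ZP

/-- The power `P^G` of the plane `P = {x + y = z} ⊆ ℂ³`. -/
def planePow (G : Type) : AffineSubspace ℂ (G × Fin 3 → ℂ) where
  carrier := {z | ∀ g, z (g, 0) + z (g, 1) = z (g, 2)}
  smul_vsub_vadd_mem' := by
    intro t z1 z2 z3 h1 h2 h3 g
    have e1 := h1 g
    have e2 := h2 g
    have e3 := h3 g
    simp only [vsub_eq_sub, vadd_eq_add, Pi.add_apply, Pi.smul_apply, Pi.sub_apply, smul_eq_mul]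
    linear_combination t * (e1 - e2) + e3

theorem mem_planePow {G : Type} {z : G × Fin 3 → ℂ} :
    z ∈ (planePow G : Set (G × Fin 3 → ℂ)) ↔ ∀ g, z (g, 0) + z (g, 1) = z (g, 2) := Iff.rfl

/-- the defining equations -/
noncomputable def planeEq (G : Type) (g : G) : MvPolynomial (G × Fin 3) ℂ :=
  X (g, 0) + X (g, 1) - X (g, 2)

theorem planePow_eq (G : Type) : (planePow G : Set (G × Fin 3 → ℂ)) =
    zeroLocus ℂ (Ideal.span (Set.range (planeEq G))) := by
  ext z
  rw [mem_planePow, zeroLocus_span]
  simp only [Set.mem_ofPred_eq, Set.forall_mem_range]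
  refine forall_congr' fun g => ?_
  simp only [planeEq, map_sub, map_add, aeval_X]
  exact sub_eq_zero.symm

theorem planePow_closed (G : Type) : IsZClosed (planePow G : Set (G × Fin 3 → ℂ)) := by
  rw [planePow_eq]
  exact closed_zeroLocus _

theorem planePow_kclosed (G : Type) : KClosed (planePow G : Set (G × Fin 3 → ℂ)) := by
  have h : (planePow G : Set (G × Fin 3 → ℂ)) = zeroLocus ℂ (Ideal.span (Set.range
      fun g : G => (X (g, 0) + X (g, 1) - X (g, 2) : MvPolynomial (G × Fin 3) Qb))) := by
    ext z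
    rw [mem_planePow, zeroLocus_span]
    simp only [Set.mem_ofPred_eq, Set.forall_mem_range]
    refine forall_congr' fun g => ?_
    simp only [map_sub, map_add, aeval_X]
    exact sub_eq_zero.symm
  rw [h]
  exact kclosed_zeroLocus _

/-- the constant used in the nets, a singular modulus -/
noncomputable def kap : ℂ := jInv UpperHalfPlane.I

/-- a net of gates over the base coordinates `ι` -/
structure Net (ι : Type) where
  K : Type
  G : Type
  [fK : Fintype K]
  [fG : Fintype G]
  base : ι → K
  base_inj : Function.Injective base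
  blk : G × Fin 3 → Option K
  M : G × Fin 3 → GL (Fin 2) ℚ
  hM : ∀ p, 0 < (M p).det.val
  can : K → G × Fin 3
  blk_can : ∀ y, blk (can y) = some y
  M_can : ∀ y, M (can y) = 1
  M_base : ∀ p i, blk p = some (base i) → M p = 1

theorem isCM_I : IsCM UpperHalfPlane.I := ⟨1, 0, 1, one_ne_zero, by simp⟩

namespace Net

attribute [instance] Net.fK Net.fG

variable {ι : Type} (E : Net ι)

/-- the coordinates -/
abbrev J := E.G × Fin 3

/-- `τ` gives the point `z` -/
def Para (τ : E.K → ℍ) (z : E.J → ℂ) : Prop :=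
  ∀ p, z p = (E.blk p).elim kap (fun y => jInv (gact (E.M p) (τ y)))

/-- the special set attached to the net -/
def Z1 : Set (E.J → ℂ) := {z | ∃ τ : E.K → ℍ, E.Para τ z}

/-- solutions -/
def Sol : Set (E.J → ℂ) := (planePow E.G : Set (E.J → ℂ)) ∩ E.Z1

/-- the projection to the base -/
def pr : ι → E.J := fun i => E.can (E.base i)

theorem Z1_eq : E.Z1 = SpSet (κ := E.K) E.blk E.M (fun _ => UpperHalfPlane.I) := rfl

theorem Z1_closed : IsZClosed E.Z1 := by
  rw [Z1_eq]
  exact spSet_closed (fun b => ⟨E.can b, by rw [E.blk_can]⟩) E.hM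

theorem Para.some {E : Net ι} {z : E.J → ℂ} {τ : E.K → ℍ} (h : E.Para τ z) {p : E.J} {y : E.K}
    (hp : E.blk p = some y) : z p = jInv (gact (E.M p) (τ y)) := by
  rw [h p, hp]
  rfl

theorem Para.none {E : Net ι} {z : E.J → ℂ} {τ : E.K → ℍ} (h : E.Para τ z) {p : E.J}
    (hp : E.blk p = none) : z p = kap := by
  rw [h p, hp]
  rfl

theorem Para.can {E : Net ι} {z : E.J → ℂ} {τ : E.K → ℍ} (h : E.Para τ z) (y : E.K) :
    z (E.can y) = jInv (τ y) := by
  rw [h.some (E.blk_can y), E.M_can, gact_one]

theorem exists_rel {p : E.J} {y : E.K} (hp : E.blk p = some y) :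
    ∃ Φ : Polynomial (Polynomial OO), Φ.Monic ∧
      ∀ z ∈ E.Z1, ev2 (z (E.can y)) (z p) Φ = 0 := by
  obtain ⟨Φ, hΦ, h⟩ := modular_ev2 (E.hM p)
  refine ⟨Φ, hΦ, ?_⟩
  rintro z ⟨τ, hτ⟩
  rw [hτ.can, hτ.some hp]
  exact h _

/-- lifting special sets -/
theorem special_lift [Fintype ι] {Z : Set (ι → ℂ)} (hZ : IsSpecial Z) :
    ∃ Z', IsSpecial Z' ∧ Z' = {z | z ∘ E.pr ∈ Z ∧ z ∈ E.Z1} ∧
      dim Z' + (Fintype.card ι : ℕ) = dim Z + (Fintype.card E.K : ℕ) := by
  classical
  obtain ⟨r, blk, g, s, hb, hg, hs, rfl⟩ := isSpecial_iff.mp hZ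
  let inv : {y : E.K // y ∈ Set.range E.base} → ι := fun y => y.2.choose
  have hinv : ∀ y, E.base (inv y) = y.1 := fun y => y.2.choose_spec
  let B0 := {y : E.K // y ∉ Set.range E.base}
  have hinvb : ∀ i (h : E.base i ∈ Set.range E.base), inv ⟨E.base i, h⟩ = i := fun i h =>
    E.base_inj (hinv ⟨E.base i, h⟩)
  let bb : E.K → Option (Fin r ⊕ B0) := fun y =>
    if h : y ∈ Set.range E.base then (blk (inv ⟨y, h⟩)).map Sum.inl else some (Sum.inr ⟨y, h⟩)
  let gg : E.K → GL (Fin 2) ℚ := fun y =>
    if h : y ∈ Set.range E.base then g (inv ⟨y, h⟩) else 1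
  let ss : E.K → ℍ := fun y =>
    if h : y ∈ Set.range E.base then s (inv ⟨y, h⟩) else UpperHalfPlane.I
  have bb1 : ∀ i, bb (E.base i) = (blk i).map Sum.inl := fun i => by
    have h : E.base i ∈ Set.range E.base := ⟨i, rfl⟩
    simp only [bb, h, dif_pos, hinvb]
  have gg1 : ∀ i, gg (E.base i) = g i := fun i => by
    have h : E.base i ∈ Set.range E.base := ⟨i, rfl⟩
    simp only [gg, h, dif_pos, hinvb]
  have ss1 : ∀ i, ss (E.base i) = s i := fun i => by
    have h : E.base i ∈ Set.range E.base := ⟨i, rfl⟩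
    simp only [ss, h, dif_pos, hinvb]
  have bb2 : ∀ y (h : y ∉ Set.range E.base), bb y = some (Sum.inr ⟨y, h⟩) := fun y h => by
    simp only [bb, h, dif_neg, not_false_eq_true]
  have gg2 : ∀ y (_ : y ∉ Set.range E.base), gg y = 1 := fun y h => by
    simp only [gg, h, dif_neg, not_false_eq_true]
  let blk' : E.J → Option (Fin r ⊕ B0) := fun p => (E.blk p).elim none bb
  let g' : E.J → GL (Fin 2) ℚ := fun p => E.M p * (E.blk p).elim 1 gg
  let s' : E.J → ℍ := fun p => (E.blk p).elim UpperHalfPlane.I ss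
  have hb' : ∀ β : Fin r ⊕ B0, ∃ p, blk' p = some β := by
    rintro (β | b)
    · obtain ⟨i, hi⟩ := hb β
      refine ⟨E.can (E.base i), ?_⟩
      simp only [blk', E.blk_can, Option.elim, bb1, hi, Option.map_some]
    · refine ⟨E.can b.1, ?_⟩
      change (E.blk (E.can b.1)).elim none bb = _
      rw [E.blk_can]
      exact bb2 b.1 b.2
  have hg' : ∀ p, 0 < (g' p).det.val := by
    intro p
    simp only [g', map_mul, Units.val_mul]
    refine mul_pos (E.hM p) ?_
    rcases E.blk p with _ | y
    · simp
    · change 0 < (gg y).det.val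
      by_cases h : y ∈ Set.range E.base
      · obtain ⟨i, rfl⟩ := h
        rw [gg1]
        exact hg i
      · rw [gg2 y h]
        simp
  have hs' : ∀ p, blk' p = none → IsCM (s' p) := by
    intro p hp
    simp only [blk'] at hp
    simp only [s']
    rcases hy : E.blk p with _ | y
    · exact isCM_I
    · rw [hy] at hp
      change bb y = none at hp
      change IsCM (ss y)
      by_cases h : y ∈ Set.range E.base
      · obtain ⟨i, rfl⟩ := h
        rw [bb1, Option.map_eq_none_iff] at hp
        rw [ss1]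
        exact hs i hp
      · rw [bb2 y h] at hp
        exact absurd hp (by simp)
  obtain ⟨blk'', hb'', hs'', h⟩ := isSpecial_mk hb' hg' hs'
  refine ⟨SpSet blk' g' s', isSpecial_iff.mpr ⟨_, blk'', g', s', hb'', hg', hs'', h⟩, ?_, ?_⟩
  · ext z
    constructor
    · rintro ⟨τ, hτ⟩
      let τ' : E.K → ℍ := fun y => (bb y).elim (ss y) (fun β => gact (gg y) (τ β))
      have hP : E.Para τ' z := by
        intro p
        have h1 := hτ p
        simp only [blk', g', s'] at h1
        rcases hy : E.blk p with _ | y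
        · rw [hy] at h1
          exact h1
        · rw [hy] at h1
          simp only [Option.elim] at h1 ⊢
          rw [h1]
          simp only [τ']
          rcases hbb : bb y with _ | β
          · simp only [Option.elim]
            -- `y` is a base block
            have hy2 : y ∈ Set.range E.base := by
              by_contra h
              rw [bb2 y h] at hbb
              exact absurd hbb (by simp)
            obtain ⟨i, rfl⟩ := hy2
            rw [E.M_base p i hy, gact_one]
          · simp only [Option.elim]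
            rw [gact_mul]
      refine ⟨⟨fun β => τ (Sum.inl β), fun i => ?_⟩, ⟨τ', hP⟩⟩
      change z (E.can (E.base i)) = _
      rw [hP.can]
      simp only [τ', bb1, gg1, ss1]
      rcases blk i with _ | β <;> rfl
    · rintro ⟨⟨τ, hτ⟩, ⟨τ', hτ'⟩⟩
      refine ⟨Sum.elim τ (fun y => τ' y.1), fun p => ?_⟩
      simp only [blk', g', s']
      rcases hy : E.blk p with _ | y
      · rw [hτ'.none hy]
        rfl
      · simp only [Option.elim]
        by_cases h : y ∈ Set.range E.base
        · obtain ⟨i, rfl⟩ := h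
          rw [bb1, gg1, ss1, E.M_base p i hy, one_mul]
          have h1 := hτ i
          change z (E.can (E.base i)) = _ at h1
          rw [hτ'.can] at h1
          rw [hτ'.some hy, E.M_base p i hy, gact_one, h1]
          rcases blk i with _ | β <;> rfl
        · rw [bb2 y h, gg2 y h, mul_one, hτ'.some hy]
          rfl
  · rw [dim_spSet hb' hg', dim_spSet hb hg]
    have hc : Fintype.card B0 + Fintype.card ι = Fintype.card E.K := by
      have h1 : Fintype.card {y : E.K // y ∈ Set.range E.base} = Fintype.card ι := by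
        refine (Fintype.card_congr (Equiv.ofBijective
          (fun i : ι => (⟨E.base i, ⟨i, rfl⟩⟩ : {y : E.K // y ∈ Set.range E.base}))
          ⟨fun i i' h => E.base_inj (congrArg Subtype.val h), fun y => ?_⟩)).symm
        obtain ⟨i, hi⟩ := y.2
        exact ⟨i, Subtype.ext hi⟩
      have h2 := Fintype.card_subtype_compl (fun y : E.K => y ∈ Set.range E.base)
      have h3 := Fintype.card_subtype_le (fun y : E.K => y ∈ Set.range E.base)
      change Fintype.card {y : E.K // ¬ y ∈ Set.range E.base} + _ = _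
      omega
    rw [Fintype.card_sum, ← hc]
    push_cast
    ring

end Net

end Pool.Agent.Hhelper14.ZPL
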