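import Pool.Agent.Hhelper14.ZPL.Isog
import Pool.Agent.Hhelper14.ZPL.Kap

/-!
# The key lemma for nets
-/

namespace Pool.Agent.Hhelper14.ZPL

open UpperHalfPlane MvPolynomial Pool.Agent.Hhelper14.ZP

/-- roots of a monic relation -/
theorem roots_finite {Φ : Polynomial (Polynomial OO)} (hΦ : Φ.Monic) (u : ℂ) :
    {v : ℂ | ev2 u v Φ = 0}.Finite := by
  have h1 : (Φ.map (Polynomial.eval₂RingHom ((algebraMap ℂ ℂ).comp OO.subtype) u)) ≠ 0 :=
    (hΦ.map _).ne_zero
  refine (Polynomial.finite_setOfPred_isRoot h1).subset ?_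
  intro v hv
  exact hv

theorem int_two {I : Type} {Y : Set (I → ℂ)} {c r p : I} {Φ Ψ : Polynomial (Polynomial OO)}
    (hΦ : Φ.Monic) (h1 : ∀ w ∈ Y, ev2 (w c) (w r) Φ = 0)
    (hΨ : Ψ.Monic) (h2 : ∀ w ∈ Y, ev2 (w r) (w p) Ψ = 0) :
    (qmap (fun _ : Unit => c) Y).IsIntegralElem (Ideal.Quotient.mk _ (X p)) := by
  have h0 : (qmap (fun _ : Unit => c) Y).IsIntegralElem (Ideal.Quotient.mk _ (X c)) :=
    intElem_coord (fun _ : Unit => c) Y ()
  have h3 : (qmap (fun _ : Unit => c) Y).IsIntegralElem (Ideal.Quotient.mk _ (X r)) := by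
    refine intElem_rel h0 hΦ fun w hw => ?_
    rw [eval_X, eval_X]
    exact h1 w hw
  refine intElem_rel h3 hΨ fun w hw => ?_
  rw [eval_X, eval_X]
  exact h2 w hw

namespace Net

variable {ι : Type} (E : Net ι)

/-- the conditions on a net encoding `U` -/
structure Good [Fintype ι] (U : Set (ι → ℂ)) : Prop where
  lift : ∀ x ∈ U, ∃ z ∈ E.Sol, z ∘ E.pr = x
  comp : ∃ X, IsComponent U X ∧ ∀ z ∈ E.Sol, z ∘ E.pr ∈ X
  int : IntOver E.pr E.Sol
  count : ∃ c : ℕ, Fintype.card E.G + Fintype.card ι = Fintype.card E.K + c ∧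
    dim U + c = Fintype.card ι
  const : ∀ V' ⊆ E.Sol, U ⊆ proj E.pr V' → ∀ y s, IsCM s → ∃ z ∈ V', z (E.can y) ≠ jInv s
  pair : ∀ V' ⊆ E.Sol, U ⊆ proj E.pr V' → ∀ y y', y ≠ y' →
    (∃ z ∈ V', ¬ Isog (z (E.can y)) (z (E.can y'))) ∨
    ((∀ p, E.blk p = some y → p = E.can y) ∧ (∀ p, E.blk p = some y' → p = E.can y') ∧
      ∀ g h : GL (Fin 2) ℚ, 0 < g.det.val → 0 < h.det.val → ∃ z ∈ V', ∀ σ : ℍ,
        ¬ (z (E.can y) = jInv (gact g σ) ∧ z (E.can y') = jInv (gact h σ)))
  single : ∀ V' ⊆ E.Sol, U ⊆ proj E.pr V' → ∀ y, (∀ p, E.blk p = some y → p = E.can y) ∨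
    ∃ z ∈ V', ∃ z' ∈ V', z (E.can y) ≠ z' (E.can y)

/-- A curve in one block -/
theorem curve_closed (y : E.K) : IsZClosed {w : {p : E.J // E.blk p = some y} → ℂ |
    ∃ τ : ℍ, ∀ p, w p = jInv (gact (E.M p.1) τ)} := by
  have h := spSet_closed (ι := {p : E.J // E.blk p = some y}) (κ := Unit)
    (block := fun _ => some ()) (g := fun p => E.M p.1)
    (s := fun _ => UpperHalfPlane.I) (fun b => ⟨⟨E.can y, E.blk_can y⟩, rfl⟩) (fun p => E.hM p.1)
  convert! h using 1
  ext w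
  constructor
  · rintro ⟨τ, hτ⟩
    exact ⟨fun _ => τ, fun q => hτ q⟩
  · rintro ⟨τ, hτ⟩
    exact ⟨τ (), fun q => hτ q⟩

/-- constant coordinates -/
theorem cm_const {V' : Set (E.J → ℂ)} (hV' : IsIrredClosed V') (hV'Z : V' ⊆ E.Z1)
    {p : E.J} {y : E.K} (hp : E.blk p = some y) {s : ℍ} (hs : IsCM s)
    (h : ∀ z ∈ V', z p = jInv s) : ∃ s', IsCM s' ∧ ∀ z ∈ V', z (E.can y) = jInv s' := by
  have hfin := neighbours_finite' (E.hM p) (h := 1) (by simp) (jInv s)
  obtain ⟨a, ha⟩ := const_of_finite hV' (p := E.can y) hfin (fun z hz => by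
    obtain ⟨τ, hτ⟩ := hV'Z hz
    refine ⟨τ y, ?_, ?_⟩
    · rw [← hτ.some hp, h z hz]
    · rw [gact_one, hτ.can])
  obtain ⟨z0, hz0⟩ := irred_nonempty hV'
  obtain ⟨τ, hτ⟩ := hV'Z hz0
  have h1 : Isog (jInv s) (z0 (E.can y)) := by
    rw [← h z0 hz0, hτ.some hp, hτ.can]
    exact (Isog.mk1 (E.hM p) (τ y)).symm
  obtain ⟨s', hs', h2⟩ := Isog.cm hs h1
  exact ⟨s', hs', fun z hz => by rw [ha z hz, ← ha z0 hz0, h2]⟩

/-- the inclusion in `Z1` -/
theorem subset_Z1 {D V' : Set (E.J → ℂ)} (hD : IsIrredClosed D) (hV' : IsIrredClosed V')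
    (hV'D : V' ⊆ D) (hV'Z : V' ⊆ E.Z1)
    (hnone : ∀ p, E.blk p = none → ∀ z ∈ D, z p = kap)
    (hint : ∀ y, IntOver (fun _ : Unit => (⟨E.can y, E.blk_can y⟩ : {p : E.J // E.blk p = some y}))
      (proj (fun p : {p : E.J // E.blk p = some y} => p.1) D))
    (hnc : ∀ y, (∀ p, E.blk p = some y → p = E.can y) ∨
      ∃ z ∈ V', ∃ z' ∈ V', z (E.can y) ≠ z' (E.can y)) :
    D ⊆ E.Z1 := by
  classical
  intro z hz
  have hτ : ∀ y : E.K, ∃ τ : ℍ, ∀ p, E.blk p = some y → z p = jInv (gact (E.M p) τ) := by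
    intro y
    rcases hnc y with hs | hnc
    · obtain ⟨τ, hτ⟩ := j_surj (z (E.can y))
      refine ⟨τ, fun p hp => ?_⟩
      rw [hs p hp, E.M_can, gact_one, hτ]
    · let σ : {p : E.J // E.blk p = some y} → E.J := fun p => p.1
      let Vc := zeroLocus ℂ (vanishingIdeal ℂ (proj σ V') :
        Ideal (MvPolynomial {p : E.J // E.blk p = some y} ℂ))
      let Dc := zeroLocus ℂ (vanishingIdeal ℂ (proj σ D) :
        Ideal (MvPolynomial {p : E.J // E.blk p = some y} ℂ))
      have hVc : IsIrredClosed Vc := irredClosed_closure (irred_proj hV'.1)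
      have hDc : IsIrredClosed Dc := irredClosed_closure (irred_proj hD.1)
      have hVD : Vc ⊆ Dc := zeroLocus_anti_mono (vanishingIdeal_anti_mono (Set.image_mono hV'D))
      have hdimD : dim Dc ≤ 1 := by
        have h1 : dim Dc = dim (proj σ D) := dim_closure _
        rw [h1, ← (hint y).dim_eq]
        calc dim (proj (fun _ : Unit => (⟨E.can y, E.blk_can y⟩ : {p : E.J // E.blk p = some y}))
              (proj σ D)) ≤ dim (Set.univ : Set (Unit → ℂ)) := dim_mono (Set.subset_univ _)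
          _ = 1 := by rw [dim_univ]; simp
      have hdimV : 1 ≤ dim Vc := by
        obtain ⟨z1, hz1, z2, hz2, hne⟩ := hnc
        refine one_le_dim hVc (x := z1 ∘ σ) (y := z2 ∘ σ) (subset_closure' _ ⟨z1, hz1, rfl⟩)
          (subset_closure' _ ⟨z2, hz2, rfl⟩) ?_
        intro h
        exact hne (congrFun h ⟨E.can y, E.blk_can y⟩)
      have heq : Vc = Dc := eq_of_dim_le hVc hDc hVD (hdimD.trans hdimV)
      have hsub : Vc ⊆ {w : {p : E.J // E.blk p = some y} → ℂ |
          ∃ τ : ℍ, ∀ p, w p = jInv (gact (E.M p.1) τ)} := by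
        refine closure_subset' ?_ (E.curve_closed y)
        rintro _ ⟨z', hz', rfl⟩
        obtain ⟨τ, hτ⟩ := hV'Z hz'
        exact ⟨τ y, fun p => hτ.some p.2⟩
      have h1 : z ∘ σ ∈ Dc := subset_closure' _ ⟨z, hz, rfl⟩
      rw [← heq] at h1
      obtain ⟨τ, hτ⟩ := hsub h1
      exact ⟨τ, fun p hp => hτ ⟨p, hp⟩⟩
  choose τ hτ using hτ
  refine ⟨τ, fun p => ?_⟩
  rcases hp : E.blk p with _ | y
  · exact hnone p hp z hz
  · exact hτ y p hp

theorem key [Fintype ι] {U : Set (ι → ℂ)} (hU : IsIrredClosed U) (hE : E.Good U)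
    {V' A T : Set (E.J → ℂ)} (hT : IsSpecial T) (hA : IsIrredClosed A) (hV' : IsIrredClosed V')
    (hV'A : V' ⊆ A) (hAL : A ⊆ (planePow E.G : Set (E.J → ℂ))) (hAT : A ⊆ T)
    (hV'Z : V' ⊆ E.Z1) (hVV' : U ⊆ proj E.pr V') :
    dim A + (Fintype.card E.G : ℕ) ≤ dim T := by
  classical
  obtain ⟨r, blk, g, s, hb, hg, hs, rfl⟩ := isSpecial_iff.mp hT
  have hV'S : V' ⊆ E.Sol := fun z hz => ⟨hAL (hV'A hz), hV'Z hz⟩
  obtain ⟨z0, hz0⟩ := irred_nonempty hV'
  -- no constant coordinates in the blocks of the net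
  have hnc : ∀ p y, E.blk p = some y → blk p ≠ none := by
    intro p y hy hp
    obtain ⟨s', hs', h1⟩ := E.cm_const hV' hV'Z hy (hs p hp) (fun z hz => by
      obtain ⟨σ, hσ⟩ := hAT (hV'A hz)
      rw [hσ p, hp]
      rfl)
    obtain ⟨z, hz, hne⟩ := hE.const V' hV'S hVV' y s' hs'
    exact hne (h1 z hz)
  -- the blocks of `T` refine those of the net
  have hrefine : ∀ p p' t, blk p = some t → blk p' = some t → E.blk p = E.blk p' := by
    have hcase : ∀ p p' t y, blk p = some t → blk p' = some t → E.blk p = none →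
        E.blk p' = some y → False := by
      intro p p' t y hp hp' h1 h2
      -- the coordinate `p'` is constant
      have hfin := neighbours_finite' (hg p) (hg p') kap
      obtain ⟨a, ha⟩ := const_of_finite hV' (p := p') hfin (fun z hz => by
        obtain ⟨σ, hσ⟩ := hAT (hV'A hz)
        obtain ⟨τ, hτ⟩ := hV'Z hz
        refine ⟨σ t, ?_, ?_⟩
        · rw [← hτ.none h1, hσ p, hp]
          rfl
        · rw [hσ p', hp']
          rfl)
      obtain ⟨σ, hσ⟩ := hAT (hV'A hz0)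
      obtain ⟨τ, hτ⟩ := hV'Z hz0
      have h3 : Isog (jInv UpperHalfPlane.I) (z0 p') := by
        have h4 : jInv UpperHalfPlane.I = jInv (gact (g p) (σ t)) := by
          change kap = _
          rw [← hτ.none h1, hσ p, hp]
          rfl
        rw [h4, hσ p', hp']
        exact Isog.mk (hg p) (hg p') (σ t)
      obtain ⟨s', hs', h5⟩ := Isog.cm isCM_I h3
      obtain ⟨s'', hs'', h6⟩ := E.cm_const hV' hV'Z h2 hs' (fun z hz => by
        rw [ha z hz, ← ha z0 hz0, h5])
      obtain ⟨z, hz, hne⟩ := hE.const V' hV'S hVV' y s'' hs''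
      exact hne (h6 z hz)
    intro p p' t hp hp'
    rcases h1 : E.blk p with _ | y <;> rcases h2 : E.blk p' with _ | y'
    · rfl
    · exact (hcase p p' t y' hp hp' h1 h2).elim
    · exact (hcase p' p t y hp' hp h2 h1).elim
    · by_contra hne
      rcases hE.pair V' hV'S hVV' y y' (fun h => hne (by rw [h])) with
        ⟨z, hz, hiso⟩ | ⟨hs1, hs2, h12⟩
      · apply hiso
        obtain ⟨σ, hσ⟩ := hAT (hV'A hz)
        obtain ⟨τ, hτ⟩ := hV'Z hz
        have h3 : Isog (z (E.can y)) (z p) := by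
          rw [hτ.can, hτ.some h1]
          exact Isog.mk1 (E.hM p) _
        have h4 : Isog (z p) (z p') := by
          rw [hσ p, hσ p', hp, hp']
          exact Isog.mk (hg p) (hg p') (σ t)
        have h5 : Isog (z p') (z (E.can y')) := by
          rw [hτ.can, hτ.some h2]
          exact (Isog.mk1 (E.hM p') _).symm
        exact (h3.trans h4).trans h5
      · obtain ⟨z, hz, hno⟩ := h12 (g p) (g p') (hg p) (hg p')
        obtain ⟨σ, hσ⟩ := hAT (hV'A hz)
        refine hno (σ t) ⟨?_, ?_⟩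
        · rw [← hs1 p h1, hσ p, hp]
          rfl
        · rw [← hs2 p' h2, hσ p', hp']
          rfl
  choose rep hrep using hb
  -- relations inside the blocks of `T`
  have hTrel : ∀ p p' t, blk p = some t → blk p' = some t →
      ∃ Φ : Polynomial (Polynomial OO), Φ.Monic ∧ ∀ z ∈ SpSet blk g s,
        ev2 (z p) (z p') Φ = 0 := by
    intro p p' t hp hp'
    obtain ⟨Φ, hΦ, h⟩ := modular_ev2' (hg p) (hg p')
    refine ⟨Φ, hΦ, ?_⟩
    rintro z ⟨σ, hσ⟩
    rw [hσ p, hσ p', hp, hp']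
    exact h (σ t)
  -- the extra blocks
  have hcanb : ∀ y, ∃ t, blk (E.can y) = some t := fun y =>
    Option.ne_none_iff_exists'.mp (hnc _ y (E.blk_can y))
  choose base hbase using hcanb
  have hbaseinj : Function.Injective base := by
    intro y y' h
    have h1 := hrefine (E.can y) (E.can y') (base y) (hbase y) (by rw [h]; exact hbase y')
    rw [E.blk_can, E.blk_can] at h1
    exact Option.some_injective _ h1
  let Ext := {t : Fin r // t ∉ Set.range base}
  have hcard : Fintype.card Ext + Fintype.card E.K = r := by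
    have h1 : Fintype.card {t : Fin r // t ∈ Set.range base} = Fintype.card E.K :=
      (Fintype.card_congr (Equiv.ofInjective base hbaseinj)).symm
    have h2 := Fintype.card_subtype_compl (fun t : Fin r => t ∈ Set.range base)
    have h3 := Fintype.card_subtype_le (fun t : Fin r => t ∈ Set.range base)
    rw [Fintype.card_fin] at h2 h3
    rw [h1] at h2 h3
    change Fintype.card {t : Fin r // ¬ t ∈ Set.range base} + _ = r
    omega
  -- the equations
  have hrel : ∀ p y, E.blk p = some y → ∃ Φ : Polynomial (Polynomial OO), Φ.Monic ∧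
      ∀ z ∈ E.Z1, ev2 (z (E.can y)) (z p) Φ = 0 := fun p y h => E.exists_rel h
  choose Φ hΦ hΦZ using hrel
  let hp : Ext → MvPolynomial E.J ℂ := fun t =>
    if h : ∃ y, E.blk (rep t.1) = some y then
      ev2 (X (E.can h.choose)) (X (rep t.1)) (Φ (rep t.1) h.choose h.choose_spec)
    else X (rep t.1) - C kap
  have hpsome : ∀ (t : Ext) (y : E.K) (h : E.blk (rep t.1) = some y) (z : E.J → ℂ),
      (aeval z (hp t) : ℂ) = ev2 (z (E.can y)) (z (rep t.1)) (Φ (rep t.1) y h) := by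
    intro t y h z
    have h0 : ∃ y, E.blk (rep t.1) = some y := ⟨y, h⟩
    have h1 : h0.choose = y := Option.some_injective _ (h0.choose_spec.symm.trans h)
    simp only [hp, h0, dif_pos]
    have h3 := map_ev2 (aeval z : MvPolynomial E.J ℂ →ₐ[ℂ] ℂ) (X (E.can h0.choose))
      (X (rep t.1)) (Φ (rep t.1) h0.choose h0.choose_spec)
    rw [aeval_X, aeval_X] at h3
    refine h3.trans ?_
    have h4 : ∀ (y' : E.K) (h' : E.blk (rep t.1) = some y'), y' = y →
        ev2 (z (E.can y')) (z (rep t.1)) (Φ (rep t.1) y' h') =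
          ev2 (z (E.can y)) (z (rep t.1)) (Φ (rep t.1) y h) := by
      rintro y' h' rfl
      rfl
    exact h4 _ _ h1
  have hpnone : ∀ (t : Ext) (h : E.blk (rep t.1) = none) (z : E.J → ℂ),
      (aeval z (hp t) : ℂ) = z (rep t.1) - kap := by
    intro t h z
    have h0 : ¬ ∃ y, E.blk (rep t.1) = some y := by
      rw [h]
      simp
    simp only [hp, h0, dif_neg, not_false_eq_true]
    simp
  have hV'X : V' ⊆ A ∩ zeroLocus ℂ (Ideal.span (Set.range hp)) := by
    intro z hz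
    refine ⟨hV'A hz, ?_⟩
    rw [zeroLocus_span]
    rintro _ ⟨t, rfl⟩
    rcases h : E.blk (rep t.1) with _ | y
    · rw [hpnone t h]
      obtain ⟨τ, hτ⟩ := hV'Z hz
      rw [hτ.none h, sub_self]
    · rw [hpsome t y h]
      exact hΦZ _ _ h z (hV'Z hz)
  obtain ⟨D, hD, hV'D⟩ := exists_comp_ge (closed_inter hA.2 (closed_zeroLocus _)) hV' hV'X
  have hcut := krull_cut' hA hp hD
  have hDA : D ⊆ A := fun z hz => (hD.2.1 hz).1
  have hDeq : ∀ t : Ext, ∀ z ∈ D, (aeval z (hp t) : ℂ) = 0 := by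
    intro t z hz
    have h1 := (hD.2.1 hz).2
    rw [zeroLocus_span] at h1
    exact h1 _ ⟨t, rfl⟩
  have hDsome : ∀ (t : Ext) (y : E.K) (h : E.blk (rep t.1) = some y), ∀ z ∈ D,
      ev2 (z (E.can y)) (z (rep t.1)) (Φ (rep t.1) y h) = 0 := by
    intro t y h z hz
    rw [← hpsome t y h]
    exact hDeq t z hz
  have hDnone : ∀ (t : Ext), E.blk (rep t.1) = none → ∀ z ∈ D, z (rep t.1) = kap := by
    intro t h z hz
    have h1 := hDeq t z hz
    rw [hpnone t h, sub_eq_zero] at h1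
    exact h1
  -- an extra block of constants
  have hextn : ∀ p t, blk p = some t → E.blk p = none → t ∉ Set.range base := by
    rintro p t hp h ⟨y, rfl⟩
    have := hrefine p (E.can y) (base y) hp (hbase y)
    rw [h, E.blk_can] at this
    exact absurd this (by simp)
  have hint : ∀ y, IntOver (fun _ : Unit => (⟨E.can y, E.blk_can y⟩ :
      {p : E.J // E.blk p = some y})) (proj (fun p : {p : E.J // E.blk p = some y} => p.1) D) := by
    intro y
    have key1 : ∀ p : {p : E.J // E.blk p = some y}, (qmap (fun _ : Unit =>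
        (⟨E.can y, E.blk_can y⟩ : {p : E.J // E.blk p = some y}))
        (proj (fun p : {p : E.J // E.blk p = some y} => p.1) D)).IsIntegralElem
          (Ideal.Quotient.mk _ (X p)) := by
      intro p
      obtain ⟨t, ht⟩ : ∃ t, blk p.1 = some t := Option.ne_none_iff_exists'.mp (hnc _ y p.2)
      have hrt : E.blk (rep t) = some y := (hrefine p.1 (rep t) t ht (hrep t)).symm.trans p.2
      obtain ⟨Θ, hΘ, h1⟩ : ∃ Θ : Polynomial (Polynomial OO), Θ.Monic ∧
          ∀ z ∈ D, ev2 (z (E.can y)) (z (rep t)) Θ = 0 := by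
        by_cases hext : t ∈ Set.range base
        · obtain ⟨y', rfl⟩ := hext
          have h1 : some y' = some y := by
            rw [← E.blk_can y', hrefine _ _ _ (hbase y') ht]
            exact p.2
          have h2 : y' = y := Option.some_injective _ h1
          subst h2
          obtain ⟨Ψ, hΨ, h3⟩ := hTrel _ _ _ (hbase y') (hrep (base y'))
          exact ⟨Ψ, hΨ, fun z hz => h3 z (hAT (hDA hz))⟩
        · exact ⟨_, hΦ (rep t) y hrt, fun z hz => hDsome ⟨t, hext⟩ y hrt z hz⟩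
      obtain ⟨Ψ, hΨ, h3⟩ := hTrel _ _ _ (hrep t) ht
      refine int_two (r := ⟨rep t, hrt⟩) hΘ ?_ hΨ ?_
      · rintro _ ⟨z, hz, rfl⟩
        exact h1 z hz
      · rintro _ ⟨z, hz, rfl⟩
        exact h3 z (hAT (hDA hz))
    exact key1
  have hnone : ∀ p, E.blk p = none → ∀ z ∈ D, z p = kap := by
    intro p hpn z hz
    obtain ⟨τ0, hτ0⟩ := hV'Z hz0
    rcases hbp : blk p with _ | t
    · obtain ⟨σ, hσ⟩ := hAT (hDA hz)
      obtain ⟨σ0, hσ0⟩ := hAT (hV'A hz0)
      rw [← hτ0.none hpn, hσ p, hσ0 p, hbp]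
      rfl
    · have ht := hextn p t hbp hpn
      have h1 : E.blk (rep t) = none := by
        rw [← hrefine p (rep t) t hbp (hrep t), hpn]
      obtain ⟨Ψ, hΨ, h3⟩ := hTrel _ _ _ (hrep t) hbp
      obtain ⟨a, ha⟩ := const_of_finite hD.1 (p := p) (roots_finite hΨ kap) (fun w hw => by
        have h4 := h3 w (hAT (hDA hw))
        rw [hDnone ⟨t, ht⟩ h1 w hw] at h4
        exact h4)
      rw [ha z hz, ← ha z0 (hV'D hz0), hτ0.none hpn]
  have hDZ : D ⊆ E.Z1 :=
    E.subset_Z1 hD.1 hV' hV'D hV'Z hnone hint (hE.single V' hV'S hVV')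
  -- dimension of `D`
  have hDS : D ⊆ E.Sol := fun z hz => ⟨hAL (hDA hz), hDZ hz⟩
  have hDint : IntOver E.pr D := hE.int.mono hDS
  obtain ⟨X0, hX0, hX1⟩ := hE.comp
  have hprojD : proj E.pr D = U := by
    refine hX0.2.2 _ (hDint.irredClosed hD.1) ?_ (hVV'.trans (Set.image_mono hV'D))
    rintro _ ⟨z, hz, rfl⟩
    exact hX1 z (hDS hz)
  have hdimD : dim D = dim U := by rw [← hDint.dim_eq, hprojD]
  rw [hdimD] at hcut
  rw [dim_spSet (fun b => ⟨rep b, hrep b⟩) hg, Fintype.card_fin]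
  obtain ⟨c, hc1, hc2⟩ := hE.count
  obtain ⟨dA, hdA, -⟩ := exists_dim hA
  obtain ⟨dU, hdU, -⟩ := exists_dim hU
  rw [hdA, hdU] at hcut
  rw [hdU] at hc2
  rw [hdA]
  have h1 : dA ≤ dU + Fintype.card Ext := by exact_mod_cast hcut
  have h2 : dU + c = Fintype.card ι := by exact_mod_cast hc2
  have h3 : dA + Fintype.card E.G ≤ r := by omega
  exact_mod_cast h3

end Net

end Pool.Agent.Hhelper14.ZPL
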