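import Pool.Agent.Hhelper14.ZPL.NetKey
import Pool.Agent.Hhelper78.ZPL.SpK

/-!
# From nets to the relative finiteness statement
-/

namespace Pool.Agent.Hhelper14.ZPL

open UpperHalfPlane MvPolynomial Pool.Agent.Hhelper14.ZP

/-- the conclusion of the relative finiteness statement, over the algebraic numbers -/
def Concl {ι : Type} [Fintype ι] (U : Set (ι → ℂ)) : Prop :=
  ∃ F : Finset (Set (ι → ℂ)), (∀ E ∈ F, KClosed E ∧ ¬ U ⊆ E) ∧
    ∀ Z W, IsSpecial Z → IsIrredClosed W → W ⊆ U → W ⊆ Z →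
      dim Z + dim U < dim W + Fintype.card ι → ∃ E ∈ F, W ⊆ E

namespace Net

variable {ι : Type} (E : Net ι)

theorem Z1_kclosed : KClosed E.Z1 := by
  rw [Z1_eq]
  exact spSet_kclosed (fun b => ⟨E.can b, by rw [E.blk_can]⟩) E.hM (fun _ _ => isCM_I)

theorem main [Fintype ι] {U : Set (ι → ℂ)} (hU : IsIrredClosed U) (hUk : KClosed U)
    (hE : E.Good U) (hfin : (MaxAtypical (planePow E.G : Set (E.J → ℂ))).Finite) :
    Concl U := by
  classical
  obtain ⟨c, hc1, hc2⟩ := hE.count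
  obtain ⟨dU, hdU, -⟩ := exists_dim hU
  have hc2' : dU + c = Fintype.card ι := by
    rw [hdU] at hc2
    exact_mod_cast hc2
  -- lifts
  have hXclosed : ∀ W : Set (ι → ℂ), IsZClosed W →
      IsZClosed (E.Sol ∩ {z | z ∘ E.pr ∈ W}) := fun W hW =>
    closed_inter (closed_inter (planePow_closed _) E.Z1_closed) (closed_preimage hW)
  -- a closed set mapping onto `W` contains an irreducible one
  have hcover : ∀ (W : Set (ι → ℂ)) (X : Set (E.J → ℂ)), IsIrredClosed W → IsZClosed X →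
      X ⊆ E.Sol → W ⊆ proj E.pr X →
      ∃ D, IsIrredClosed D ∧ D ⊆ X ∧ W ⊆ proj E.pr D := by
    intro W X hW hX hXLZ hWX
    obtain ⟨F, hF, hF'⟩ := exists_components hX
    obtain ⟨D', hD', hWD'⟩ := irred_cover hW (F.image fun D => proj E.pr D)
      (fun Y hY => by
        obtain ⟨D, hD, rfl⟩ := Finset.mem_image.mp hY
        exact (hE.int.mono ((hF D hD).2.1.trans hXLZ)).closed (hF D hD).1.2)
      (fun x hx => by
        obtain ⟨z, hz, hzx⟩ := hWX hx
        obtain ⟨D, hD, hzD⟩ := hF' {z} (irredClosed_singleton z) (Set.singleton_subset_iff.mpr hz)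
        exact ⟨_, Finset.mem_image_of_mem _ hD, ⟨z, hzD rfl, hzx⟩⟩)
    obtain ⟨D, hD, rfl⟩ := Finset.mem_image.mp hD'
    exact ⟨D, (hF D hD).1, (hF D hD).2.1, hWD'⟩
  have hXcover : ∀ W : Set (ι → ℂ), W ⊆ U → W ⊆ proj E.pr (E.Sol ∩ {z | z ∘ E.pr ∈ W}) := by
    intro W hWV x hx
    obtain ⟨z, h1, h3⟩ := hE.lift x (hWV hx)
    refine ⟨z, ⟨h1, ?_⟩, h3⟩
    change z ∘ E.pr ∈ W
    rw [h3]
    exact hx
  -- the plane power is irreducible
  obtain ⟨x0, hx0⟩ := irred_nonempty hU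
  have hLne : (planePow E.G : Set (E.J → ℂ)).Nonempty := by
    obtain ⟨z, h1, -⟩ := hE.lift x0 hx0
    exact ⟨z, h1.1⟩
  have hLirr : IsIrredClosed (planePow E.G : Set (E.J → ℂ)) :=
    ⟨affine_irred _ hLne, planePow_closed _⟩
  obtain ⟨dL, hdL, -⟩ := exists_dim hLirr
  -- the dimension of the plane power
  have hLge : Fintype.card E.J ≤ dL + Fintype.card E.G := by
    have h1 := krull_cut' (irredClosed_univ (ι := E.J)) (planeEq E.G)
      (Y := (planePow E.G : Set (E.J → ℂ)))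
      ⟨hLirr, by rw [Set.univ_inter, ← planePow_eq], fun C' hC' h1 h2 => by
        rw [Set.univ_inter, ← planePow_eq] at h1
        exact Set.Subset.antisymm h1 h2⟩
    rw [dim_univ, hdL] at h1
    exact_mod_cast h1
  have hLle : dL + Fintype.card E.G ≤ Fintype.card E.J := by
    obtain ⟨D, hD, hDX, hVD⟩ := hcover U _ hU (hXclosed U hU.2) Set.inter_subset_left
      (hXcover U subset_rfl)
    have h1 := E.key hU hE special_univ hLirr hD
      (hDX.trans (Set.inter_subset_left.trans Set.inter_subset_left)) subset_rfl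
      (Set.subset_univ _) (hDX.trans (Set.inter_subset_left.trans Set.inter_subset_right)) hVD
    rw [dim_univ, hdL] at h1
    exact_mod_cast h1
  let XU : Set (E.J → ℂ) := E.Sol ∩ {z | z ∘ E.pr ∈ U}
  have hXUk : KClosed XU := ((planePow_kclosed E.G).inter E.Z1_kclosed).inter hUk.preimage
  refine ⟨hfin.toFinset.image fun A => proj E.pr (A ∩ XU), ?_, ?_⟩
  · intro Y hY
    obtain ⟨A, hA, rfl⟩ := Finset.mem_image.mp hY
    obtain ⟨hAat, -⟩ := hfin.mem_toFinset.mp hA
    obtain ⟨T, hT, hAc, hlt⟩ := hAat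
    have hcl : IsZClosed (A ∩ XU) := closed_inter hAc.1.2 (hXclosed U hU.2)
    have hsub : A ∩ XU ⊆ E.Sol := Set.inter_subset_right.trans Set.inter_subset_left
    refine ⟨?_, fun hVA => ?_⟩
    · have hAk : KClosed A :=
        kclosed_component ((planePow_kclosed E.G).inter (special_kclosed hT)) hAc
      exact kclosed_proj (hAk.inter hXUk) ((hE.int.mono hsub).closed hcl)
    obtain ⟨D, hD, hDX, hVD⟩ := hcover U _ hU hcl hsub hVA
    have h1 := E.key hU hE hT hAc.1 hD
      (hDX.trans Set.inter_subset_left) (fun z hz => (hAc.2.1 hz).1) (fun z hz => (hAc.2.1 hz).2)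
      (fun z hz => (hsub (hDX hz)).2) hVD
    obtain ⟨dA, hdA, -⟩ := exists_dim hAc.1
    obtain ⟨r, blk, g, s, hb, hg, hs, rfl⟩ := isSpecial_iff.mp hT
    rw [dim_spSet hb hg, Fintype.card_fin] at h1 hlt
    rw [hdA] at h1 hlt
    rw [hdL] at hlt
    have h2 : dA + Fintype.card E.G ≤ r := by exact_mod_cast h1
    have h3 : r + dL < dA + Fintype.card E.J := by exact_mod_cast hlt
    omega
  · intro Z W hZ hW hWV hWZ hlt
    obtain ⟨D, hD, hDX, hWD⟩ := hcover W _ hW (hXclosed W hW.2) Set.inter_subset_left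
      (hXcover W hWV)
    obtain ⟨Z', hZ', hZ'eq, hdimZ'⟩ := E.special_lift hZ
    have hDZ' : D ⊆ (planePow E.G : Set (E.J → ℂ)) ∩ Z' := by
      intro z hz
      obtain ⟨⟨h1, h2⟩, h3⟩ := hDX hz
      refine ⟨h1, ?_⟩
      rw [hZ'eq]
      exact ⟨hWZ h3, h2⟩
    obtain ⟨C', hC', hDC'⟩ := exists_comp_ge
      (closed_inter (planePow_closed _) (special_closed hZ')) hD hDZ'
    have hWdim : dim W ≤ dim C' := by
      have hDint : IntOver E.pr D := hE.int.mono (hDX.trans Set.inter_subset_left)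
      calc dim W ≤ dim (proj E.pr D) := dim_mono hWD
        _ = dim D := hDint.dim_eq
        _ ≤ dim C' := dim_mono hDC'
    have hat : IsAtypical (planePow E.G : Set (E.J → ℂ)) C' := by
      refine ⟨Z', hZ', hC', ?_⟩
      obtain ⟨r, blk, g, s, hb, hg, hs, rfl⟩ := isSpecial_iff.mp hZ
      obtain ⟨dW, hdW, -⟩ := exists_dim hW
      obtain ⟨dC, hdC, -⟩ := exists_dim hC'.1
      obtain ⟨r', blk', g', s', hb', hg', hs', rfl⟩ := isSpecial_iff.mp hZ'
      rw [dim_spSet hb hg, dim_spSet hb' hg', Fintype.card_fin, Fintype.card_fin] at hdimZ'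
      rw [dim_spSet hb' hg', Fintype.card_fin, hdL, hdC]
      rw [dim_spSet hb hg, Fintype.card_fin, hdU, hdW] at hlt
      rw [hdW, hdC] at hWdim
      have h0 : r' + Fintype.card ι = r + Fintype.card E.K := by exact_mod_cast hdimZ'
      have h1 : r + dU < dW + Fintype.card ι := by exact_mod_cast hlt
      have h2 : dW ≤ dC := by exact_mod_cast hWdim
      have h4 : r' + dL < dC + Fintype.card E.J := by omega
      exact_mod_cast h4
    obtain ⟨A, hA, hC'A⟩ := exists_maxAtypical hat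
    refine ⟨_, Finset.mem_image_of_mem _ (hfin.mem_toFinset.mpr hA), hWD.trans ?_⟩
    refine Set.image_mono fun z hz => ⟨hC'A (hDC' hz), ?_⟩
    exact ⟨(hDX hz).1, hWV (hDX hz).2⟩

end Net

end Pool.Agent.Hhelper14.ZPL
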