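import Pool.Agent.Hhelper14.ZPL.SysGood
import Pool.Agent.Hhelper77.ZPL.CiRat
import Pool.Agent.Hhelper99.ZPL.HeckeQ
import Pool.Agent.Hhelper78.ZPL.Spread

/-!
# Powers of one plane suffice
-/

namespace Pool.Agent.Hhelper14.ZPL

open UpperHalfPlane MvPolynomial Pool.Agent.Hhelper14.ZP

/-- the value of a signed word -/
noncomputable def wval {At : Type} (L : List (Bool × At)) (val : At → ℂ) : ℂ :=
  (L.map fun p => sgn p.1 * val p.2).sum

theorem wval_append {At : Type} (L L' : List (Bool × At)) (val : At → ℂ) :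
    wval (L ++ L') val = wval L val + wval L' val := by
  simp [wval]

theorem wval_cons {At : Type} (p : Bool × At) (L : List (Bool × At)) (val : At → ℂ) :
    wval (p :: L) val = sgn p.1 * val p.2 + wval L val := by
  simp [wval]

theorem wval_get {At : Type} (L : List (Bool × At)) (val : At → ℂ) :
    wval L val = ∑ l : Fin L.length, sgn (L[l.1]).1 * val (L[l.1]).2 :=
  (Fin.sum_univ_fun_getElem L fun p => sgn p.1 * val p.2).symm

/-- words for integer combinations -/
theorem exists_word {At J : Type} [Fintype J] (φ : J → At) (d : J → ℤ) :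
    ∃ L : List (Bool × At), ∀ val : At → ℂ, wval L val = ∑ j, (d j : ℂ) * val (φ j) := by
  classical
  have h : ∀ s : Finset J, ∃ L : List (Bool × At), ∀ val : At → ℂ,
      wval L val = ∑ j ∈ s, (d j : ℂ) * val (φ j) := by
    intro s
    induction s using Finset.induction_on with
    | empty => exact ⟨[], fun val => by simp [wval]⟩
    | insert j s hj ih =>
      obtain ⟨L, hL⟩ := ih
      rcases le_total 0 (d j) with h0 | h0
      · refine ⟨List.replicate (d j).toNat (true, φ j) ++ L, fun val => ?_⟩
        rw [wval_append, hL, Finset.sum_insert hj]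
        congr 1
        have h1 : (((d j).toNat : ℕ) : ℂ) = (d j : ℂ) := by
          have : (((d j).toNat : ℕ) : ℤ) = d j := Int.toNat_of_nonneg h0
          exact_mod_cast congrArg (fun x : ℤ => (x : ℂ)) this
        simp [wval, sgn, h1]
      · refine ⟨List.replicate (-d j).toNat (false, φ j) ++ L, fun val => ?_⟩
        rw [wval_append, hL, Finset.sum_insert hj]
        congr 1
        have h1 : (((-d j).toNat : ℕ) : ℂ) = -(d j : ℂ) := by
          have : (((-d j).toNat : ℕ) : ℤ) = -d j := Int.toNat_of_nonneg (by omega)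
          exact_mod_cast congrArg (fun x : ℤ => (x : ℂ)) this
        simp [wval, sgn, h1]
  exact h Finset.univ

/-- **Existence of the system.** -/
theorem exists_sys {ι : Type} [Fintype ι] {c : ℕ} (f : Fin c → MvPolynomial ι ℚ) :
    ∃ S : Sys ι c, ∀ (k : Fin c) (x : ι → ℂ), S.F k x = 0 ↔ (aeval x (f k) : ℂ) = 0 := by
  classical
  obtain ⟨Q, fQ, M, P, hM, hM0, hdeg, hP⟩ :=
    hecke_rat ((Finset.univ.sup fun k => (f k).totalDegree) + 1)
  have hf : ∀ k, (f k).totalDegree ≤ P.natDegree := fun k =>
    (Finset.le_sup (f := fun k => (f k).totalDegree) (Finset.mem_univ k)).trans (by omega)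
  obtain ⟨B, fB, ell, n, m, a, C, hn, hn2, hC, hid⟩ := exists_formsQ f P rfl (by omega) hf 1728
    (by norm_num)
  -- the words of the relations
  have hW1 : ∀ b : B, ∃ L : List (Bool × Atom ι B Q), ∀ (x : ι → ℂ) (t w : ℂ)
      (V : B → Option Q → ℂ), wval L (Atom.val x t w V) =
        - (∑ i, (ell b i : ℂ) * x i + n b * t + m b * kap) := by
    intro b
    obtain ⟨L1, h1⟩ := exists_word (fun i : ι => (Atom.xt i : Atom ι B Q)) (fun i => -(ell b i : ℤ))
    obtain ⟨L2, h2⟩ := exists_word (fun _ : Unit => (Atom.w : Atom ι B Q))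
      (fun _ => ∑ i, (ell b i : ℤ))
    obtain ⟨L3, h3⟩ := exists_word (fun _ : Unit => (Atom.t : Atom ι B Q)) (fun _ => -(n b : ℤ))
    obtain ⟨L4, h4⟩ := exists_word (fun _ : Unit => (Atom.k : Atom ι B Q)) (fun _ => -(m b : ℤ))
    refine ⟨L1 ++ L2 ++ L3 ++ L4, fun x t w V => ?_⟩
    rw [wval_append, wval_append, wval_append, h1, h2, h3, h4]
    simp only [Atom.val, Finset.univ_unique, Finset.sum_const, Finset.card_singleton, one_smul]
    push_cast
    have h5 : ∑ i, -(ell b i : ℂ) * (x i + w) =
        -(∑ i, (ell b i : ℂ) * x i) - (∑ i, (ell b i : ℂ)) * w := by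
      rw [Finset.sum_mul, ← Finset.sum_neg_distrib, ← Finset.sum_sub_distrib]
      refine Finset.sum_congr rfl fun i _ => ?_
      ring
    rw [h5]
    ring
  choose L1 hL1 using hW1
  have hW2 : ∀ k : Fin c, ∃ L : List (Bool × Atom ι B Q), ∀ (x : ι → ℂ) (t w : ℂ)
      (V : B → Option Q → ℂ), wval L (Atom.val x t w V) =
        ∑ b, (a k b : ℂ) * ∑ q : Q, V b (some q) := by
    intro k
    obtain ⟨L, h1⟩ := exists_word (fun p : B × Q => (Atom.v p.1 (some p.2) : Atom ι B Q))
      (fun p => a k p.1)
    refine ⟨L, fun x t w V => ?_⟩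
    rw [h1, Fintype.sum_prod_type]
    refine Finset.sum_congr rfl fun b _ => ?_
    rw [Finset.mul_sum]
    rfl
  choose L2 hL2 using hW2
  let W : B ⊕ Fin c → List (Bool × Atom ι B Q) :=
    Sum.elim (fun b => (true, Atom.v b none) :: L1 b) L2
  let S : Sys ι c :=
    { B := B
      Q := Q
      M := M
      hM := hM
      M0 := hM0
      ell := ell
      n := n
      m := m
      hn := hn
      hn2 := hn2
      R := fun ρ => (W ρ).length
      at' := fun ρ l => ((W ρ)[l.1]).2
      sg := fun ρ l => ((W ρ)[l.1]).1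
      l0 := fun b => ⟨0, Nat.succ_pos _⟩
      at_l0 := fun b => rfl
      F := fun k x => (C k : ℂ) * aeval x (f k)
      rel_inl := by
        intro b x t w V
        refine (wval_get (W (Sum.inl b)) (Atom.val x t w V)).symm.trans ?_
        change wval ((true, Atom.v b none) :: L1 b) (Atom.val x t w V) = _
        rw [wval_cons, hL1]
        simp only [sgn, if_true, one_mul, Atom.val]
        ring
      rel_inr := by
        intro k x t w V τ hV hτ
        refine (wval_get (W (Sum.inr k)) (Atom.val x t w V)).symm.trans ?_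
        change wval (L2 k) (Atom.val x t w V) = _
        rw [hL2, hid k x t]
        refine Finset.sum_congr rfl fun b _ => ?_
        congr 1
        have h1 := hP (τ b)
        have h2 : ∑ q : Q, V b (some q) = ∑ q : Q, jInv (gact (M (some q)) (τ b)) :=
          Finset.sum_congr rfl fun q _ => hV b (some q)
        rw [h2, h1, hτ b, Polynomial.eval_map, ← Polynomial.aeval_def, kap_eq]
        norm_num }
  refine ⟨S, fun k x => ?_⟩
  change (C k : ℂ) * aeval x (f k) = 0 ↔ _
  have hC0 : (C k : ℂ) ≠ 0 := by exact_mod_cast (hC k).ne'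
  rw [mul_eq_zero]
  exact or_iff_right hC0

/-- **Powers of one plane suffice, over the algebraic numbers.** -/
theorem plane_to_ndk
    (h : ∀ (G : Type) [Fintype G], (MaxAtypical (planePow G : Set (G × Fin 3 → ℂ))).Finite) :
    NDk := by
  intro ι _ U hUk hUi hgen
  obtain ⟨c, f, hdim, hcomp⟩ := exists_ci_rat hUk hUi
  obtain ⟨S, hS⟩ := exists_sys f
  have hX : IsZClosed {x : ι → ℂ | ∀ k, (aeval x (f k) : ℂ) = 0} := by
    have h1 : {x : ι → ℂ | ∀ k, (aeval x (f k) : ℂ) = 0} = zeroLocus ℂ (Ideal.span (Set.range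
        fun k => MvPolynomial.map (algebraMap ℚ ℂ) (f k))) := by
      ext x
      rw [zeroLocus_span]
      simp only [Set.mem_ofPred_eq, Set.forall_mem_range]
      refine forall_congr' fun k => ?_
      rw [aeval_map_algebraMap]
    rw [h1]
    exact closed_zeroLocus _
  have hgood := Sys.good (S := S) hUi hgen hX hcomp (fun x hx k => (hS k x).mpr (hcomp.2.1 hx k))
    (fun x hx k => (hS k x).mp (hx k)) hdim
  have hUk' : KClosed (Fib (Fr S.T) U) := hUk.preimage
  exact concl_of_fib hUk (S.net.main (fib_irred hUi) hUk' hgood (h S.net.G))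

end Pool.Agent.Hhelper14.ZPL
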