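import Pool.Agent.Hhelper14.ZPL.Dim
import Pool.Agent.Hhelper14.ZPL.Closed

/-!
# Finite projections
-/

namespace Pool.Agent.Hhelper14.ZPL

open UpperHalfPlane MvPolynomial Pool.Agent.Hhelper14.ZP

/-- integral extensions preserve the dimension -/
theorem krull_eq_of_integral' {A B : Type} [CommRing A] [CommRing B]
    [Algebra A B] [Algebra.IsIntegral A B] (hinj : Function.Injective (algebraMap A B)) :
    ringKrullDim A = ringKrullDim B := by
  apply le_antisymm
  · apply iSup_le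
    intro l
    obtain ⟨Q, -, hQ, hQl⟩ := Ideal.exists_ideal_over_prime_of_isIntegral (R := A) (S := B)
      (RelSeries.head l).asIdeal ⊥ (by
        rw [Ideal.comap_bot_of_injective _ hinj]
        exact bot_le)
    have : Algebra.HasGoingUp A B := Algebra.HasGoingUp.of_isIntegral
    have : Q.LiesOver (RelSeries.head l).asIdeal := ⟨hQl.symm⟩
    obtain ⟨L, hL, -, -⟩ := Ideal.exists_ltSeries_of_hasGoingUp l Q
    rw [← hL]
    exact Order.LTSeries.length_le_krullDim L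
  · refine Order.krullDim_le_of_strictMono (PrimeSpectrum.comap (algebraMap A B)) ?_
    intro I J hIJ
    exact Ideal.IsIntegral.comap_lt_comap hIJ

variable {ι κ : Type}

/-- Restriction of coordinates along `σ : κ → ι`. -/
def proj (σ : κ → ι) (Y : Set (ι → ℂ)) : Set (κ → ℂ) := (fun x => x ∘ σ) '' Y

theorem vanishingIdeal_proj (σ : κ → ι) (Y : Set (ι → ℂ)) :
    (vanishingIdeal ℂ (proj σ Y) : Ideal (MvPolynomial κ ℂ)) =
      (vanishingIdeal ℂ Y).comap (rename σ : MvPolynomial κ ℂ →ₐ[ℂ] MvPolynomial ι ℂ) := by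
  ext p
  rw [Ideal.mem_comap, mem_vanishingIdeal_iff, mem_vanishingIdeal_iff]
  constructor
  · intro h x hx
    rw [aeval_rename]
    exact h _ ⟨x, hx, rfl⟩
  · rintro h _ ⟨x, hx, rfl⟩
    have := h x hx
    rwa [aeval_rename] at this

/-- the map of coordinate rings -/
noncomputable def qmap (σ : κ → ι) (Y : Set (ι → ℂ)) :
    MvPolynomial κ ℂ →+* MvPolynomial ι ℂ ⧸ (vanishingIdeal ℂ Y : Ideal (MvPolynomial ι ℂ)) :=
  (Ideal.Quotient.mk _).comp (rename σ : MvPolynomial κ ℂ →ₐ[ℂ] MvPolynomial ι ℂ).toRingHom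

theorem ker_qmap (σ : κ → ι) (Y : Set (ι → ℂ)) :
    RingHom.ker (qmap σ Y) = vanishingIdeal ℂ (proj σ Y) := by
  rw [vanishingIdeal_proj]
  ext p
  rw [RingHom.mem_ker, qmap, RingHom.comp_apply, Ideal.Quotient.eq_zero_iff_mem, Ideal.mem_comap]
  rfl

/-- all coordinates on `Y` are integral over the coordinates `x ∘ σ` -/
def IntOver (σ : κ → ι) (Y : Set (ι → ℂ)) : Prop :=
  ∀ i, (qmap σ Y).IsIntegralElem (Ideal.Quotient.mk _ (X i))

theorem IntOver.isIntegral {σ : κ → ι} {Y : Set (ι → ℂ)} (h : IntOver σ Y) :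
    (qmap σ Y).IsIntegral := by
  intro y
  obtain ⟨p, rfl⟩ := Ideal.Quotient.mk_surjective y
  induction p using MvPolynomial.induction_on with
  | C c =>
    have h1 : Ideal.Quotient.mk (vanishingIdeal ℂ Y) (C c) = qmap σ Y (C c) := by
      simp [qmap]
    rw [h1]
    exact RingHom.isIntegralElem_map _
  | add p q hp hq => rw [map_add]; exact RingHom.IsIntegralElem.add _ hp hq
  | mul_X p i hp => rw [map_mul]; exact RingHom.IsIntegralElem.mul _ hp (h i)

theorem IntOver.dim_eq {σ : κ → ι} {Y : Set (ι → ℂ)} (h : IntOver σ Y) :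
    dim (proj σ Y) = dim Y := by
  have hint := h.isIntegral
  let g : MvPolynomial κ ℂ ⧸ (vanishingIdeal ℂ (proj σ Y) : Ideal (MvPolynomial κ ℂ)) →+*
      MvPolynomial ι ℂ ⧸ (vanishingIdeal ℂ Y : Ideal (MvPolynomial ι ℂ)) :=
    Ideal.Quotient.lift _ (qmap σ Y) (fun a ha => by
      rwa [← ker_qmap, RingHom.mem_ker] at ha)
  have hginj : Function.Injective g :=
    RingHom.lift_injective_of_ker_le_ideal _ _ (by rw [ker_qmap])
  have hgint : g.IsIntegral := by
    have h1 : g.comp (Ideal.Quotient.mk _) = qmap σ Y := Ideal.Quotient.lift_comp_mk _ _ _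
    rw [← h1] at hint
    exact RingHom.IsIntegral.tower_top _ _ hint
  let _ := g.toAlgebra
  have : Algebra.IsIntegral (MvPolynomial κ ℂ ⧸ (vanishingIdeal ℂ (proj σ Y) : Ideal _))
    (MvPolynomial ι ℂ ⧸ (vanishingIdeal ℂ Y : Ideal (MvPolynomial ι ℂ))) := ⟨hgint⟩
  exact krull_eq_of_integral' hginj

theorem irred_proj {σ : κ → ι} {Y : Set (ι → ℂ)}
    (h : (vanishingIdeal ℂ Y : Ideal (MvPolynomial ι ℂ)).IsPrime) :
    (vanishingIdeal ℂ (proj σ Y) : Ideal (MvPolynomial κ ℂ)).IsPrime := by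
  rw [vanishingIdeal_proj]
  exact Ideal.IsPrime.comap _

theorem IntOver.closed [Finite ι] [Finite κ] {σ : κ → ι} {Y : Set (ι → ℂ)} (h : IntOver σ Y)
    (hY : IsZClosed Y) : IsZClosed (proj σ Y) := by
  refine Set.Subset.antisymm ?_ (subset_closure' _)
  intro y hy
  have hle : (vanishingIdeal ℂ (proj σ Y) : Ideal (MvPolynomial κ ℂ)) ≤ vanishingIdeal ℂ {y} := by
    rw [← le_zeroLocus_iff_le_vanishingIdeal, Set.singleton_subset_iff]
    exact hy
  have hmax : (vanishingIdeal ℂ {y} : Ideal (MvPolynomial κ ℂ)).IsMaximal :=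
    isMaximal_iff_eq_vanishingIdeal_singleton.mpr ⟨y, rfl⟩
  let _ := (qmap σ Y).toAlgebra
  have hint : Algebra.IsIntegral (MvPolynomial κ ℂ)
    (MvPolynomial ι ℂ ⧸ (vanishingIdeal ℂ Y : Ideal (MvPolynomial ι ℂ))) := ⟨h.isIntegral⟩
  obtain ⟨Q, hQ, hQy⟩ := Ideal.exists_ideal_over_maximal_of_isIntegral
    (S := MvPolynomial ι ℂ ⧸ (vanishingIdeal ℂ Y : Ideal (MvPolynomial ι ℂ)))
    (vanishingIdeal ℂ {y} : Ideal (MvPolynomial κ ℂ)) (by
      change RingHom.ker (qmap σ Y) ≤ _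
      rw [ker_qmap]
      exact hle)
  have hM : (Q.comap (Ideal.Quotient.mk (vanishingIdeal ℂ Y))).IsMaximal :=
    Ideal.comap_isMaximal_of_surjective _ Ideal.Quotient.mk_surjective
  obtain ⟨x, hx⟩ := isMaximal_iff_eq_vanishingIdeal_singleton.mp hM
  have hxY : x ∈ Y := by
    rw [← hY, mem_zeroLocus_iff]
    intro p hp
    have h1 : p ∈ Q.comap (Ideal.Quotient.mk (vanishingIdeal ℂ Y)) := by
      rw [Ideal.mem_comap, Ideal.Quotient.eq_zero_iff_mem.mpr hp]
      exact Q.zero_mem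
    rw [hx] at h1
    exact mem_vanishingIdeal_singleton_iff _ _ |>.mp h1
  refine ⟨x, hxY, ?_⟩
  funext k
  have h1 : (X k - C (y k) : MvPolynomial κ ℂ) ∈
      (vanishingIdeal ℂ {y} : Ideal (MvPolynomial κ ℂ)) := by
    rw [mem_vanishingIdeal_singleton_iff]
    simp
  rw [← hQy, Ideal.mem_comap] at h1
  have h2 : rename σ (X k - C (y k) : MvPolynomial κ ℂ) ∈
      Q.comap (Ideal.Quotient.mk (vanishingIdeal ℂ Y)) := h1
  rw [hx, mem_vanishingIdeal_singleton_iff] at h2
  simp only [map_sub, rename_X, rename_C, aeval_X, aeval_C] at h2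
  exact sub_eq_zero.mp h2

theorem IntOver.irredClosed [Finite ι] [Finite κ] {σ : κ → ι} {Y : Set (ι → ℂ)}
    (h : IntOver σ Y) (hY : IsIrredClosed Y) : IsIrredClosed (proj σ Y) :=
  ⟨irred_proj hY.1, h.closed hY.2⟩

theorem IntOver.mono {σ : κ → ι} {Y Y' : Set (ι → ℂ)} (h : IntOver σ Y) (hle : Y' ⊆ Y) :
    IntOver σ Y' := by
  have hI : (vanishingIdeal ℂ Y : Ideal (MvPolynomial ι ℂ)) ≤ vanishingIdeal ℂ Y' :=
    vanishingIdeal_anti_mono hle
  intro i
  obtain ⟨p, hp, hp0⟩ := h i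
  refine ⟨p, hp, ?_⟩
  have h1 := congrArg (Ideal.Quotient.factor hI) hp0
  rw [Polynomial.hom_eval₂, map_zero] at h1
  exact h1

/-- evaluation of a two-variable polynomial over the algebraic integers -/
noncomputable def ev2 {R : Type} [CommRing R] [Algebra ℂ R] (u v : R)
    (Φ : Polynomial (Polynomial OO)) : R :=
  (Φ.map (Polynomial.eval₂RingHom ((algebraMap ℂ R).comp OO.subtype) u)).eval v

theorem map_ev2 {R S : Type} [CommRing R] [Algebra ℂ R] [CommRing S] [Algebra ℂ S]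
    (f : R →ₐ[ℂ] S) (u v : R) (Φ : Polynomial (Polynomial OO)) :
    f (ev2 u v Φ) = ev2 (f u) (f v) Φ := by
  have h1 : (f : R →+* S).comp (Polynomial.eval₂RingHom ((algebraMap ℂ R).comp OO.subtype) u) =
      Polynomial.eval₂RingHom ((algebraMap ℂ S).comp OO.subtype) (f u) := by
    apply Polynomial.ringHom_ext
    · intro a
      simp
    · simp
  rw [ev2, ev2, ← h1, ← Polynomial.map_map, Polynomial.eval_map (f : R →+* S)]
  exact (Polynomial.eval₂_hom (f : R →+* S) v).symm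

/-- transitivity of integrality along a relation -/
theorem trans_rel {A R : Type} [CommRing A] [CommRing R] [Algebra A R] [Algebra ℂ A] [Algebra ℂ R]
    [IsScalarTower ℂ A R] {u v : R} (hu : IsIntegral A u) {Φ : Polynomial (Polynomial OO)}
    (hΦ : Φ.Monic) (h0 : ev2 u v Φ = 0) : IsIntegral A v := by
  let D := integralClosure A R
  let u' : D := ⟨u, hu⟩
  let e : Polynomial OO →+* D :=
    Polynomial.eval₂RingHom ((algebraMap A D).comp ((algebraMap ℂ A).comp OO.subtype)) u'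
  have he : (algebraMap D R).comp e =
      Polynomial.eval₂RingHom ((algebraMap ℂ R).comp OO.subtype) u := by
    apply Polynomial.ringHom_ext
    · intro a
      simp only [e, RingHom.comp_apply, Polynomial.coe_eval₂RingHom, Polynomial.eval₂_C]
      rw [← IsScalarTower.algebraMap_apply A D R, ← IsScalarTower.algebraMap_apply ℂ A R]
    · simp only [e, RingHom.comp_apply, Polynomial.coe_eval₂RingHom, Polynomial.eval₂_X]
      rfl
  have h1 : IsIntegral D v := by
    refine ⟨Φ.map e, hΦ.map e, ?_⟩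
    rw [← Polynomial.eval_map, Polynomial.map_map, he]
    exact h0
  exact isIntegral_trans (A := D) v h1

/-- transitivity of integrality along a relation holding on `Y` -/
theorem intElem_rel {σ : κ → ι} {Y : Set (ι → ℂ)} {u v : MvPolynomial ι ℂ}
    (hu : (qmap σ Y).IsIntegralElem (Ideal.Quotient.mk _ u)) {Φ : Polynomial (Polynomial OO)}
    (hΦ : Φ.Monic) (h0 : ∀ x ∈ Y, ev2 (eval x u) (eval x v) Φ = 0) :
    (qmap σ Y).IsIntegralElem (Ideal.Quotient.mk _ v) := by
  let _ := (qmap σ Y).toAlgebra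
  have : IsScalarTower ℂ (MvPolynomial κ ℂ)
      (MvPolynomial ι ℂ ⧸ (vanishingIdeal ℂ Y : Ideal (MvPolynomial ι ℂ))) := by
    refine .of_algebraMap_eq fun c => ?_
    change _ = qmap σ Y (C c)
    simp only [qmap, RingHom.comp_apply]
    change _ = Ideal.Quotient.mk _ (rename σ (C c))
    rw [rename_C]
    rfl
  refine trans_rel (A := MvPolynomial κ ℂ) (u := Ideal.Quotient.mk _ u) hu hΦ ?_
  have h1 := map_ev2 (Ideal.Quotient.mkₐ ℂ (vanishingIdeal ℂ Y : Ideal (MvPolynomial ι ℂ))) u v Φ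
  change ev2 (Ideal.Quotient.mkₐ ℂ _ u) (Ideal.Quotient.mkₐ ℂ _ v) Φ = 0
  rw [← h1]
  change Ideal.Quotient.mk _ _ = 0
  rw [Ideal.Quotient.eq_zero_iff_mem, mem_vanishingIdeal_iff]
  intro x hx
  have h2 := map_ev2 (aeval x : MvPolynomial ι ℂ →ₐ[ℂ] ℂ) u v Φ
  rw [h2]
  exact h0 x hx

theorem intElem_coord (σ : κ → ι) (Y : Set (ι → ℂ)) (k : κ) :
    (qmap σ Y).IsIntegralElem (Ideal.Quotient.mk _ (X (σ k))) := by
  have h1 : Ideal.Quotient.mk (vanishingIdeal ℂ Y) (X (σ k)) = qmap σ Y (X k) := by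
    change _ = Ideal.Quotient.mk _ (rename σ (X k))
    rw [rename_X]
  rw [h1]
  exact RingHom.isIntegralElem_map _

theorem intElem_congr {σ : κ → ι} {Y : Set (ι → ℂ)} {p : MvPolynomial ι ℂ}
    (q : MvPolynomial κ ℂ) (h : ∀ x ∈ Y, eval x p = eval (x ∘ σ) q) :
    (qmap σ Y).IsIntegralElem (Ideal.Quotient.mk _ p) := by
  have h1 : Ideal.Quotient.mk (vanishingIdeal ℂ Y) p = qmap σ Y q := by
    change _ = Ideal.Quotient.mk _ (rename σ q)
    rw [Ideal.Quotient.eq, mem_vanishingIdeal_iff]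
    intro x hx
    rw [map_sub, aeval_rename, sub_eq_zero]
    exact h x hx
  rw [h1]
  exact RingHom.isIntegralElem_map _

/-- modular equations -/
theorem modular_ev2 {g : GL (Fin 2) ℚ} (hg : 0 < g.det.val) :
    ∃ Φ : Polynomial (Polynomial OO), Φ.Monic ∧ ∀ τ : ℍ,
      ev2 (jInv τ) (jInv (gact g τ)) Φ = 0 := by
  obtain ⟨Φ, hΦ, h⟩ := modular_eq_rat hg
  exact ⟨Φ, hΦ, fun τ => h τ⟩

theorem modular_ev2' {g h : GL (Fin 2) ℚ} (hg : 0 < g.det.val) (hh : 0 < h.det.val) :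
    ∃ Φ : Polynomial (Polynomial OO), Φ.Monic ∧ ∀ τ : ℍ,
      ev2 (jInv (gact g τ)) (jInv (gact h τ)) Φ = 0 := by
  obtain ⟨Φ, hΦ, H⟩ := modular_ev2 (g := h * g⁻¹) (by
    rw [map_mul, Units.val_mul]
    exact mul_pos hh (det_inv_pos hg))
  refine ⟨Φ, hΦ, fun τ => ?_⟩
  have := H (gact g τ)
  rwa [← gact_mul, inv_mul_cancel_right] at this

theorem vanishingIdeal_univ' : (vanishingIdeal ℂ (Set.univ : Set (ι → ℂ)) :
    Ideal (MvPolynomial ι ℂ)) = ⊥ := by
  rw [eq_bot_iff]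
  intro p hp
  rw [mem_vanishingIdeal_iff] at hp
  rw [Ideal.mem_bot]
  apply MvPolynomial.funext
  intro x
  rw [map_zero]
  exact hp x (Set.mem_univ x)

theorem irredClosed_univ : IsIrredClosed (Set.univ : Set (ι → ℂ)) := by
  refine ⟨by rw [vanishingIdeal_univ']; exact Ideal.isPrime_bot, ?_⟩
  rw [vanishingIdeal_univ']
  exact zeroLocus_bot

theorem dim_univ [Fintype ι] : dim (Set.univ : Set (ι → ℂ)) = Fintype.card ι := by
  rw [dim, vanishingIdeal_univ',
    ringKrullDim_eq_of_ringEquiv (RingEquiv.quotientBot (MvPolynomial ι ℂ)),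
    MvPolynomial.ringKrullDim_of_isNoetherianRing]
  simp

theorem intOver_spSet {block : ι → Option κ} {g : ι → GL (Fin 2) ℚ} {s : ι → ℍ}
    (rep : κ → ι) (hrep : ∀ b, block (rep b) = some b) (hg : ∀ i, 0 < (g i).det.val) :
    IntOver rep (SpSet block g s) := by
  intro i
  rcases hi : block i with _ | b
  · refine intElem_congr (C (jInv (s i))) ?_
    rintro x ⟨τ, hτ⟩
    rw [eval_X, eval_C, hτ i, hi]
    rfl
  · obtain ⟨Φ, hΦ, h⟩ := modular_ev2' (hg (rep b)) (hg i)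
    refine intElem_rel (u := X (rep b)) (intElem_coord rep _ b) hΦ ?_
    rintro x ⟨τ, hτ⟩
    rw [eval_X, eval_X, hτ i, hτ (rep b), hi, hrep b]
    exact h (τ b)

theorem proj_spSet {block : ι → Option κ} {g : ι → GL (Fin 2) ℚ} {s : ι → ℍ}
    (rep : κ → ι) (hrep : ∀ b, block (rep b) = some b) :
    proj rep (SpSet block g s) = Set.univ := by
  rw [Set.eq_univ_iff_forall]
  intro y
  choose τ hτ using fun b => j_surj (y b)
  refine ⟨fun i => (block i).elim (jInv (s i))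
    (fun b => jInv (gact (g i) (gact (g (rep b))⁻¹ (τ b)))),
    ⟨fun b => gact (g (rep b))⁻¹ (τ b), fun i => rfl⟩, ?_⟩
  funext b
  simp only [Function.comp_apply, hrep b, Option.elim]
  rw [← gact_mul, mul_inv_cancel, gact_one, hτ]

/-- **The dimension of a special set is the number of its blocks.** -/
theorem dim_spSet [Fintype κ] {block : ι → Option κ} {g : ι → GL (Fin 2) ℚ} {s : ι → ℍ}
    (hb : ∀ b, ∃ i, block i = some b) (hg : ∀ i, 0 < (g i).det.val) :
    dim (SpSet block g s) = Fintype.card κ := by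
  choose rep hrep using hb
  rw [← (intOver_spSet rep hrep hg).dim_eq, proj_spSet rep hrep, dim_univ]

/-- an irreducible closed set covered by finitely many closed sets is contained in one of them -/
theorem irred_cover {V : Set (ι → ℂ)} (hV : IsIrredClosed V) (F : Finset (Set (ι → ℂ)))
    (hF : ∀ E ∈ F, IsZClosed E) (hcov : ∀ x ∈ V, ∃ E ∈ F, x ∈ E) : ∃ E ∈ F, V ⊆ E := by
  classical
  by_contra hcon
  push Not at hcon
  have h1 : ∀ E ∈ F, ∃ p : MvPolynomial ι ℂ, p ∈ vanishingIdeal ℂ E ∧ p ∉ vanishingIdeal ℂ V := by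
    intro E hE
    by_contra hcon'
    push Not at hcon'
    apply hcon E hE
    rw [← hF E hE, ← hV.2]
    exact zeroLocus_anti_mono hcon'
  choose! p hp hpV using h1
  have h2 : ∏ E ∈ F, p E ∈ (vanishingIdeal ℂ V : Ideal (MvPolynomial ι ℂ)) := by
    rw [mem_vanishingIdeal_iff]
    intro x hx
    obtain ⟨E, hE, hxE⟩ := hcov x hx
    rw [map_prod]
    exact Finset.prod_eq_zero hE ((mem_vanishingIdeal_iff.mp (hp E hE)) x hxE)
  obtain ⟨E, hE, hE'⟩ := (hV.1.prod_mem_iff).mp h2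
  exact hpV E hE hE'

end Pool.Agent.Hhelper14.ZPL
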