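import Pool.Agent.Hhelper14.ZPL.Net

/-!
# Renaming the coordinates
-/

namespace Pool.Agent.Hhelper14.ZPL

open UpperHalfPlane MvPolynomial Pool.Agent.Hhelper14.ZP

variable {α β : Type} (e : α ≃ β)

/-- renaming the coordinates -/
def Ren (Y : Set (α → ℂ)) : Set (β → ℂ) := proj e.symm Y

theorem mem_ren {Y : Set (α → ℂ)} {y : β → ℂ} : y ∈ Ren e Y ↔ y ∘ e ∈ Y := by
  constructor
  · rintro ⟨x, hx, rfl⟩
    have : (x ∘ e.symm) ∘ e = x := by
      funext i
      simp
    change (x ∘ e.symm) ∘ e ∈ Y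
    rw [this]
    exact hx
  · intro h
    refine ⟨_, h, ?_⟩
    funext i
    simp

theorem ren_ren (Y : Set (α → ℂ)) : Ren e.symm (Ren e Y) = Y := by
  ext y
  rw [mem_ren, mem_ren]
  have : (y ∘ e.symm) ∘ e = y := by
    funext i
    simp
  rw [this]

theorem ren_mono {Y Y' : Set (α → ℂ)} (h : Y ⊆ Y') : Ren e Y ⊆ Ren e Y' := Set.image_mono h

theorem ren_inter (Y Y' : Set (α → ℂ)) : Ren e (Y ∩ Y') = Ren e Y ∩ Ren e Y' := by
  ext y
  rw [Set.mem_inter_iff, mem_ren, mem_ren, mem_ren]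
  rfl

theorem ren_int (Y : Set (α → ℂ)) : IntOver e.symm Y := by
  intro i
  have h := intElem_coord e.symm Y (e i)
  rwa [Equiv.symm_apply_apply] at h

theorem dim_ren (Y : Set (α → ℂ)) : dim (Ren e Y) = dim Y := (ren_int e Y).dim_eq

theorem ren_irred [Finite α] [Finite β] {Y : Set (α → ℂ)} (hY : IsIrredClosed Y) :
    IsIrredClosed (Ren e Y) := (ren_int e Y).irredClosed hY

theorem ren_special {Z : Set (α → ℂ)} (hZ : IsSpecial Z) : IsSpecial (Ren e Z) := by
  obtain ⟨r, blk, g, s, hb, hg, hs, rfl⟩ := isSpecial_iff.mp hZ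
  refine isSpecial_iff.mpr ⟨r, blk ∘ e.symm, g ∘ e.symm, s ∘ e.symm, fun b => ?_,
    fun i => hg _, fun i hi => hs _ hi, ?_⟩
  · obtain ⟨i, hi⟩ := hb b
    exact ⟨e i, by simp [hi]⟩
  · ext y
    rw [mem_ren]
    constructor
    · rintro ⟨τ, hτ⟩
      refine ⟨τ, fun i => ?_⟩
      have := hτ (e.symm i)
      simpa using this
    · rintro ⟨τ, hτ⟩
      refine ⟨τ, fun i => ?_⟩
      have := hτ (e i)
      simpa using this

theorem ren_component [Finite α] [Finite β] {C W : Set (α → ℂ)} (h : IsComponent C W) :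
    IsComponent (Ren e C) (Ren e W) := by
  refine ⟨ren_irred e h.1, ren_mono e h.2.1, fun C' hC' h1 h2 => ?_⟩
  have h3 := h.2.2 (Ren e.symm C') (ren_irred e.symm hC')
    (by
      have := ren_mono e.symm h1
      rwa [ren_ren] at this)
    (by
      have := ren_mono e.symm h2
      rwa [ren_ren] at this)
  have h4 := ren_ren e.symm C'
  rw [h3] at h4
  exact h4.symm

theorem ren_atypical [Fintype α] [Fintype β] {V C : Set (α → ℂ)} (h : IsAtypical V C) :
    IsAtypical (Ren e V) (Ren e C) := by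
  obtain ⟨Z, hZ, hC, hlt⟩ := h
  refine ⟨Ren e Z, ren_special e hZ, ?_, ?_⟩
  · rw [← ren_inter]
    exact ren_component e hC
  · rw [dim_ren, dim_ren, dim_ren, ← Fintype.card_congr e]
    exact hlt

theorem ren_max [Fintype α] [Fintype β] {V C : Set (α → ℂ)} (h : C ∈ MaxAtypical V) :
    Ren e C ∈ MaxAtypical (Ren e V) := by
  refine ⟨ren_atypical e h.1, fun C' hC' h1 => ?_⟩
  have h2 := ren_atypical e.symm hC'
  rw [ren_ren] at h2
  have h3 := h.2 _ h2 (by
    have := ren_mono e.symm h1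
    rwa [ren_ren] at this)
  have h4 := ren_ren e.symm C'
  rw [h3] at h4
  exact h4.symm

theorem max_finite_of_ren [Fintype α] [Fintype β] {V : Set (α → ℂ)}
    (h : (MaxAtypical (Ren e V)).Finite) : (MaxAtypical V).Finite := by
  refine Set.Finite.of_finite_image (f := Ren e) (h.subset ?_) ?_
  · rintro _ ⟨C, hC, rfl⟩
    exact ren_max e hC
  · intro C _ C' _ hCC
    have := congrArg (Ren e.symm) hCC
    rwa [ren_ren, ren_ren] at this

/-- only the number of factors matters -/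
theorem planePow_fin
    (h : ∀ m : ℕ, (MaxAtypical {z : Fin m × Fin 3 → ℂ | ∀ i, z (i, 0) + z (i, 1) = z (i, 2)}).Finite)
    (G : Type) [Fintype G] : (MaxAtypical (planePow G : Set (G × Fin 3 → ℂ))).Finite := by
  let e : G × Fin 3 ≃ Fin (Fintype.card G) × Fin 3 :=
    (Fintype.equivFin G).prodCongr (Equiv.refl (Fin 3))
  refine max_finite_of_ren e ?_
  convert! h (Fintype.card G) using 2
  ext z
  rw [mem_ren]
  change (∀ g, z (e (g, 0)) + z (e (g, 1)) = z (e (g, 2))) ↔ _
  constructor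
  · intro h1 i
    have := h1 ((Fintype.equivFin G).symm i)
    simpa [e] using this
  · intro h1 g
    exact h1 (Fintype.equivFin G g)

end Pool.Agent.Hhelper14.ZPL
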