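import Pool.Agent.Hhelper14.ZPL.Topo

/-!
# The value `j(ρ) = 0`
-/

namespace Pool.Agent.Hhelper14.ZPL

open UpperHalfPlane ModularForm ModularFormClass SlashInvariantFormClass MatrixGroups
  EisensteinSeries Function Metric Pool.Agent.Hhelper14.ZP

theorem exists_cm_zero : ∃ s : ℍ, IsCM s ∧ jInv s = 0 := by
  have h3 : (0 : ℝ) < √3 := Real.sqrt_pos.mpr (by norm_num)
  let ρ : ℍ := ⟨-1 / 2 + (√3 / 2 : ℝ) * Complex.I, by simp⟩
  have hρ : (ρ : ℂ) = -1 / 2 + (√3 / 2 : ℝ) * Complex.I := rfl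
  have hsq : ((√3 : ℝ) : ℂ) ^ 2 = 3 := by
    rw [← Complex.ofReal_pow, Real.sq_sqrt (by norm_num)]
    norm_num
  have h1 : (ρ : ℂ) ^ 2 + ρ + 1 = 0 := by
    rw [hρ]
    push_cast
    ring_nf
    rw [Complex.I_sq, hsq]
    ring
  refine ⟨ρ, ⟨1, 1, 1, one_ne_zero, by push_cast; linear_combination h1⟩, ?_⟩
  have hρ1 : (ρ : ℂ) + 1 ≠ 0 := by
    intro h
    have h2 : (ρ : ℂ) ^ 2 = 0 := by linear_combination h1 - h
    have h4 : (ρ : ℂ) = 0 := pow_eq_zero_iff (two_ne_zero) |>.mp h2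
    rw [h4] at h
    simp at h
  have hfix : (ModularGroup.S * ModularGroup.T) • ρ = ρ := by
    rw [mul_smul, UpperHalfPlane.modular_T_smul, UpperHalfPlane.modular_S_smul]
    apply UpperHalfPlane.ext
    change (-(((1 : ℝ) +ᵥ ρ : ℍ) : ℂ))⁻¹ = ρ
    rw [UpperHalfPlane.coe_vadd]
    push_cast
    rw [inv_eq_iff_eq_inv, ← mul_left_inj' (c := (ρ : ℂ))]
    · rw [inv_mul_cancel₀]
      · linear_combination -h1
      · exact ρ.ne_zero
    · exact ρ.ne_zero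
  have h := E4_smul (ModularGroup.S * ModularGroup.T) ρ
  have hden : denom ((ModularGroup.S * ModularGroup.T : SL(2, ℤ)) : GL (Fin 2) ℝ) ρ = (ρ : ℂ) + 1 := by
    have e0 : (ModularGroup.S * ModularGroup.T).1 1 0 = 1 := by decide
    have e1 : (ModularGroup.S * ModularGroup.T).1 1 1 = 1 := by decide
    rw [UpperHalfPlane.denom]
    change (((((ModularGroup.S * ModularGroup.T).1 1 0 : ℤ) : ℝ) : ℂ)) * ρ +
      (((((ModularGroup.S * ModularGroup.T).1 1 1 : ℤ) : ℝ) : ℂ)) = _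
    rw [e0, e1]
    simp
  rw [hfix, hden] at h
  have h5 : ((ρ : ℂ) + 1) ^ (4 : ℤ) = ρ ^ 2 := by
    have : ((ρ : ℂ) + 1) ^ (4 : ℤ) = ((ρ : ℂ) + 1) ^ 4 := by norm_cast
    rw [this]
    have h6 : (ρ : ℂ) + 1 = -(ρ : ℂ) ^ 2 := by linear_combination h1
    have h7 : (ρ : ℂ) ^ 3 = 1 := by linear_combination ((ρ : ℂ) - 1) * h1
    rw [h6]
    linear_combination (ρ : ℂ) ^ 2 * ((ρ : ℂ) ^ 3 + 1) * h7
  rw [h5] at h
  have h8 : (1 - (ρ : ℂ) ^ 2) * E₄ ρ = 0 := by linear_combination h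
  have h9 : (1 - (ρ : ℂ) ^ 2) ≠ 0 := by
    intro h10
    have h11 : ((ρ : ℂ) + 1) * ((ρ : ℂ) - 1) = 0 := by linear_combination -h10
    rcases mul_eq_zero.mp h11 with h12 | h12
    · exact hρ1 h12
    · have h13 : (ρ : ℂ) = 1 := by linear_combination h12
      rw [h13] at h1
      norm_num at h1
  rw [jInv, (mul_eq_zero.mp h8).resolve_left h9]
  simp

end Pool.Agent.Hhelper14.ZPL
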