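import Pool.Agent.Hhelper14.ZPL.Proj
import Pool.Agent.Hhelper14.ZP.Family

/-!
# Polynomials as combinations of `P (affine form)`
-/

namespace Pool.Agent.Hhelper14.ZPL

open MvPolynomial Pool.Agent.Hhelper14.ZP

theorem coeff_mem {E : Type} [AddCommGroup E] [Module ℂ E] (S : Submodule ℂ E) (n : ℕ) (v : ℕ → E)
    {I : Set ℂ} (hI : I.Infinite) (h : ∀ s ∈ I, ∑ i ∈ Finset.range n, s ^ i • v i ∈ S) :
    ∀ i < n, v i ∈ S := by
  intro i hi
  rw [← Submodule.Quotient.mk_eq_zero, ← Module.forall_dual_apply_eq_zero_iff ℂ]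
  intro φ
  let p : Polynomial ℂ := ∑ k ∈ Finset.range n,
    Polynomial.C (φ (Submodule.Quotient.mk (v k))) * Polynomial.X ^ k
  have hp : p = 0 := by
    apply Polynomial.eq_zero_of_infinite_isRoot
    refine hI.mono fun s hs => ?_
    have h1 := h s hs
    rw [← Submodule.Quotient.mk_eq_zero] at h1
    have h2 := congrArg φ h1
    rw [map_zero] at h2
    change p.eval s = 0
    rw [← h2]
    simp only [p, Polynomial.eval_finsetSum, Polynomial.eval_mul, Polynomial.eval_C,
      Polynomial.eval_pow, Polynomial.eval_X]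
    rw [← Submodule.mkQ_apply, map_sum, map_sum]
    refine Finset.sum_congr rfl fun k _ => ?_
    rw [map_smul, map_smul, smul_eq_mul, mul_comm]
    rfl
  have h1 := congrArg (fun q => q.coeff i) hp
  simp only [p, Polynomial.finsetSum_coeff, Polynomial.coeff_C_mul, Polynomial.coeff_X_pow,
    Polynomial.coeff_zero] at h1
  rw [Finset.sum_eq_single i (fun k _ hk => by simp [hk.symm])
    (fun h => absurd (Finset.mem_range.mpr hi) h)] at h1
  simpa using h1

variable {ι : Type} [Fintype ι]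

/-- linear forms with natural coefficients -/
noncomputable def lin (ℓ : ι → ℕ) : MvPolynomial ι ℂ := ∑ i, C (ℓ i : ℂ) * X i

theorem lin_smul (t : ℕ) (ℓ : ι → ℕ) : lin (fun i => t * ℓ i) = C (t : ℂ) * lin ℓ := by
  rw [lin, lin, Finset.mul_sum]
  refine Finset.sum_congr rfl fun i _ => ?_
  push_cast
  rw [C_mul]
  ring

theorem lin_add_single [DecidableEq ι] (ℓ : ι → ℕ) (t : ℕ) (i : ι) :
    lin (ℓ + Pi.single i t) = lin ℓ + C (t : ℂ) * X i := by
  simp only [lin, Pi.add_apply]
  push_cast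
  simp only [C_add, add_mul, Finset.sum_add_distrib]
  congr 1
  rw [Finset.sum_eq_single i]
  · simp
  · intro k _ hk
    simp [Pi.single_eq_of_ne hk]
  · intro h
    exact absurd (Finset.mem_univ i) h

/-- `ℓ` does not vanish on `w` -/
def GoodL (w : ι → ℂ) (ℓ : ι → ℕ) : Prop := ∑ i, (ℓ i : ℂ) * w i ≠ 0

theorem pow_mem_span {S : Submodule ℂ (MvPolynomial ι ℂ)} {h : Polynomial ℂ} {N : ℕ}
    (hN : h.natDegree = N) (hN0 : 0 < N) {w : ι → ℂ}
    (H : ∀ ℓ, GoodL w ℓ → ∃ I : Set ℂ, I.Infinite ∧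
      ∀ s ∈ I, Polynomial.aeval (lin ℓ + C s) h ∈ S)
    (ℓ : ι → ℕ) (hℓ : GoodL w ℓ) (k : ℕ) (hk : k ≤ N) : lin ℓ ^ k ∈ S := by
  let hR : Polynomial (MvPolynomial ι ℂ) := h.map (C : ℂ →+* MvPolynomial ι ℂ)
  have hRdeg : hR.natDegree = N := by
    rw [Polynomial.natDegree_map_eq_of_injective (MvPolynomial.C_injective ι ℂ), hN]
  -- first expansion
  have h1 : ∀ t : ℕ, 0 < t → ∀ i, i < N + 1 →
      (Polynomial.hasseDeriv i hR).eval (C (t : ℂ) * lin ℓ) ∈ S := by
    intro t ht
    have hgood : GoodL w (fun i => t * ℓ i) := by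
      have : ∑ i, ((t * ℓ i : ℕ) : ℂ) * w i = (t : ℂ) * ∑ i, (ℓ i : ℂ) * w i := by
        rw [Finset.mul_sum]
        refine Finset.sum_congr rfl fun i _ => ?_
        push_cast
        ring
      rw [GoodL, this]
      exact mul_ne_zero (by exact_mod_cast ht.ne') hℓ
    obtain ⟨I, hI, hIS⟩ := H _ hgood
    refine coeff_mem S (N + 1) (fun i => (Polynomial.hasseDeriv i hR).eval (C (t : ℂ) * lin ℓ)) hI
      fun s hs => ?_
    have h2 := hIS s hs
    rw [lin_smul] at h2
    have h3 : Polynomial.aeval (C (t : ℂ) * lin ℓ + C s) h =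
        (Polynomial.taylor (C (t : ℂ) * lin ℓ) hR).eval (C s) := by
      rw [Polynomial.taylor_eval, Polynomial.aeval_def, Polynomial.eval_map, add_comm]
      rfl
    rw [h3, Polynomial.eval_eq_sum_range, Polynomial.natDegree_taylor, hRdeg] at h2
    convert! h2 using 1
    refine Finset.sum_congr rfl fun i _ => ?_
    rw [Polynomial.taylor_coeff, ← C_pow, MvPolynomial.smul_eq_C_mul, mul_comm]
  -- second expansion
  have h2 := coeff_mem S (N + 1)
    (fun j => (((j + (N - k)).choose (N - k) : ℂ) * h.coeff (j + (N - k))) • lin ℓ ^ j)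
    (I := (fun t : ℕ => (t : ℂ)) '' {t | 0 < t}) ((Set.infinite_of_injective_forall_mem
      (f := fun n : ℕ => n + 1) (fun a b h => by simpa using h) (fun n => Nat.succ_pos n)).image
      (Nat.cast_injective.injOn)) (by
    rintro _ ⟨t, ht, rfl⟩
    have h3 := h1 t ht (N - k) (by omega)
    rw [Polynomial.eval_eq_sum_range' (n := N + 1) (lt_of_le_of_lt
      (Polynomial.natDegree_hasseDeriv_le _ _) (by rw [hRdeg]; omega))] at h3
    convert! h3 using 1
    refine Finset.sum_congr rfl fun j _ => ?_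
    rw [Polynomial.hasseDeriv_coeff, Polynomial.coeff_map]
    simp only [MvPolynomial.smul_eq_C_mul, mul_pow, C_mul, C_pow, map_natCast]
    ring) k (by omega)
  have h3 : ((k + (N - k)).choose (N - k) : ℂ) * h.coeff (k + (N - k)) ≠ 0 := by
    rw [Nat.add_sub_cancel' hk]
    refine mul_ne_zero ?_ ?_
    · exact_mod_cast (Nat.choose_pos (Nat.sub_le N k)).ne'
    · rw [← hN, Polynomial.coeff_natDegree, Polynomial.leadingCoeff_ne_zero]
      rintro rfl
      simp at hN
      omega
  exact (Submodule.smul_mem_iff S h3).mp h2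

theorem infinite_good [DecidableEq ι] {w : ι → ℂ} {ℓ : ι → ℕ} (hℓ : GoodL w ℓ) (i : ι) :
    ((fun t : ℕ => (t : ℂ)) '' {t | GoodL w (ℓ + Pi.single i t)}).Infinite := by
  refine Set.Infinite.image (Nat.cast_injective.injOn) ?_
  have hsum : ∀ t : ℕ, ∑ k, ((ℓ + Pi.single i t : ι → ℕ) k : ℂ) * w k =
      ∑ k, (ℓ k : ℂ) * w k + t * w i := by
    intro t
    simp only [Pi.add_apply]
    push_cast
    simp only [add_mul, Finset.sum_add_distrib]
    congr 1
    rw [Finset.sum_eq_single i]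
    · simp
    · intro k _ hk
      simp [Pi.single_eq_of_ne hk]
    · intro h
      exact absurd (Finset.mem_univ i) h
  have hfin : {t : ℕ | ¬ GoodL w (ℓ + Pi.single i t)}.Finite := by
    apply Set.Subsingleton.finite
    intro t ht t' ht'
    simp only [Set.mem_ofPred_eq, GoodL, hsum, not_not] at ht ht'
    have hw : w i ≠ 0 := by
      intro h0
      rw [h0, mul_zero, add_zero] at ht
      exact hℓ ht
    have : (t : ℂ) * w i = t' * w i := by
      rw [← sub_eq_zero]
      linear_combination ht - ht'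
    exact_mod_cast mul_right_cancel₀ hw this
  have h2 : {t : ℕ | GoodL w (ℓ + Pi.single i t)} = {t : ℕ | ¬ GoodL w (ℓ + Pi.single i t)}ᶜ := by
    ext t
    simp
  rw [h2]
  exact hfin.infinite_compl

theorem prod_mem_span {S : Submodule ℂ (MvPolynomial ι ℂ)} {N : ℕ} {w : ι → ℂ}
    (H : ∀ ℓ, GoodL w ℓ → ∀ k ≤ N, lin ℓ ^ k ∈ S) (m : Multiset ι) :
    ∀ j, Multiset.card m + j ≤ N → ∀ ℓ, GoodL w ℓ → (m.map X).prod * lin ℓ ^ j ∈ S := by
  classical
  induction m using Multiset.induction_on with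
  | empty =>
    intro j hj ℓ hℓ
    simp only [Multiset.map_zero, Multiset.prod_zero, one_mul]
    exact H ℓ hℓ j (by simpa using hj)
  | cons i m ih =>
    intro j hj ℓ hℓ
    rw [Multiset.card_cons] at hj
    rw [Multiset.map_cons, Multiset.prod_cons]
    have h1 := coeff_mem S (j + 1 + 1) (fun r => (((j + 1).choose r : ℕ) : ℂ) •
      ((m.map X).prod * (X i ^ r * lin ℓ ^ (j + 1 - r)))) (infinite_good hℓ i) (by
      rintro _ ⟨t, ht, rfl⟩
      have h2 := ih (j + 1) (by omega) _ ht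
      rw [lin_add_single, add_comm (lin ℓ), add_pow, Finset.mul_sum] at h2
      convert! h2 using 1
      refine Finset.sum_congr rfl fun r _ => ?_
      simp only [MvPolynomial.smul_eq_C_mul, mul_pow, C_pow, map_natCast]
      ring) 1 (by omega)
    simp only [pow_one, Nat.add_sub_cancel, Nat.choose_one_right] at h1
    have h2 : ((j + 1 : ℕ) : ℂ) ≠ 0 := by exact_mod_cast Nat.succ_ne_zero j
    have h3 := (Submodule.smul_mem_iff S h2).mp h1
    convert! h3 using 1
    ring

theorem exists_good [DecidableEq ι] {w : ι → ℂ} (hw : w ≠ 0) : ∃ ℓ, GoodL w ℓ := by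
  obtain ⟨i, hi⟩ := Function.ne_iff.mp hw
  refine ⟨Pi.single i 1, ?_⟩
  rw [GoodL, Finset.sum_eq_single i]
  · simpa using hi
  · intro k _ hk
    simp [Pi.single_eq_of_ne hk]
  · intro h
    exact absurd (Finset.mem_univ i) h

/-- every polynomial of degree `≤ N` is a combination of `h (ℓ + s)` -/
theorem mem_span_forms {S : Submodule ℂ (MvPolynomial ι ℂ)} {h : Polynomial ℂ} {N : ℕ}
    (hN : h.natDegree = N) (hN0 : 0 < N) {w : ι → ℂ} (hw : w ≠ 0)
    (H : ∀ ℓ, GoodL w ℓ → ∃ I : Set ℂ, I.Infinite ∧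
      ∀ s ∈ I, Polynomial.aeval (lin ℓ + C s) h ∈ S)
    (f : MvPolynomial ι ℂ) (hf : f.totalDegree ≤ N) : f ∈ S := by
  classical
  obtain ⟨ℓ, hℓ⟩ := exists_good hw
  rw [f.as_sum]
  refine Submodule.sum_mem _ fun α hα => ?_
  have h1 : Multiset.card (Finsupp.toMultiset α) ≤ N := by
    rw [Finsupp.card_toMultiset]
    exact (MvPolynomial.le_totalDegree hα).trans hf
  have h2 := prod_mem_span (pow_mem_span hN hN0 H) (Finsupp.toMultiset α) 0 (by omega) ℓ hℓ
  rw [pow_zero, mul_one] at h2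
  have h3 : monomial α (coeff α f) = coeff α f •
      ((Finsupp.toMultiset α).map (X : ι → MvPolynomial ι ℂ)).prod := by
    rw [Finsupp.toMultiset_map, Finsupp.prod_toMultiset, monomial_eq, MvPolynomial.smul_eq_C_mul]
    congr 1
    rw [Finsupp.prod_mapDomain_index_inj (MvPolynomial.X_injective)]
  rw [h3]
  exact S.smul_mem _ h2

end Pool.Agent.Hhelper14.ZPL
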