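import Mathlib

/-!
# Rational polynomials as combinations of `P (integral form)`
-/

namespace Pool.Agent.Hhelper14.ZPL

open MvPolynomial

theorem coeff_memQ {E : Type} [AddCommGroup E] [Module ℚ E] (S : Submodule ℚ E) (n : ℕ) (v : ℕ → E)
    {I : Set ℚ} (hI : I.Infinite) (h : ∀ s ∈ I, ∑ i ∈ Finset.range n, s ^ i • v i ∈ S) :
    ∀ i < n, v i ∈ S := by
  intro i hi
  rw [← Submodule.Quotient.mk_eq_zero, ← Module.forall_dual_apply_eq_zero_iff ℚ]
  intro φ
  let p : Polynomial ℚ := ∑ k ∈ Finset.range n,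
    Polynomial.C (φ (Submodule.Quotient.mk (v k))) * Polynomial.X ^ k
  have hp : p = 0 := by
    apply Polynomial.eq_zero_of_infinite_isRoot
    refine hI.mono fun s hs => ?_
    have h1 := h s hs
    rw [← Submodule.Quotient.mk_eq_zero] at h1
    have h2 := congrArg φ h1
    rw [map_zero] at h2
    change p.eval s = 0
    rw [← h2]
    simp only [p, Polynomial.eval_finsetSum, Polynomial.eval_mul, Polynomial.eval_C,
      Polynomial.eval_pow, Polynomial.eval_X]
    rw [← Submodule.mkQ_apply, map_sum, map_sum]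
    refine Finset.sum_congr rfl fun k _ => ?_
    rw [map_smul, map_smul, smul_eq_mul, mul_comm]
    rfl
  have h1 := congrArg (fun q => q.coeff i) hp
  simp only [p, Polynomial.finsetSum_coeff, Polynomial.coeff_C_mul, Polynomial.coeff_X_pow,
    Polynomial.coeff_zero] at h1
  rw [Finset.sum_eq_single i (fun k _ hk => by simp [hk.symm])
    (fun h => absurd (Finset.mem_range.mpr hi) h)] at h1
  simpa using h1

section alg

variable {ι A : Type} [Fintype ι] [CommRing A] [Algebra ℚ A]

/-- integral forms in the elements `x` -/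
def LL (x : ι → A) (ℓ : ι → ℕ) : A := ∑ i, (ℓ i : A) * x i

omit [Algebra ℚ A] in
theorem LL_smul (x : ι → A) (t : ℕ) (ℓ : ι → ℕ) : LL x (fun i => t * ℓ i) = (t : A) * LL x ℓ := by
  rw [LL, LL, Finset.mul_sum]
  refine Finset.sum_congr rfl fun i _ => ?_
  push_cast
  ring

omit [Algebra ℚ A] in
theorem LL_add_single [DecidableEq ι] (x : ι → A) (ℓ : ι → ℕ) (t : ℕ) (i : ι) :
    LL x (ℓ + Pi.single i t) = LL x ℓ + (t : A) * x i := by
  simp only [LL, Pi.add_apply]
  push_cast
  simp only [add_mul, Finset.sum_add_distrib]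
  congr 1
  rw [Finset.sum_eq_single i]
  · simp
  · intro k _ hk
    simp [Pi.single_eq_of_ne hk]
  · intro h
    exact absurd (Finset.mem_univ i) h

/-- the Taylor expansion -/
theorem aeval_add_eq (h : Polynomial ℚ) {N : ℕ} (hN : h.natDegree ≤ N) (u v : A) :
    Polynomial.aeval (u + v) h = ∑ i ∈ Finset.range (N + 1),
      v ^ i * (Polynomial.hasseDeriv i (h.map (algebraMap ℚ A))).eval u := by
  have h3 : Polynomial.aeval (u + v) h =
      (Polynomial.taylor u (h.map (algebraMap ℚ A))).eval v := by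
    rw [Polynomial.taylor_eval, Polynomial.aeval_def, Polynomial.eval_map, add_comm]
  have h4 : (Polynomial.taylor u (h.map (algebraMap ℚ A))).natDegree < N + 1 := by
    rw [Polynomial.natDegree_taylor]
    exact Nat.lt_succ_of_le (Polynomial.natDegree_map_le.trans hN)
  rw [h3, Polynomial.eval_eq_sum_range' h4]
  refine Finset.sum_congr rfl fun i _ => ?_
  rw [Polynomial.taylor_coeff, mul_comm]

theorem pow_memQ {S : Submodule ℚ A} {h : Polynomial ℚ} {N : ℕ}
    (hN : h.natDegree = N) (hN0 : 0 < N) (x : ι → A)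
    (H : ∀ ℓ : ι → ℕ, ∃ I : Set ℚ, I.Infinite ∧
      ∀ s ∈ I, Polynomial.aeval (LL x ℓ + algebraMap ℚ A s) h ∈ S)
    (ℓ : ι → ℕ) (k : ℕ) (hk : k ≤ N) : LL x ℓ ^ k ∈ S := by
  let hR : Polynomial A := h.map (algebraMap ℚ A)
  -- first expansion
  have h1 : ∀ t : ℕ, ∀ i, i < N + 1 →
      (Polynomial.hasseDeriv i hR).eval ((t : A) * LL x ℓ) ∈ S := by
    intro t
    obtain ⟨I, hI, hIS⟩ := H (fun i => t * ℓ i)
    refine coeff_memQ S (N + 1) (fun i => (Polynomial.hasseDeriv i hR).eval ((t : A) * LL x ℓ)) hI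
      fun s hs => ?_
    have h2 := hIS s hs
    rw [LL_smul, aeval_add_eq h hN.le] at h2
    convert! h2 using 1
    refine Finset.sum_congr rfl fun i _ => ?_
    rw [Algebra.smul_def, map_pow]
  -- second expansion
  have h2 := coeff_memQ S (N + 1)
    (fun j => (((j + (N - k)).choose (N - k) : ℚ) * h.coeff (j + (N - k))) • LL x ℓ ^ j)
    (I := Set.range (fun t : ℕ => (t : ℚ))) (Set.infinite_range_of_injective Nat.cast_injective) (by
    rintro _ ⟨t, rfl⟩
    have h3 := h1 t (N - k) (by omega)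
    rw [Polynomial.eval_eq_sum_range' (n := N + 1) (lt_of_le_of_lt
      (Polynomial.natDegree_hasseDeriv_le _ _) (by
        have : hR.natDegree ≤ N := Polynomial.natDegree_map_le.trans hN.le
        omega))] at h3
    convert! h3 using 1
    refine Finset.sum_congr rfl fun j _ => ?_
    rw [Polynomial.hasseDeriv_coeff, Polynomial.coeff_map]
    simp only [Algebra.smul_def, mul_pow, map_mul, map_pow, map_natCast]
    ring) k (by omega)
  have h3 : ((k + (N - k)).choose (N - k) : ℚ) * h.coeff (k + (N - k)) ≠ 0 := by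
    rw [Nat.add_sub_cancel' hk]
    refine mul_ne_zero ?_ ?_
    · exact_mod_cast (Nat.choose_pos (Nat.sub_le N k)).ne'
    · rw [← hN, Polynomial.coeff_natDegree, Polynomial.leadingCoeff_ne_zero]
      rintro rfl
      simp at hN
      omega
  exact (Submodule.smul_mem_iff S h3).mp h2

theorem prod_memQ {S : Submodule ℚ A} {N : ℕ} (x : ι → A)
    (H : ∀ ℓ : ι → ℕ, ∀ k ≤ N, LL x ℓ ^ k ∈ S) (m : Multiset ι) :
    ∀ j, Multiset.card m + j ≤ N → ∀ ℓ : ι → ℕ, (m.map x).prod * LL x ℓ ^ j ∈ S := by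
  classical
  induction m using Multiset.induction_on with
  | empty =>
    intro j hj ℓ
    simp only [Multiset.map_zero, Multiset.prod_zero, one_mul]
    exact H ℓ j (by simpa using hj)
  | cons i m ih =>
    intro j hj ℓ
    rw [Multiset.card_cons] at hj
    rw [Multiset.map_cons, Multiset.prod_cons]
    have h1 := coeff_memQ S (j + 1 + 1) (fun r => (((j + 1).choose r : ℕ) : ℚ) •
      ((m.map x).prod * (x i ^ r * LL x ℓ ^ (j + 1 - r))))
      (I := Set.range (fun t : ℕ => (t : ℚ))) (Set.infinite_range_of_injective Nat.cast_injective)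
      (by
      rintro _ ⟨t, rfl⟩
      have h2 := ih (j + 1) (by omega) (ℓ + Pi.single i t)
      rw [LL_add_single, add_comm (LL x ℓ), add_pow, Finset.mul_sum] at h2
      convert! h2 using 1
      refine Finset.sum_congr rfl fun r _ => ?_
      simp only [Algebra.smul_def, mul_pow, map_pow, map_natCast]
      ring) 1 (by omega)
    simp only [pow_one, Nat.add_sub_cancel, Nat.choose_one_right] at h1
    have h2 : ((j + 1 : ℕ) : ℚ) ≠ 0 := by exact_mod_cast Nat.succ_ne_zero j
    have h3 := (Submodule.smul_mem_iff S h2).mp h1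
    convert! h3 using 1
    ring

/-- every polynomial of degree `≤ N` is a combination of `h (ℓ + s)` -/
theorem mem_formsQ {S : Submodule ℚ A} {h : Polynomial ℚ} {N : ℕ}
    (hN : h.natDegree = N) (hN0 : 0 < N) (x : ι → A)
    (H : ∀ ℓ : ι → ℕ, ∃ I : Set ℚ, I.Infinite ∧
      ∀ s ∈ I, Polynomial.aeval (LL x ℓ + algebraMap ℚ A s) h ∈ S)
    (f : MvPolynomial ι ℚ) (hf : f.totalDegree ≤ N) : aeval x f ∈ S := by
  classical
  rw [aeval_def, eval₂_eq]
  refine Submodule.sum_mem _ fun α hα => ?_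
  have h1 : Multiset.card (Finsupp.toMultiset α) ≤ N := by
    rw [Finsupp.card_toMultiset]
    exact (MvPolynomial.le_totalDegree hα).trans hf
  have h2 := prod_memQ x (pow_memQ hN hN0 x H) (Finsupp.toMultiset α) 0 (by omega) 0
  rw [pow_zero, mul_one] at h2
  have h3 : ((Finsupp.toMultiset α).map x).prod = ∏ i ∈ α.support, x i ^ α i := by
    rw [Finsupp.toMultiset_map, Finsupp.prod_toMultiset]
    rw [Finsupp.prod_mapDomain_index (by simp) (by intros; rw [pow_add])]
    rfl
  rw [← h3, ← Algebra.smul_def]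
  exact S.smul_mem _ h2

end alg

/-- **Rational equations as combinations of `P` at integral forms.** -/
theorem exists_formsQ {ι : Type} [Fintype ι] {c : ℕ} (f : Fin c → MvPolynomial ι ℚ)
    (P : Polynomial ℚ) {N : ℕ} (hN : P.natDegree = N) (hN0 : 0 < N)
    (hf : ∀ k, (f k).totalDegree ≤ N) (κ : ℚ) (hκ : κ ≠ 0) :
    ∃ (B : Type) (_ : Fintype B) (ell : B → ι → ℕ) (n m : B → ℕ) (a : Fin c → B → ℤ)
      (C : Fin c → ℕ), Function.Injective n ∧ (∀ b, 2 ≤ n b) ∧ (∀ k, 0 < C k) ∧
      ∀ k (x : ι → ℂ) (t : ℂ), (C k : ℂ) * aeval x (f k) =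
        ∑ b, (a k b : ℂ) * Polynomial.aeval (∑ i, (ell b i : ℂ) * x i + n b * t + m b * κ) P := by
  classical
  let D := (ι → ℕ) × ℕ × ℕ
  obtain ⟨e, he⟩ := Countable.exists_injective_nat D
  let A := MvPolynomial (Option ι) ℚ
  let xx : ι → A := fun i => X (some i)
  let F : D → A := fun d => Polynomial.aeval
    ((LL xx d.1 + algebraMap ℚ A (d.2.1 * κ)) + ((e d + 2 : ℕ) : A) * X none) P
  let S := Submodule.span ℚ (Set.range F)
  have hS1 : ∀ (ℓ : ι → ℕ) (m : ℕ), Polynomial.aeval (LL xx ℓ + algebraMap ℚ A (m * κ)) P ∈ S := by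
    intro ℓ m
    have h1 := coeff_memQ S (N + 1) (fun i => X none ^ i * (Polynomial.hasseDeriv i
      (P.map (algebraMap ℚ A))).eval (LL xx ℓ + algebraMap ℚ A (m * κ)))
      (I := Set.range fun j : ℕ => ((e (ℓ, m, j) + 2 : ℕ) : ℚ)) (Set.infinite_range_of_injective (by
        intro j j' hj
        have h2 : e (ℓ, m, j) + 2 = e (ℓ, m, j') + 2 := Nat.cast_injective hj
        have h3 := he (Nat.add_right_cancel h2)
        exact (Prod.ext_iff.mp (Prod.ext_iff.mp h3).2).2)) (by
      rintro _ ⟨j, rfl⟩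
      have h2 : F (ℓ, m, j) ∈ S := Submodule.subset_span ⟨_, rfl⟩
      simp only [F] at h2
      rw [aeval_add_eq P hN.le] at h2
      convert! h2 using 1
      refine Finset.sum_congr rfl fun i _ => ?_
      rw [Algebra.smul_def, map_pow, mul_pow, map_natCast, mul_assoc]) 0 (Nat.succ_pos _)
    rw [pow_zero, one_mul] at h1
    have h2 := aeval_add_eq P (le_refl P.natDegree) (LL xx ℓ + algebraMap ℚ A (m * κ)) 0
    rw [add_zero, Finset.sum_eq_single 0 (fun i _ hi => by rw [zero_pow hi, zero_mul])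
      (fun h => absurd (Finset.mem_range.mpr (Nat.succ_pos _)) h), pow_zero, one_mul] at h2
    rw [h2]
    exact h1
  have hmem : ∀ k, aeval xx (f k) ∈ S := by
    intro k
    refine mem_formsQ hN hN0 xx (fun ℓ => ⟨Set.range fun m : ℕ => (m : ℚ) * κ,
      Set.infinite_range_of_injective ?_, ?_⟩) (f k) (hf k)
    · intro m m' h
      exact Nat.cast_injective (mul_right_cancel₀ hκ h)
    · rintro _ ⟨m, rfl⟩
      exact hS1 ℓ m
  simp only [S, Finsupp.mem_span_range_iff_exists_finsupp] at hmem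
  choose α hα using hmem
  let T : Finset D := Finset.univ.biUnion fun k => (α k).support
  -- clearing denominators
  have hden : ∀ k, ∃ (C : ℕ) (a : T → ℤ), 0 < C ∧ ∀ b, (a b : ℚ) = C * α k b.1 := by
    intro k
    obtain ⟨b, hb⟩ := IsLocalization.exist_integer_multiples_of_finite (nonZeroDivisors ℤ)
      (fun d : T => α k d.1)
    have hb0 : (b : ℤ) ≠ 0 := nonZeroDivisors.coe_ne_zero b
    choose a ha using hb
    refine ⟨(b : ℤ).natAbs, fun i => (b : ℤ).sign * a i, Int.natAbs_pos.mpr hb0, fun i => ?_⟩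
    have h1 : (a i : ℚ) = (b : ℤ) * α k i.1 := by
      have := ha i
      simpa [zsmul_eq_mul] using this
    have h2 : (((b : ℤ).natAbs : ℕ) : ℚ) = ((b : ℤ).sign : ℚ) * ((b : ℤ) : ℚ) := by
      have h3 := Int.sign_mul_self_eq_abs (b : ℤ)
      have h4 : (((b : ℤ).natAbs : ℕ) : ℤ) = (b : ℤ).sign * (b : ℤ) := by
        rw [h3, Int.natCast_natAbs]
      have h5 := congrArg (fun x : ℤ => (x : ℚ)) h4
      simp only [Int.cast_mul, Int.cast_natCast] at h5
      exact h5
    push_cast
    rw [h1, h2]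
    ring
  choose C a hC ha using hden
  refine ⟨T, inferInstance, fun b => b.1.1, fun b => e b.1 + 2, fun b => b.1.2.1, fun k b => a k b,
    C, ?_, fun b => Nat.le_add_left _ _, hC, ?_⟩
  · intro b b' h
    exact Subtype.ext (he (Nat.add_right_cancel h))
  · intro k x t
    have h1 : aeval xx (f k) = ∑ d ∈ T, α k d • F d := by
      rw [← hα k]
      exact Finsupp.sum_of_support_subset _ (Finset.subset_biUnion_of_mem
        (fun k => (α k).support) (Finset.mem_univ k)) _ (fun _ _ => zero_smul _ _)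
    let ev : A →ₐ[ℚ] ℂ := aeval (fun o : Option ι => o.elim t x)
    have e1 : ev (X none) = t := aeval_X _ _
    have e2 : ∀ i, ev (xx i) = x i := fun i => aeval_X _ _
    have e3 : ∀ q : ℚ, ev (algebraMap ℚ A q) = (q : ℂ) := fun q => by
      rw [AlgHom.commutes]
      rfl
    have h2 : ev (aeval xx (f k)) = aeval x (f k) := by
      have h3 : ev.comp (aeval xx) = aeval x := by
        ext i
        rw [AlgHom.comp_apply, aeval_X, aeval_X, aeval_X]
        rfl
      rw [← h3]
      rfl
    have h4 : ∀ d : D, ev (F d) = Polynomial.aeval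
        (∑ i, (d.1 i : ℂ) * x i + ((e d + 2 : ℕ) : ℂ) * t + d.2.1 * κ) P := by
      intro d
      have h5 := Polynomial.aeval_algHom_apply ev ((LL xx d.1 + algebraMap ℚ A (d.2.1 * κ)) +
        ((e d + 2 : ℕ) : A) * X none) P
      rw [← h5]
      congr 2
      rw [map_add, map_add, e3, map_mul, map_natCast, e1]
      simp only [LL, map_sum, map_mul, map_natCast, e2]
      push_cast
      ring
    rw [← h2, h1, map_sum, Finset.mul_sum, ← Finset.sum_coe_sort T]
    refine Finset.sum_congr rfl fun b _ => ?_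
    rw [map_smul, h4, Algebra.smul_def, ← mul_assoc]
    congr 1
    have h8 := ha k b
    have h9 : ((a k b : ℚ) : ℂ) = ((C k * α k b.1 : ℚ) : ℂ) := by rw [h8]
    push_cast at h9
    rw [h9]
    simp

end Pool.Agent.Hhelper14.ZPL
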