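import Pool.Agent.Hhelper14.ZPL.Fib
import Pool.Agent.Hhelper14.ZPL.SpanQ

/-!
# The net of a system of equations
-/

namespace Pool.Agent.Hhelper14.ZPL

open UpperHalfPlane MvPolynomial Pool.Agent.Hhelper14.ZP

/-- values entering a relation -/
inductive Atom (ι B Q : Type)
  | xt (i : ι) : Atom ι B Q
  | w : Atom ι B Q
  | t : Atom ι B Q
  | k : Atom ι B Q
  | v (b : B) (q : Option Q) : Atom ι B Q

/-- the value of an atom -/
noncomputable def Atom.val {ι B Q : Type} (x : ι → ℂ) (t w : ℂ) (V : B → Option Q → ℂ) :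
    Atom ι B Q → ℂ
  | .xt i => x i + w
  | .w => w
  | .t => t
  | .k => kap
  | .v b q => V b q

/-- signs -/
def sgn (b : Bool) : ℂ := if b then 1 else -1

/-- a system of equations -/
structure Sys (ι : Type) [Fintype ι] (c : ℕ) where
  B : Type
  Q : Type
  [fB : Fintype B]
  [fQ : Fintype Q]
  M : Option Q → GL (Fin 2) ℚ
  hM : ∀ q, 0 < (M q).det.val
  M0 : M none = 1
  ell : B → ι → ℕ
  n : B → ℕ
  m : B → ℕ
  hn : Function.Injective n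
  hn2 : ∀ b, 2 ≤ n b
  R : B ⊕ Fin c → ℕ
  at' : ∀ ρ, Fin (R ρ) → Atom ι B Q
  sg : ∀ ρ, Fin (R ρ) → Bool
  l0 : ∀ b, Fin (R (Sum.inl b))
  at_l0 : ∀ b, at' (Sum.inl b) (l0 b) = Atom.v b none
  F : Fin c → (ι → ℂ) → ℂ
  rel_inl : ∀ b x t w V, ∑ l, sgn (sg (Sum.inl b) l) * (at' (Sum.inl b) l).val x t w V =
    V b none - (∑ i, (ell b i : ℂ) * x i + n b * t + m b * kap)
  rel_inr : ∀ k x t w (V : B → Option Q → ℂ) (τ : B → ℍ),
    (∀ b q, V b q = jInv (gact (M q) (τ b))) →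
    (∀ b, jInv (τ b) = ∑ i, (ell b i : ℂ) * x i + n b * t + m b * kap) →
    ∑ l, sgn (sg (Sum.inr k) l) * (at' (Sum.inr k) l).val x t w V = F k x

/-- free coordinates -/
inductive Fr (T : Type)
  | t : Fr T
  | w : Fr T
  | o : Fr T
  | o' : Fr T
  | th (ρ : T) : Fr T

/-- blocks -/
inductive SK (ι B T : Type) (R : T → ℕ)
  | x (i : ι) : SK ι B T R
  | t : SK ι B T R
  | w : SK ι B T R
  | o : SK ι B T R
  | o' : SK ι B T R
  | xt (i : ι) : SK ι B T R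
  | tt : SK ι B T R
  | f : SK ι B T R
  | v (b : B) : SK ι B T R
  | P (ρ : T) (l : Fin (R ρ + 1)) : SK ι B T R
  | P' (ρ : T) (l : Fin (R ρ)) : SK ι B T R
  | Q (ρ : T) (l : Fin (R ρ + 1)) : SK ι B T R

/-- gates -/
inductive SG (ι T : Type) (R : T → ℕ)
  | gx (i : ι) : SG ι T R
  | gt : SG ι T R
  | gf : SG ι T R
  | A (ρ : T) (l : Fin (R ρ)) : SG ι T R
  | A' (ρ : T) (l : Fin (R ρ)) : SG ι T R
  | D (ρ : T) (l : Fin (R ρ)) : SG ι T R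
  | E0 (ρ : T) : SG ι T R
  | E1 (ρ : T) : SG ι T R

/-- equivalence with a sum -/
def frEquiv (T : Type) : Fr T ≃ Fin 4 ⊕ T where
  toFun
    | .t => Sum.inl 0
    | .w => Sum.inl 1
    | .o => Sum.inl 2
    | .o' => Sum.inl 3
    | .th ρ => Sum.inr ρ
  invFun
    | Sum.inl 0 => .t
    | Sum.inl 1 => .w
    | Sum.inl 2 => .o
    | Sum.inl 3 => .o'
    | Sum.inr ρ => .th ρ
  left_inv := by rintro (_ | _) <;> rfl
  right_inv := by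
    rintro (i | ρ)
    · fin_cases i <;> rfl
    · rfl

/-- equivalence with a sum -/
def skEquiv (ι B T : Type) (R : T → ℕ) : SK ι B T R ≃
    ((ι ⊕ ι) ⊕ (Fin 6 ⊕ B)) ⊕ ((Σ ρ, Fin (R ρ + 1)) ⊕ ((Σ ρ, Fin (R ρ)) ⊕ (Σ ρ, Fin (R ρ + 1)))) where
  toFun
    | .x i => Sum.inl (Sum.inl (Sum.inl i))
    | .xt i => Sum.inl (Sum.inl (Sum.inr i))
    | .t => Sum.inl (Sum.inr (Sum.inl 0))
    | .w => Sum.inl (Sum.inr (Sum.inl 1))
    | .o => Sum.inl (Sum.inr (Sum.inl 2))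
    | .o' => Sum.inl (Sum.inr (Sum.inl 3))
    | .tt => Sum.inl (Sum.inr (Sum.inl 4))
    | .f => Sum.inl (Sum.inr (Sum.inl 5))
    | .v b => Sum.inl (Sum.inr (Sum.inr b))
    | .P ρ l => Sum.inr (Sum.inl ⟨ρ, l⟩)
    | .P' ρ l => Sum.inr (Sum.inr (Sum.inl ⟨ρ, l⟩))
    | .Q ρ l => Sum.inr (Sum.inr (Sum.inr ⟨ρ, l⟩))
  invFun
    | Sum.inl (Sum.inl (Sum.inl i)) => .x i
    | Sum.inl (Sum.inl (Sum.inr i)) => .xt i
    | Sum.inl (Sum.inr (Sum.inl 0)) => .t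
    | Sum.inl (Sum.inr (Sum.inl 1)) => .w
    | Sum.inl (Sum.inr (Sum.inl 2)) => .o
    | Sum.inl (Sum.inr (Sum.inl 3)) => .o'
    | Sum.inl (Sum.inr (Sum.inl 4)) => .tt
    | Sum.inl (Sum.inr (Sum.inl 5)) => .f
    | Sum.inl (Sum.inr (Sum.inr b)) => .v b
    | Sum.inr (Sum.inl ⟨ρ, l⟩) => .P ρ l
    | Sum.inr (Sum.inr (Sum.inl ⟨ρ, l⟩)) => .P' ρ l
    | Sum.inr (Sum.inr (Sum.inr ⟨ρ, l⟩)) => .Q ρ l
  left_inv := by rintro (_ | _) <;> rfl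
  right_inv := by
    rintro (((i | i) | (i | b)) | (⟨ρ, l⟩ | ⟨ρ, l⟩ | ⟨ρ, l⟩))
    · rfl
    · rfl
    · fin_cases i <;> rfl
    · rfl
    · rfl
    · rfl
    · rfl

/-- equivalence with a sum -/
def sgEquiv (ι T : Type) (R : T → ℕ) : SG ι T R ≃
    (ι ⊕ Fin 2) ⊕ (((Σ ρ, Fin (R ρ)) ⊕ ((Σ ρ, Fin (R ρ)) ⊕ (Σ ρ, Fin (R ρ)))) ⊕ (T ⊕ T)) where
  toFun
    | .gx i => Sum.inl (Sum.inl i)
    | .gt => Sum.inl (Sum.inr 0)
    | .gf => Sum.inl (Sum.inr 1)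
    | .A ρ l => Sum.inr (Sum.inl (Sum.inl ⟨ρ, l⟩))
    | .A' ρ l => Sum.inr (Sum.inl (Sum.inr (Sum.inl ⟨ρ, l⟩)))
    | .D ρ l => Sum.inr (Sum.inl (Sum.inr (Sum.inr ⟨ρ, l⟩)))
    | .E0 ρ => Sum.inr (Sum.inr (Sum.inl ρ))
    | .E1 ρ => Sum.inr (Sum.inr (Sum.inr ρ))
  invFun
    | Sum.inl (Sum.inl i) => .gx i
    | Sum.inl (Sum.inr 0) => .gt
    | Sum.inl (Sum.inr 1) => .gf
    | Sum.inr (Sum.inl (Sum.inl ⟨ρ, l⟩)) => .A ρ l
    | Sum.inr (Sum.inl (Sum.inr (Sum.inl ⟨ρ, l⟩))) => .A' ρ l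
    | Sum.inr (Sum.inl (Sum.inr (Sum.inr ⟨ρ, l⟩))) => .D ρ l
    | Sum.inr (Sum.inr (Sum.inl ρ)) => .E0 ρ
    | Sum.inr (Sum.inr (Sum.inr ρ)) => .E1 ρ
  left_inv := by rintro (_ | _) <;> rfl
  right_inv := by
    rintro ((i | i) | ((⟨ρ, l⟩ | ⟨ρ, l⟩ | ⟨ρ, l⟩) | (ρ | ρ)))
    · rfl
    · fin_cases i <;> rfl
    · rfl
    · rfl
    · rfl
    · rfl
    · rfl

instance (T : Type) [Fintype T] : Fintype (Fr T) := Fintype.ofEquiv _ (frEquiv T).symm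

instance (ι B T : Type) (R : T → ℕ) [Fintype ι] [Fintype B] [Fintype T] :
    Fintype (SK ι B T R) := Fintype.ofEquiv _ (skEquiv ι B T R).symm

instance (ι T : Type) (R : T → ℕ) [Fintype ι] [Fintype T] :
    Fintype (SG ι T R) := Fintype.ofEquiv _ (sgEquiv ι T R).symm

theorem card_fr (T : Type) [Fintype T] : Fintype.card (Fr T) = 4 + Fintype.card T := by
  rw [Fintype.card_congr (frEquiv T)]
  simp

theorem card_sk (ι B T : Type) (R : T → ℕ) [Fintype ι] [Fintype B] [Fintype T] :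
    Fintype.card (SK ι B T R) = 2 * Fintype.card ι + 6 + Fintype.card B +
      (3 * ∑ ρ, R ρ + 2 * Fintype.card T) := by
  rw [Fintype.card_congr (skEquiv ι B T R)]
  simp only [Fintype.card_sum, Fintype.card_sigma, Fintype.card_fin, Finset.sum_add_distrib]
  simp
  ring

theorem card_sg (ι T : Type) (R : T → ℕ) [Fintype ι] [Fintype T] :
    Fintype.card (SG ι T R) = Fintype.card ι + 2 + (3 * ∑ ρ, R ρ + 2 * Fintype.card T) := by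
  rw [Fintype.card_congr (sgEquiv ι T R)]
  simp only [Fintype.card_sum, Fintype.card_sigma, Fintype.card_fin]
  ring

end Pool.Agent.Hhelper14.ZPL
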