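import Pool.Agent.Hhelper14.ZPL.SysSep
import Pool.Agent.Hhelper14.ZPL.Rho

/-!
# The net of a system of equations is good
-/

namespace Pool.Agent.Hhelper14.ZPL

open UpperHalfPlane MvPolynomial Pool.Agent.Hhelper14.ZP

theorem sgn_ne (b : Bool) : sgn b ≠ 0 := by cases b <;> simp [sgn]

namespace Sys

variable {ι : Type} [Fintype ι] {c : ℕ} {S : Sys ι c}
variable {U : Set (ι → ℂ)} {V' : Set (S.net.J → ℂ)}

theorem sepd_o (hV' : V' ⊆ S.net.Sol) (hU : Fib (Fr S.T) U ⊆ proj S.net.pr V')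
    (hne : U.Nonempty) {y y' : S.KK} (h : S.so y ≠ S.so y') : S.Sepd V' y y' := by
  obtain ⟨x, hx⟩ := hne
  obtain ⟨V, -, A, hA, hz⟩ := S.line hV' hU (β := fun s => S.bp x 0 0 s 0 (fun _ => 0))
    (x := x) (t := 0) (fun _ => rfl) (fun _ => rfl) hx
  refine S.sepd_affine' hA (n := S.so y) (n' := S.so y')
    (a := S.fv (S.bp x 0 0 0 0 (fun _ => 0)) V y) (a' := S.fv (S.bp x 0 0 0 0 (fun _ => 0)) V y')
    (by exact_mod_cast h) (fun s hs => ?_)
  obtain ⟨z, hz, hy⟩ := hz s hs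
  exact ⟨z, hz, (hy y).trans (fv_o x 0 0 0 _ V s y), (hy y').trans (fv_o x 0 0 0 _ V s y')⟩

theorem sepd_o' (hV' : V' ⊆ S.net.Sol) (hU : Fib (Fr S.T) U ⊆ proj S.net.pr V')
    (hne : U.Nonempty) {y y' : S.KK} (h : S.so' y ≠ S.so' y') : S.Sepd V' y y' := by
  obtain ⟨x, hx⟩ := hne
  obtain ⟨V, -, A, hA, hz⟩ := S.line hV' hU (β := fun s => S.bp x 0 0 0 s (fun _ => 0))
    (x := x) (t := 0) (fun _ => rfl) (fun _ => rfl) hx
  refine S.sepd_affine' hA (n := S.so' y) (n' := S.so' y')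
    (a := S.fv (S.bp x 0 0 0 0 (fun _ => 0)) V y) (a' := S.fv (S.bp x 0 0 0 0 (fun _ => 0)) V y')
    (by exact_mod_cast h) (fun s hs => ?_)
  obtain ⟨z, hz, hy⟩ := hz s hs
  exact ⟨z, hz, (hy y).trans (fv_o' x 0 0 0 _ V s y), (hy y').trans (fv_o' x 0 0 0 _ V s y')⟩

theorem sepd_w (hV' : V' ⊆ S.net.Sol) (hU : Fib (Fr S.T) U ⊆ proj S.net.pr V')
    (hne : U.Nonempty) {y y' : S.KK} (hc : S.ch y = none) (hc' : S.ch y' = none)
    (h : S.sw y ≠ S.sw y') : S.Sepd V' y y' := by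
  obtain ⟨x, hx⟩ := hne
  obtain ⟨V, -, A, hA, hz⟩ := S.line hV' hU (β := fun s => S.bp x 0 s 0 0 (fun _ => 0))
    (x := x) (t := 0) (fun _ => rfl) (fun _ => rfl) hx
  refine S.sepd_affine' hA (n := S.sw y) (n' := S.sw y')
    (a := S.fv (S.bp x 0 0 0 0 (fun _ => 0)) V y) (a' := S.fv (S.bp x 0 0 0 0 (fun _ => 0)) V y')
    (by exact_mod_cast h) (fun s hs => ?_)
  obtain ⟨z, hz, hy⟩ := hz s hs
  exact ⟨z, hz, (hy y).trans (fv_w x 0 0 0 _ V s y hc), (hy y').trans (fv_w x 0 0 0 _ V s y' hc')⟩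

/-- same slope `1` in the direction `w` -/
theorem sepd_w' (hV' : V' ⊆ S.net.Sol) (hU : Fib (Fr S.T) U ⊆ proj S.net.pr V')
    {x : ι → ℂ} (hx : x ∈ U) (t : ℂ) {y y' : S.KK} (hc : S.ch y = none) (hc' : S.ch y' = none)
    (h : S.sw y = 1) (h' : S.sw y' = 1)
    (hne : ∀ V, S.fv (S.bp x t 0 0 0 (fun _ => 0)) V y ≠ S.fv (S.bp x t 0 0 0 (fun _ => 0)) V y') :
    S.Sepd V' y y' := by
  obtain ⟨V, -, A, hA, hz⟩ := S.line hV' hU (β := fun s => S.bp x t s 0 0 (fun _ => 0))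
    (x := x) (t := t) (fun _ => rfl) (fun _ => rfl) hx
  refine S.sepd_affine hA (n := 1) (n' := 1) (a := S.fv (S.bp x t 0 0 0 (fun _ => 0)) V y)
    (a' := S.fv (S.bp x t 0 0 0 (fun _ => 0)) V y') one_ne_zero (fun s hs => ?_)
    (fun h0 => hne V h0.2)
  obtain ⟨z, hz, hy⟩ := hz s hs
  refine ⟨z, hz, (hy y).trans ?_, (hy y').trans ?_⟩
  · rw [fv_w x t 0 0 _ V s y hc, h]
    simp
  · rw [fv_w x t 0 0 _ V s y' hc', h']
    simp

open Classical in
theorem sepd_ch (hV' : V' ⊆ S.net.Sol) (hU : Fib (Fr S.T) U ⊆ proj S.net.pr V')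
    (hne : U.Nonempty) {y y' : S.KK} (h : S.ch y ≠ S.ch y') : S.Sepd V' y y' := by
  obtain ⟨ρ, hρ⟩ : ∃ ρ, ¬ (S.ch y = some ρ ↔ S.ch y' = some ρ) := by
    by_contra hcon
    push Not at hcon
    exact h (Option.ext fun ρ => hcon ρ)
  obtain ⟨x, hx⟩ := hne
  obtain ⟨V, -, A, hA, hz⟩ := S.line hV' hU
    (β := fun s => S.bp x 0 0 0 0 (Function.update (fun _ => 0) ρ s))
    (x := x) (t := 0) (fun _ => rfl) (fun _ => rfl) hx
  refine S.sepd_affine' hA (n := if S.ch y = some ρ then 1 else 0)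
    (n' := if S.ch y' = some ρ then 1 else 0)
    (a := S.fv (S.bp x 0 0 0 0 (Function.update (fun _ => 0) ρ 0)) V y)
    (a' := S.fv (S.bp x 0 0 0 0 (Function.update (fun _ => 0) ρ 0)) V y') ?_ (fun s hs => ?_)
  · by_cases h1 : S.ch y = some ρ <;> by_cases h2 : S.ch y' = some ρ
    · exact absurd (iff_of_true h1 h2) hρ
    · rw [if_pos h1, if_neg h2]
      exact one_ne_zero
    · rw [if_neg h1, if_pos h2]
      exact zero_ne_one
    · exact absurd (iff_of_false h1 h2) hρ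
  · obtain ⟨z, hz, hy⟩ := hz s hs
    exact ⟨z, hz, (hy y).trans (fv_th x 0 0 0 0 _ V ρ s y),
      (hy y').trans (fv_th x 0 0 0 0 _ V ρ s y')⟩

/-- atoms are not identically zero -/
theorem atom_ne {x : ι → ℂ} (hx0 : ∀ i : ι, ∃ x ∈ U, x i ≠ 0) (hx : x ∈ U)
    (a : Atom ι S.B S.Q) : ∃ x ∈ U, ∃ t w, ∀ V, (∀ o o' th, S.Nb (S.bp x t w o o' th) V) →
      a.val x t w V ≠ 0 := by
  rcases a with i | _ | _ | _ | ⟨b, q⟩
  · obtain ⟨x1, hx1, hne⟩ := hx0 i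
    refine ⟨x1, hx1, 0, 0, fun V _ => ?_⟩
    change x1 i + 0 ≠ 0
    rwa [add_zero]
  · exact ⟨x, hx, 0, 1, fun V _ => one_ne_zero⟩
  · exact ⟨x, hx, 1, 0, fun V _ => one_ne_zero⟩
  · exact ⟨x, hx, 0, 0, fun V _ => kap_ne_zero⟩
  · -- choose `t` with value `1/2`
    have hn : (S.n b : ℂ) ≠ 0 := by
      have := S.hn2 b
      exact_mod_cast (by omega : S.n b ≠ 0)
    let t : ℂ := (((2 : ℕ) : ℂ)⁻¹ - ∑ i, (S.ell b i : ℂ) * x i - S.m b * kap) / S.n b
    have ht : S.lam b x t = ((2 : ℕ) : ℂ)⁻¹ := by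
      simp only [lam, t]
      field_simp
      ring
    refine ⟨x, hx, t, 0, fun V hV h0 => ?_⟩
    obtain ⟨τ, h1, h2⟩ := hV 0 0 (fun _ => 0) b
    have h3 : V b q = 0 := h0
    have h4 : jInv τ = ((2 : ℕ) : ℂ)⁻¹ := h1.trans ht
    obtain ⟨W, hW⟩ := exists_notMem_prime Nat.prime_two
    apply hW
    rw [← h4, (Isog.mk1 (S.hM q) τ).mem_iff W, ← h2 q, h3]
    exact W.zero_mem

open Classical in
theorem sepd_pair (hV' : V' ⊆ S.net.Sol) (hU : Fib (Fr S.T) U ⊆ proj S.net.pr V')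
    (hne : U.Nonempty) (hx0 : ∀ i : ι, ∃ x ∈ U, x i ≠ 0) (ρ : S.T) (l : Fin (S.R ρ)) :
    S.Sepd V' (.P ρ l.castSucc) (.P' ρ l) := by
  obtain ⟨x', hx'⟩ := hne
  obtain ⟨x, hx, t, w, hat⟩ := atom_ne hx0 hx' (S.at' ρ l)
  obtain ⟨V, hV, A, hA, hz⟩ := S.line hV' hU
    (β := fun s => S.bp x t w 0 0 (Function.update (fun _ => 0) ρ s))
    (x := x) (t := t) (fun _ => rfl) (fun _ => rfl) hx
  have hat1 := hat V (fun o o' th => hV 0)
  refine S.sepd_affine hA (n := 1) (n' := 1) one_ne_zero (fun s hs => ?_) ?_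
    (a := psum (S.term ρ x t w V) l) (a' := psum (S.term ρ x t w V) (l + 1))
  · obtain ⟨z, hz, hy⟩ := hz s hs
    refine ⟨z, hz, (hy _).trans ?_, (hy _).trans ?_⟩
    · change Function.update (fun _ => (0 : ℂ)) ρ s ρ + ((l.castSucc : Fin _) : ℕ) * (0 : ℂ) +
        psum (S.term ρ x t w V) (l.castSucc : Fin _) = _
      rw [Function.update_self, Fin.val_castSucc]
      ring
    · change Function.update (fun _ => (0 : ℂ)) ρ s ρ + (l : ℕ) * (0 : ℂ) +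
        psum (S.term ρ x t w V) (l + 1) = _
      rw [Function.update_self]
      ring
  · rintro ⟨-, h1⟩
    rw [psum_succ] at h1
    have h2 : S.term ρ x t w V l = 0 := by linear_combination -h1
    have h3 : sgn (S.sg ρ l) * (S.at' ρ l).val x t w V = 0 := h2
    rcases mul_eq_zero.mp h3 with h4 | h4
    · exact sgn_ne _ h4
    · exact hat1 h4

/-- slope in the direction `t`, for the blocks `x`, `t`, `v` -/
def st (S : Sys ι c) : S.KK → ℕ
  | .t => 1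
  | .v b => S.n b
  | _ => 0

theorem sepd_t (hV' : V' ⊆ S.net.Sol) (hU : Fib (Fr S.T) U ⊆ proj S.net.pr V')
    (hne : U.Nonempty) {y y' : S.KK}
    (hy : ∃ a : (ι → ℂ) → ℂ, ∀ x s V, S.fv (S.bp x s 0 0 0 (fun _ => 0)) V y = S.st y * s + a x)
    (hy' : ∃ a : (ι → ℂ) → ℂ, ∀ x s V,
      S.fv (S.bp x s 0 0 0 (fun _ => 0)) V y' = S.st y' * s + a x)
    (h : S.st y ≠ S.st y') : S.Sepd V' y y' := by
  obtain ⟨x, hx⟩ := hne
  obtain ⟨a, ha⟩ := hy
  obtain ⟨a', ha'⟩ := hy'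
  refine S.sepd_affine' (A := Set.univ) not_countable_univ' (n := S.st y) (n' := S.st y')
    (a := a x) (a' := a' x) (by exact_mod_cast h) (fun s _ => ?_)
  obtain ⟨z, hz, V, -, hy⟩ := S.point hV' hU (β := S.bp x s 0 0 0 (fun _ => 0)) hx
  exact ⟨z, hz, (hy y).trans (ha x s V), (hy y').trans (ha' x s V)⟩

theorem st_x (i : ι) : ∃ a : (ι → ℂ) → ℂ, ∀ x s V,
    S.fv (S.bp x s 0 0 0 (fun _ => 0)) V (.x i) = S.st (.x i) * s + a x := by
  refine ⟨fun x => x i, fun x s V => ?_⟩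
  change x i = ((0 : ℕ) : ℂ) * s + x i
  simp

theorem st_t : ∃ a : (ι → ℂ) → ℂ, ∀ x s V,
    S.fv (S.bp x s 0 0 0 (fun _ => 0)) V .t = S.st .t * s + a x := by
  refine ⟨fun x => 0, fun x s V => ?_⟩
  change s = ((1 : ℕ) : ℂ) * s + 0
  simp

theorem st_v (b : S.B) : ∃ a : (ι → ℂ) → ℂ, ∀ x s V,
    S.fv (S.bp x s 0 0 0 (fun _ => 0)) V (.v b) = S.st (.v b) * s + a x := by
  refine ⟨fun x => ∑ i, (S.ell b i : ℂ) * x i + S.m b * kap, fun x s V => ?_⟩
  change ∑ i, (S.ell b i : ℂ) * x i + S.n b * s + S.m b * kap = (S.n b : ℂ) * s + _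
  ring

theorem single_x (i : ι) (p : S.net.J) (hp : S.net.blk p = some (.x i)) :
    p = S.cj (.x i) := by
  obtain ⟨g, j⟩ := p
  change (S.slot g j).1 = some (.x i) at hp
  change (g, j) = ((SG.gx i : S.GG), (0 : Fin 3))
  rcases g with i' | _ | _ | ⟨ρ, l⟩ | ⟨ρ, l⟩ | ⟨ρ, l⟩ | ρ | ρ <;> fin_cases j
  all_goals try (simp [slot] at hp; done)
  · simp [slot] at hp
    rw [hp]
    rfl
  · exfalso
    rcases hsg : S.sg ρ l <;> simp [slot, hsg] at hp
  · exfalso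
    change (S.aslot (S.at' ρ l)).1 = some (.x i) at hp
    rcases hA : S.at' ρ l with i | _ | _ | _ | ⟨b, q⟩ <;> rw [hA] at hp <;> simp [aslot] at hp
  · exfalso
    rcases hsg : S.sg ρ l <;> simp [slot, hsg] at hp

/-- blocks outside of the chains -/
def low (S : Sys ι c) (y : S.KK) : Prop :=
  (∃ i, y = .x i) ∨ y = .t ∨ y = .w ∨ (∃ i, y = .xt i) ∨ y = .tt ∨ ∃ b, y = .v b

theorem classify {y y' : S.KK} (h1 : S.ch y = S.ch y') (h2 : S.so y = S.so y')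
    (h3 : S.so' y = S.so' y') : y = y' ∨ (∃ ρ l, y = .P ρ l.castSucc ∧ y' = .P' ρ l) ∨
      (∃ ρ l, y' = .P ρ l.castSucc ∧ y = .P' ρ l) ∨ (S.low y ∧ S.low y') := by
  rcases y with i | _ | _ | _ | _ | i | _ | _ | b | ⟨ρ, l⟩ | ⟨ρ, l⟩ | ⟨ρ, l⟩ <;>
  rcases y' with i' | _ | _ | _ | _ | i' | _ | _ | b' | ⟨ρ', l'⟩ | ⟨ρ', l'⟩ | ⟨ρ', l'⟩
  all_goals try (refine Or.inr (Or.inr (Or.inr ⟨?_, ?_⟩)) <;> (simp [low]; done))
  all_goals try (exact Or.inl rfl; done)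
  all_goals try (exfalso; revert h1 h2 h3; simp [ch, so, so']; done)
  · obtain rfl : ρ = ρ' := by simpa [ch] using h1
    have : l = l' := Fin.ext h2
    exact Or.inl (by rw [this])
  · obtain rfl : ρ = ρ' := by simpa [ch] using h1
    have : l = l'.castSucc := Fin.ext h2
    exact Or.inr (Or.inl ⟨ρ, l', by rw [this], rfl⟩)
  · obtain rfl : ρ = ρ' := by simpa [ch] using h1
    have : l' = l.castSucc := Fin.ext h2.symm
    exact Or.inr (Or.inr (Or.inl ⟨ρ, l, by rw [this], rfl⟩))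
  · obtain rfl : ρ = ρ' := by simpa [ch] using h1
    have : l = l' := Fin.ext h2
    exact Or.inl (by rw [this])
  · obtain rfl : ρ = ρ' := by simpa [ch] using h1
    have : l = l' := Fin.ext h2
    exact Or.inl (by rw [this])

theorem sepd_low (hV' : V' ⊆ S.net.Sol) (hU : Fib (Fr S.T) U ⊆ proj S.net.pr V')
    (hneU : U.Nonempty) (hx0 : ∀ i : ι, ∃ x ∈ U, x i ≠ 0)
    (hxx : ∀ i j : ι, i ≠ j → ∃ x ∈ U, x i ≠ x j) {y y' : S.KK} (hl : S.low y) (hl' : S.low y')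
    (hne : y ≠ y') : S.Sepd V' y y' ∨ ∃ i j, i ≠ j ∧ y = .x i ∧ y' = .x j := by
  have hw_xt : ∀ i, S.Sepd V' .w (.xt i) := by
    intro i
    obtain ⟨x, hx, hxi⟩ := hx0 i
    refine sepd_w' hV' hU hx 0 rfl rfl rfl rfl fun V h => hxi ?_
    have h1 : (0 : ℂ) = x i + 0 := h
    rw [add_zero] at h1
    exact h1.symm
  have hw_tt : S.Sepd V' .w .tt := by
    obtain ⟨x, hx⟩ := hneU
    refine sepd_w' hV' hU hx 1 rfl rfl rfl rfl fun V h => ?_
    have h1 : (0 : ℂ) = 1 + 0 := h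
    simp at h1
  have hxt_tt : ∀ i, S.Sepd V' (.xt i) .tt := by
    intro i
    obtain ⟨x, hx⟩ := hneU
    refine sepd_w' hV' hU hx (x i + 1) rfl rfl rfl rfl fun V h => ?_
    have h1 : x i + 0 = x i + 1 + 0 := h
    simp at h1
  have hxt_xt : ∀ i j, i ≠ j → S.Sepd V' (.xt i) (.xt j) := by
    intro i j hij
    obtain ⟨x, hx, hxi⟩ := hxx i j hij
    refine sepd_w' hV' hU hx 0 rfl rfl rfl rfl fun V h => hxi ?_
    have h1 : x i + 0 = x j + 0 := h
    simpa using h1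
  have hx_t : ∀ i, S.Sepd V' (.x i) .t := fun i =>
    sepd_t hV' hU hneU (st_x i) st_t (by simp [st])
  have hx_v : ∀ i b, S.Sepd V' (.x i) (.v b) := fun i b =>
    sepd_t hV' hU hneU (st_x i) (st_v b) (by
      change 0 ≠ S.n b
      have := S.hn2 b
      omega)
  have ht_v : ∀ b, S.Sepd V' .t (.v b) := fun b =>
    sepd_t hV' hU hneU st_t (st_v b) (by
      change 1 ≠ S.n b
      have := S.hn2 b
      omega)
  have hv_v : ∀ b b', b ≠ b' → S.Sepd V' (.v b) (.v b') := fun b b' hb =>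
    sepd_t hV' hU hneU (st_v b) (st_v b') (fun h => hb (S.hn h))
  rcases hl with ⟨i, rfl⟩ | rfl | rfl | ⟨i, rfl⟩ | rfl | ⟨b, rfl⟩ <;>
  rcases hl' with ⟨i', rfl⟩ | rfl | rfl | ⟨i', rfl⟩ | rfl | ⟨b', rfl⟩
  all_goals try (exact absurd rfl hne)
  all_goals try (refine Or.inl (sepd_w hV' hU hneU rfl rfl ?_) <;> (simp [sw]; done))
  · exact Or.inr ⟨i, i', fun h => hne (by rw [h]), rfl, rfl⟩
  · exact Or.inl (hx_t i)
  · exact Or.inl (hx_v i b')
  · exact Or.inl (hx_t i').symm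
  · exact Or.inl (ht_v b')
  · exact Or.inl (hw_xt i')
  · exact Or.inl hw_tt
  · exact Or.inl (hw_xt i).symm
  · exact Or.inl (hxt_xt i i' fun h => hne (by rw [h]))
  · exact Or.inl (hxt_tt i)
  · exact Or.inl hw_tt.symm
  · exact Or.inl (hxt_tt i').symm
  · exact Or.inl (hx_v i' b).symm
  · exact Or.inl (ht_v b).symm
  · exact Or.inl (hv_v b b' fun h => hne (by rw [h]))

/-- all blocks but the `x i` move -/
theorem mov (hV' : V' ⊆ S.net.Sol) (hU : Fib (Fr S.T) U ⊆ proj S.net.pr V')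
    (hne : U.Nonempty) (y : S.KK) (hy : ∀ i, y ≠ .x i) : S.Mov V' y := by
  classical
  obtain ⟨x, hx⟩ := hne
  have ho : S.so y ≠ 0 → S.Mov V' y := by
    intro h
    obtain ⟨V, -, A, hA, hz⟩ := S.line hV' hU (β := fun s => S.bp x 0 0 s 0 (fun _ => 0))
      (x := x) (t := 0) (fun _ => rfl) (fun _ => rfl) hx
    refine S.mov_affine hA (n := S.so y) (a := S.fv (S.bp x 0 0 0 0 (fun _ => 0)) V y)
      (by exact_mod_cast h) (fun s hs => ?_)
    obtain ⟨z, hz, hy⟩ := hz s hs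
    exact ⟨z, hz, (hy y).trans (fv_o x 0 0 0 _ V s y)⟩
  have ho' : S.so' y ≠ 0 → S.Mov V' y := by
    intro h
    obtain ⟨V, -, A, hA, hz⟩ := S.line hV' hU (β := fun s => S.bp x 0 0 0 s (fun _ => 0))
      (x := x) (t := 0) (fun _ => rfl) (fun _ => rfl) hx
    refine S.mov_affine hA (n := S.so' y) (a := S.fv (S.bp x 0 0 0 0 (fun _ => 0)) V y)
      (by exact_mod_cast h) (fun s hs => ?_)
    obtain ⟨z, hz, hy⟩ := hz s hs
    exact ⟨z, hz, (hy y).trans (fv_o' x 0 0 0 _ V s y)⟩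
  have hw : S.ch y = none → S.sw y ≠ 0 → S.Mov V' y := by
    intro hc h
    obtain ⟨V, -, A, hA, hz⟩ := S.line hV' hU (β := fun s => S.bp x 0 s 0 0 (fun _ => 0))
      (x := x) (t := 0) (fun _ => rfl) (fun _ => rfl) hx
    refine S.mov_affine hA (n := S.sw y) (a := S.fv (S.bp x 0 0 0 0 (fun _ => 0)) V y)
      (by exact_mod_cast h) (fun s hs => ?_)
    obtain ⟨z, hz, hy⟩ := hz s hs
    exact ⟨z, hz, (hy y).trans (fv_w x 0 0 0 _ V s y hc)⟩
  have hch : ∀ ρ, S.ch y = some ρ → S.Mov V' y := by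
    intro ρ h
    obtain ⟨V, -, A, hA, hz⟩ := S.line hV' hU
      (β := fun s => S.bp x 0 0 0 0 (Function.update (fun _ => 0) ρ s))
      (x := x) (t := 0) (fun _ => rfl) (fun _ => rfl) hx
    refine S.mov_affine hA (n := 1)
      (a := S.fv (S.bp x 0 0 0 0 (Function.update (fun _ => 0) ρ 0)) V y)
      one_ne_zero (fun s hs => ?_)
    obtain ⟨z, hz, hy⟩ := hz s hs
    refine ⟨z, hz, (hy y).trans ?_⟩
    rw [fv_th x 0 0 0 0 _ V ρ s y, if_pos h]
  have ht : S.st y ≠ 0 → (∃ a : (ι → ℂ) → ℂ, ∀ x s V,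
      S.fv (S.bp x s 0 0 0 (fun _ => 0)) V y = S.st y * s + a x) → S.Mov V' y := by
    rintro h ⟨a, ha⟩
    refine S.mov_affine (A := Set.univ) not_countable_univ' (n := S.st y) (a := a x)
      (by exact_mod_cast h) (fun s _ => ?_)
    obtain ⟨z, hz, V, -, hy⟩ := S.point hV' hU (β := S.bp x s 0 0 0 (fun _ => 0)) hx
    exact ⟨z, hz, (hy y).trans (ha x s V)⟩
  rcases y with i | _ | _ | _ | _ | i | _ | _ | b | ⟨ρ, l⟩ | ⟨ρ, l⟩ | ⟨ρ, l⟩
  · exact absurd rfl (hy i)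
  · exact ht one_ne_zero st_t
  · exact hw rfl one_ne_zero
  · exact ho one_ne_zero
  · exact ho' one_ne_zero
  · exact hw rfl one_ne_zero
  · exact hw rfl one_ne_zero
  · exact ho one_ne_zero
  · refine ht ?_ (st_v b)
    change S.n b ≠ 0
    have := S.hn2 b
    omega
  · exact hch ρ rfl
  · exact hch ρ rfl
  · exact hch ρ rfl

/-- **The net of a system is good.** -/
theorem good (hUi : IsIrredClosed U) (hgen : ∀ Z, IsSpecial Z → U ⊆ Z → Z = Set.univ)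
    {X : Set (ι → ℂ)} (hX : IsZClosed X) (hUX : IsComponent U X)
    (hF : ∀ x ∈ U, ∀ k, S.F k x = 0) (hFX : ∀ x, (∀ k, S.F k x = 0) → x ∈ X)
    (hdim : dim U + c = Fintype.card ι) : S.net.Good (Fib (Fr S.T) U) := by
  have hneU := irred_nonempty hUi
  have hconst : ∀ (i : ι) (s : ℍ), IsCM s → ∃ x ∈ U, x i ≠ jInv s := by
    intro i s hs
    by_contra hcon
    push Not at hcon
    have h1 := hgen _ (special_const i hs) (fun x hx => hcon x hx)
    have h2 : (fun _ : ι => jInv s + 1) ∈ {x : ι → ℂ | x i = jInv s} := by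
      rw [h1]
      exact Set.mem_univ _
    have h3 : jInv s + 1 = jInv s := h2
    simp at h3
  have hpair : ∀ i j : ι, i ≠ j → ∀ g h : GL (Fin 2) ℚ, 0 < g.det.val → 0 < h.det.val →
      ∃ x ∈ U, ∀ σ : ℍ, ¬ (x i = jInv (gact g σ) ∧ x j = jInv (gact h σ)) := by
    intro i j hij g h hg hh
    by_contra hcon
    push Not at hcon
    exact pair_ne_univ hij hg hh (hgen _ (special_pair hij hg hh) fun x hx => hcon x hx)
  have hx0 : ∀ i : ι, ∃ x ∈ U, x i ≠ 0 := by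
    intro i
    obtain ⟨s, hs, h0⟩ := exists_cm_zero
    rw [← h0]
    exact hconst i s hs
  have hxx : ∀ i j : ι, i ≠ j → ∃ x ∈ U, x i ≠ x j := by
    intro i j hij
    obtain ⟨x, hx, h⟩ := hpair i j hij 1 1 (by simp) (by simp)
    refine ⟨x, hx, fun hxij => ?_⟩
    obtain ⟨σ, hσ⟩ := j_surj (x i)
    exact h σ ⟨by rw [gact_one, hσ], by rw [gact_one, hσ, hxij]⟩
  -- a point of `V'` with given `x`
  have hpt : ∀ V' ⊆ S.net.Sol, Fib (Fr S.T) U ⊆ proj S.net.pr V' → ∀ x ∈ U,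
      ∃ z ∈ V', ∀ i, z (S.net.can (.x i)) = x i := by
    intro V' hV' hU' x hx
    obtain ⟨z, hz, V, -, hy⟩ := S.point hV' hU' (β := S.bp x 0 0 0 0 (fun _ => 0)) hx
    exact ⟨z, hz, fun i => hy (.x i)⟩
  refine
    { lift := fun β hβ => S.exists_sol β (hF _ hβ)
      comp := ⟨Fib (Fr S.T) X, fib_component hX hUX, ?_⟩
      int := S.intOver
      count := ⟨c, S.count, ?_⟩
      const := ?_
      pair := ?_
      single := ?_ }
  · intro z hz
    obtain ⟨τ, hτ⟩ := hz.2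
    exact hFX _ (S.sol_values hz hτ).2.2
  · obtain ⟨dU, hdU, -⟩ := exists_dim hUi
    rw [dim_fib, hdU]
    rw [hdU] at hdim
    have h1 : dU + c = Fintype.card ι := by exact_mod_cast hdim
    have h2 : Fintype.card (Fr S.T ⊕ ι) = Fintype.card (Fr S.T) + Fintype.card ι :=
      Fintype.card_sum
    have h3 : dU + Fintype.card (Fr S.T) + c = Fintype.card (Fr S.T ⊕ ι) := by omega
    exact_mod_cast h3
  · intro V' hV' hU' y s hs
    by_cases hy : ∃ i, y = .x i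
    · obtain ⟨i, rfl⟩ := hy
      obtain ⟨x, hx, hne⟩ := hconst i s hs
      obtain ⟨z, hz, h1⟩ := hpt V' hV' hU' x hx
      exact ⟨z, hz, by rw [h1]; exact hne⟩
    · push Not at hy
      obtain ⟨z, hz, z', hz', hne⟩ := mov hV' hU' hneU y hy
      by_cases h1 : z (S.net.can y) = jInv s
      · refine ⟨z', hz', fun h2 => hne ?_⟩
        change z (S.net.can y) = z' (S.net.can y)
        rw [h1, h2]
      · exact ⟨z, hz, h1⟩
  · intro V' hV' hU' y y' hne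
    have hl : ∀ {y y' : S.KK}, S.Sepd V' y y' →
        ∃ z ∈ V', ¬ Isog (z (S.net.can y)) (z (S.net.can y')) := fun h => h
    by_cases h1 : S.ch y = S.ch y'
    swap
    · exact Or.inl (hl (sepd_ch hV' hU' hneU h1))
    by_cases h2 : S.so y = S.so y'
    swap
    · exact Or.inl (hl (sepd_o hV' hU' hneU h2))
    by_cases h3 : S.so' y = S.so' y'
    swap
    · exact Or.inl (hl (sepd_o' hV' hU' hneU h3))
    rcases classify h1 h2 h3 with h4 | ⟨ρ, l, rfl, rfl⟩ | ⟨ρ, l, rfl, rfl⟩ | ⟨hl1, hl2⟩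
    · exact absurd h4 hne
    · exact Or.inl (hl (sepd_pair hV' hU' hneU hx0 ρ l))
    · exact Or.inl (hl (sepd_pair hV' hU' hneU hx0 ρ l).symm)
    · rcases sepd_low hV' hU' hneU hx0 hxx hl1 hl2 hne with h5 | ⟨i, j, hij, rfl, rfl⟩
      · exact Or.inl (hl h5)
      · refine Or.inr ⟨fun p hp => single_x i p hp, fun p hp => single_x j p hp,
          fun g h hg hh => ?_⟩
        obtain ⟨x, hx, hno⟩ := hpair i j hij g h hg hh
        obtain ⟨z, hz, hzx⟩ := hpt V' hV' hU' x hx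
        refine ⟨z, hz, fun σ => ?_⟩
        rw [hzx, hzx]
        exact hno σ
  · intro V' hV' hU' y
    by_cases hy : ∃ i, y = .x i
    · obtain ⟨i, rfl⟩ := hy
      exact Or.inl fun p hp => single_x i p hp
    · push Not at hy
      exact Or.inr (mov hV' hU' hneU y hy)

end Sys

end Pool.Agent.Hhelper14.ZPL
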