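import Pool.Agent.Hhelper14.ZPL.SysNet

/-!
# The net of a system of equations: lifting and finiteness
-/

namespace Pool.Agent.Hhelper14.ZPL

open UpperHalfPlane MvPolynomial Pool.Agent.Hhelper14.ZP

namespace Sys

variable {ι : Type} [Fintype ι] {c : ℕ} (S : Sys ι c)

theorem atom_value {z : S.net.J → ℂ} {τ : S.KK → ℍ} (h : S.net.Para τ z) {x : ι → ℂ} {t w : ℂ}
    (hx : ∀ i, jInv (τ (.xt i)) = x i + w) (hw : jInv (τ .w) = w) (ht : jInv (τ .t) = t)
    (ρ : S.T) (l : Fin (S.R ρ)) : z (.A ρ l, 1) =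
      (S.at' ρ l).val x t w (fun b q => jInv (gact (S.M q) (τ (.v b)))) := by
  have hs : S.slot (.A ρ l) 1 = S.aslot (S.at' ρ l) := rfl
  rcases hA : S.at' ρ l with i | _ | _ | _ | ⟨b, q⟩
  · rw [S.para_slot' h (.A ρ l) 1 (y := .xt i) (by rw [hs, hA]; rfl), hx]
    rfl
  · rw [S.para_slot' h (.A ρ l) 1 (y := .w) (by rw [hs, hA]; rfl)]
    exact hw
  · rw [S.para_slot' h (.A ρ l) 1 (y := .t) (by rw [hs, hA]; rfl)]
    exact ht
  · refine h.none ?_
    change (S.slot (.A ρ l) 1).1 = none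
    rw [hs, hA]
    rfl
  · rw [S.para_slot h (.A ρ l) 1 (y := .v b) (q := q) (by rw [hs, hA]; rfl)]
    rfl

/-- **Lifting.** -/
theorem exists_sol (β : S.I → ℂ) (hF : ∀ k, S.F k (β ∘ Sum.inr) = 0) :
    ∃ z ∈ S.net.Sol, z ∘ S.net.pr = β := by
  choose τb hτb using fun b => j_surj (S.lam b (β ∘ Sum.inr) (β (Sum.inl .t)))
  set V : S.B → Option S.Q → ℂ := fun b q => jInv (gact (S.M q) (τb b)) with hV
  obtain ⟨τ, hτv, hτ⟩ : ∃ τ : S.KK → ℍ, (∀ b, τ (.v b) = τb b) ∧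
      ∀ y, jInv (τ y) = S.fv β V y := by
    have h0 : ∀ y, ∃ τ : ℍ, jInv τ = S.fv β V y ∧ ∀ b, y = .v b → τ = τb b := by
      intro y
      by_cases h : ∃ b, y = .v b
      · obtain ⟨b, rfl⟩ := h
        refine ⟨τb b, hτb b, fun b' h' => ?_⟩
        injection h' with h'
        rw [h']
      · obtain ⟨τ, hτ⟩ := j_surj (S.fv β V y)
        exact ⟨τ, hτ, fun b hb => absurd ⟨b, hb⟩ h⟩
    choose τ hτ using h0
    exact ⟨τ, fun b => (hτ _).2 b rfl, fun y => (hτ y).1⟩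
  obtain ⟨z, hP⟩ : ∃ z : S.net.J → ℂ, S.net.Para τ z := ⟨_, fun p => rfl⟩
  have hVτ : V = fun b q => jInv (gact (S.M q) (τ (.v b))) := by
    funext b q
    rw [hτv]
  set g : ∀ ρ, Fin (S.R ρ) → ℂ := fun ρ =>
    S.term ρ (β ∘ Sum.inr) (β (Sum.inl .t)) (β (Sum.inl .w)) V with hg
  have hat : ∀ ρ (l : Fin (S.R ρ)), z (.A ρ l, 1) =
      (S.at' ρ l).val (β ∘ Sum.inr) (β (Sum.inl .t)) (β (Sum.inl .w)) V := by
    intro ρ l
    rw [hVτ]
    exact S.atom_value hP (fun i => hτ (.xt i)) (hτ .w) (hτ .t) ρ l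
  have hsum : ∀ ρ, ∑ l, g ρ l = 0 := by
    rintro (b | k)
    · refine (S.rel_inl b _ _ _ V).trans ?_
      rw [sub_eq_zero]
      change jInv (gact (S.M none) (τb b)) = _
      rw [S.M0, gact_one, hτb]
      rfl
    · refine (S.rel_inr k _ _ _ V τb (fun _ _ => rfl) hτb).trans ?_
      exact hF k
  have hgate : ∀ g : S.GG, z (g, 0) + z (g, 1) = z (g, 2) := by
    rintro (i | _ | _ | ⟨ρ, l⟩ | ⟨ρ, l⟩ | ⟨ρ, l⟩ | ρ | ρ)
    · rw [S.para_slot' hP (.gx i) 0 rfl, S.para_slot' hP (.gx i) 1 rfl,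
        S.para_slot' hP (.gx i) 2 rfl, hτ, hτ, hτ]
      rfl
    · rw [S.para_slot' hP .gt 0 rfl, S.para_slot' hP .gt 1 rfl,
        S.para_slot' hP .gt 2 rfl, hτ, hτ, hτ]
      rfl
    · rw [S.para_slot' hP .gf 0 rfl, S.para_slot' hP .gf 1 rfl,
        S.para_slot' hP .gf 2 rfl, hτ, hτ, hτ]
      rfl
    · have h1 : S.fv β V (.P' ρ l) = S.fv β V (.P ρ l.castSucc) + g ρ l := by
        change _ + _ + psum (g ρ) (l + 1) = _ + _ + psum (g ρ) (l.castSucc : Fin _) + _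
        rw [psum_succ, Fin.val_castSucc]
        ring
      have h2 : g ρ l = sgn (S.sg ρ l) * z (.A ρ l, 1) := by
        rw [hat]
        rfl
      rcases hsg : S.sg ρ l with _ | _
      · rw [S.para_slot' hP (.A ρ l) 0 (y := .P' ρ l) (by simp [slot, hsg]),
          S.para_slot' hP (.A ρ l) 2 (y := .P ρ l.castSucc) (by simp [slot, hsg]), hτ, hτ, h1, h2,
          hsg, sgn]
        simp
      · rw [S.para_slot' hP (.A ρ l) 0 (y := .P ρ l.castSucc) (by simp [slot, hsg]),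
          S.para_slot' hP (.A ρ l) 2 (y := .P' ρ l) (by simp [slot, hsg]), hτ, hτ, h1, h2,
          hsg, sgn]
        simp
    · rw [S.para_slot' hP (.A' ρ l) 0 rfl, S.para_slot' hP (.A' ρ l) 1 rfl,
        S.para_slot' hP (.A' ρ l) 2 rfl, hτ, hτ, hτ]
      change _ + _ + psum (g ρ) (l + 1) + _ = _ + _ + psum (g ρ) (l.succ : Fin _)
      rw [Fin.val_succ]
      simp only [fv]
      push_cast
      ring
    · rw [S.para_slot' hP (.D ρ l) 0 rfl, S.para_slot' hP (.D ρ l) 1 rfl,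
        S.para_slot' hP (.D ρ l) 2 rfl, hτ, hτ, hτ]
      simp only [fv, Fin.val_succ, Fin.val_castSucc]
      push_cast
      ring
    · rw [S.para_slot' hP (.E0 ρ) 0 rfl, S.para_slot' hP (.E0 ρ) 1 rfl,
        S.para_slot' hP (.E0 ρ) 2 rfl, hτ, hτ, hτ]
      simp only [fv, Fin.val_zero, psum_zero]
      push_cast
      ring
    · rw [S.para_slot' hP (.E1 ρ) 0 rfl, S.para_slot' hP (.E1 ρ) 1 rfl,
        S.para_slot' hP (.E1 ρ) 2 rfl, hτ, hτ, hτ]
      have h1 : psum (g ρ) (S.R ρ) = 0 := by rw [psum_last, hsum]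
      simp only [fv, Fin.val_last]
      rw [h1]
      ring
  refine ⟨z, ⟨hgate, ⟨τ, hP⟩⟩, ?_⟩
  funext i
  rw [S.pr_val hP, hτ]
  rcases i with (_ | _ | _ | _ | ρ) | i
  · rfl
  · rfl
  · rfl
  · rfl
  · simp only [base, fv, Fin.val_zero, psum_zero]
    push_cast
    ring
  · rfl

/-- polynomials with the same values -/
theorem int_congr {κ J : Type} {σ : κ → J} {Y : Set (J → ℂ)} {p q : MvPolynomial J ℂ}
    (h : ∀ z ∈ Y, eval z p = eval z q)
    (hq : (qmap σ Y).IsIntegralElem (Ideal.Quotient.mk _ q)) :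
    (qmap σ Y).IsIntegralElem (Ideal.Quotient.mk _ p) := by
  have h1 : Ideal.Quotient.mk (vanishingIdeal ℂ Y) p = Ideal.Quotient.mk (vanishingIdeal ℂ Y) q := by
    rw [Ideal.Quotient.eq, mem_vanishingIdeal_iff]
    intro z hz
    rw [map_sub, sub_eq_zero]
    exact h z hz
  rw [h1]
  exact hq

/-- the canonical coordinate -/
def cj (y : S.KK) : S.net.J := S.can y

/-- integrality of a coordinate -/
def IsInt (p : S.net.J) : Prop :=
  (qmap S.net.pr S.net.Sol).IsIntegralElem (Ideal.Quotient.mk _ (X p))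

theorem isInt_blk {p : S.net.J} {y : S.KK} (hp : S.net.blk p = some y)
    (h : S.IsInt (S.cj y)) : S.IsInt p := by
  obtain ⟨Φ, hΦ, h1⟩ := S.net.exists_rel hp
  refine intElem_rel h hΦ ?_
  intro z hz
  rw [eval_X, eval_X]
  exact h1 z hz.2

theorem isInt_of_blk {p : S.net.J} {y : S.KK} (hp : S.slot p.1 p.2 = (some y, none))
    (h : S.IsInt p) : S.IsInt (S.cj y) := by
  refine int_congr ?_ h
  rintro z ⟨-, τ, hτ⟩
  rw [eval_X, eval_X, S.para_slot' hτ p.1 p.2 hp]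
  exact hτ.can y

theorem isInt_add {p q r : S.net.J} (h : ∀ z ∈ S.net.Sol, z p = z q + z r) (hq : S.IsInt q)
    (hr : S.IsInt r) : S.IsInt p := by
  refine int_congr (q := X q + X r) ?_ ?_
  · intro z hz
    rw [map_add, eval_X, eval_X, eval_X]
    exact h z hz
  · rw [map_add]
    exact RingHom.IsIntegralElem.add _ hq hr

theorem isInt_sub {p q r : S.net.J} (h : ∀ z ∈ S.net.Sol, z p = z q - z r) (hq : S.IsInt q)
    (hr : S.IsInt r) : S.IsInt p := by
  refine int_congr (q := X q - X r) ?_ ?_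
  · intro z hz
    rw [map_sub, eval_X, eval_X, eval_X]
    exact h z hz
  · rw [map_sub]
    exact RingHom.IsIntegralElem.sub _ hq hr

theorem isInt_base (i : S.I) : S.IsInt (S.cj (S.base i)) :=
  intElem_coord S.net.pr S.net.Sol i

theorem intOver : IntOver S.net.pr S.net.Sol := by
  have hg : ∀ (g : S.GG), ∀ z ∈ S.net.Sol, z (g, 2) = z (g, 0) + z (g, 1) :=
    fun g z hz => (hz.1 g).symm
  have hg' : ∀ (g : S.GG), ∀ z ∈ S.net.Sol, z (g, 0) = z (g, 2) - z (g, 1) := by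
    intro g z hz
    rw [hg g z hz]
    ring
  have hx : ∀ i, S.IsInt (S.cj (.x i)) := fun i => S.isInt_base (Sum.inr i)
  have ht : S.IsInt (S.cj .t) := S.isInt_base (Sum.inl .t)
  have hw : S.IsInt (S.cj .w) := S.isInt_base (Sum.inl .w)
  have ho : S.IsInt (S.cj .o) := S.isInt_base (Sum.inl .o)
  have ho' : S.IsInt (S.cj .o') := S.isInt_base (Sum.inl .o')
  have hxt : ∀ i, S.IsInt (S.cj (.xt i)) := fun i =>
    S.isInt_add (hg (.gx i)) (hx i) (S.isInt_blk (y := .w) rfl hw)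
  have htt : S.IsInt (S.cj .tt) := S.isInt_add (hg .gt) ht hw
  have hf : S.IsInt (S.cj .f) := S.isInt_add (hg .gf) ho ho'
  have hv : ∀ b, S.IsInt (S.cj (.v b)) := by
    intro b
    refine intElem_congr (∑ i, C (S.ell b i : ℂ) * X (Sum.inr i) +
      C (S.n b : ℂ) * X (Sum.inl .t) + C (S.m b * kap)) ?_
    rintro z hz
    obtain ⟨τ, hτ⟩ := hz.2
    obtain ⟨-, h1, -⟩ := S.sol_values hz hτ
    have h2 := h1 (.v b)
    rw [eval_X]
    have h3 : z (S.cj (.v b)) = jInv (τ (.v b)) := hτ.can (.v b)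
    rw [h3, h2]
    simp only [fv, lam, map_add, map_sum, map_mul, eval_C, eval_X]
    rfl
  have hkap : ∀ p : S.net.J, S.net.blk p = none → S.IsInt p := by
    intro p hp
    refine intElem_congr (C kap) ?_
    rintro z ⟨-, τ, hτ⟩
    rw [eval_X, eval_C, hτ.none hp]
  have hatom : ∀ ρ (l : Fin (S.R ρ)), S.IsInt (.A ρ l, 1) := by
    intro ρ l
    have hs : S.net.blk (.A ρ l, 1) = (S.aslot (S.at' ρ l)).1 := rfl
    rcases hA : S.at' ρ l with i | _ | _ | _ | ⟨b, q⟩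
    · exact S.isInt_blk (y := .xt i) (by rw [hs, hA]; rfl) (hxt i)
    · exact S.isInt_blk (y := .w) (by rw [hs, hA]; rfl) hw
    · exact S.isInt_blk (y := .t) (by rw [hs, hA]; rfl) ht
    · exact hkap _ (by rw [hs, hA]; rfl)
    · exact S.isInt_blk (y := .v b) (by rw [hs, hA]; rfl) (hv b)
  have hA1 : ∀ ρ (l : Fin (S.R ρ)), S.IsInt (S.cj (.P ρ l.castSucc)) →
      S.IsInt (S.cj (.P' ρ l)) := by
    intro ρ l h
    rcases hsg : S.sg ρ l with _ | _
    · refine S.isInt_of_blk (p := (.A ρ l, 0)) (by simp [slot, hsg]) ?_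
      refine S.isInt_sub (hg' (.A ρ l)) ?_ (hatom ρ l)
      refine S.isInt_blk (y := .P ρ l.castSucc) ?_ h
      change (S.slot (.A ρ l) 2).1 = _
      simp [slot, hsg]
    · refine S.isInt_of_blk (p := (.A ρ l, 2)) (by simp [slot, hsg]) ?_
      refine S.isInt_add (hg (.A ρ l)) ?_ (hatom ρ l)
      refine S.isInt_blk (y := .P ρ l.castSucc) ?_ h
      change (S.slot (.A ρ l) 0).1 = _
      simp [slot, hsg]
  have hP : ∀ ρ (l : Fin (S.R ρ + 1)), S.IsInt (S.cj (.P ρ l)) := by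
    intro ρ l
    induction l using Fin.induction with
    | zero => exact S.isInt_base (Sum.inl (.th ρ))
    | succ l ih =>
      exact S.isInt_add (hg (.A' ρ l)) (hA1 ρ l ih) (S.isInt_blk (y := .o) rfl ho)
  have hQ : ∀ ρ (l : Fin (S.R ρ + 1)), S.IsInt (S.cj (.Q ρ l)) := by
    intro ρ l
    induction l using Fin.induction with
    | zero => exact S.isInt_add (hg (.E0 ρ)) (hP ρ 0) (S.isInt_blk (y := .o') rfl ho')
    | succ l ih =>
      exact S.isInt_add (hg (.D ρ l)) (S.isInt_blk (y := .Q ρ l.castSucc) rfl ih)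
        (S.isInt_blk (y := .o) rfl ho)
  have hall : ∀ y : S.KK, S.IsInt (S.cj y) := by
    rintro (i | _ | _ | _ | _ | i | _ | _ | b | ⟨ρ, l⟩ | ⟨ρ, l⟩ | ⟨ρ, l⟩)
    · exact hx i
    · exact ht
    · exact hw
    · exact ho
    · exact ho'
    · exact hxt i
    · exact htt
    · exact hf
    · exact hv b
    · exact hP ρ l
    · exact hA1 ρ l (hP ρ _)
    · exact hQ ρ l
  intro p
  rcases hp : S.net.blk p with _ | y
  · exact hkap p hp
  · exact S.isInt_blk hp (hall y)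

/-- the number of gates -/
theorem count : Fintype.card S.net.G + Fintype.card S.I = Fintype.card S.net.K + c := by
  change Fintype.card S.GG + Fintype.card (Fr S.T ⊕ ι) = Fintype.card S.KK + c
  rw [Fintype.card_sum, card_sg, card_sk, card_fr, Fintype.card_sum, Fintype.card_fin]
  ring

end Sys

end Pool.Agent.Hhelper14.ZPL
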