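import Pool.Agent.Hhelper14.ZPL.Sys

/-!
# The net of a system of equations: values
-/

namespace Pool.Agent.Hhelper14.ZPL

open UpperHalfPlane MvPolynomial Pool.Agent.Hhelper14.ZP

namespace Sys

attribute [instance] Sys.fB Sys.fQ

variable {ι : Type} [Fintype ι] {c : ℕ} (S : Sys ι c)

/-- names of the relations -/
abbrev T := S.B ⊕ Fin c

/-- the blocks -/
abbrev KK := SK ι S.B S.T S.R

/-- the gates -/
abbrev GG := SG ι S.T S.R

/-- the base coordinates -/
abbrev I := Fr S.T ⊕ ι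

/-- the base blocks -/
def base : S.I → S.KK
  | Sum.inl .t => .t
  | Sum.inl .w => .w
  | Sum.inl .o => .o
  | Sum.inl .o' => .o'
  | Sum.inl (.th ρ) => .P ρ 0
  | Sum.inr i => .x i

theorem base_inj : Function.Injective S.base := by
  rintro ((_ | _) | _) ((_ | _) | _) h <;> simp_all [base]

/-- the slot of an atom -/
def aslot : Atom ι S.B S.Q → Option S.KK × Option S.Q
  | .xt i => (some (.xt i), none)
  | .w => (some .w, none)
  | .t => (some .t, none)
  | .k => (none, none)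
  | .v b q => (some (.v b), q)

/-- the slots of a gate -/
def slot : S.GG → Fin 3 → Option S.KK × Option S.Q
  | .gx i => ![(some (.x i), none), (some .w, none), (some (.xt i), none)]
  | .gt => ![(some .t, none), (some .w, none), (some .tt, none)]
  | .gf => ![(some .o, none), (some .o', none), (some .f, none)]
  | .A ρ l => ![(some (if S.sg ρ l then .P ρ l.castSucc else .P' ρ l), none), S.aslot (S.at' ρ l),
      (some (if S.sg ρ l then .P' ρ l else .P ρ l.castSucc), none)]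
  | .A' ρ l => ![(some (.P' ρ l), none), (some .o, none), (some (.P ρ l.succ), none)]
  | .D ρ l => ![(some (.Q ρ l.castSucc), none), (some .o, none), (some (.Q ρ l.succ), none)]
  | .E0 ρ => ![(some (.P ρ 0), none), (some .o', none), (some (.Q ρ 0), none)]
  | .E1 ρ => ![(some (.P ρ (Fin.last _)), none), (some .o', none),
      (some (.Q ρ (Fin.last _)), none)]

/-- canonical coordinates -/
def can : S.KK → S.GG × Fin 3
  | .x i => (.gx i, 0)
  | .t => (.gt, 0)
  | .w => (.gt, 1)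
  | .o => (.gf, 0)
  | .o' => (.gf, 1)
  | .xt i => (.gx i, 2)
  | .tt => (.gt, 2)
  | .f => (.gf, 2)
  | .v b => (.A (Sum.inl b) (S.l0 b), 1)
  | .P ρ l => Fin.cases (.E0 ρ, 0) (fun l => (.A' ρ l, 2)) l
  | .P' ρ l => (.A' ρ l, 0)
  | .Q ρ l => Fin.cases (.E0 ρ, 2) (fun l => (.D ρ l, 2)) l

theorem slot_can (y : S.KK) : S.slot (S.can y).1 (S.can y).2 = (some y, none) := by
  rcases y with i | _ | _ | _ | _ | i | _ | _ | b | ⟨ρ, l⟩ | ⟨ρ, l⟩ | ⟨ρ, l⟩
  all_goals try rfl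
  · change S.aslot (S.at' (Sum.inl b) (S.l0 b)) = _
    rw [S.at_l0]
    rfl
  · refine Fin.cases ?_ (fun l => ?_) l <;> rfl
  · refine Fin.cases ?_ (fun l => ?_) l <;> rfl

theorem slot_cases (g : S.GG) (j : Fin 3) :
    (S.slot g j).2 = none ∨ ∃ b, (S.slot g j).1 = some (.v b) := by
  have ha : ∀ a, (S.aslot a).2 = none ∨ ∃ b, (S.aslot a).1 = some (.v b) := by
    rintro (i | _ | _ | _ | ⟨b, q⟩)
    · exact Or.inl rfl
    · exact Or.inl rfl
    · exact Or.inl rfl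
    · exact Or.inl rfl
    · exact Or.inr ⟨b, rfl⟩
  rcases g with i | _ | _ | ⟨ρ, l⟩ | ⟨ρ, l⟩ | ⟨ρ, l⟩ | ρ | ρ <;> fin_cases j
  all_goals first | exact Or.inl rfl | exact ha _

/-- **The net.** -/
def net : Net S.I where
  K := S.KK
  G := S.GG
  base := S.base
  base_inj := S.base_inj
  blk p := (S.slot p.1 p.2).1
  M p := S.M (S.slot p.1 p.2).2
  hM p := S.hM _
  can := S.can
  blk_can y := by rw [S.slot_can]
  M_can y := by rw [S.slot_can, S.M0]
  M_base p i h := by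
    rcases S.slot_cases p.1 p.2 with h1 | ⟨b, h1⟩
    · rw [h1, S.M0]
    · rw [h1] at h
      have h2 : (SK.v b : S.KK) = S.base i := Option.some_injective _ h
      rcases i with (_ | _) | _ <;> simp [base] at h2

/-- the linear forms -/
noncomputable def lam (b : S.B) (x : ι → ℂ) (t : ℂ) : ℂ :=
  ∑ i, (S.ell b i : ℂ) * x i + S.n b * t + S.m b * kap

/-- the terms of a relation -/
noncomputable def term (ρ : S.T) (x : ι → ℂ) (t w : ℂ) (V : S.B → Option S.Q → ℂ)
    (l : Fin (S.R ρ)) : ℂ := sgn (S.sg ρ l) * (S.at' ρ l).val x t w V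

end Sys

/-- partial sums -/
noncomputable def psum {R : ℕ} (g : Fin R → ℂ) (l : ℕ) : ℂ := ∑ m : Fin R, if (m : ℕ) < l then g m else 0

theorem psum_zero {R : ℕ} (g : Fin R → ℂ) : psum g 0 = 0 := by simp [psum]

theorem psum_succ {R : ℕ} (g : Fin R → ℂ) (l : Fin R) : psum g (l + 1) = psum g l + g l := by
  have h : psum g (l + 1) - psum g l = g l := by
    rw [psum, psum, ← Finset.sum_sub_distrib, Finset.sum_eq_single l]
    · simp
    · intro m _ hm
      have hne : (m : ℕ) ≠ l := fun h => hm (Fin.ext h)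
      by_cases h1 : (m : ℕ) < l
      · rw [if_pos (by omega), if_pos h1, sub_self]
      · rw [if_neg (by omega), if_neg h1, sub_self]
    · intro h
      exact absurd (Finset.mem_univ l) h
  linear_combination h

theorem psum_last {R : ℕ} (g : Fin R → ℂ) : psum g R = ∑ m, g m := by
  simp [psum]

namespace Sys

variable {ι : Type} [Fintype ι] {c : ℕ} (S : Sys ι c)

/-- the values of the blocks -/
noncomputable def fv (β : S.I → ℂ) (V : S.B → Option S.Q → ℂ) : S.KK → ℂ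
  | .x i => β (Sum.inr i)
  | .t => β (Sum.inl .t)
  | .w => β (Sum.inl .w)
  | .o => β (Sum.inl .o)
  | .o' => β (Sum.inl .o')
  | .xt i => β (Sum.inr i) + β (Sum.inl .w)
  | .tt => β (Sum.inl .t) + β (Sum.inl .w)
  | .f => β (Sum.inl .o) + β (Sum.inl .o')
  | .v b => S.lam b (β ∘ Sum.inr) (β (Sum.inl .t))
  | .P ρ l => β (Sum.inl (.th ρ)) + (l : ℕ) * β (Sum.inl .o) +
      psum (S.term ρ (β ∘ Sum.inr) (β (Sum.inl .t)) (β (Sum.inl .w)) V) l
  | .P' ρ l => β (Sum.inl (.th ρ)) + (l : ℕ) * β (Sum.inl .o) +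
      psum (S.term ρ (β ∘ Sum.inr) (β (Sum.inl .t)) (β (Sum.inl .w)) V) (l + 1)
  | .Q ρ l => β (Sum.inl (.th ρ)) + β (Sum.inl .o') + (l : ℕ) * β (Sum.inl .o)

/-- the values of the Hecke translates -/
def Nb (β : S.I → ℂ) (V : S.B → Option S.Q → ℂ) : Prop :=
  ∀ b, ∃ τ : ℍ, jInv τ = S.lam b (β ∘ Sum.inr) (β (Sum.inl .t)) ∧
    ∀ q, V b q = jInv (gact (S.M q) τ)

theorem para_slot {z : S.net.J → ℂ} {τ : S.KK → ℍ} (h : S.net.Para τ z) (g : S.GG) (j : Fin 3)
    {y : S.KK} {q : Option S.Q} (hs : S.slot g j = (some y, q)) :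
    z (g, j) = jInv (gact (S.M q) (τ y)) := by
  have h1 : S.net.blk (g, j) = some y := by
    change (S.slot g j).1 = _
    rw [hs]
  have h2 : S.net.M (g, j) = S.M q := by
    change S.M (S.slot g j).2 = _
    rw [hs]
  rw [h.some h1, h2]

theorem para_slot' {z : S.net.J → ℂ} {τ : S.KK → ℍ} (h : S.net.Para τ z) (g : S.GG) (j : Fin 3)
    {y : S.KK} (hs : S.slot g j = (some y, none)) : z (g, j) = jInv (τ y) := by
  rw [S.para_slot h g j hs, S.M0, gact_one]

theorem pr_val {z : S.net.J → ℂ} {τ : S.KK → ℍ} (h : S.net.Para τ z) (i : S.I) :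
    (z ∘ S.net.pr) i = jInv (τ (S.base i)) := h.can (S.base i)

/-- **Values on solutions.** -/
theorem sol_values {z : S.net.J → ℂ} {τ : S.KK → ℍ} (hz : z ∈ S.net.Sol)
    (h : S.net.Para τ z) :
    S.Nb (z ∘ S.net.pr) (fun b q => jInv (gact (S.M q) (τ (.v b)))) ∧
    (∀ y, jInv (τ y) = S.fv (z ∘ S.net.pr) (fun b q => jInv (gact (S.M q) (τ (.v b)))) y) ∧
    ∀ k, S.F k (z ∘ S.net.pr ∘ Sum.inr) = 0 := by
  set β := z ∘ S.net.pr with hβ
  set V : S.B → Option S.Q → ℂ := fun b q => jInv (gact (S.M q) (τ (.v b))) with hV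
  have hb : ∀ i, β i = jInv (τ (S.base i)) := S.pr_val h
  have hg : ∀ (g : S.GG), z (g, 0) + z (g, 1) = z (g, 2) := fun g => hz.1 g
  have hxt : ∀ i, jInv (τ (.xt i)) = β (Sum.inr i) + β (Sum.inl .w) := by
    intro i
    have h1 := hg (.gx i)
    rw [S.para_slot' h (.gx i) 0 rfl, S.para_slot' h (.gx i) 1 rfl,
      S.para_slot' h (.gx i) 2 rfl] at h1
    rw [← h1, hb, hb]
    rfl
  have htt : jInv (τ .tt) = β (Sum.inl .t) + β (Sum.inl .w) := by
    have h1 := hg .gt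
    rw [S.para_slot' h .gt 0 rfl, S.para_slot' h .gt 1 rfl, S.para_slot' h .gt 2 rfl] at h1
    rw [← h1, hb, hb]
    rfl
  have hf : jInv (τ .f) = β (Sum.inl .o) + β (Sum.inl .o') := by
    have h1 := hg .gf
    rw [S.para_slot' h .gf 0 rfl, S.para_slot' h .gf 1 rfl, S.para_slot' h .gf 2 rfl] at h1
    rw [← h1, hb, hb]
    rfl
  -- atoms
  have hat : ∀ ρ l, z (.A ρ l, 1) =
      (S.at' ρ l).val (β ∘ Sum.inr) (β (Sum.inl .t)) (β (Sum.inl .w)) V := by
    intro ρ l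
    have hs : S.slot (.A ρ l) 1 = S.aslot (S.at' ρ l) := rfl
    rcases hA : S.at' ρ l with i | _ | _ | _ | ⟨b, q⟩
    · rw [S.para_slot' h (.A ρ l) 1 (y := .xt i) (by rw [hs, hA]; rfl), hxt]
      rfl
    · rw [S.para_slot' h (.A ρ l) 1 (y := .w) (by rw [hs, hA]; rfl)]
      exact (hb (Sum.inl .w)).symm
    · rw [S.para_slot' h (.A ρ l) 1 (y := .t) (by rw [hs, hA]; rfl)]
      exact (hb (Sum.inl .t)).symm
    · refine h.none ?_
      change (S.slot (.A ρ l) 1).1 = none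
      rw [hs, hA]
      rfl
    · rw [S.para_slot h (.A ρ l) 1 (y := .v b) (q := q) (by rw [hs, hA]; rfl)]
      rfl
  -- chains
  set g : ∀ ρ, Fin (S.R ρ) → ℂ := fun ρ =>
    S.term ρ (β ∘ Sum.inr) (β (Sum.inl .t)) (β (Sum.inl .w)) V with hgdef
  have hA : ∀ ρ l, jInv (τ (.P' ρ l)) = jInv (τ (.P ρ l.castSucc)) + g ρ l := by
    intro ρ l
    have h1 := hg (.A ρ l)
    have h2 : g ρ l = sgn (S.sg ρ l) * z (.A ρ l, 1) := by
      rw [hat]
      rfl
    rcases hsg : S.sg ρ l with _ | _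
    · rw [S.para_slot' h (.A ρ l) 0 (y := .P' ρ l) (by simp [slot, hsg]),
        S.para_slot' h (.A ρ l) 2 (y := .P ρ l.castSucc) (by simp [slot, hsg])] at h1
      rw [h2, hsg, sgn, ← h1]
      simp
    · rw [S.para_slot' h (.A ρ l) 0 (y := .P ρ l.castSucc) (by simp [slot, hsg]),
        S.para_slot' h (.A ρ l) 2 (y := .P' ρ l) (by simp [slot, hsg])] at h1
      rw [h2, hsg, sgn, ← h1]
      simp
  have ho : jInv (τ .o) = β (Sum.inl .o) := (hb (Sum.inl .o)).symm
  have ho' : jInv (τ .o') = β (Sum.inl .o') := (hb (Sum.inl .o')).symm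
  have hA' : ∀ ρ l, jInv (τ (.P ρ l.succ)) = jInv (τ (.P' ρ l)) + β (Sum.inl .o) := by
    intro ρ l
    have h1 := hg (.A' ρ l)
    rw [S.para_slot' h (.A' ρ l) 0 rfl, S.para_slot' h (.A' ρ l) 1 rfl,
      S.para_slot' h (.A' ρ l) 2 rfl] at h1
    rw [← h1, ← ho]
  have hD : ∀ ρ (l : Fin (S.R ρ)), jInv (τ (.Q ρ l.succ)) = jInv (τ (.Q ρ l.castSucc)) + β (Sum.inl .o) := by
    intro ρ l
    have h1 := hg (.D ρ l)
    rw [S.para_slot' h (.D ρ l) 0 rfl, S.para_slot' h (.D ρ l) 1 rfl,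
      S.para_slot' h (.D ρ l) 2 rfl] at h1
    rw [← h1, ← ho]
  have hP : ∀ ρ (l : Fin (S.R ρ + 1)), jInv (τ (.P ρ l)) =
      β (Sum.inl (.th ρ)) + (l : ℕ) * β (Sum.inl .o) + psum (g ρ) l := by
    intro ρ l
    induction l using Fin.induction with
    | zero =>
      rw [hb]
      simp [psum_zero, base]
    | succ l ih =>
      rw [hA', hA, ih, Fin.val_succ, psum_succ, Fin.val_castSucc]
      push_cast
      ring
  have hQ0 : ∀ ρ, jInv (τ (.Q ρ 0)) = β (Sum.inl (.th ρ)) + β (Sum.inl .o') := by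
    intro ρ
    have h1 := hg (.E0 ρ)
    rw [S.para_slot' h (.E0 ρ) 0 rfl, S.para_slot' h (.E0 ρ) 1 rfl,
      S.para_slot' h (.E0 ρ) 2 rfl] at h1
    rw [← h1, ← ho', hb]
    rfl
  have hQ : ∀ ρ (l : Fin (S.R ρ + 1)), jInv (τ (.Q ρ l)) =
      β (Sum.inl (.th ρ)) + β (Sum.inl .o') + (l : ℕ) * β (Sum.inl .o) := by
    intro ρ l
    induction l using Fin.induction with
    | zero =>
      rw [hQ0]
      simp
    | succ l ih =>
      rw [hD, ih, Fin.val_succ, Fin.val_castSucc]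
      push_cast
      ring
  have hsum : ∀ ρ, ∑ l, g ρ l = 0 := by
    intro ρ
    have h1 := hg (.E1 ρ)
    rw [S.para_slot' h (.E1 ρ) 0 rfl, S.para_slot' h (.E1 ρ) 1 rfl,
      S.para_slot' h (.E1 ρ) 2 rfl, hP, hQ, ho', Fin.val_last, psum_last] at h1
    linear_combination h1
  have hv : ∀ b, jInv (τ (.v b)) = S.lam b (β ∘ Sum.inr) (β (Sum.inl .t)) := by
    intro b
    have h1 := hsum (Sum.inl b)
    have h2 := S.rel_inl b (β ∘ Sum.inr) (β (Sum.inl .t)) (β (Sum.inl .w)) V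
    have h3 : V b none = jInv (τ (.v b)) := by
      simp only [hV]
      rw [S.M0, gact_one]
    rw [← h3]
    have h4 := h2.symm.trans h1
    rw [sub_eq_zero] at h4
    exact h4
  refine ⟨fun b => ⟨τ (.v b), hv b, fun q => rfl⟩, ?_, ?_⟩
  · rintro (i | _ | _ | _ | _ | i | _ | _ | b | ⟨ρ, l⟩ | ⟨ρ, l⟩ | ⟨ρ, l⟩)
    · exact (hb (Sum.inr i)).symm
    · exact (hb (Sum.inl .t)).symm
    · exact (hb (Sum.inl .w)).symm
    · exact ho
    · exact ho'
    · exact hxt i
    · exact htt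
    · exact hf
    · exact hv b
    · exact hP ρ l
    · rw [hA, hP]
      change _ = _ + _ + psum (g ρ) (l + 1)
      rw [psum_succ, Fin.val_castSucc]
      ring
    · exact hQ ρ l
  · intro k
    have h1 := hsum (Sum.inr k)
    have h2 := S.rel_inr k (β ∘ Sum.inr) (β (Sum.inl .t)) (β (Sum.inl .w)) V (fun b => τ (.v b))
      (fun b q => rfl) hv
    exact h2.symm.trans h1

end Sys

end Pool.Agent.Hhelper14.ZPL
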