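import Pool.Agent.Hhelper14.ZPL.SysLift
import Pool.Agent.Hhelper99.ZPL.Growth

/-!
# The net of a system of equations: separation of the blocks
-/

namespace Pool.Agent.Hhelper14.ZPL

open UpperHalfPlane MvPolynomial Pool.Agent.Hhelper14.ZP

instance : Countable (GL (Fin 2) ℚ) := by
  have : Countable (Matrix (Fin 2) (Fin 2) ℚ) :=
    inferInstanceAs (Countable (Fin 2 → Fin 2 → ℚ))
  exact Function.Injective.countable (f := fun g : GL (Fin 2) ℚ => g.val) Units.val_injective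

/-- **Affine relations between isogenous values.** -/
theorem isog_line {A : Set ℂ} (hA : ¬ A.Countable) {n c n' c' : ℂ} (hn : n ≠ 0)
    (h : ∀ s ∈ A, Isog (n * s + c) (n' * s + c')) : n = n' ∧ c = c' := by
  let T : GL (Fin 2) ℚ × GL (Fin 2) ℚ → Set ℂ := fun p => {s | s ∈ A ∧ 0 < p.1.det.val ∧
    0 < p.2.det.val ∧ ∃ σ : ℍ, n * s + c = jInv (gact p.1 σ) ∧ n' * s + c' = jInv (gact p.2 σ)}
  obtain ⟨p, hp⟩ : ∃ p, ¬ (T p).Countable := by
    by_contra hcon
    push Not at hcon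
    apply hA
    refine (Set.countable_iUnion hcon).mono ?_
    intro s hs
    obtain ⟨g, k, hg, hk, σ, h1, h2⟩ := h s hs
    exact Set.mem_iUnion.mpr ⟨(g, k), hs, hg, hk, σ, h1, h2⟩
  have hne : (T p).Nonempty := by
    rw [Set.nonempty_iff_ne_empty]
    intro h0
    rw [h0] at hp
    exact hp Set.countable_empty
  obtain ⟨s0, -, hg, hk, -⟩ := hne
  have hinj : Function.Injective (fun s : ℂ => n * s + c) := by
    intro s s' hs
    have h1 : n * s = n * s' := add_right_cancel hs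
    exact mul_left_cancel₀ hn h1
  have hS : ¬ ((fun s : ℂ => n * s + c) '' T p).Countable := by
    intro h0
    exact hp (Set.countable_of_injective_of_countable_image hinj.injOn h0)
  obtain ⟨h1, h2⟩ := line_lemma hg hk (α := n' / n) (β := c' - n' / n * c) hS (by
    rintro _ ⟨s, ⟨-, -, -, σ, h3, h4⟩, rfl⟩
    refine ⟨σ, h3.symm, ?_⟩
    rw [← h4]
    field_simp
    ring)
  have h3 : n' = n := by
    rw [div_eq_iff hn, one_mul] at h1
    exact h1
  refine ⟨h3.symm, ?_⟩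
  rw [h1, one_mul, sub_eq_zero] at h2
  exact h2.symm

theorem not_countable_univ' : ¬ (Set.univ : Set ℂ).Countable := by
  exact not_countable_complex

namespace Sys

variable {ι : Type} [Fintype ι] {c : ℕ} (S : Sys ι c)

/-- there are finitely many possible translates -/
theorem nb_finite (β : S.I → ℂ) : {V | S.Nb β V}.Finite := by
  let N : ∀ (b : S.B) (q : Option S.Q), Set ℂ := fun b q => {v : ℂ | ∃ τ : ℍ,
    jInv τ = S.lam b (β ∘ Sum.inr) (β (Sum.inl .t)) ∧ jInv (gact (S.M q) τ) = v}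
  have hN : ∀ b q, (N b q).Finite := fun b q => neighbours_finite (S.hM q) _
  refine (Set.Finite.pi fun b => Set.Finite.pi fun q => hN b q).subset ?_
  intro V hV b _ q _
  obtain ⟨τ, h1, h2⟩ := hV b
  exact ⟨τ, h1, (h2 q).symm⟩

variable {U : Set (ι → ℂ)} {V' : Set (S.net.J → ℂ)}

theorem point (hV' : V' ⊆ S.net.Sol) (hU : Fib (Fr S.T) U ⊆ proj S.net.pr V')
    {β : S.I → ℂ} (hβ : β ∘ Sum.inr ∈ U) :
    ∃ z ∈ V', ∃ V, S.Nb β V ∧ ∀ y, z (S.cj y) = S.fv β V y := by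
  obtain ⟨z, hz, hzβ⟩ := hU (show β ∈ Fib (Fr S.T) U from hβ)
  obtain ⟨τ, hτ⟩ := (hV' hz).2
  obtain ⟨h1, h2, -⟩ := S.sol_values (hV' hz) hτ
  have h0 : z ∘ S.net.pr = β := hzβ
  rw [h0] at h1 h2
  exact ⟨z, hz, _, h1, fun y => by rw [← h2 y]; exact hτ.can y⟩

theorem line (hV' : V' ⊆ S.net.Sol) (hU : Fib (Fr S.T) U ⊆ proj S.net.pr V')
    {β : ℂ → S.I → ℂ} {x : ι → ℂ} {t : ℂ} (hx : ∀ s, β s ∘ Sum.inr = x)
    (ht : ∀ s, β s (Sum.inl .t) = t) (hxU : x ∈ U) :
    ∃ V, (∀ s, S.Nb (β s) V) ∧ ∃ A : Set ℂ, ¬ A.Countable ∧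
      ∀ s ∈ A, ∃ z ∈ V', ∀ y, z (S.cj y) = S.fv (β s) V y := by
  have hnb : ∀ s s' V, S.Nb (β s) V → S.Nb (β s') V := by
    intro s s' V h b
    obtain ⟨τ, h1, h2⟩ := h b
    refine ⟨τ, ?_, h2⟩
    rw [h1, hx, hx, ht, ht]
  choose z hz V hV hzV using fun s => S.point hV' hU (β := β s) (by rw [hx]; exact hxU)
  obtain ⟨W, hW, hWA⟩ : ∃ W ∈ {V | S.Nb (β 0) V}, ¬ {s | V s = W}.Countable := by
    by_contra hcon
    push Not at hcon
    apply not_countable_univ'
    refine ((S.nb_finite (β 0)).countable.biUnion hcon).mono ?_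
    intro s _
    exact Set.mem_biUnion (hnb s 0 _ (hV s)) rfl
  refine ⟨W, fun s => hnb 0 s W hW, {s | V s = W}, hWA, ?_⟩
  intro s hs
  have h1 : V s = W := hs
  exact ⟨z s, hz s, fun y => by rw [hzV s y, h1]⟩

/-- separated blocks -/
def Sepd (V' : Set (S.net.J → ℂ)) (y y' : S.KK) : Prop :=
  ∃ z ∈ V', ¬ Isog (z (S.cj y)) (z (S.cj y'))

/-- nonconstant blocks -/
def Mov (V' : Set (S.net.J → ℂ)) (y : S.KK) : Prop :=
  ∃ z ∈ V', ∃ z' ∈ V', z (S.cj y) ≠ z' (S.cj y)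

theorem Sepd.symm {S : Sys ι c} {V' : Set (S.net.J → ℂ)} {y y' : S.KK} (h : S.Sepd V' y y') :
    S.Sepd V' y' y := by
  obtain ⟨z, hz, h1⟩ := h
  exact ⟨z, hz, fun h2 => h1 h2.symm⟩

theorem sepd_affine {y y' : S.KK} {A : Set ℂ} (hA : ¬ A.Countable) {n a n' a' : ℂ} (hn : n ≠ 0)
    (h : ∀ s ∈ A, ∃ z ∈ V', z (S.cj y) = n * s + a ∧ z (S.cj y') = n' * s + a')
    (hne : ¬ (n = n' ∧ a = a')) : S.Sepd V' y y' := by
  by_contra hcon
  apply hne
  refine isog_line hA hn fun s hs => ?_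
  obtain ⟨z, hz, h1, h2⟩ := h s hs
  rw [← h1, ← h2]
  by_contra h3
  exact hcon ⟨z, hz, h3⟩

theorem sepd_affine' {y y' : S.KK} {A : Set ℂ} (hA : ¬ A.Countable) {n a n' a' : ℂ} (hn : n ≠ n')
    (h : ∀ s ∈ A, ∃ z ∈ V', z (S.cj y) = n * s + a ∧ z (S.cj y') = n' * s + a') :
    S.Sepd V' y y' := by
  by_cases h0 : n = 0
  · refine Sepd.symm ?_
    refine S.sepd_affine hA (n := n') (a := a') (n' := n) (a' := a) (by rw [← h0]; exact hn.symm)
      (fun s hs => ?_) (fun h1 => hn h1.1.symm)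
    obtain ⟨z, hz, h1, h2⟩ := h s hs
    exact ⟨z, hz, h2, h1⟩
  · exact S.sepd_affine hA h0 h fun h1 => hn h1.1

theorem mov_affine {y : S.KK} {A : Set ℂ} (hA : ¬ A.Countable) {n a : ℂ} (hn : n ≠ 0)
    (h : ∀ s ∈ A, ∃ z ∈ V', z (S.cj y) = n * s + a) : S.Mov V' y := by
  have h1 : ¬ A.Subsingleton := fun h0 => hA h0.countable
  rw [Set.not_subsingleton_iff] at h1
  obtain ⟨s, hs, s', hs', hne⟩ := h1
  obtain ⟨z, hz, h2⟩ := h s hs
  obtain ⟨z', hz', h3⟩ := h s' hs'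
  refine ⟨z, hz, z', hz', ?_⟩
  rw [h2, h3]
  intro h4
  exact hne (mul_left_cancel₀ hn (add_right_cancel h4))

/-- base points -/
def bp (x : ι → ℂ) (t w o o' : ℂ) (th : S.T → ℂ) : S.I → ℂ :=
  Sum.elim (fun
    | .t => t
    | .w => w
    | .o => o
    | .o' => o'
    | .th ρ => th ρ) x

/-- the chain of a block -/
def ch : S.KK → Option S.T
  | .P ρ _ => some ρ
  | .P' ρ _ => some ρ
  | .Q ρ _ => some ρ
  | _ => none

/-- slope in the direction `o` -/
def so : S.KK → ℕ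
  | .o => 1
  | .f => 1
  | .P _ l => l
  | .P' _ l => l
  | .Q _ l => l
  | _ => 0

/-- slope in the direction `o'` -/
def so' : S.KK → ℕ
  | .o' => 1
  | .f => 1
  | .Q _ _ => 1
  | _ => 0

/-- slope in the direction `w`, outside of the chains -/
def sw : S.KK → ℕ
  | .w => 1
  | .xt _ => 1
  | .tt => 1
  | _ => 0

variable {S}
variable (x : ι → ℂ) (t w o o' : ℂ) (th : S.T → ℂ) (V : S.B → Option S.Q → ℂ)

theorem fv_o (s : ℂ) (y : S.KK) : S.fv (S.bp x t w s o' th) V y =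
    (S.so y : ℂ) * s + S.fv (S.bp x t w 0 o' th) V y := by
  rcases y with i | _ | _ | _ | _ | i | _ | _ | b | ⟨ρ, l⟩ | ⟨ρ, l⟩ | ⟨ρ, l⟩
  · change x i = (0 : ℕ) * s + x i
    simp
  · change t = (0 : ℕ) * s + t
    simp
  · change w = (0 : ℕ) * s + w
    simp
  · change s = (1 : ℕ) * s + 0
    simp
  · change o' = (0 : ℕ) * s + o'
    simp
  · change x i + w = (0 : ℕ) * s + (x i + w)
    simp
  · change t + w = (0 : ℕ) * s + (t + w)
    simp
  · change s + o' = (1 : ℕ) * s + (0 + o')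
    simp
  · change S.lam b x t = (0 : ℕ) * s + S.lam b x t
    simp
  · change th ρ + (l : ℕ) * s + psum (S.term ρ x t w V) l =
      (l : ℕ) * s + (th ρ + (l : ℕ) * 0 + psum (S.term ρ x t w V) l)
    ring
  · change th ρ + (l : ℕ) * s + psum (S.term ρ x t w V) (l + 1) =
      (l : ℕ) * s + (th ρ + (l : ℕ) * 0 + psum (S.term ρ x t w V) (l + 1))
    ring
  · change th ρ + o' + (l : ℕ) * s = (l : ℕ) * s + (th ρ + o' + (l : ℕ) * 0)
    ring

theorem fv_o' (s : ℂ) (y : S.KK) : S.fv (S.bp x t w o s th) V y =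
    (S.so' y : ℂ) * s + S.fv (S.bp x t w o 0 th) V y := by
  rcases y with i | _ | _ | _ | _ | i | _ | _ | b | ⟨ρ, l⟩ | ⟨ρ, l⟩ | ⟨ρ, l⟩
  · change x i = (0 : ℕ) * s + x i
    simp
  · change t = (0 : ℕ) * s + t
    simp
  · change w = (0 : ℕ) * s + w
    simp
  · change o = (0 : ℕ) * s + o
    simp
  · change s = (1 : ℕ) * s + 0
    simp
  · change x i + w = (0 : ℕ) * s + (x i + w)
    simp
  · change t + w = (0 : ℕ) * s + (t + w)
    simp
  · change o + s = (1 : ℕ) * s + (o + 0)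
    simp [add_comm]
  · change S.lam b x t = (0 : ℕ) * s + S.lam b x t
    simp
  · change th ρ + (l : ℕ) * o + psum (S.term ρ x t w V) l =
      (0 : ℕ) * s + (th ρ + (l : ℕ) * o + psum (S.term ρ x t w V) l)
    simp
  · change th ρ + (l : ℕ) * o + psum (S.term ρ x t w V) (l + 1) =
      (0 : ℕ) * s + (th ρ + (l : ℕ) * o + psum (S.term ρ x t w V) (l + 1))
    simp
  · change th ρ + s + (l : ℕ) * o = (1 : ℕ) * s + (th ρ + 0 + (l : ℕ) * o)
    push_cast
    ring

theorem fv_w (s : ℂ) (y : S.KK) (hy : S.ch y = none) : S.fv (S.bp x t s o o' th) V y =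
    (S.sw y : ℂ) * s + S.fv (S.bp x t 0 o o' th) V y := by
  rcases y with i | _ | _ | _ | _ | i | _ | _ | b | ⟨ρ, l⟩ | ⟨ρ, l⟩ | ⟨ρ, l⟩
  · change x i = (0 : ℕ) * s + x i
    simp
  · change t = (0 : ℕ) * s + t
    simp
  · change s = (1 : ℕ) * s + 0
    simp
  · change o = (0 : ℕ) * s + o
    simp
  · change o' = (0 : ℕ) * s + o'
    simp
  · change x i + s = (1 : ℕ) * s + (x i + 0)
    simp [add_comm]
  · change t + s = (1 : ℕ) * s + (t + 0)
    simp [add_comm]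
  · change o + o' = (0 : ℕ) * s + (o + o')
    simp
  · change S.lam b x t = (0 : ℕ) * s + S.lam b x t
    simp
  · exact absurd hy (by simp [ch])
  · exact absurd hy (by simp [ch])
  · exact absurd hy (by simp [ch])

open Classical in
theorem fv_th (ρ : S.T) (s : ℂ) (y : S.KK) :
    S.fv (S.bp x t w o o' (Function.update th ρ s)) V y =
    (if S.ch y = some ρ then 1 else 0) * s +
      S.fv (S.bp x t w o o' (Function.update th ρ 0)) V y := by
  rcases y with i | _ | _ | _ | _ | i | _ | _ | b | ⟨ρ', l⟩ | ⟨ρ', l⟩ | ⟨ρ', l⟩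
  · change x i = (0 : ℂ) * s + x i
    simp
  · change t = (0 : ℂ) * s + t
    simp
  · change w = (0 : ℂ) * s + w
    simp
  · change o = (0 : ℂ) * s + o
    simp
  · change o' = (0 : ℂ) * s + o'
    simp
  · change x i + w = (0 : ℂ) * s + (x i + w)
    simp
  · change t + w = (0 : ℂ) * s + (t + w)
    simp
  · change o + o' = (0 : ℂ) * s + (o + o')
    simp
  · change S.lam b x t = (0 : ℂ) * s + S.lam b x t
    simp
  · change Function.update th ρ s ρ' + (l : ℕ) * o + psum (S.term ρ' x t w V) l =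
      (if some ρ' = some ρ then 1 else 0) * s +
        (Function.update th ρ 0 ρ' + (l : ℕ) * o + psum (S.term ρ' x t w V) l)
    by_cases h : ρ' = ρ
    · subst h
      simp
      ring
    · simp [h]
  · change Function.update th ρ s ρ' + (l : ℕ) * o + psum (S.term ρ' x t w V) (l + 1) =
      (if some ρ' = some ρ then 1 else 0) * s +
        (Function.update th ρ 0 ρ' + (l : ℕ) * o + psum (S.term ρ' x t w V) (l + 1))
    by_cases h : ρ' = ρ
    · subst h
      simp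
      ring
    · simp [h]
  · change Function.update th ρ s ρ' + o' + (l : ℕ) * o =
      (if some ρ' = some ρ then 1 else 0) * s +
        (Function.update th ρ 0 ρ' + o' + (l : ℕ) * o)
    by_cases h : ρ' = ρ
    · subst h
      simp
      ring
    · simp [h]

end Sys

end Pool.Agent.Hhelper14.ZPL
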