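import Pool.Agent.Hhelper14.ZPL.Proj
import Pool.Agent.Hhelper14.ZPL.Forms

/-!
# Closed sets, affine subspaces, some special sets
-/

namespace Pool.Agent.Hhelper14.ZPL

open UpperHalfPlane MvPolynomial Pool.Agent.Hhelper14.ZP

variable {ι κ : Type}

theorem closed_zeroLocus (I : Ideal (MvPolynomial ι ℂ)) : IsZClosed (zeroLocus ℂ I) := by
  refine Set.Subset.antisymm ?_ (subset_closure' _)
  exact zeroLocus_anti_mono (le_zeroLocus_iff_le_vanishingIdeal.mp le_rfl)

theorem closed_inter {X Y : Set (ι → ℂ)} (hX : IsZClosed X) (hY : IsZClosed Y) :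
    IsZClosed (X ∩ Y) := by
  refine Set.Subset.antisymm ?_ (subset_closure' _)
  intro x hx
  refine ⟨?_, ?_⟩
  · rw [← hX]
    exact zeroLocus_anti_mono (vanishingIdeal_anti_mono Set.inter_subset_left) hx
  · rw [← hY]
    exact zeroLocus_anti_mono (vanishingIdeal_anti_mono Set.inter_subset_right) hx

theorem closed_preimage {σ : κ → ι} {Y : Set (κ → ℂ)} (hY : IsZClosed Y) :
    IsZClosed {x : ι → ℂ | x ∘ σ ∈ Y} := by
  refine Set.Subset.antisymm ?_ (subset_closure' _)
  intro x hx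
  rw [mem_zeroLocus_iff] at hx
  change x ∘ σ ∈ Y
  rw [← hY, mem_zeroLocus_iff]
  intro p hp
  have h1 := hx (rename σ p) (by
    rw [mem_vanishingIdeal_iff]
    intro y hy
    rw [aeval_rename]
    exact (mem_vanishingIdeal_iff.mp hp) _ hy)
  rwa [aeval_rename] at h1

theorem vanishing_closure (Y : Set (ι → ℂ)) :
    (vanishingIdeal ℂ (zeroLocus ℂ (vanishingIdeal ℂ Y : Ideal (MvPolynomial ι ℂ))) :
      Ideal (MvPolynomial ι ℂ)) = vanishingIdeal ℂ Y :=
  le_antisymm (vanishingIdeal_anti_mono (subset_closure' _))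
    (le_zeroLocus_iff_le_vanishingIdeal.mp le_rfl)

theorem irredClosed_closure {Y : Set (ι → ℂ)}
    (h : (vanishingIdeal ℂ Y : Ideal (MvPolynomial ι ℂ)).IsPrime) :
    IsIrredClosed (zeroLocus ℂ (vanishingIdeal ℂ Y : Ideal (MvPolynomial ι ℂ))) := by
  refine ⟨?_, ?_⟩ <;> rw [vanishing_closure]
  exact h

theorem dim_closure (Y : Set (ι → ℂ)) :
    dim (zeroLocus ℂ (vanishingIdeal ℂ Y : Ideal (MvPolynomial ι ℂ))) = dim Y := by
  rw [dim, vanishing_closure, dim]

theorem closure_subset' {X Y : Set (ι → ℂ)} (h : X ⊆ Y) (hY : IsZClosed Y) :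
    zeroLocus ℂ (vanishingIdeal ℂ X : Ideal (MvPolynomial ι ℂ)) ⊆ Y := by
  rw [← hY]
  exact zeroLocus_anti_mono (vanishingIdeal_anti_mono h)

theorem irred_nonempty {W : Set (ι → ℂ)} (hW : IsIrredClosed W) : W.Nonempty := by
  by_contra hne
  rw [Set.not_nonempty_iff_eq_empty] at hne
  apply hW.1.ne_top
  rw [hne, Ideal.eq_top_iff_one, mem_vanishingIdeal_iff]
  simp

theorem exists_comp_ge [Fintype ι] {X W : Set (ι → ℂ)} (hX : IsZClosed X)
    (hW : IsIrredClosed W) (h : W ⊆ X) : ∃ D, IsComponent D X ∧ W ⊆ D := by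
  obtain ⟨F, hF, hF'⟩ := exists_components hX
  obtain ⟨D, hD, hWD⟩ := hF' W hW h
  exact ⟨D, hF D hD, hWD⟩

theorem irredClosed_singleton [Finite ι] (x : ι → ℂ) : IsIrredClosed {x} := by
  have hmax : (vanishingIdeal ℂ {x} : Ideal (MvPolynomial ι ℂ)).IsMaximal :=
    isMaximal_iff_eq_vanishingIdeal_singleton.mpr ⟨x, rfl⟩
  refine ⟨hmax.isPrime, Set.Subset.antisymm ?_ (subset_closure' _)⟩
  intro y hy
  rw [mem_zeroLocus_iff] at hy
  rw [Set.mem_singleton_iff]
  funext i
  have := hy (X i - C (x i)) (by rw [mem_vanishingIdeal_singleton_iff]; simp)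
  simp only [map_sub, aeval_X, aeval_C] at this
  exact sub_eq_zero.mp this

theorem one_le_dim [Fintype ι] {W : Set (ι → ℂ)} (hW : IsIrredClosed W) {x y : ι → ℂ}
    (hx : x ∈ W) (hy : y ∈ W) (hxy : x ≠ y) : 1 ≤ dim W := by
  have h1 : ({x} : Set (ι → ℂ)) ⊂ W := by
    refine ⟨Set.singleton_subset_iff.mpr hx, fun h => hxy ?_⟩
    exact (Set.mem_singleton_iff.mp (h hy)).symm
  have h2 := dim_lt (irredClosed_singleton x) hW h1
  obtain ⟨d, hd, -⟩ := exists_dim (irredClosed_singleton x)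
  obtain ⟨d', hd', -⟩ := exists_dim hW
  rw [hd, hd'] at h2
  rw [hd']
  have h3 : d < d' := by exact_mod_cast h2
  have h4 : 1 ≤ d' := by omega
  exact_mod_cast h4

/-- Krull's theorem, with any finite set of equations -/
theorem krull_cut' [Fintype ι] {A Y : Set (ι → ℂ)} (hA : IsIrredClosed A) {E : Type} [Fintype E]
    (h : E → MvPolynomial ι ℂ)
    (hY : IsComponent Y (A ∩ zeroLocus ℂ (Ideal.span (Set.range h)))) :
    dim A ≤ dim Y + (Fintype.card E : ℕ) := by
  let e := Fintype.equivFin E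
  have hr : Set.range (h ∘ e.symm) = Set.range h := e.symm.surjective.range_comp h
  refine krull_cut hA (h ∘ e.symm) ?_
  rw [hr]
  exact hY

/-- affine subspaces are irreducible -/
theorem affine_irred (L : AffineSubspace ℂ (ι → ℂ)) (hne : (L : Set (ι → ℂ)).Nonempty) :
    (vanishingIdeal ℂ (L : Set (ι → ℂ)) : Ideal (MvPolynomial ι ℂ)).IsPrime := by
  refine ⟨?_, ?_⟩
  · intro h
    obtain ⟨x, hx⟩ := hne
    rw [Ideal.eq_top_iff_one, mem_vanishingIdeal_iff] at h
    have := h x hx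
    simp at this
  · intro p q hpq
    by_contra hcon
    push Not at hcon
    obtain ⟨hp, hq⟩ := hcon
    rw [mem_vanishingIdeal_iff] at hp hq hpq
    push Not at hp hq
    obtain ⟨z1, hz1, hp1⟩ := hp
    obtain ⟨z2, hz2, hq2⟩ := hq
    let γ : ι → Polynomial ℂ := fun i =>
      Polynomial.C (z1 i) + Polynomial.X * Polynomial.C (z2 i - z1 i)
    have hγ : ∀ (r : MvPolynomial ι ℂ) (t : ℂ), (aeval γ r : Polynomial ℂ).eval t =
        aeval (fun i => z1 i + t * (z2 i - z1 i)) r := by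
      intro r t
      have h1 : ((Polynomial.aeval t : Polynomial ℂ →ₐ[ℂ] ℂ).comp (aeval γ)) =
          aeval (fun i => z1 i + t * (z2 i - z1 i)) := by
        ext i
        simp [γ]
      rw [← h1]
      simp
    have hprod : (aeval γ p : Polynomial ℂ) * aeval γ q = 0 := by
      apply Polynomial.funext
      intro t
      rw [Polynomial.eval_mul, hγ, hγ, ← map_mul, Polynomial.eval_zero]
      apply hpq
      have h2 := L.smul_vsub_vadd_mem t hz2 hz1 hz1
      convert! h2 using 1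
      funext i
      simp only [vsub_eq_sub, vadd_eq_add, Pi.add_apply, Pi.smul_apply, Pi.sub_apply, smul_eq_mul]
      ring
    rcases mul_eq_zero.mp hprod with h | h
    · have := hγ p 0
      rw [h] at this
      apply hp1
      simpa using this.symm
    · have := hγ q 1
      rw [h] at this
      apply hq2
      simpa using this.symm

/-- the whole space is special -/
theorem special_univ [Fintype ι] : IsSpecial (Set.univ : Set (ι → ℂ)) := by
  obtain ⟨blk, hb, hs, h⟩ := isSpecial_mk (ι := ι) (κ := ι) (block := fun i => some i)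
    (g := fun _ => 1) (s := fun _ => UpperHalfPlane.I) (fun b => ⟨b, rfl⟩)
    (fun i => by simp) (fun i hi => absurd hi (by simp))
  refine isSpecial_iff.mpr ⟨_, blk, fun _ => 1, fun _ => UpperHalfPlane.I, hb,
    fun i => by simp, hs, ?_⟩
  rw [← h, eq_comm, Set.eq_univ_iff_forall]
  intro x
  choose τ hτ using fun i => j_surj (x i)
  refine ⟨τ, fun i => ?_⟩
  simp only [Option.elim, gact_one, hτ]

/-- fixing a coordinate to be a singular modulus -/
theorem special_const [Fintype ι] (i : ι) {s : ℍ} (hs : IsCM s) :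
    IsSpecial {x : ι → ℂ | x i = jInv s} := by
  classical
  obtain ⟨blk, hb, hs, h⟩ := isSpecial_mk (ι := ι) (κ := {k : ι // k ≠ i})
    (block := fun k => if h : k ≠ i then some ⟨k, h⟩ else none)
    (g := fun _ => 1) (s := fun _ => s) (fun b => ⟨b.1, by simp [b.2]⟩)
    (fun i => by simp) (fun i hi => hs)
  refine isSpecial_iff.mpr ⟨_, blk, fun _ => 1, fun _ => s, hb, fun i => by simp, hs, ?_⟩
  rw [← h]
  ext x
  constructor
  · intro hx
    choose τ hτ using fun i => j_surj (x i)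
    refine ⟨fun k => τ k.1, fun k => ?_⟩
    by_cases hk : k = i
    · subst hk
      simpa using hx
    · simp [hk, gact_one, hτ]
  · rintro ⟨τ, hτ⟩
    have := hτ i
    simpa using this

/-- two coordinates linked by a Hecke correspondence -/
theorem special_pair [Fintype ι] {i k : ι} (hik : i ≠ k) {gi gk : GL (Fin 2) ℚ}
    (hi : 0 < gi.det.val) (hk : 0 < gk.det.val) :
    IsSpecial {x : ι → ℂ | ∃ τ : ℍ, x i = jInv (gact gi τ) ∧ x k = jInv (gact gk τ)} := by
  classical
  let G : ι → GL (Fin 2) ℚ := fun l => if l = i then gi else if l = k then gk else 1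
  have hG : ∀ l, 0 < (G l).det.val := by
    intro l
    simp only [G]
    split_ifs
    · exact hi
    · exact hk
    · simp
  obtain ⟨blk, hb, hs, h⟩ := isSpecial_mk (ι := ι) (κ := {l : ι // l ≠ k})
    (block := fun l => if h : l ≠ k then some ⟨l, h⟩ else some ⟨i, hik⟩)
    (g := G) (s := fun _ => UpperHalfPlane.I) (fun b => ⟨b.1, by simp [b.2]⟩)
    hG (fun l hl => absurd hl (by split_ifs <;> simp))
  refine isSpecial_iff.mpr ⟨_, blk, _, _, hb, hG, hs, ?_⟩
  rw [← h]
  ext x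
  constructor
  · rintro ⟨τ₀, h1, h2⟩
    choose τ hτ using fun i => j_surj (x i)
    refine ⟨fun l => if l.1 = i then τ₀ else τ l.1, fun l => ?_⟩
    by_cases hlk : l = k
    · subst hlk
      have : l ≠ i := hik.symm
      simp [G, this, h2]
    · by_cases hli : l = i
      · subst hli
        simp [G, hlk, h1]
      · simp [G, hlk, hli, gact_one, hτ]
  · rintro ⟨τ, hτ⟩
    refine ⟨τ ⟨i, hik⟩, ?_, ?_⟩
    · have := hτ i
      simpa [G, hik] using this
    · have := hτ k
      simpa [G, hik.symm] using this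

theorem pair_ne_univ {i k : ι} (hik : i ≠ k) {gi gk : GL (Fin 2) ℚ}
    (hi : 0 < gi.det.val) (hk : 0 < gk.det.val) :
    {x : ι → ℂ | ∃ τ : ℍ, x i = jInv (gact gi τ) ∧ x k = jInv (gact gk τ)} ≠ Set.univ := by
  classical
  intro h
  obtain ⟨V, hV⟩ := exists_notMem_prime Nat.prime_two
  have h1 : (Pi.single i ((2 : ℕ) : ℂ)⁻¹ : ι → ℂ) ∈
      {x : ι → ℂ | ∃ τ : ℍ, x i = jInv (gact gi τ) ∧ x k = jInv (gact gk τ)} := by
    rw [h]
    exact Set.mem_univ _
  obtain ⟨τ, h2, h3⟩ := h1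
  rw [Pi.single_eq_same] at h2
  rw [Pi.single_eq_of_ne hik.symm] at h3
  apply hV
  rw [h2, gact_mem_iff V hi, ← gact_mem_iff V hk, ← h3]
  exact V.zero_mem

theorem exists_maxAtypical [Fintype ι] {V C : Set (ι → ℂ)} (hC : IsAtypical V C) :
    ∃ A ∈ MaxAtypical V, C ⊆ A := by
  by_contra hcon
  push Not at hcon
  have h1 : ∀ k : ℕ, ∃ A, IsAtypical V A ∧ C ⊆ A ∧ (k : WithBot ℕ∞) ≤ dim A := by
    intro k
    induction k with
    | zero =>
      refine ⟨C, hC, subset_rfl, ?_⟩
      obtain ⟨Z, -, hC', -⟩ := hC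
      obtain ⟨d, hd, -⟩ := exists_dim hC'.1
      rw [hd]
      exact_mod_cast Nat.zero_le d
    | succ k ih =>
      obtain ⟨A, hA, hCA, hk⟩ := ih
      have h2 : ¬ ∀ C', IsAtypical V C' → A ⊆ C' → C' = A := fun h => hcon A ⟨hA, h⟩ hCA
      push Not at h2
      obtain ⟨A', hA', hAA', hne⟩ := h2
      refine ⟨A', hA', hCA.trans hAA', ?_⟩
      obtain ⟨Z, -, hAc, -⟩ := hA
      obtain ⟨Z', -, hAc', -⟩ := hA'
      have h3 := dim_lt hAc.1 hAc'.1 (hAA'.ssubset_of_ne hne.symm)
      obtain ⟨d, hd, -⟩ := exists_dim hAc.1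
      obtain ⟨d', hd', -⟩ := exists_dim hAc'.1
      rw [hd, hd'] at h3
      rw [hd] at hk
      rw [hd']
      have h4 : d < d' := by exact_mod_cast h3
      have h5 : k ≤ d := by exact_mod_cast hk
      exact_mod_cast (by omega : k + 1 ≤ d')
  obtain ⟨A, ⟨Z, -, hA, -⟩, -, hk⟩ := h1 (Fintype.card ι + 1)
  obtain ⟨d, hd, hdle⟩ := exists_dim hA.1
  rw [hd] at hk
  have h5 : Fintype.card ι + 1 ≤ d := by exact_mod_cast hk
  omega

end Pool.Agent.Hhelper14.ZPL
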